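import Pool.Agent.H97.CL.Defs

/-! # Averages: basic facts -/

set_option autoImplicit false

namespace Pool.Agent.H97.CL

open Finset

section av

variable {Ω Ψ : Type} [Fintype Ω] [Fintype Ψ]

lemma av_add (f g : Ω → ℝ) : av (fun x => f x + g x) = av f + av g := by
  simp only [av, sum_add_distrib, add_div]

lemma av_sub (f g : Ω → ℝ) : av (fun x => f x - g x) = av f - av g := by
  simp only [av, sum_sub_distrib, sub_div]

lemma av_neg (f : Ω → ℝ) : av (fun x => - f x) = - av f := by
  simp only [av, sum_neg_distrib, neg_div]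

lemma av_mul_left (c : ℝ) (f : Ω → ℝ) : av (fun x => c * f x) = c * av f := by
  simp only [av, ← mul_sum, mul_div_assoc]

lemma av_mul_right (c : ℝ) (f : Ω → ℝ) : av (fun x => f x * c) = av f * c := by
  simp only [av, ← sum_mul]
  ring

lemma av_sum {α : Type} (s : Finset α) (f : α → Ω → ℝ) :
    av (fun x => ∑ a ∈ s, f a x) = ∑ a ∈ s, av (f a) := by
  simp only [av, sum_div]
  rw [sum_comm]

lemma av_const [Nonempty Ω] (c : ℝ) : av (fun _ : Ω => c) = c := by
  simp only [av, sum_const, card_univ, nsmul_eq_mul]
  have : (Fintype.card Ω : ℝ) ≠ 0 := by exact_mod_cast Fintype.card_ne_zero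
  field_simp

lemma av_mono {f g : Ω → ℝ} (h : ∀ x, f x ≤ g x) : av f ≤ av g := by
  unfold av
  gcongr
  exact h _

lemma av_nonneg {f : Ω → ℝ} (h : ∀ x, 0 ≤ f x) : 0 ≤ av f :=
  div_nonneg (sum_nonneg fun x _ => h x) (by positivity)

lemma av_congr {f g : Ω → ℝ} (h : ∀ x, f x = g x) : av f = av g := by
  rw [show f = g from funext h]

lemma abs_av_le {f : Ω → ℝ} : |av f| ≤ av (fun x => |f x|) := by
  unfold av
  rw [abs_div, abs_of_nonneg (by positivity : (0 : ℝ) ≤ Fintype.card Ω)]
  gcongr
  exact abs_sum_le_sum_abs _ _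

lemma abs_av_le_of {f : Ω → ℝ} {B : ℝ} [Nonempty Ω] (h : ∀ x, |f x| ≤ B) : |av f| ≤ B :=
  abs_av_le.trans ((av_mono h).trans (av_const B).le)

lemma av_le_of [Nonempty Ω] {f : Ω → ℝ} {B : ℝ} (h : ∀ x, f x ≤ B) : av f ≤ B :=
  (av_mono h).trans (av_const B).le

lemma av_comm (f : Ω → Ψ → ℝ) : av (fun x => av (f x)) = av (fun y => av (fun x => f x y)) := by
  simp only [av, ← sum_div]
  rw [sum_comm, div_div, div_div, mul_comm]

lemma av_equiv (e : Ψ ≃ Ω) (f : Ω → ℝ) : av (fun y => f (e y)) = av f := by
  unfold av
  rw [Equiv.sum_comp e f, Fintype.card_congr e]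

lemma av_prod (f : Ω × Ψ → ℝ) : av f = av (fun x => av (fun y => f (x, y))) := by
  simp only [av, ← sum_div]
  rw [Fintype.sum_prod_type, div_div, Fintype.card_prod, Nat.cast_mul, mul_comm]

/-- Jensen / Cauchy-Schwarz -/
lemma av_sq_le [Nonempty Ω] (f : Ω → ℝ) : (av f) ^ 2 ≤ av (fun x => f x ^ 2) := by
  have h : 0 ≤ av (fun x => (f x - av f) ^ 2) := av_nonneg fun x => sq_nonneg _
  have e : av (fun x => (f x - av f) ^ 2) = av (fun x => f x ^ 2) - (av f) ^ 2 := by
    have h1 : ∀ x, (f x - av f) ^ 2 = f x ^ 2 - 2 * av f * f x + (av f) ^ 2 := fun x => by ring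
    rw [av_congr h1, av_add, av_sub, av_mul_left, av_const]
    ring
  linarith

lemma av_mul_sq_le (f g : Ω → ℝ) :
    (av (fun x => f x * g x)) ^ 2 ≤ av (fun x => f x ^ 2) * av (fun x => g x ^ 2) := by
  unfold av
  rw [div_pow, div_mul_div_comm, ← sq]
  gcongr
  exact sum_mul_sq_le_sq_mul_sq _ _ _

end av

section pi

variable {ι V : Type} [Fintype ι] [DecidableEq ι] [Fintype V] [Nonempty V]

/-- resampling a set of coordinates -/
lemma av_piecewise (A : Finset ι) (f : (ι → V) → ℝ) :
    av (fun x => av (fun y => f (A.piecewise x y))) = av f := by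
  classical
  rw [← av_prod (fun p : (ι → V) × (ι → V) => f (A.piecewise p.1 p.2))]
  -- the involution (x, y) ↦ (A.piecewise x y, A.piecewise y x)
  let e : ((ι → V) × (ι → V)) ≃ ((ι → V) × (ι → V)) :=
    { toFun := fun p => (A.piecewise p.1 p.2, A.piecewise p.2 p.1)
      invFun := fun p => (A.piecewise p.1 p.2, A.piecewise p.2 p.1)
      left_inv := fun p => by
        ext i <;> by_cases h : i ∈ A <;> simp [Finset.piecewise, h]
      right_inv := fun p => by
        ext i <;> by_cases h : i ∈ A <;> simp [Finset.piecewise, h] }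
  have h1 := av_equiv e (fun p : (ι → V) × (ι → V) => f p.1)
  have h2 : av (fun p : (ι → V) × (ι → V) => f p.1) = av f := by
    rw [av_prod]
    exact av_congr fun x => av_const (f x)
  rw [← h2, ← h1]
  rfl

/-- resampling one coordinate -/
lemma av_update (c : ι) (f : (ι → V) → ℝ) :
    av (fun x => av (fun v : V => f (Function.update x c v))) = av f := by
  classical
  rw [← av_piecewise ({c}ᶜ) f]
  refine av_congr fun x => ?_
  -- y ↦ y c
  have h : ∀ y : ι → V, f (({c}ᶜ : Finset ι).piecewise x y) = f (Function.update x c (y c)) := by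
    intro y
    congr 1
    ext i
    by_cases h : i = c
    · subst h; simp [Finset.piecewise]
    · simp [Finset.piecewise, h]
  rw [av_congr h]
  have h2 := av_equiv (Equiv.piSplitAt c (fun _ : ι => V)).symm
    (fun y : ι → V => f (Function.update x c (y c)))
  rw [← h2, av_prod]
  refine av_congr fun v => ?_
  simp only [Equiv.piSplitAt_symm_apply, dite_true]
  rw [av_const]

end pi

section pointers

variable {k N : ℕ} {V : Type} [Fintype V] [Nonempty V]

omit [Fintype V] [Nonempty V] in
lemma rd_wr (x : Fin k × Fin N → V) (u : Fin k → Fin N) (z : Fin k → V) :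
    rd (wr x u z) u = z := by
  ext i
  simp [rd, wr]

/-- resampling the labels at the pointers `u` -/
lemma av_wr (u : Fin k → Fin N) (f : (Fin k × Fin N → V) → ℝ) :
    av (fun x => av (fun z : Fin k → V => f (wr x u z))) = av f := by
  classical
  set A : Finset (Fin k × Fin N) := univ.filter (fun c => ¬ c.2 = u c.1) with hA
  rw [← av_piecewise A f]
  refine av_congr fun x => ?_
  have h : ∀ y : Fin k × Fin N → V, f (A.piecewise x y) = f (wr x u (rd y u)) := by
    intro y
    congr 1
    ext c
    by_cases h : c.2 = u c.1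
    · have h' : c = (c.1, u c.1) := by rw [← h]
      simp only [Finset.piecewise, hA, mem_filter, mem_univ, true_and, h, not_true, ite_false, wr,
        rd, ite_true]
      exact congrArg y h'
    · simp [Finset.piecewise, hA, h, wr]
  rw [av_congr h]
  symm
  -- av over y of g (rd y u) = av over z of g z
  have key : ∀ g : (Fin k → V) → ℝ, av (fun y : Fin k × Fin N → V => g (rd y u)) = av g := by
    intro g
    have h3 : av (fun y : Fin k × Fin N → V => av (fun z : Fin k → V => g z)) = av g := av_const _
    rw [← h3]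
    -- split coordinates
    let e : (Fin k × Fin N → V) × (Fin k → V) ≃ (Fin k × Fin N → V) × (Fin k → V) :=
      { toFun := fun p => (wr p.1 u p.2, rd p.1 u)
        invFun := fun p => (wr p.1 u p.2, rd p.1 u)
        left_inv := fun p => by
          apply Prod.ext
          · ext c
            by_cases h : c.2 = u c.1
            · have h' : c = (c.1, u c.1) := by rw [← h]
              simp only [wr, h, ite_true, rd]
              exact (congrArg p.1 h').symm
            · simp [wr, h]
          · exact rd_wr _ _ _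
        right_inv := fun p => by
          apply Prod.ext
          · ext c
            by_cases h : c.2 = u c.1
            · have h' : c = (c.1, u c.1) := by rw [← h]
              simp only [wr, h, ite_true, rd]
              exact (congrArg p.1 h').symm
            · simp [wr, h]
          · exact rd_wr _ _ _ }
    have h4 := av_equiv e (fun p : (Fin k × Fin N → V) × (Fin k → V) => g p.2)
    rw [av_prod, av_prod] at h4
    rw [← h4]
    refine av_congr fun y => ?_
    exact (av_const _).symm
  rw [key (fun z => f (wr x u z))]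

lemma av_rd (u : Fin k → Fin N) (g : (Fin k → V) → ℝ) :
    av (fun y : Fin k × Fin N → V => g (rd y u)) = av g := by
  rw [← av_wr u (fun y : Fin k × Fin N → V => g (rd y u))]
  simp only [rd_wr]
  exact av_const _

end pointers

end Pool.Agent.H97.CL
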