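import Pool.Agent.H97.CL.Step

/-!
# Concentration for spread pointers

`conc`: induction over `J` with `step`: `J = insert j J'`,
`∑ b g(rd) ≥ ∑ b (E1 j g)(rd) - η ∑ b` off a small set (`step`), and the induction hypothesis for `E1 j g`
(bounded by `B`) and `J'`; averaging `E1 j g` over the coordinates in `J'` is averaging `g` over `J`.
`zq`: `conc` with `b = 1` (`κ = 1/N`), `J = univ`, for `g` and for `-g`.
-/

set_option autoImplicit false

namespace Pool.Agent.H97.CL

open Finset

variable {k N : ℕ} {V : Type} [Fintype V] [Nonempty V]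

omit [Fintype V] [Nonempty V] in
private lemma conc_pw {j : Fin k} {J : Finset (Fin k)} (y z : Fin k → V) (v : V) :
    (insert j J).piecewise (Function.update y j v) z
      = Function.update (J.piecewise y z) j v := by
  funext i
  by_cases hi : i = j
  · subst hi
    rw [Finset.piecewise_eq_of_mem _ _ _ (mem_insert_self _ _), Function.update_self,
      Function.update_self]
  · rw [Function.update_of_ne hi]
    by_cases hJ : i ∈ J
    · rw [Finset.piecewise_eq_of_mem _ _ _ (mem_insert_of_mem hJ), Function.update_of_ne hi,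
        Finset.piecewise_eq_of_mem _ _ _ hJ]
    · have h2 : i ∉ insert j J := by
        rw [mem_insert]
        rintro (h | h)
        · exact hi h
        · exact hJ h
      rw [Finset.piecewise_eq_of_notMem _ _ _ h2, Finset.piecewise_eq_of_notMem _ _ _ hJ]

private lemma conc_av_insert (g : (Fin k → V) → ℝ) {j : Fin k} {J : Finset (Fin k)}
    (z : Fin k → V) :
    av (fun y : Fin k → V => E1 j g (J.piecewise y z)) =
      av (fun y : Fin k → V => g ((insert j J).piecewise y z)) := by
  rw [← av_update j (fun y : Fin k → V => g ((insert j J).piecewise y z))]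
  refine av_congr fun y => ?_
  unfold E1
  refine av_congr fun v => ?_
  rw [conc_pw]

theorem conc (J : Finset (Fin k)) (b : (Fin k → Fin N) → ℝ) (hb : ∀ u, 0 ≤ b u) (κ : ℝ)
    (hκ : 0 < κ)
    (hs : ∀ j ∈ J, ∀ v, ∑ u ∈ univ.filter (fun u : Fin k → Fin N => u j = v), b u ≤ κ * ∑ u, b u)
    (g : (Fin k → V) → ℝ) (B : ℝ) (hB : 0 < B) (hg : ∀ z, |g z| ≤ B) (η : ℝ) (hη : 0 < η) :
    (((univ : Finset (Fin k × Fin N → V)).filter (fun x =>
      ∑ u, b u * g (rd x u) <
        ∑ u, b u * av (fun y : Fin k → V => g (J.piecewise y (rd x u))) - J.card * η * ∑ u, b u)).card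
        : ℝ) ≤
      J.card * (Real.exp (-(η ^ 2 / (8 * B ^ 2 * κ))) * Fintype.card (Fin k × Fin N → V)) := by
  classical
  induction J using Finset.induction_on generalizing g with
  | empty =>
    have h : (univ : Finset (Fin k × Fin N → V)).filter (fun x =>
      ∑ u, b u * g (rd x u) <
        ∑ u, b u * av (fun y : Fin k → V => g ((∅ : Finset (Fin k)).piecewise y (rd x u)))
          - ((∅ : Finset (Fin k)).card : ℝ) * η * ∑ u, b u) = ∅ := by
      rw [Finset.filter_eq_empty_iff]
      intro x _
      have e : ∀ u : Fin k → Fin N,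
          av (fun y : Fin k → V => g ((∅ : Finset (Fin k)).piecewise y (rd x u))) = g (rd x u) := by
        intro u
        simp only [Finset.piecewise_empty]
        exact av_const _
      simp only [e, card_empty, Nat.cast_zero, zero_mul, sub_zero, lt_self_iff_false,
        not_false_eq_true]
    rw [h]
    simp
  | insert j J hj ih =>
    have hg' : ∀ z, |E1 j g z| ≤ B := fun z => abs_av_le_of fun v => hg _
    have h1 := ih (fun i hi => hs i (mem_insert_of_mem hi)) (E1 j g) hg'
    have h2 := step j b hb κ hκ (hs j (mem_insert_self _ _)) g B hB hg η hη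
    set E : ℝ := Real.exp (-(η ^ 2 / (8 * B ^ 2 * κ))) * Fintype.card (Fin k × Fin N → V) with hE
    set T1 : Finset (Fin k × Fin N → V) := (univ : Finset (Fin k × Fin N → V)).filter (fun x =>
      ∑ u, b u * E1 j g (rd x u) <
        ∑ u, b u * av (fun y : Fin k → V => E1 j g (J.piecewise y (rd x u)))
          - J.card * η * ∑ u, b u) with hT1
    set T2 : Finset (Fin k × Fin N → V) := (univ : Finset (Fin k × Fin N → V)).filter (fun x =>
      ∑ u, b u * g (rd x u) < ∑ u, b u * E1 j g (rd x u) - η * ∑ u, b u) with hT2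
    have hsub : (univ : Finset (Fin k × Fin N → V)).filter (fun x =>
      ∑ u, b u * g (rd x u) <
        ∑ u, b u * av (fun y : Fin k → V => g ((insert j J).piecewise y (rd x u)))
          - ((insert j J).card : ℝ) * η * ∑ u, b u) ⊆ T1 ∪ T2 := by
      intro x hx
      rw [mem_filter] at hx
      rw [mem_union, hT1, hT2, mem_filter, mem_filter]
      by_contra hcon
      rw [not_or] at hcon
      have c1 : ¬ (∑ u, b u * E1 j g (rd x u) <
        ∑ u, b u * av (fun y : Fin k → V => E1 j g (J.piecewise y (rd x u)))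
          - J.card * η * ∑ u, b u) := fun h => hcon.1 ⟨mem_univ _, h⟩
      have c2 : ¬ (∑ u, b u * g (rd x u) < ∑ u, b u * E1 j g (rd x u) - η * ∑ u, b u) :=
        fun h => hcon.2 ⟨mem_univ _, h⟩
      have c3 := hx.2
      simp only [conc_av_insert] at c1
      rw [card_insert_of_notMem hj] at c3
      push_cast at c3
      rw [not_lt] at c1 c2
      nlinarith [c1, c2, c3]
    have hc : ((((univ : Finset (Fin k × Fin N → V)).filter (fun x =>
      ∑ u, b u * g (rd x u) <
        ∑ u, b u * av (fun y : Fin k → V => g ((insert j J).piecewise y (rd x u)))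
          - ((insert j J).card : ℝ) * η * ∑ u, b u)).card : ℕ) : ℝ) ≤ (T1.card : ℝ) + T2.card := by
      exact_mod_cast (card_le_card hsub).trans (card_union_le _ _)
    refine hc.trans ?_
    rw [card_insert_of_notMem hj]
    push_cast
    linarith

private lemma zq_fiber (hN : 0 < N) (j : Fin k) (v : Fin N) :
    ∑ u ∈ univ.filter (fun u : Fin k → Fin N => u j = v), (1 : ℝ) ≤
      (1 / (N : ℝ)) * ∑ _u : Fin k → Fin N, (1 : ℝ) := by
  classical
  have : Nonempty (Fin N) := ⟨⟨0, hN⟩⟩
  have h := av_update j (fun u : Fin k → Fin N => if u j = v then (1 : ℝ) else 0)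
  have h1 : ∀ u : Fin k → Fin N, av (fun w : Fin N =>
      (if (Function.update u j w) j = v then (1 : ℝ) else 0)) = 1 / N := by
    intro u
    simp only [Function.update_self]
    unfold av
    rw [Finset.sum_ite_eq' univ v (fun _ => (1 : ℝ)), if_pos (mem_univ _), Fintype.card_fin]
  rw [av_congr h1, av_const] at h
  have hc : (Fintype.card (Fin k → Fin N) : ℝ) ≠ 0 := by exact_mod_cast Fintype.card_ne_zero
  unfold av at h
  rw [eq_div_iff hc] at h
  rw [Finset.sum_filter, ← h]
  simp

private lemma zq_one (hN : 0 < N) (g : (Fin k → V) → ℝ) (B : ℝ) (hB : 0 < B)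
    (hg : ∀ z, |g z| ≤ B) (η : ℝ) (hη : 0 < η) :
    (((univ : Finset (Fin k × Fin N → V)).filter (fun x =>
      av (fun u : Fin k → Fin N => g (rd x u)) < av g - k * η)).card : ℝ) ≤
      k * (Real.exp (-(η ^ 2 * N / (8 * B ^ 2))) * Fintype.card (Fin k × Fin N → V)) := by
  classical
  have : Nonempty (Fin N) := ⟨⟨0, hN⟩⟩
  have hN' : (0 : ℝ) < N := by exact_mod_cast hN
  have h := conc (V := V) (univ : Finset (Fin k)) (fun _ : Fin k → Fin N => (1 : ℝ))
    (fun _ => zero_le_one) (1 / (N : ℝ)) (by positivity) (fun j _ v => zq_fiber hN j v) g B hB hg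
    η hη
  have e1 : η ^ 2 / (8 * B ^ 2 * (1 / (N : ℝ))) = η ^ 2 * N / (8 * B ^ 2) := by
    field_simp
  rw [e1, card_univ, Fintype.card_fin] at h
  refine le_trans ?_ h
  have hsub : (univ : Finset (Fin k × Fin N → V)).filter (fun x =>
      av (fun u : Fin k → Fin N => g (rd x u)) < av g - k * η) ⊆
    (univ : Finset (Fin k × Fin N → V)).filter (fun x =>
      ∑ u : Fin k → Fin N, (1 : ℝ) * g (rd x u) <
        ∑ u : Fin k → Fin N, (1 : ℝ) *
          av (fun y : Fin k → V => g ((univ : Finset (Fin k)).piecewise y (rd x u)))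
            - (k : ℝ) * η * ∑ _u : Fin k → Fin N, (1 : ℝ)) := by
    intro x hx
    rw [mem_filter] at hx ⊢
    refine ⟨mem_univ _, ?_⟩
    have hx2 := hx.2
    have hc : (0 : ℝ) < (Fintype.card (Fin k → Fin N) : ℝ) := by
      exact_mod_cast Fintype.card_pos
    have e2 : av (fun u : Fin k → Fin N => g (rd x u))
      = (∑ u : Fin k → Fin N, g (rd x u)) / Fintype.card (Fin k → Fin N) := rfl
    rw [e2, div_lt_iff₀ hc] at hx2
    simp only [one_mul, Finset.piecewise_univ, sum_const, card_univ, nsmul_eq_mul, mul_one]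
    calc _ < _ := hx2
      _ = _ := by ring
  exact_mod_cast card_le_card hsub

theorem zq (hN : 0 < N) (g : (Fin k → V) → ℝ) (B : ℝ) (hB : 0 < B) (hg : ∀ z, |g z| ≤ B) (η : ℝ)
    (hη : 0 < η) :
    (((univ : Finset (Fin k × Fin N → V)).filter (fun x =>
      k * η < |av (fun u : Fin k → Fin N => g (rd x u)) - av g|)).card : ℝ) ≤
      2 * k * (Real.exp (-(η ^ 2 * N / (8 * B ^ 2))) * Fintype.card (Fin k × Fin N → V)) := by
  classical
  have h1 := zq_one (k := k) (N := N) hN g B hB hg η hη
  have h2 := zq_one (k := k) (N := N) hN (fun z => - g z) B hB (fun z => by rw [abs_neg]; exact hg z)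
    η hη
  have hsub : (univ : Finset (Fin k × Fin N → V)).filter (fun x =>
      k * η < |av (fun u : Fin k → Fin N => g (rd x u)) - av g|) ⊆
    (univ : Finset (Fin k × Fin N → V)).filter (fun x =>
      av (fun u : Fin k → Fin N => g (rd x u)) < av g - k * η) ∪
    (univ : Finset (Fin k × Fin N → V)).filter (fun x =>
      av (fun u : Fin k → Fin N => (fun z => - g z) (rd x u)) < av (fun z => - g z) - k * η) := by
    intro x hx
    rw [mem_filter] at hx
    rw [mem_union, mem_filter, mem_filter]
    rcases lt_abs.mp hx.2 with h | h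
    · right
      refine ⟨mem_univ _, ?_⟩
      show av (fun u : Fin k → Fin N => - g (rd x u)) < av (fun z => - g z) - k * η
      rw [av_neg, av_neg]
      linarith
    · left
      refine ⟨mem_univ _, ?_⟩
      linarith
  have hc : ((((univ : Finset (Fin k × Fin N → V)).filter (fun x =>
      k * η < |av (fun u : Fin k → Fin N => g (rd x u)) - av g|)).card : ℕ) : ℝ) ≤
      (((univ : Finset (Fin k × Fin N → V)).filter (fun x =>
      av (fun u : Fin k → Fin N => g (rd x u)) < av g - k * η)).card : ℝ) +
    ((univ : Finset (Fin k × Fin N → V)).filter (fun x =>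
      av (fun u : Fin k → Fin N => (fun z => - g z) (rd x u)) < av (fun z => - g z) - k * η)).card := by
    exact_mod_cast (card_le_card hsub).trans (card_union_le _ _)
  linarith

end Pool.Agent.H97.CL
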