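import Mathlib

/-!
# Project CL (MP_1fcf49_lc): LP and SDP formulations of gap Clique.  Definitions.

`av f` is the average of `f` over a finite type.  Functions on product spaces `ι → V`:
`DepOn A f` (`f` depends only on the coordinates in `A`), `LowDeg S m f` (`f` is a sum of functions each
depending on at most `m` of the coordinates in `S`, and on any coordinates outside `S`),
`E1 c f` (average over the coordinate `c`).
`Lab k`: the labels of the gadget; `Cl h A z`: the labels `z i`, `i ∈ A`, form a clique of the gadget.
-/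

set_option autoImplicit false

namespace Pool.Agent.H97.CL

open Finset

section general

variable {ι V : Type}

/-- the average of `f` over a finite type -/
noncomputable def av {Ω : Type} [Fintype Ω] (f : Ω → ℝ) : ℝ := (∑ x, f x) / Fintype.card Ω

/-- `f` depends only on the coordinates in `A` -/
def DepOn (A : Finset ι) (f : (ι → V) → ℝ) : Prop :=
  ∀ x y : ι → V, (∀ i ∈ A, x i = y i) → f x = f y

/-- `f` is a sum of functions depending on at most `m` coordinates of `S` (and on any coordinates
outside `S`) -/
def LowDeg [Fintype ι] [DecidableEq ι] (S : Finset ι) (m : ℕ) (f : (ι → V) → ℝ) : Prop :=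
  ∃ F : Finset ι → (ι → V) → ℝ, (∀ C, DepOn (Sᶜ ∪ C) (F C)) ∧
    ∀ x, f x = ∑ C ∈ S.powerset.filter (fun C => C.card ≤ m), F C x

/-- the average over the coordinate `c` -/
noncomputable def E1 [DecidableEq ι] [Fintype V] (c : ι) (f : (ι → V) → ℝ) : (ι → V) → ℝ :=
  fun x => av (fun v : V => f (Function.update x c v))

end general

section pointers

variable {k N : ℕ} {V : Type}

/-- the labels read by the pointers `u` -/
def rd (x : Fin k × Fin N → V) (u : Fin k → Fin N) : Fin k → V := fun i => x (i, u i)

/-- the labels at the pointers `u` replaced by `z` -/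
def wr (x : Fin k × Fin N → V) (u : Fin k → Fin N) (z : Fin k → V) : Fin k × Fin N → V :=
  fun c => if c.2 = u c.1 then z c.1 else x c

end pointers

section gadget

/-- the labels of the gadget: one bit for every set `J` and every `j` -/
abbrev Lab (k : ℕ) : Type := Finset (Fin k) → Fin k → ZMod 2

variable {k : ℕ}

/-- the right-hand sides of the parity conditions -/
def cst (i : Fin k) (J : Finset (Fin k)) : ZMod 2 := if ∀ j ∈ J, i ≤ j then 1 else 0

/-- cliques of the gadget with right-hand sides `c` -/
def ClC (h : ℕ) (c : Fin k → Finset (Fin k) → ZMod 2) (A : Finset (Fin k)) (z : Fin k → Lab k) :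
    Prop :=
  (∀ i ∈ A, ∀ J : Finset (Fin k), J.card = h → i ∈ J → ∑ j ∈ J.erase i, z i J j = c i J) ∧
  (∀ i ∈ A, ∀ j ∈ A, i ≠ j → ∀ J : Finset (Fin k), J.card = h → i ∈ J → j ∈ J →
    z i J j = z j J i)

/-- cliques of the gadget -/
def Cl (h : ℕ) (A : Finset (Fin k)) (z : Fin k → Lab k) : Prop := ClC h cst A z

/-- the labels `a` of `i` and `b` of `j` are adjacent in the gadget -/
def PairOK (h : ℕ) (i j : Fin k) (a b : Lab k) : Prop :=
  (∀ J : Finset (Fin k), J.card = h → i ∈ J → ∑ l ∈ J.erase i, a J l = cst i J) ∧
  (∀ J : Finset (Fin k), J.card = h → j ∈ J → ∑ l ∈ J.erase j, b J l = cst j J) ∧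
  (∀ J : Finset (Fin k), J.card = h → i ∈ J → j ∈ J → a J j = b J i)

open Classical in
/-- the number of pairs of non-adjacent labels -/
noncomputable def cost (h : ℕ) (z : Fin k → Lab k) : ℝ :=
  ∑ p ∈ (univ : Finset (Fin k × Fin k)).filter (fun p => p.1 < p.2),
    if PairOK h p.1 p.2 (z p.1) (z p.2) then (0 : ℝ) else 1

end gadget

end Pool.Agent.H97.CL
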