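import Pool.Agent.H97.CL.Key

/-!
# LP core, in terms of pointers

`R ≤ N^{h-ε}` nonnegative slack functions `s r` of the pointers.  There are a labelling `x` and weights
`c u` with sum `1`, `∑ c u s r u ≥ 0` for all `r`, and `∑ c u f(rd x u) < δ`.

Proof.  We may assume `ε ≤ h`, `ε ≤ 1` (smaller `ε` is stronger).  `B ≥ 1` bounds `|W|`, `f`, `|W f|`
(finite type).  Let `η > 0` be small (depending on `k, B, δ`), `σ = ε/(8h)`, `τ = ε/8`.
`U₀ = {u : s r u ≤ N^{ε/4} R av(s r) for all r}`: `#(U₀ᶜ) ≤ N^{-ε/4} N^k` (Markov and the union over `R`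
functions; if `R = 0`, `U₀` is everything).  `b_r = s r 1_{U₀}`.  If `∑ b_r ≤ η av(s r) N^k` then
`|∑ b_r W| ≤ B η ∑ s r`.  Otherwise `b_r u ≤ N^{ε/4} R av(s r) ≤ K/N^k ∑ b_r` with
`K = N^{ε/4} R/η`, `K N^τ < N^{(1-σ)h}` for large `N` (`R ≤ N^{h-ε}`), and `key` gives off `Bad_r`:
`∑ b_r W(rd x u) ≥ -(kη + B N^{-τ}) ∑ b_r`.  In both cases
`∑_{u ∈ U₀} s r u W(rd x u) ≥ -η' ∑_u s r u`, `η' = B η + k η + B N^{-τ}`.
`zq` for `W` and for `W f`: off a small set `av_u W(rd x u) ≥ 1 - kη`, `av_u (W f)(rd x u) ≤ kη`.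
All exceptional sets together have at most `(R N^k k + 4k) exp(-c N^σ)` of all labellings, less than all of
them for large `N`.  Take `x` outside.
`c u = (1_{U₀}(u) W(rd x u) + η')/(N^k Z)`, `Z = av_u(1_{U₀} W(rd x u)) + η' ≥ 1 - kη - B N^{-ε/4}`.
Then `∑ c u = 1`, `∑ c u s r u ≥ 0`,
`∑ c u f(rd x u) ≤ (kη + B N^{-ε/4} + η' B)/Z < δ`.
-/

set_option autoImplicit false

namespace Pool.Agent.H97.CL

open Finset

/-- Markov: few pointers carry large values. -/
theorem lpcore_U0 {k N R : ℕ} (hN : 0 < N) (s : Fin R → (Fin k → Fin N) → ℝ)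
    (hs : ∀ r u, 0 ≤ s r u) (p : ℝ) (hp : 0 < p) :
    ∃ U : Finset (Fin k → Fin N), ((Uᶜ).card : ℝ) ≤ p * (N : ℝ) ^ k ∧
      ∀ r, ∀ u ∈ U, s r u ≤ R / p / (N : ℝ) ^ k * ∑ v, s r v := by
  classical
  have hN0 : (0 : ℝ) < (N : ℝ) ^ k := by
    have : (0 : ℝ) < N := by exact_mod_cast hN
    positivity
  refine ⟨univ.filter fun u => ∀ r, s r u ≤ R / p / (N : ℝ) ^ k * ∑ v, s r v, ?_, fun r u hu => ?_⟩
  · rcases Nat.eq_zero_or_pos R with hR | hR
    · subst hR
      have : (univ.filter fun u : Fin k → Fin N => ∀ r : Fin 0,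
          s r u ≤ ((0 : ℕ) : ℝ) / p / (N : ℝ) ^ k * ∑ v, s r v)ᶜ = ∅ := by
        rw [compl_eq_empty_iff]
        ext u
        simp
      rw [this]
      simp only [card_empty, Nat.cast_zero]
      positivity
    · have hR0 : (0 : ℝ) < R := by exact_mod_cast hR
      set T : Fin R → Finset (Fin k → Fin N) := fun r =>
        univ.filter fun u => R / p / (N : ℝ) ^ k * ∑ v, s r v < s r u with hT
      have hsub : (univ.filter fun u : Fin k → Fin N => ∀ r,
          s r u ≤ R / p / (N : ℝ) ^ k * ∑ v, s r v)ᶜ ⊆ univ.biUnion T := by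
        intro u hu
        simp only [mem_compl, mem_filter, mem_univ, true_and, not_forall, not_le] at hu
        obtain ⟨r, hr⟩ := hu
        simp only [mem_biUnion, mem_univ, true_and]
        exact ⟨r, by simp only [hT, mem_filter, mem_univ, true_and]; exact hr⟩
      have hTr : ∀ r, ((T r).card : ℝ) ≤ p * (N : ℝ) ^ k / R := by
        intro r
        set S := ∑ v, s r v with hS
        have hS0 : 0 ≤ S := sum_nonneg fun v _ => hs r v
        rcases hS0.eq_or_lt with h0 | h0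
        · have : T r = ∅ := by
            rw [eq_empty_iff_forall_notMem]
            intro u hu
            simp only [hT, mem_filter, mem_univ, true_and] at hu
            have h1 : s r u ≤ S := single_le_sum (fun v _ => hs r v) (mem_univ u)
            rw [← hS, ← h0, mul_zero] at hu
            linarith
          rw [this]
          simp only [card_empty, Nat.cast_zero]
          positivity
        · have h1 : ((T r).card : ℝ) * (R / p / (N : ℝ) ^ k * S) ≤ S := by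
            calc ((T r).card : ℝ) * (R / p / (N : ℝ) ^ k * S)
                = ∑ u ∈ T r, (R / p / (N : ℝ) ^ k * S) := by rw [sum_const, nsmul_eq_mul]
              _ ≤ ∑ u ∈ T r, s r u := by
                  refine sum_le_sum fun u hu => ?_
                  simp only [hT, mem_filter, mem_univ, true_and] at hu
                  exact hu.le
              _ ≤ S := sum_le_univ_sum_of_nonneg (fun v => hs r v)
          have h2 : ((T r).card : ℝ) * (R / p / (N : ℝ) ^ k) ≤ 1 := by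
            have h3 : (((T r).card : ℝ) * (R / p / (N : ℝ) ^ k)) * S ≤ 1 * S := by linarith
            exact le_of_mul_le_mul_right h3 h0
          rw [le_div_iff₀ hR0]
          have h4 : ((T r).card : ℝ) * (R / p / (N : ℝ) ^ k) =
              ((T r).card : ℝ) * R / (p * (N : ℝ) ^ k) := by
            field_simp
          rw [h4, div_le_one (by positivity)] at h2
          exact h2
      calc (((univ.filter fun u : Fin k → Fin N => ∀ r,
          s r u ≤ R / p / (N : ℝ) ^ k * ∑ v, s r v)ᶜ).card : ℝ)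
          ≤ ∑ r, ((T r).card : ℝ) := by
            have := (card_le_card hsub).trans card_biUnion_le
            exact_mod_cast this
        _ ≤ ∑ r : Fin R, p * (N : ℝ) ^ k / R := sum_le_sum fun r _ => hTr r
        _ = p * (N : ℝ) ^ k := by
            rw [sum_const, card_univ, Fintype.card_fin, nsmul_eq_mul]
            field_simp
  · exact (mem_filter.1 hu).2 r

/-- The choice of the labelling. -/
theorem lpcore_x {k N : ℕ} {V : Type} [Fintype V] [Nonempty V] (h : ℕ)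
    (W g : (Fin k → V) → ℝ) (B : ℝ) (hB : 0 < B) (hW : ∀ z, |W z| ≤ B) (hg : ∀ z, |g z| ≤ B)
    (hWm : ∀ I : Finset (Fin k), I.card < h → ∀ z, 0 ≤ av (fun y => W (I.piecewise z y)))
    (hN : 2 ≤ N) (σ τ η p : ℝ) (hσ : 0 < σ) (hσ1 : σ < 1) (hτ : 0 ≤ τ) (hη : 0 < η) (hp : 0 < p)
    (R : ℕ) (hK : (R / p / η) * (N : ℝ) ^ τ < (N : ℝ) ^ ((1 - σ) * h))
    (s : Fin R → (Fin k → Fin N) → ℝ) (hs : ∀ r u, 0 ≤ s r u)
    (U : Finset (Fin k → Fin N))
    (hU : ∀ r, ∀ u ∈ U, s r u ≤ R / p / (N : ℝ) ^ k * ∑ v, s r v)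
    (hsmall : (R : ℝ) * ((N : ℝ) ^ k * (k * Real.exp (-(η ^ 2 / (8 * B ^ 2 * (N : ℝ) ^ (-σ)))))) +
      4 * k * Real.exp (-(η ^ 2 * N / (8 * B ^ 2))) < 1) :
    ∃ x : Fin k × Fin N → V,
      (∀ r, -((B * η + k * η + B * (N : ℝ) ^ (-τ)) * ∑ u, s r u) ≤
        ∑ u, (if u ∈ U then s r u else 0) * W (rd x u)) ∧
      |av (fun u : Fin k → Fin N => W (rd x u)) - av W| ≤ k * η ∧
      |av (fun u : Fin k → Fin N => g (rd x u)) - av g| ≤ k * η := by
  classical
  have hNpos : (0 : ℝ) < N := by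
    have : 0 < N := by omega
    exact_mod_cast this
  have hNk : (0 : ℝ) < (N : ℝ) ^ k := by positivity
  have hNτ : 0 < (N : ℝ) ^ (-τ) := Real.rpow_pos_of_pos hNpos _
  set L : ℝ := ((Fintype.card (Fin k × Fin N → V) : ℕ) : ℝ) with hL
  have hL0 : 0 < L := by
    rw [hL]
    exact_mod_cast Fintype.card_pos
  set e1 : ℝ := Real.exp (-(η ^ 2 / (8 * B ^ 2 * (N : ℝ) ^ (-σ)))) with he1
  set e2 : ℝ := Real.exp (-(η ^ 2 * N / (8 * B ^ 2))) with he2
  have he10 : 0 < e1 := Real.exp_pos _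
  have he20 : 0 < e2 := Real.exp_pos _
  have hbad : ∀ r, ∃ Bad : Finset (Fin k × Fin N → V),
      (Bad.card : ℝ) ≤ (N : ℝ) ^ k * (k * (e1 * L)) ∧
      ∀ x, x ∉ Bad → -((B * η + k * η + B * (N : ℝ) ^ (-τ)) * ∑ u, s r u) ≤
        ∑ u, (if u ∈ U then s r u else 0) * W (rd x u) := by
    intro r
    set b : (Fin k → Fin N) → ℝ := fun u => if u ∈ U then s r u else 0 with hb
    have hb0 : ∀ u, 0 ≤ b u := by
      intro u
      simp only [hb]
      split_ifs
      · exact hs r u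
      · exact le_rfl
    have hbs : ∀ u, b u ≤ s r u := by
      intro u
      simp only [hb]
      split_ifs
      · exact le_rfl
      · exact hs r u
    have hS0 : 0 ≤ ∑ u, s r u := sum_nonneg fun u _ => hs r u
    have hb1 : ∑ u, b u ≤ ∑ u, s r u := sum_le_sum fun u _ => hbs u
    have hb2 : 0 ≤ ∑ u, b u := sum_nonneg fun u _ => hb0 u
    by_cases hcase : ∑ u, b u ≤ η * ∑ u, s r u
    · refine ⟨∅, by simp only [card_empty, Nat.cast_zero]; positivity, fun x _ => ?_⟩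
      have h1 : |∑ u, b u * W (rd x u)| ≤ B * (η * ∑ u, s r u) := by
        calc |∑ u, b u * W (rd x u)| ≤ ∑ u, |b u * W (rd x u)| := abs_sum_le_sum_abs _ _
          _ ≤ ∑ u, B * b u := by
              refine sum_le_sum fun u _ => ?_
              rw [abs_mul, abs_of_nonneg (hb0 u), mul_comm]
              exact mul_le_mul_of_nonneg_right (hW _) (hb0 u)
          _ = B * ∑ u, b u := by rw [mul_sum]
          _ ≤ B * (η * ∑ u, s r u) := by gcongr
      have h2 := (abs_le.1 h1).1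
      have h3 : 0 ≤ (k * η + B * (N : ℝ) ^ (-τ)) * ∑ u, s r u := by positivity
      have h4 : (B * η + k * η + B * (N : ℝ) ^ (-τ)) * ∑ u, s r u =
        B * (η * ∑ u, s r u) + (k * η + B * (N : ℝ) ^ (-τ)) * ∑ u, s r u := by ring
      rw [h4]
      linarith
    · push Not at hcase
      have hbK : ∀ u, b u ≤ (R / p / η) / (N : ℝ) ^ k * ∑ u, b u := by
        intro u
        by_cases hu : u ∈ U
        · have h1 : b u ≤ R / p / (N : ℝ) ^ k * ∑ v, s r v := by
            simp only [hb, if_pos hu]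
            exact hU r u hu
          have h2 : R / p / (N : ℝ) ^ k * ∑ v, s r v =
              (R / p / η) / (N : ℝ) ^ k * (η * ∑ v, s r v) := by
            field_simp
          rw [h2] at h1
          refine h1.trans ?_
          gcongr
        · have : b u = 0 := by simp only [hb, if_neg hu]
          rw [this]
          positivity
      obtain ⟨Bad, h1, h2⟩ := key h W B hB hW hWm hN σ τ (R / p / η) hσ hσ1 hτ hK b hb0 hbK η hη
      refine ⟨Bad, h1, fun x hx => ?_⟩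
      have h3 := h2 x hx
      have h4 : (k * η + B * (N : ℝ) ^ (-τ)) * ∑ u, b u ≤
          (k * η + B * (N : ℝ) ^ (-τ)) * ∑ u, s r u := by gcongr
      have h5 : 0 ≤ B * η * ∑ u, s r u := by positivity
      have h6 : (B * η + k * η + B * (N : ℝ) ^ (-τ)) * ∑ u, s r u =
        B * η * ∑ u, s r u + (k * η + B * (N : ℝ) ^ (-τ)) * ∑ u, s r u := by ring
      rw [h6]
      linarith
  choose Bad hBad1 hBad2 using hbad
  have hz1 := zq (by omega : 0 < N) W B hB hW η hη
  have hz2 := zq (by omega : 0 < N) g B hB hg η hη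
  set E1 : Finset (Fin k × Fin N → V) := univ.filter (fun x =>
      k * η < |av (fun u : Fin k → Fin N => W (rd x u)) - av W|) with hE1
  set E2 : Finset (Fin k × Fin N → V) := univ.filter (fun x =>
      k * η < |av (fun u : Fin k → Fin N => g (rd x u)) - av g|) with hE2
  have hcard : (((univ.biUnion Bad ∪ E1) ∪ E2).card : ℝ) < L := by
    calc (((univ.biUnion Bad ∪ E1) ∪ E2).card : ℝ)
        ≤ ((univ.biUnion Bad).card : ℝ) + E1.card + E2.card := by
          have h1 := card_union_le (univ.biUnion Bad ∪ E1) E2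
          have h2 := card_union_le (univ.biUnion Bad) E1
          exact_mod_cast h1.trans (Nat.add_le_add_right h2 _)
      _ ≤ (∑ r : Fin R, (N : ℝ) ^ k * (k * (e1 * L))) + 2 * k * (e2 * L) + 2 * k * (e2 * L) := by
          have h3 : ((univ.biUnion Bad).card : ℝ) ≤ ∑ r : Fin R, (N : ℝ) ^ k * (k * (e1 * L)) := by
            calc ((univ.biUnion Bad).card : ℝ) ≤ ∑ r, ((Bad r).card : ℝ) := by
                  exact_mod_cast card_biUnion_le
              _ ≤ _ := sum_le_sum fun r _ => hBad1 r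
          linarith
      _ = (R * ((N : ℝ) ^ k * (k * e1)) + 4 * k * e2) * L := by
          rw [sum_const, card_univ, Fintype.card_fin, nsmul_eq_mul]
          ring
      _ < 1 * L := by gcongr
      _ = L := one_mul L
  obtain ⟨x, hx⟩ : ∃ x, x ∉ (univ.biUnion Bad ∪ E1) ∪ E2 := by
    by_contra hcon
    push Not at hcon
    have : (univ.biUnion Bad ∪ E1) ∪ E2 = univ := eq_univ_of_forall hcon
    rw [this, card_univ] at hcard
    exact lt_irrefl _ hcard
  simp only [mem_union, mem_biUnion, mem_univ, true_and, not_or, not_exists] at hx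
  obtain ⟨⟨hx1, hx2⟩, hx3⟩ := hx
  refine ⟨x, fun r => hBad2 r x (hx1 r), ?_, ?_⟩
  · simpa [hE1] using hx2
  · simpa [hE2] using hx3

/-- The weights. -/
theorem lpcore_c {k N R : ℕ} {V : Type} (hN : 0 < N)
    (W f : (Fin k → V) → ℝ) (B : ℝ) (hB : 0 < B) (hW : ∀ z, |W z| ≤ B)
    (hfB : ∀ z, f z ≤ B) (hWf : ∀ z, |W z * f z| ≤ B)
    (s : Fin R → (Fin k → Fin N) → ℝ) (U : Finset (Fin k → Fin N)) (p : ℝ)
    (hU : ((Uᶜ).card : ℝ) ≤ p * (N : ℝ) ^ k) (x : Fin k × Fin N → V) (θ a : ℝ) (hθ : 0 ≤ θ)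
    (h1 : ∀ r, -(θ * ∑ u, s r u) ≤ ∑ u, (if u ∈ U then s r u else 0) * W (rd x u))
    (h2 : |av (fun u : Fin k → Fin N => W (rd x u)) - 1| ≤ a)
    (h3 : |av (fun u : Fin k → Fin N => W (rd x u) * f (rd x u)) - 0| ≤ a)
    (ha : a + B * p ≤ 1 / 2) (δ : ℝ) (hδ : 2 * (a + B * p + B * θ) < δ) :
    ∃ c : (Fin k → Fin N) → ℝ, ∑ u, c u = 1 ∧
        (∀ r, 0 ≤ ∑ u, c u * s r u) ∧ ∑ u, c u * f (rd x u) < δ := by
  classical
  have hNpos : (0 : ℝ) < N := by exact_mod_cast hN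
  have hNk : (0 : ℝ) < (N : ℝ) ^ k := by positivity
  have hcardN : (Fintype.card (Fin k → Fin N) : ℝ) = (N : ℝ) ^ k := by
    rw [Fintype.card_fun, Fintype.card_fin, Fintype.card_fin]
    push_cast
    rfl
  have hne : Nonempty (Fin k → Fin N) := ⟨fun _ => ⟨0, hN⟩⟩
  -- restriction to `U` changes averages of bounded functions by at most `B p`
  have hcut : ∀ F : (Fin k → Fin N) → ℝ, (∀ u, |F u| ≤ B) →
      |av F - av (fun u => if u ∈ U then F u else 0)| ≤ B * p := by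
    intro F hF
    rw [← av_sub]
    have e : ∀ u, F u - (if u ∈ U then F u else 0) = if u ∈ Uᶜ then F u else 0 := by
      intro u
      by_cases hu : u ∈ U
      · simp [hu]
      · simp [hu]
    rw [av_congr e]
    unfold av
    rw [abs_div, hcardN, abs_of_pos hNk, div_le_iff₀ hNk]
    calc |∑ u, if u ∈ Uᶜ then F u else 0| ≤ ∑ u, |if u ∈ Uᶜ then F u else 0| :=
          abs_sum_le_sum_abs _ _
      _ ≤ ∑ u, if u ∈ Uᶜ then B else 0 := by
          refine sum_le_sum fun u _ => ?_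
          split_ifs
          · exact hF u
          · simp
      _ = (Uᶜ).card * B := by
          rw [sum_ite_mem, univ_inter, sum_const, nsmul_eq_mul]
      _ ≤ p * (N : ℝ) ^ k * B := by gcongr
      _ = B * p * (N : ℝ) ^ k := by ring
  set A : (Fin k → Fin N) → ℝ := fun u => if u ∈ U then W (rd x u) else 0 with hA
  have hAav := hcut (fun u => W (rd x u)) (fun u => hW _)
  have hAf := hcut (fun u => W (rd x u) * f (rd x u)) (fun u => hWf _)
  have hA1 : 1 / 2 ≤ av A := by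
    have e1 := (abs_le.1 h2).1
    have e2 := (abs_le.1 hAav).2
    change av (fun u => W (rd x u)) - av A ≤ B * p at e2
    linarith
  have hA2 : av (fun u => if u ∈ U then W (rd x u) * f (rd x u) else 0) ≤ a + B * p := by
    have e1 := (abs_le.1 h3).2
    have e2 := (abs_le.1 hAf).1
    linarith
  set Z : ℝ := av A + θ with hZ
  have hZ0 : 1 / 2 ≤ Z := by linarith
  have hZpos : 0 < Z := by linarith
  have hsumA : ∑ u, A u = (N : ℝ) ^ k * av A := by
    unfold av
    rw [hcardN]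
    field_simp
  refine ⟨fun u => (A u + θ) / ((N : ℝ) ^ k * Z), ?_, fun r => ?_, ?_⟩
  · rw [← sum_div, sum_add_distrib, hsumA, sum_const, card_univ, nsmul_eq_mul, hcardN,
      ← mul_add, ← hZ]
    exact div_self (by positivity)
  · have e : ∑ u, (A u + θ) / ((N : ℝ) ^ k * Z) * s r u =
        (∑ u, (if u ∈ U then s r u else 0) * W (rd x u) + θ * ∑ u, s r u) /
          ((N : ℝ) ^ k * Z) := by
      rw [mul_sum, ← sum_add_distrib, sum_div]
      refine sum_congr rfl fun u _ => ?_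
      by_cases hu : u ∈ U
      · simp only [hA, if_pos hu]
        ring
      · simp only [hA, if_neg hu]
        ring
    rw [e]
    apply div_nonneg _ (by positivity)
    have := h1 r
    linarith
  · have e : ∑ u, (A u + θ) / ((N : ℝ) ^ k * Z) * f (rd x u) =
        (av (fun u => if u ∈ U then W (rd x u) * f (rd x u) else 0) +
          θ * av (fun u => f (rd x u))) / Z := by
      unfold av
      rw [hcardN, ← mul_div_assoc, ← add_div, mul_sum, ← sum_add_distrib, sum_div, sum_div]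
      refine sum_congr rfl fun u _ => ?_
      by_cases hu : u ∈ U
      · simp only [hA, if_pos hu]
        field_simp
      · simp only [hA, if_neg hu, zero_add]
        field_simp
    rw [e]
    have e3 : av (fun u : Fin k → Fin N => f (rd x u)) ≤ B := av_le_of fun u => hfB _
    have e4 : av (fun u => if u ∈ U then W (rd x u) * f (rd x u) else 0) +
        θ * av (fun u => f (rd x u)) ≤ a + B * p + B * θ := by
      have : θ * av (fun u : Fin k → Fin N => f (rd x u)) ≤ θ * B := by gcongr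
      linarith
    rw [div_lt_iff₀ hZpos]
    have hδ0 : 0 < δ ∨ δ ≤ 0 := lt_or_ge 0 δ
    rcases hδ0 with hδ0 | hδ0
    · have : δ * (1 / 2) ≤ δ * Z := by gcongr
      linarith
    · exfalso
      have e5 : 0 ≤ a := (abs_nonneg _).trans h2
      have e6 : 0 ≤ B * p := (abs_nonneg _).trans hAav
      have e7 : 0 ≤ B * θ := by positivity
      linarith

open Filter in
/-- All conditions on `N` hold for large `N`. -/
theorem lpcore_lim (k h : ℕ) (B η δ ε σ : ℝ) (hB : 0 < B) (hη : 0 < η) (hδ : 0 < δ) (hε : 0 < ε)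
    (hσ : 0 < σ) :
    ∃ N₀ : ℕ, ∀ N : ℕ, N₀ ≤ N → 2 ≤ N ∧ B * (N : ℝ) ^ (-(ε / 4)) ≤ 1 / 4 ∧
      2 * (B * (N : ℝ) ^ (-(ε / 4)) + B * (B * (N : ℝ) ^ (-(ε / 8)))) < δ ∧
      1 / η < (N : ℝ) ^ (ε / 2) ∧
      (N : ℝ) ^ (h : ℝ) * ((N : ℝ) ^ k * (k * Real.exp (-(η ^ 2 / (8 * B ^ 2 * (N : ℝ) ^ (-σ)))))) +
        4 * k * Real.exp (-(η ^ 2 * N / (8 * B ^ 2))) < 1 := by
  set c : ℝ := η ^ 2 / (8 * B ^ 2) with hc
  have hc0 : 0 < c := by positivity
  have t1 : Tendsto (fun x : ℝ => B * x ^ (-(ε / 4))) atTop (nhds 0) := by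
    simpa using (tendsto_rpow_neg_atTop (show 0 < ε / 4 by linarith)).const_mul B
  have t2 : Tendsto (fun x : ℝ => 2 * (B * x ^ (-(ε / 4)) + B * (B * x ^ (-(ε / 8))))) atTop
      (nhds 0) := by
    have h8 := ((tendsto_rpow_neg_atTop (show 0 < ε / 8 by linarith)).const_mul B).const_mul B
    simpa using (t1.add h8).const_mul 2
  have t3 : Tendsto (fun x : ℝ => x ^ (ε / 2)) atTop atTop :=
    tendsto_rpow_atTop (by linarith)
  have t4 : Tendsto (fun x : ℝ => x ^ (h : ℝ) * (x ^ k * (k *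
      Real.exp (-(η ^ 2 / (8 * B ^ 2 * x ^ (-σ)))))) +
        4 * k * Real.exp (-(η ^ 2 * x / (8 * B ^ 2)))) atTop (nhds 0) := by
    have a1 := ((tendsto_rpow_mul_exp_neg_mul_atTop_nhds_zero (((h : ℝ) + k) / σ) c hc0).comp
      (tendsto_rpow_atTop hσ)).const_mul (k : ℝ)
    have a2 := (tendsto_rpow_mul_exp_neg_mul_atTop_nhds_zero 0 c hc0).const_mul (4 * k : ℝ)
    have a3 := a1.add a2
    simp only [mul_zero, add_zero] at a3
    refine a3.congr' ?_
    filter_upwards [eventually_gt_atTop 0] with x hx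
    simp only [Function.comp]
    rw [← Real.rpow_mul hx.le, Real.rpow_zero, one_mul]
    have b1 : σ * (((h : ℝ) + k) / σ) = (h : ℝ) + k := by field_simp
    rw [b1, Real.rpow_add hx, Real.rpow_natCast x k]
    have b2 : η ^ 2 / (8 * B ^ 2 * x ^ (-σ)) = c * x ^ σ := by
      rw [Real.rpow_neg hx.le, hc]
      have : 0 < x ^ σ := Real.rpow_pos_of_pos hx _
      field_simp
    have b3 : η ^ 2 * x / (8 * B ^ 2) = c * x := by
      rw [hc]
      ring
    rw [b2, b3, neg_mul, neg_mul]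
    ring
  have hev : ∀ᶠ x : ℝ in atTop, 2 ≤ x ∧ B * x ^ (-(ε / 4)) ≤ 1 / 4 ∧
      2 * (B * x ^ (-(ε / 4)) + B * (B * x ^ (-(ε / 8)))) < δ ∧
      1 / η < x ^ (ε / 2) ∧
      x ^ (h : ℝ) * (x ^ k * (k * Real.exp (-(η ^ 2 / (8 * B ^ 2 * x ^ (-σ)))))) +
        4 * k * Real.exp (-(η ^ 2 * x / (8 * B ^ 2))) < 1 := by
    filter_upwards [eventually_ge_atTop 2, t1.eventually_le_const (show (0 : ℝ) < 1 / 4 by norm_num),
      t2.eventually_lt_const hδ, t3.eventually_gt_atTop (1 / η),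
      t4.eventually_lt_const one_pos] with x h1 h2 h3 h4 h5
    exact ⟨h1, h2, h3, h4, h5⟩
  obtain ⟨N₀, hN₀⟩ := eventually_atTop.1 (tendsto_natCast_atTop_atTop.eventually hev)
  refine ⟨N₀, fun N hN => ?_⟩
  obtain ⟨h1, h2, h3, h4, h5⟩ := hN₀ N hN
  exact ⟨by exact_mod_cast h1, h2, h3, h4, h5⟩

theorem lpcore_small (k h : ℕ) (h1 : 1 ≤ h) {V : Type} [Fintype V] [Nonempty V]
    (W f : (Fin k → V) → ℝ) (hW1 : av W = 1)
    (hWm : ∀ I : Finset (Fin k), I.card < h → ∀ z, 0 ≤ av (fun y => W (I.piecewise z y)))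
    (hf : av (fun z => W z * f z) = 0) (δ ε : ℝ) (hδ : 0 < δ)
    (hε : 0 < ε) (hε1 : ε ≤ 1) :
    ∃ N₀ : ℕ, ∀ N : ℕ, N₀ ≤ N → ∀ R : ℕ, (R : ℝ) ≤ (N : ℝ) ^ ((h : ℝ) - ε) →
      ∀ s : Fin R → (Fin k → Fin N) → ℝ, (∀ r u, 0 ≤ s r u) →
      ∃ (x : Fin k × Fin N → V) (c : (Fin k → Fin N) → ℝ), ∑ u, c u = 1 ∧
        (∀ r, 0 ≤ ∑ u, c u * s r u) ∧ ∑ u, c u * f (rd x u) < δ := by
  classical
  -- a common bound
  set B : ℝ := 1 + ∑ z, (|W z| + |f z| + |W z * f z|) with hBdef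
  have hterm : ∀ z, |W z| + |f z| + |W z * f z| ≤ B := by
    intro z
    have : |W z| + |f z| + |W z * f z| ≤ ∑ z, (|W z| + |f z| + |W z * f z|) :=
      single_le_sum (f := fun z => |W z| + |f z| + |W z * f z|) (fun z _ => by positivity)
        (mem_univ z)
    linarith
  have hB1 : 1 ≤ B := by
    have : 0 ≤ ∑ z, (|W z| + |f z| + |W z * f z|) := sum_nonneg fun z _ => by positivity
    linarith
  have hB : 0 < B := by linarith
  have hWB : ∀ z, |W z| ≤ B := fun z => by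
    have := hterm z
    have := abs_nonneg (f z)
    have := abs_nonneg (W z * f z)
    linarith
  have hfB : ∀ z, f z ≤ B := fun z => by
    have := hterm z
    have := abs_nonneg (W z)
    have := abs_nonneg (W z * f z)
    have := le_abs_self (f z)
    linarith
  have hWfB : ∀ z, |W z * f z| ≤ B := fun z => by
    have := hterm z
    have := abs_nonneg (W z)
    have := abs_nonneg (f z)
    linarith
  -- parameters
  set D : ℝ := 8 * (k + B * (B + k) + 1) with hD
  have hD0 : 0 < D := by positivity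
  set η : ℝ := min (1 / (4 * (k + 1))) (δ / D) with hη
  have hη0 : 0 < η := lt_min (by positivity) (by positivity)
  have hη1 : k * η ≤ 1 / 4 := by
    have e1 : η ≤ 1 / (4 * (k + 1)) := min_le_left _ _
    have e2 : (k : ℝ) * η ≤ (k + 1) * (1 / (4 * (k + 1))) := by
      have : (k : ℝ) ≤ k + 1 := by linarith
      gcongr
    have e3 : ((k : ℝ) + 1) * (1 / (4 * (k + 1))) = 1 / 4 := by field_simp
    linarith
  have hη2 : 2 * (k * η + B * (B * η + k * η)) ≤ δ / 4 := by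
    have e1 : η ≤ δ / D := min_le_right _ _
    have e2 : η * D ≤ δ := by rwa [le_div_iff₀ hD0] at e1
    have e3 : 2 * (k * η + B * (B * η + k * η)) = 2 * (k + B * (B + k)) * η := by ring
    rw [e3]
    have e4 : η * D = 8 * (k + B * (B + k)) * η + 8 * η := by rw [hD]; ring
    nlinarith
  have hh1 : (1 : ℝ) ≤ h := by exact_mod_cast h1
  have hh0 : (0 : ℝ) < h := by linarith
  set σ : ℝ := ε / (8 * h) with hσ
  have hσ0 : 0 < σ := by positivity
  have hσ1 : σ < 1 := by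
    rw [hσ, div_lt_one (by positivity)]
    linarith
  obtain ⟨N₀, hN₀⟩ := lpcore_lim k h B η (δ / 2) ε σ hB hη0 (by linarith) hε hσ0
  refine ⟨N₀, fun N hN R hR s hs => ?_⟩
  obtain ⟨hN2, ha1, ha2, ha3, ha4⟩ := hN₀ N hN
  have hNpos : (0 : ℝ) < N := by
    have : 0 < N := by omega
    exact_mod_cast this
  have hN1 : (1 : ℝ) ≤ N := by
    have : 1 ≤ N := by omega
    exact_mod_cast this
  set p : ℝ := (N : ℝ) ^ (-(ε / 4)) with hp
  have hp0 : 0 < p := Real.rpow_pos_of_pos hNpos _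
  obtain ⟨U, hU1, hU2⟩ := lpcore_U0 (by omega : 0 < N) s hs p hp0
  have hRh : (R : ℝ) ≤ (N : ℝ) ^ (h : ℝ) :=
    hR.trans (Real.rpow_le_rpow_of_exponent_le hN1 (by linarith))
  have hK : (R / p / η) * (N : ℝ) ^ (ε / 8) < (N : ℝ) ^ ((1 - σ) * h) := by
    have e1 : (N : ℝ) ^ ((1 - σ) * h) = (N : ℝ) ^ ((h : ℝ) - ε) * ((N : ℝ) ^ (ε / 4) *
        (N : ℝ) ^ (ε / 8)) * (N : ℝ) ^ (ε / 2) := by
      rw [← Real.rpow_add hNpos, ← Real.rpow_add hNpos, ← Real.rpow_add hNpos]
      congr 1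
      rw [hσ]
      field_simp
      ring
    have e2 : R / p / η * (N : ℝ) ^ (ε / 8) = R * ((N : ℝ) ^ (ε / 4) * (N : ℝ) ^ (ε / 8)) *
        (1 / η) := by
      rw [hp, Real.rpow_neg hNpos.le]
      field_simp
    rw [e1, e2]
    have hpos : 0 < (N : ℝ) ^ (ε / 4) * (N : ℝ) ^ (ε / 8) := by positivity
    have hpos2 : 0 < (N : ℝ) ^ ((h : ℝ) - ε) := by positivity
    calc R * ((N : ℝ) ^ (ε / 4) * (N : ℝ) ^ (ε / 8)) * (1 / η)
        ≤ (N : ℝ) ^ ((h : ℝ) - ε) * ((N : ℝ) ^ (ε / 4) * (N : ℝ) ^ (ε / 8)) * (1 / η) := by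
          gcongr
      _ < _ := by gcongr
  have hsmall : (R : ℝ) * ((N : ℝ) ^ k * (k * Real.exp (-(η ^ 2 / (8 * B ^ 2 *
      (N : ℝ) ^ (-σ)))))) + 4 * k * Real.exp (-(η ^ 2 * N / (8 * B ^ 2))) < 1 := by
    refine lt_of_le_of_lt ?_ ha4
    gcongr
  obtain ⟨x, hx1, hx2, hx3⟩ := lpcore_x h W (fun z => W z * f z) B hB hWB hWfB hWm hN2 σ (ε / 8) η p
    hσ0 hσ1 (by positivity) hη0 hp0 R hK s hs U hU2 hsmall
  rw [hW1] at hx2
  rw [hf] at hx3
  have hNe8 : 0 < (N : ℝ) ^ (-(ε / 8)) := Real.rpow_pos_of_pos hNpos _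
  obtain ⟨c, hc⟩ := lpcore_c (by omega : 0 < N) W f B hB hWB hfB hWfB s U p hU1 x
    (B * η + k * η + B * (N : ℝ) ^ (-(ε / 8))) (k * η) (by positivity) hx1 hx2 hx3
    (by linarith) δ (by nlinarith)
  exact ⟨x, c, hc⟩

theorem core_lp (k h : ℕ) (h1 : 1 ≤ h) {V : Type} [Fintype V] [Nonempty V]
    (W f : (Fin k → V) → ℝ) (hW1 : av W = 1)
    (hWm : ∀ I : Finset (Fin k), I.card < h → ∀ z, 0 ≤ av (fun y => W (I.piecewise z y)))
    (hf0 : ∀ z, 0 ≤ f z) (hf : av (fun z => W z * f z) = 0) (δ ε : ℝ) (hδ : 0 < δ) (hε : 0 < ε) :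
    ∃ N₀ : ℕ, ∀ N : ℕ, N₀ ≤ N → ∀ R : ℕ, (R : ℝ) ≤ (N : ℝ) ^ ((h : ℝ) - ε) →
      ∀ s : Fin R → (Fin k → Fin N) → ℝ, (∀ r u, 0 ≤ s r u) →
      ∃ (x : Fin k × Fin N → V) (c : (Fin k → Fin N) → ℝ), ∑ u, c u = 1 ∧
        (∀ r, 0 ≤ ∑ u, c u * s r u) ∧ ∑ u, c u * f (rd x u) < δ := by
  obtain ⟨N₀, hN₀⟩ := lpcore_small k h h1 W f hW1 hWm hf δ (min ε 1) hδ (lt_min hε one_pos)
    (min_le_right _ _)
  refine ⟨max N₀ 1, fun N hN R hR s hs => hN₀ N (le_trans (le_max_left _ _) hN) R ?_ s hs⟩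
  have hN1 : (1 : ℝ) ≤ N := by
    exact_mod_cast le_trans (le_max_right N₀ 1) hN
  refine hR.trans (Real.rpow_le_rpow_of_exponent_le hN1 ?_)
  have := min_le_left ε 1
  linarith

end Pool.Agent.H97.CL
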