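import Pool.Agent.H97.CL.Psd

/-! # The signed density `W` of the gadget: all properties

`W = Wf k h`.  `av W = 1`: `glue_marg` with `I = ∅`, `loc_empty`.  Marginals: `glue_marg`, `loc_nonneg`.
`av (W cost) = 0`: for every pair `i < j` apply `W_loc` with `I = {i, j}` (2 < h): `loc h {i,j} z = 0` unless
`Cl h {i,j} z`, i.e. (`Cl_pair`) unless the pair is adjacent.
-/

set_option autoImplicit false

namespace Pool.Agent.H97.CL

open Finset

private theorem wex_marg (h k : ℕ) (I : Finset (Fin k)) (hI : I.card < h) (z : Fin k → Lab k) :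
    av (fun y => Wf k h (I.piecewise z y)) = loc h I z :=
  glue_marg h (loc h) (fun A J hA z' => loc_cons h A J hA z') I hI z

private theorem wex_pair (h k : ℕ) (h3 : 3 ≤ h) (i j : Fin k) (hij : i ≠ j) (c : (Fin k → Lab k) → ℝ)
    (hc : ∀ z, PairOK h i j (z i) (z j) → c z = 0)
    (hd : ∀ x y : Fin k → Lab k, x i = y i → x j = y j → c x = c y) :
    av (fun z => Wf k h z * c z) = 0 := by
  have hcard : ({i, j} : Finset (Fin k)).card < h := by
    rw [Finset.card_pair hij]
    omega
  have hdep : DepOn ({i, j} : Finset (Fin k)) c := by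
    intro x y hxy
    exact hd x y (hxy i (by simp)) (hxy j (by simp))
  rw [W_loc h {i, j} hcard c hdep]
  have h0 : ∀ z : Fin k → Lab k, loc h {i, j} z * c z = 0 := by
    intro z
    by_cases hcl : Cl h {i, j} z
    · rw [hc z ((Cl_pair h i j hij z).1 hcl), mul_zero]
    · unfold loc
      rw [if_neg hcl, zero_mul]
  rw [av_congr h0, av_const]

theorem exists_W (h k : ℕ) (h3 : 3 ≤ h) : ∃ W : (Fin k → Lab k) → ℝ,
    av W = 1 ∧
    (∀ I : Finset (Fin k), I.card < h → ∀ z, 0 ≤ av (fun y => W (I.piecewise z y))) ∧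
    av (fun z => W z * cost h z) = 0 ∧
    (∀ D : ℕ, 3 * D < h → ∀ q : (Fin k → Lab k) → ℝ, LowDeg univ D q →
      0 ≤ av (fun z => W z * q z ^ 2)) := by
  classical
  refine ⟨Wf k h, ?_, fun I hI z => ?_, ?_, fun D hD q hq => W_psd h D hD q hq⟩
  · have h1 := wex_marg h k ∅ (by rw [Finset.card_empty]; omega) 0
    rw [loc_empty] at h1
    rw [← h1]
    refine av_congr (fun y => ?_)
    rw [Finset.piecewise_empty]
  · rw [wex_marg h k I hI z]
    exact loc_nonneg h I z
  · unfold cost
    have e : ∀ z : Fin k → Lab k, Wf k h z *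
        (∑ p ∈ (univ : Finset (Fin k × Fin k)).filter (fun p => p.1 < p.2),
          if PairOK h p.1 p.2 (z p.1) (z p.2) then (0 : ℝ) else 1) =
        ∑ p ∈ (univ : Finset (Fin k × Fin k)).filter (fun p => p.1 < p.2),
          Wf k h z * (if PairOK h p.1 p.2 (z p.1) (z p.2) then (0 : ℝ) else 1) := fun z =>
      Finset.mul_sum _ _ _
    rw [av_congr e, av_sum]
    refine Finset.sum_eq_zero (fun p hp => ?_)
    have hlt : p.1 < p.2 := (Finset.mem_filter.1 hp).2
    refine wex_pair h k h3 p.1 p.2 (ne_of_lt hlt) _ (fun z hz => if_pos hz) (fun x y hx hy => ?_)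
    simp only [hx, hy]

end Pool.Agent.H97.CL
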