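import Pool.Agent.H97.CL.Form
import Pool.Agent.H97.CL.LpCore
import Pool.Agent.H97.CL.WEx

/-!
# Lower bound for LP formulations

We may assume `ε ≤ 1`.  Suppose `R < n^{h-ε}`.  `N = n / k`, `n < k (N+1) ≤ 2 k N`, so `R ≤ N^{h-ε/2}` for large
`n`.  `core_lp` (with `ε/2`, `W` from `exists_W`, `f = cost h`) for the slack functions
`s r u = a r - (A *ᵥ y (SS u)) r ≥ 0`; `z = ∑ c u • y (SS u)` satisfies `A z ≤ a`, `E z = b` (the `c u` sum to
`1`) and for `G = gr h hn x` (`gr_free`): `w G ⬝ z + c G = ∑ c u (k - nonEdges) = k - ∑ c u cost(rd x u) > k - δ`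
(`nonEdges_gr`), a contradiction.
-/

set_option autoImplicit false

namespace Pool.Agent.H97.CL

open Finset Matrix

private theorem finlp_cost_nonneg {k : ℕ} (h : ℕ) (z : Fin k → Lab k) : 0 ≤ cost h z := by
  classical
  unfold cost
  refine Finset.sum_nonneg fun p _ => ?_
  split_ifs
  · exact le_rfl
  · exact zero_le_one

private theorem finlp_mulVec_sum {m R : ℕ} {ι : Type} (s : Finset ι) (A : Matrix (Fin R) (Fin m) ℝ)
    (c : ι → ℝ) (v : ι → Fin m → ℝ) (r : Fin R) :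
    (A *ᵥ (∑ u ∈ s, c u • v u)) r = ∑ u ∈ s, c u * (A *ᵥ v u) r := by
  have h1 : A *ᵥ (∑ u ∈ s, c u • v u) = ∑ u ∈ s, c u • (A *ᵥ v u) := by
    have := map_sum (Matrix.mulVecLin A) (fun u => c u • v u) s
    simp only [Matrix.mulVecLin_apply, Matrix.mulVec_smul] at this
    exact this
  rw [h1, Finset.sum_apply]
  rfl

private theorem finlp_dot_sum {m : ℕ} {ι : Type} (s : Finset ι) (w : Fin m → ℝ)
    (c : ι → ℝ) (v : ι → Fin m → ℝ) :
    w ⬝ᵥ (∑ u ∈ s, c u • v u) = ∑ u ∈ s, c u * (w ⬝ᵥ v u) := by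
  rw [dotProduct_sum]
  refine Finset.sum_congr rfl fun u _ => ?_
  rw [dotProduct_smul, smul_eq_mul]

private theorem finlp_size (k h : ℕ) (hk : 1 ≤ k) (h1 : 1 ≤ h) (ε : ℝ) (hε : 0 < ε) (hε1 : ε ≤ 1) :
    ∃ N₁ : ℕ, 1 ≤ N₁ ∧ ∀ N : ℕ, N₁ ≤ N → ∀ n : ℕ, n < k * (N + 1) →
      (n : ℝ) ^ ((h : ℝ) - ε) ≤ (N : ℝ) ^ ((h : ℝ) - ε / 2) := by
  have ht := (tendsto_rpow_atTop (show 0 < ε / 2 by linarith)).comp tendsto_natCast_atTop_atTop
    |>.eventually_ge_atTop ((2 * (k : ℝ)) ^ ((h : ℝ) - ε))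
  obtain ⟨N₁, hN₁⟩ := Filter.eventually_atTop.1 ht
  refine ⟨max N₁ 1, le_max_right _ _, fun N hN n hn => ?_⟩
  have hN1 : 1 ≤ N := le_trans (le_max_right _ _) hN
  have h2 : (2 * (k : ℝ)) ^ ((h : ℝ) - ε) ≤ (N : ℝ) ^ (ε / 2) :=
    hN₁ N (le_trans (le_max_left _ _) hN)
  have hNpos : (0 : ℝ) < N := by exact_mod_cast hN1
  have hh : (0 : ℝ) ≤ (h : ℝ) - ε := by
    have : (1 : ℝ) ≤ h := by exact_mod_cast h1
    linarith
  have h3 : (n : ℝ) ≤ 2 * k * N := by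
    have h4 : n ≤ k * (N + 1) := hn.le
    have h5 : k * (N + 1) ≤ 2 * k * N := by nlinarith
    exact_mod_cast h4.trans h5
  calc (n : ℝ) ^ ((h : ℝ) - ε) ≤ (2 * k * N : ℝ) ^ ((h : ℝ) - ε) :=
        Real.rpow_le_rpow (Nat.cast_nonneg _) h3 hh
    _ = (2 * (k : ℝ)) ^ ((h : ℝ) - ε) * (N : ℝ) ^ ((h : ℝ) - ε) :=
        Real.mul_rpow (by positivity) hNpos.le
    _ ≤ (N : ℝ) ^ (ε / 2) * (N : ℝ) ^ ((h : ℝ) - ε) :=
        mul_le_mul_of_nonneg_right h2 (Real.rpow_nonneg hNpos.le _)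
    _ = (N : ℝ) ^ ((h : ℝ) - ε / 2) := by
        rw [← Real.rpow_add hNpos]
        congr 1
        ring

/-- the case of a small exponent -/
private theorem finlp_small (h k : ℕ) (h3 : 3 ≤ h) (hk : h ≤ k) (δ ε : ℝ) (hδ : 0 < δ)
    (hε : 0 < ε) (hε1 : ε ≤ 1) :
    ∃ n₀ : ℕ, ∀ n : ℕ, n₀ ≤ n → ∀ R : ℕ, LPForm n k h δ R → (n : ℝ) ^ ((h : ℝ) - ε) ≤ R := by
  obtain ⟨W, hW1, hWm, hWc, _⟩ := exists_W h k h3
  obtain ⟨N₀, hN₀⟩ := core_lp k h (by omega) W (cost h) hW1 hWm (finlp_cost_nonneg h) hWc δ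
    (ε / 2) hδ (by linarith)
  obtain ⟨N₁, hN₁1, hN₁⟩ := finlp_size k h (by omega) (by omega) ε hε hε1
  have hkpos : 0 < k := by omega
  refine ⟨k * max N₀ N₁, fun n hn R hLP => ?_⟩
  by_contra hlt
  rw [not_le] at hlt
  set N : ℕ := n / k with hNdef
  have hN : max N₀ N₁ ≤ N := by
    rw [hNdef, Nat.le_div_iff_mul_le hkpos, mul_comm]
    exact hn
  have hkN : k * N ≤ n := Nat.mul_div_le n k
  have hnlt : n < k * (N + 1) := by
    have := Nat.lt_mul_div_succ n hkpos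
    exact this
  have hR : (R : ℝ) ≤ (N : ℝ) ^ ((h : ℝ) - ε / 2) :=
    hlt.le.trans (hN₁ N (le_trans (le_max_right _ _) hN) n hnlt)
  obtain ⟨m, e, A, a, E, b, y, w, c, hy, hobj, hmax⟩ := hLP
  obtain ⟨x, d, hd1, hds, hdf⟩ := hN₀ N (le_trans (le_max_left _ _) hN) R hR
    (fun r u => a r - (A *ᵥ y (SS hkN u)) r) (fun r u => by
      have := (hy (SS hkN u) (SS_card hkN u)).1 r
      linarith)
  have hG := gr_free h (by omega) hkN x
  set G := gr h hkN x with hGdef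
  set z : Fin m → ℝ := ∑ u, d u • y (SS hkN u) with hz
  have hA : A *ᵥ z ≤ a := by
    intro r
    rw [hz, finlp_mulVec_sum]
    have h4 := hds r
    have h5 : ∑ u, d u * (a r - (A *ᵥ y (SS hkN u)) r) =
        a r - ∑ u, d u * (A *ᵥ y (SS hkN u)) r := by
      simp only [mul_sub]
      rw [Finset.sum_sub_distrib, ← Finset.sum_mul, hd1, one_mul]
    rw [h5] at h4
    linarith
  have hE : E *ᵥ z = b := by
    funext r
    rw [hz, finlp_mulVec_sum]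
    have h5 : ∀ u ∈ (Finset.univ : Finset (Fin k → Fin N)),
        d u * (E *ᵥ y (SS hkN u)) r = d u * b r := by
      intro u _
      rw [(hy (SS hkN u) (SS_card hkN u)).2]
    rw [Finset.sum_congr rfl h5, ← Finset.sum_mul, hd1, one_mul]
  have h6 := hmax G hG z hA hE
  have h7 : w G ⬝ᵥ z + c G = k - ∑ u, d u * cost h (rd x u) := by
    rw [hz, finlp_dot_sum]
    have h8 : ∀ u ∈ (Finset.univ : Finset (Fin k → Fin N)),
        d u * (w G ⬝ᵥ y (SS hkN u)) = d u * (k - c G) - d u * cost h (rd x u) := by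
      intro u _
      have h9 := hobj G (SS hkN u) (SS_card hkN u)
      have h10 : (nonEdges G (SS hkN u) : ℝ) = cost h (rd x u) := nonEdges_gr h hkN x u
      rw [h10] at h9
      have h11 : w G ⬝ᵥ y (SS hkN u) = (k - c G) - cost h (rd x u) := by linarith
      rw [h11, mul_sub]
    rw [Finset.sum_congr rfl h8, Finset.sum_sub_distrib, ← Finset.sum_mul, hd1, one_mul]
    ring
  rw [h7] at h6
  linarith

theorem lp_lower (h k : ℕ) (h3 : 3 ≤ h) (hk : h ≤ k) (δ ε : ℝ) (hδ : 0 < δ) (hε : 0 < ε) :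
    ∃ n₀ : ℕ, ∀ n : ℕ, n₀ ≤ n → ∀ R : ℕ, LPForm n k h δ R → (n : ℝ) ^ ((h : ℝ) - ε) ≤ R := by
  obtain ⟨n₀, hn₀⟩ := finlp_small h k h3 hk δ (min ε 1) hδ (lt_min hε one_pos) (min_le_right _ _)
  refine ⟨max n₀ 1, fun n hn R hLP => ?_⟩
  refine le_trans ?_ (hn₀ n (le_trans (le_max_left _ _) hn) R hLP)
  have hn1 : (1 : ℝ) ≤ n := by exact_mod_cast le_trans (le_max_right _ _) hn
  refine Real.rpow_le_rpow_of_exponent_le hn1 ?_
  have := min_le_left ε 1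
  linarith

end Pool.Agent.H97.CL
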