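import Mathlib

/-!
# The choice of the parameters in the SDP case

`q = ⌈C log N⌉`: `hq` holds for `R ≤ N^{D+1}` if `C` is large: `((B+η)/(B+η/2))^{2q} ≥ 16 N^{D+1} B/η`.
`s = N^{ε/2}`, `R ≤ N^{D+1-ε}`: `s R (k choose D+1) (k q/N)^{D+1} ≤ const N^{-ε/2} (log N)^{D+1} → 0`.
`p = 4 k exp(-c N)`: `64 B (R+1) 4^q p → 0`.
-/

set_option autoImplicit false

namespace Pool.Agent.H97.CL

open Filter Topology

private theorem sdpnum_lim2 (D : ℕ) (ε K : ℝ) (hε : 0 < ε) :
    Tendsto (fun N : ℕ => K * ((Real.log N) ^ (D + 1) * (N : ℝ) ^ (-(ε / 2)))) atTop (𝓝 0) := by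
  have h1 : (fun x : ℝ => Real.log x ^ ((D + 1 : ℕ) : ℝ)) =o[atTop] fun x : ℝ => x ^ (ε / 2) :=
    isLittleO_log_rpow_rpow_atTop _ (by positivity)
  have h2 : Tendsto (fun x : ℝ => Real.log x ^ ((D + 1 : ℕ) : ℝ) / x ^ (ε / 2)) atTop (𝓝 0) :=
    h1.tendsto_div_nhds_zero
  have h3 := (h2.comp tendsto_natCast_atTop_atTop).const_mul K
  rw [mul_zero] at h3
  refine h3.congr' ?_
  filter_upwards with N
  simp only [Function.comp]
  rw [Real.rpow_natCast, Real.rpow_neg (Nat.cast_nonneg N), div_eq_mul_inv]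

private theorem sdpnum_lim3 (s c K : ℝ) (hc : 0 < c) :
    Tendsto (fun N : ℕ => K * ((N : ℝ) ^ s * Real.exp (-(c * N)))) atTop (𝓝 0) := by
  have h2 := tendsto_rpow_mul_exp_neg_mul_atTop_nhds_zero s c hc
  have h3 := (h2.comp tendsto_natCast_atTop_atTop).const_mul K
  rw [mul_zero] at h3
  refine h3.congr' ?_
  filter_upwards with N
  simp only [Function.comp, neg_mul]

theorem sdp_num (k D : ℕ) (B : ℝ) (hB : 1 ≤ B) (ε : ℝ) (hε : 0 < ε) (hε1 : ε ≤ 1) (η : ℝ)
    (hη : 0 < η) (hη1 : η ≤ 1) (c : ℝ) (hc : 0 < c) :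
    ∃ N₀ : ℕ, ∀ N : ℕ, N₀ ≤ N → ∀ R : ℕ, (R : ℝ) ≤ (N : ℝ) ^ ((D : ℝ) + 1 - ε) → ∃ q : ℕ,
      16 * R * B * (B + η / 2) ^ (2 * q) ≤ η * (B + η) ^ (2 * q) ∧
      B * (2 * Real.sqrt (((N : ℝ) ^ (ε / 2) * R) * (k.choose (D + 1)) *
          (((k * q : ℕ) : ℝ) / N) ^ (D + 1)) +
        ((N : ℝ) ^ (ε / 2) * R) * (k.choose (D + 1)) * (((k * q : ℕ) : ℝ) / N) ^ (D + 1)) ≤ η / 16 ∧
      64 * B * (R + 1) * 4 ^ q * (4 * k * Real.exp (-(c * N))) ≤ η := by
  have hB0 : 0 < B := by linarith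
  set lam : ℝ := Real.log ((B + η) / (B + η / 2)) with hlam
  have hlam0 : 0 < lam := Real.log_pos (by rw [lt_div_iff₀ (by positivity)]; linarith)
  set C : ℝ := ((D : ℝ) + 2) / (2 * lam) with hC
  have hC0 : 0 < C := by positivity
  -- thresholds
  set Kc : ℝ := (k.choose (D + 1) : ℝ) * ((k : ℝ) * (C + 1)) ^ (D + 1) with hKc
  have hKc0 : 0 ≤ Kc := by positivity
  set τ : ℝ := (η / (64 * B)) ^ 2 with hτ
  have hτ0 : 0 < τ := by positivity
  have e2 : ∀ᶠ N : ℕ in atTop, Kc * ((Real.log N) ^ (D + 1) * (N : ℝ) ^ (-(ε / 2))) < τ :=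
    (sdpnum_lim2 D ε Kc hε).eventually_lt_const hτ0
  set K3 : ℝ := 64 * B * 2 * 4 * (4 * k) with hK3
  have e3 : ∀ᶠ N : ℕ in atTop,
      K3 * ((N : ℝ) ^ ((D : ℝ) + 1 + C * Real.log 4) * Real.exp (-(c * N))) < η :=
    (sdpnum_lim3 _ c K3 hc).eventually_lt_const hη
  have e1 : ∀ᶠ N : ℕ in atTop, 16 * B / η ≤ (N : ℝ) :=
    tendsto_natCast_atTop_atTop.eventually_ge_atTop _
  have e4 : ∀ᶠ N : ℕ in atTop, (3 : ℝ) ≤ (N : ℝ) :=
    tendsto_natCast_atTop_atTop.eventually_ge_atTop _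
  obtain ⟨N₀, hN₀⟩ := eventually_atTop.1 (e1.and (e2.and (e3.and e4)))
  refine ⟨N₀, fun N hN R hR => ?_⟩
  obtain ⟨g1, g2, g3, g4⟩ := hN₀ N hN
  have hN0 : (0 : ℝ) < N := by linarith
  have hN1 : (1 : ℝ) ≤ N := by linarith
  have hL1 : 1 ≤ Real.log N := by
    rw [Real.le_log_iff_exp_le hN0]
    linarith [Real.exp_one_lt_d9]
  have hL0 : 0 ≤ Real.log N := by linarith
  have hR0 : (0 : ℝ) ≤ R := Nat.cast_nonneg R
  have hR1 : (R : ℝ) ≤ (N : ℝ) ^ ((D : ℝ) + 1) :=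
    hR.trans (Real.rpow_le_rpow_of_exponent_le hN1 (by linarith))
  refine ⟨⌈C * Real.log N⌉₊, ?_, ?_, ?_⟩
  · set q := ⌈C * Real.log N⌉₊ with hq
    have hqC : C * Real.log N ≤ q := Nat.le_ceil _
    have hb : 0 < B + η / 2 := by positivity
    have key : 16 * R * B ≤ η * ((B + η) / (B + η / 2)) ^ (2 * q) := by
      have h1 : ((B + η) / (B + η / 2)) ^ (2 * q) = Real.exp (2 * q * lam) := by
        rw [← Real.rpow_natCast, Real.rpow_def_of_pos (by positivity), ← hlam]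
        congr 1
        push_cast
        ring
      have h2 : (N : ℝ) ^ ((D : ℝ) + 2) ≤ Real.exp (2 * q * lam) := by
        rw [Real.rpow_def_of_pos hN0]
        apply Real.exp_le_exp.2
        have h3 : Real.log N * ((D : ℝ) + 2) = 2 * (C * Real.log N) * lam := by
          rw [hC]; field_simp
        rw [h3]
        gcongr
      have h4 : (N : ℝ) ^ ((D : ℝ) + 2) = (N : ℝ) ^ ((D : ℝ) + 1) * N := by
        rw [show (D : ℝ) + 2 = ((D : ℝ) + 1) + 1 by ring, Real.rpow_add hN0, Real.rpow_one]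
      rw [h1]
      calc 16 * R * B = (16 * B) * R := by ring
        _ ≤ (η * N) * (N : ℝ) ^ ((D : ℝ) + 1) := by
            have : 16 * B ≤ η * N := by
              rw [div_le_iff₀ hη] at g1
              linarith
            gcongr
        _ = η * (N : ℝ) ^ ((D : ℝ) + 2) := by rw [h4]; ring
        _ ≤ η * Real.exp (2 * q * lam) := by gcongr
    calc 16 * R * B * (B + η / 2) ^ (2 * q)
        ≤ (η * ((B + η) / (B + η / 2)) ^ (2 * q)) * (B + η / 2) ^ (2 * q) := by gcongr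
      _ = η * (B + η) ^ (2 * q) := by
          rw [div_pow]
          field_simp
  · set q := ⌈C * Real.log N⌉₊ with hq
    have hq1 : (q : ℝ) ≤ (C + 1) * Real.log N := by
      have := Nat.ceil_lt_add_one (show 0 ≤ C * Real.log N by positivity)
      have h2 : (q : ℝ) < C * Real.log N + 1 := this
      nlinarith
    set T : ℝ := ((N : ℝ) ^ (ε / 2) * R) * (k.choose (D + 1)) *
      (((k * q : ℕ) : ℝ) / N) ^ (D + 1) with hT
    have hT0 : 0 ≤ T := by positivity
    have hTτ : T ≤ τ := by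
      have h1 : (((k * q : ℕ) : ℝ) / N) ^ (D + 1) ≤
          (((k : ℝ) * (C + 1)) ^ (D + 1) * (Real.log N) ^ (D + 1)) / (N : ℝ) ^ (D + 1) := by
        rw [div_pow, ← mul_pow]
        push_cast
        refine div_le_div_of_nonneg_right (pow_le_pow_left₀ (by positivity) ?_ _) (by positivity)
        calc (k : ℝ) * q ≤ k * ((C + 1) * Real.log N) := by gcongr
          _ = (k : ℝ) * (C + 1) * Real.log N := by ring
      have h2 : (N : ℝ) ^ (ε / 2) * R ≤ (N : ℝ) ^ (-(ε / 2)) * (N : ℝ) ^ (D + 1) := by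
        calc (N : ℝ) ^ (ε / 2) * R ≤ (N : ℝ) ^ (ε / 2) * (N : ℝ) ^ ((D : ℝ) + 1 - ε) := by gcongr
          _ = (N : ℝ) ^ (-(ε / 2)) * (N : ℝ) ^ (D + 1) := by
              rw [← Real.rpow_natCast (N : ℝ) (D + 1), ← Real.rpow_add hN0, ← Real.rpow_add hN0]
              congr 1
              push_cast
              ring
      calc T ≤ ((N : ℝ) ^ (-(ε / 2)) * (N : ℝ) ^ (D + 1)) * (k.choose (D + 1)) *
            ((((k : ℝ) * (C + 1)) ^ (D + 1) * (Real.log N) ^ (D + 1)) / (N : ℝ) ^ (D + 1)) := by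
            rw [hT]; gcongr
        _ = Kc * ((Real.log N) ^ (D + 1) * (N : ℝ) ^ (-(ε / 2))) := by
            rw [hKc]
            have : (N : ℝ) ^ (D + 1) ≠ 0 := by positivity
            field_simp
        _ ≤ τ := g2.le
    have hs : Real.sqrt T ≤ η / (64 * B) := by
      rw [show η / (64 * B) = Real.sqrt τ by rw [hτ, Real.sqrt_sq (by positivity)]]
      exact Real.sqrt_le_sqrt hTτ
    have hτ1 : τ ≤ η / (64 * B) := by
      have h1 : η / (64 * B) ≤ 1 := by
        rw [div_le_one (by positivity)]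
        linarith
      have h0 : 0 ≤ η / (64 * B) := by positivity
      calc τ = (η / (64 * B)) * (η / (64 * B)) := by rw [hτ]; ring
        _ ≤ (η / (64 * B)) * 1 := by gcongr
        _ = _ := by ring
    calc B * (2 * Real.sqrt T + T) ≤ B * (2 * (η / (64 * B)) + η / (64 * B)) := by
          gcongr
          exact hTτ.trans hτ1
      _ = 3 * η / 64 := by field_simp; ring
      _ ≤ η / 16 := by linarith
  · set q := ⌈C * Real.log N⌉₊ with hq
    have h2 : (q : ℝ) ≤ C * Real.log N + 1 := by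
      have := Nat.ceil_lt_add_one (show 0 ≤ C * Real.log N by positivity)
      exact this.le
    have h4 : (4 : ℝ) ^ q ≤ 4 * (N : ℝ) ^ (C * Real.log 4) := by
      have hl4 : 0 < Real.log 4 := Real.log_pos (by norm_num)
      calc (4 : ℝ) ^ q = Real.exp (Real.log 4 * q) := by
            rw [← Real.rpow_natCast, Real.rpow_def_of_pos (by norm_num)]
        _ ≤ Real.exp (Real.log 4 * (C * Real.log N + 1)) := by
            apply Real.exp_le_exp.2
            gcongr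
        _ = 4 * (N : ℝ) ^ (C * Real.log 4) := by
            rw [mul_add, mul_one, Real.exp_add, Real.exp_log (by norm_num : (0 : ℝ) < 4),
              Real.rpow_def_of_pos hN0, mul_comm]
            congr 2
            ring
    have h5 : (R : ℝ) + 1 ≤ 2 * (N : ℝ) ^ ((D : ℝ) + 1) := by
      have : (1 : ℝ) ≤ (N : ℝ) ^ ((D : ℝ) + 1) := Real.one_le_rpow hN1 (by positivity)
      linarith
    calc 64 * B * (R + 1) * 4 ^ q * (4 * k * Real.exp (-(c * N)))
        ≤ 64 * B * (2 * (N : ℝ) ^ ((D : ℝ) + 1)) * (4 * (N : ℝ) ^ (C * Real.log 4)) *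
          (4 * k * Real.exp (-(c * N))) := by gcongr
      _ = K3 * (((N : ℝ) ^ ((D : ℝ) + 1) * (N : ℝ) ^ (C * Real.log 4)) * Real.exp (-(c * N))) := by
          rw [hK3]; ring
      _ = K3 * ((N : ℝ) ^ ((D : ℝ) + 1 + C * Real.log 4) * Real.exp (-(c * N))) := by
          rw [← Real.rpow_add hN0]
      _ ≤ η := g3.le

end Pool.Agent.H97.CL
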