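import Pool.Agent.H97.CL.SdpNorm
import Pool.Agent.H97.CL.SdpNum
import Pool.Agent.H97.CL.Conc

/-!
# SDP core, in terms of pointers

`B ≥ 1` bounds `|W|`, `f`, `|W f|`.  `Bad`: the labellings with `|av_u W(rd x u) - 1| > k η` or
`|av_u (W f)(rd x u)| > k η` (`zq`, relative size `p = 4 k exp(-η² N/(8B²))`).  `sdp_num`, `sdp_norm`
with `s = N^{ε/2}` give `x ∉ Bad`, `U₀`.  `c u = (1_{U₀}(u) W(rd x u) + η)/(N^k Z)`,
`Z = av_u (1_{U₀} W(rd x u)) + η ≥ 1 - kη - B N^{-ε/2} > 0`;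
`∑ c u f(rd x u) ≤ (kη + B N^{-ε/2} + η B)/Z < δ`.  (We may assume `ε ≤ 1`; `η` small depending on
`k, B, δ`.)
-/

set_option autoImplicit false

namespace Pool.Agent.H97.CL

open Finset Matrix

/-- a bound for finitely many reals -/
private lemma sdpCore_bd {V : Type} [Fintype V] (k : ℕ) (W f : (Fin k → V) → ℝ) :
    ∃ B : ℝ, 1 ≤ B ∧ (∀ z, |W z| ≤ B) ∧ (∀ z, f z ≤ B) ∧ ∀ z, |W z * f z| ≤ B := by
  refine ⟨1 + ∑ z, (|W z| + |f z| + |W z * f z|), ?_, ?_, ?_, ?_⟩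
  · have : 0 ≤ ∑ z, (|W z| + |f z| + |W z * f z|) := sum_nonneg fun z _ => by positivity
    linarith
  all_goals
    intro z
    have h := single_le_sum (f := fun z => |W z| + |f z| + |W z * f z|)
      (fun z _ => by positivity) (mem_univ z)
    have h1 := abs_nonneg (W z)
    have h2 := abs_nonneg (f z)
    have h3 := abs_nonneg (W z * f z)
    have h4 := le_abs_self (f z)
    linarith

/-- partial sums off a small set -/
private lemma sdpCore_part {U : Type} [Fintype U] [DecidableEq U] [Nonempty U] (U₀ : Finset U)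
    (g : U → ℝ) (B t : ℝ) (hB : 0 ≤ B) (hg : ∀ u, |g u| ≤ B)
    (hU : ((U₀ᶜ).card : ℝ) ≤ t * Fintype.card U) :
    |(∑ u ∈ U₀, g u) / Fintype.card U - av g| ≤ B * t := by
  have hc : (0 : ℝ) < Fintype.card U := by exact_mod_cast Fintype.card_pos
  have e : (∑ u ∈ U₀, g u) / Fintype.card U - av g = -((∑ u ∈ U₀ᶜ, g u) / Fintype.card U) := by
    unfold av
    rw [← sum_add_sum_compl U₀ g]
    ring
  rw [e, abs_neg, abs_div, abs_of_pos hc, div_le_iff₀ hc]
  calc |∑ u ∈ U₀ᶜ, g u| ≤ ∑ u ∈ U₀ᶜ, |g u| := abs_sum_le_sum_abs _ _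
    _ ≤ ∑ u ∈ U₀ᶜ, B := sum_le_sum fun u _ => hg u
    _ = (U₀ᶜ).card * B := by rw [sum_const, nsmul_eq_mul]
    _ ≤ (t * Fintype.card U) * B := by gcongr
    _ = B * t * Fintype.card U := by ring

theorem core_sdp (k D : ℕ) {V : Type} [Fintype V] [Nonempty V]
    (W f : (Fin k → V) → ℝ) (hW1 : av W = 1)
    (hWp : ∀ q : (Fin k → V) → ℝ, LowDeg univ D q → 0 ≤ av (fun z => W z * q z ^ 2))
    (hf0 : ∀ z, 0 ≤ f z) (hf : av (fun z => W z * f z) = 0) (δ ε : ℝ) (hδ : 0 < δ) (hε : 0 < ε) :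
    ∃ N₀ : ℕ, ∀ N : ℕ, N₀ ≤ N → ∀ R : ℕ, (R : ℝ) ≤ (N : ℝ) ^ ((D : ℝ) + 1 - ε) →
      ∀ Q : (Fin k → Fin N) → Matrix (Fin R) (Fin R) ℝ, (∀ u, (Q u).PosSemidef) →
      ∃ (x : Fin k × Fin N → V) (c : (Fin k → Fin N) → ℝ), ∑ u, c u = 1 ∧
        (∑ u, c u • Q u).PosSemidef ∧ ∑ u, c u * f (rd x u) < δ := by
  classical
  obtain ⟨B, hB, hWB, hfB, hWfB⟩ := sdpCore_bd k W f
  have hB0 : 0 < B := by linarith
  set ε' : ℝ := min ε 1 with hε'
  have hε'0 : 0 < ε' := lt_min hε one_pos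
  have hε'1 : ε' ≤ 1 := min_le_right _ _
  have hε'ε : ε' ≤ ε := min_le_left _ _
  have hk0 : (0 : ℝ) ≤ k := Nat.cast_nonneg k
  set η : ℝ := min (1 / (8 * (k + 1))) (δ / (8 * (k + B))) with hηdef
  have hη : 0 < η := lt_min (by positivity) (by positivity)
  have hη1' : η ≤ 1 / (8 * (k + 1)) := min_le_left _ _
  have hη2' : η ≤ δ / (8 * (k + B)) := min_le_right _ _
  have hkη : (k + 1) * η ≤ 1 / 8 := by
    rw [le_div_iff₀ (by positivity)] at hη1'
    linarith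
  have hkη0 : 0 ≤ (k : ℝ) * η := mul_nonneg hk0 hη.le
  have hη1 : η ≤ 1 := by linarith
  have hkBη : (k + B) * η ≤ δ / 8 := by
    rw [le_div_iff₀ (by positivity)] at hη2'
    linarith
  set c₀ : ℝ := η ^ 2 / (8 * B ^ 2) with hc₀
  have hc₀0 : 0 < c₀ := by positivity
  obtain ⟨N₁, hN₁⟩ := sdp_num k D B hB ε' hε'0 hε'1 η hη hη1 c₀ hc₀0
  -- `N ^ (ε'/2)` is large
  set M : ℝ := B * (4 + 8 / δ) with hM
  have hM0 : 0 < M := by positivity
  obtain ⟨N₂, hN₂⟩ : ∃ N₂ : ℕ, ∀ N : ℕ, N₂ ≤ N → M ≤ (N : ℝ) ^ (ε' / 2) := by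
    have ht := (tendsto_rpow_atTop (half_pos hε'0)).comp tendsto_natCast_atTop_atTop
    obtain ⟨N₂, h⟩ := (ht.eventually_ge_atTop M).exists_forall_of_atTop
    exact ⟨N₂, fun N hN => h N hN⟩
  refine ⟨max 1 (max N₁ N₂), fun N hN R hR Q hQ => ?_⟩
  have hN1 : 1 ≤ N := le_trans (le_max_left _ _) hN
  have hNN₁ : N₁ ≤ N := le_trans (le_trans (le_max_left _ _) (le_max_right _ _)) hN
  have hNN₂ : N₂ ≤ N := le_trans (le_trans (le_max_right _ _) (le_max_right _ _)) hN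
  have hNpos : 0 < N := hN1
  have hN1r : (1 : ℝ) ≤ N := by exact_mod_cast hN1
  have hNpr : (0 : ℝ) < N := by linarith
  have hR' : (R : ℝ) ≤ (N : ℝ) ^ ((D : ℝ) + 1 - ε') :=
    hR.trans (Real.rpow_le_rpow_of_exponent_le hN1r (by linarith))
  obtain ⟨q, hq, hϱ, hp⟩ := hN₁ N hNN₁ R hR'
  set s : ℝ := (N : ℝ) ^ (ε' / 2) with hs
  have hsM : M ≤ s := hN₂ N hNN₂
  have hs0 : 0 < s := lt_of_lt_of_le hM0 hsM
  have : Nonempty (Fin k → Fin N) := ⟨fun _ => ⟨0, hNpos⟩⟩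
  have hexp : -(η ^ 2 * (N : ℝ) / (8 * B ^ 2)) = -(c₀ * N) := by
    rw [hc₀]; ring
  -- the bad labellings
  set Bad : Finset (Fin k × Fin N → V) :=
    (univ.filter (fun x => k * η < |av (fun u : Fin k → Fin N => W (rd x u)) - av W|)) ∪
    (univ.filter (fun x => k * η <
      |av (fun u : Fin k → Fin N => (fun z => W z * f z) (rd x u)) - av (fun z => W z * f z)|))
    with hBad
  have hBadc : (Bad.card : ℝ) ≤ (4 * k * Real.exp (-(c₀ * N))) *
      Fintype.card (Fin k × Fin N → V) := by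
    have h1 := zq (k := k) hNpos W B hB0 hWB η hη
    have h2 := zq (k := k) hNpos (fun z => W z * f z) B hB0 hWfB η hη
    rw [hexp] at h1 h2
    have h3 := card_union_le
      (univ.filter (fun x : Fin k × Fin N → V =>
        k * η < |av (fun u : Fin k → Fin N => W (rd x u)) - av W|))
      (univ.filter (fun x : Fin k × Fin N → V => k * η <
        |av (fun u : Fin k → Fin N => (fun z => W z * f z) (rd x u)) - av (fun z => W z * f z)|))
    rw [← hBad] at h3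
    have h4 : (Bad.card : ℝ) ≤ _ := Nat.cast_le.mpr h3
    rw [Nat.cast_add] at h4
    refine h4.trans ((add_le_add h1 h2).trans (le_of_eq ?_))
    ring
  obtain ⟨x, hx, U₀, hU₀, hpsd⟩ := sdp_norm hNpos D W B hB hWB hWp Q hQ s hs0 η hη hη1 q hq hϱ Bad
    (4 * k * Real.exp (-(c₀ * N))) (by positivity) hBadc hp
  have hx1 : |av (fun u : Fin k → Fin N => W (rd x u)) - 1| ≤ k * η := by
    by_contra hcon
    apply hx
    rw [hBad, mem_union, mem_filter, mem_filter]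
    left
    rw [hW1]
    exact ⟨mem_univ _, not_le.mp hcon⟩
  have hx2 : |av (fun u : Fin k → Fin N => W (rd x u) * f (rd x u))| ≤ k * η := by
    by_contra hcon
    apply hx
    rw [hBad, mem_union, mem_filter, mem_filter]
    right
    rw [hf, sub_zero]
    exact ⟨mem_univ _, not_le.mp hcon⟩
  have hcard : (0 : ℝ) < Fintype.card (Fin k → Fin N) := by exact_mod_cast Fintype.card_pos
  set K : ℝ := ((Fintype.card (Fin k → Fin N) : ℕ) : ℝ) with hK
  -- `B / s` is small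
  have hBs : B * s⁻¹ ≤ 1 / 4 ∧ B * s⁻¹ ≤ δ / 8 := by
    rw [← div_eq_mul_inv]
    constructor
    · rw [div_le_iff₀ hs0]
      have : B * 4 ≤ M := by
        rw [hM]
        have : 0 < B * (8 / δ) := by positivity
        linarith
      linarith
    · rw [div_le_iff₀ hs0]
      have h1 : B * (8 / δ) ≤ M := by
        rw [hM]
        linarith
      have h2 : B * (8 / δ) ≤ s := h1.trans hsM
      have h3 : δ / 8 * (B * (8 / δ)) ≤ δ / 8 * s := by gcongr
      have h4 : δ / 8 * (B * (8 / δ)) = B := by field_simp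
      linarith
  have hP1 := sdpCore_part U₀ (fun u : Fin k → Fin N => W (rd x u)) B s⁻¹ hB0.le
    (fun u => hWB _) hU₀
  have hP2 := sdpCore_part U₀ (fun u : Fin k → Fin N => W (rd x u) * f (rd x u)) B s⁻¹ hB0.le
    (fun u => hWfB _) hU₀
  rw [← hK] at hP1 hP2
  set Z : ℝ := (∑ u ∈ U₀, W (rd x u)) / K + η with hZ
  have hZ1 : 1 / 2 ≤ Z := by
    have h1 := (abs_le.mp hP1).1
    have h2 := (abs_le.mp hx1).1
    have h3 := hBs.1
    have h4 : (k : ℝ) * η ≤ 1 / 8 := by linarith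
    linarith
  have hZ0 : 0 < Z := by linarith
  have hKZ : 0 < K * Z := mul_pos hcard hZ0
  refine ⟨x, fun u => (K * Z)⁻¹ * ((if u ∈ U₀ then W (rd x u) else 0) + η), ?_, ?_, ?_⟩
  · rw [← mul_sum, sum_add_distrib, sum_const, card_univ, nsmul_eq_mul, ← hK,
      Finset.sum_ite_mem, univ_inter]
    rw [inv_mul_eq_one₀ hKZ.ne', hZ]
    field_simp
  · have e : (∑ u, ((K * Z)⁻¹ * ((if u ∈ U₀ then W (rd x u) else 0) + η)) • Q u) =
        (K * Z)⁻¹ • (∑ u ∈ U₀, W (rd x u) • Q u + η • ∑ u, Q u) := by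
      have e1 : ∑ u ∈ U₀, W (rd x u) • Q u =
          ∑ u, (if u ∈ U₀ then W (rd x u) else 0) • Q u := by
        rw [← Finset.sum_filter_add_sum_filter_not univ (fun u => u ∈ U₀)
          (fun u => (if u ∈ U₀ then W (rd x u) else 0) • Q u)]
        rw [Finset.filter_mem_eq_inter, univ_inter]
        rw [show (∑ u ∈ U₀, (if u ∈ U₀ then W (rd x u) else 0) • Q u) =
          ∑ u ∈ U₀, W (rd x u) • Q u from sum_congr rfl fun u hu => by rw [if_pos hu]]
        rw [show (∑ u ∈ univ.filter (fun u => ¬ u ∈ U₀),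
            (if u ∈ U₀ then W (rd x u) else 0) • Q u) = 0 from
          sum_eq_zero fun u hu => by rw [if_neg (mem_filter.mp hu).2, zero_smul]]
        rw [add_zero]
      rw [e1, smul_sum (r := η), ← sum_add_distrib, smul_sum]
      refine sum_congr rfl fun u _ => ?_
      rw [← add_smul, smul_smul]
    rw [e]
    exact hpsd.smul (inv_nonneg.mpr hKZ.le)
  · have e : (∑ u, (K * Z)⁻¹ * ((if u ∈ U₀ then W (rd x u) else 0) + η) * f (rd x u)) =
        Z⁻¹ * ((∑ u ∈ U₀, W (rd x u) * f (rd x u)) / K + η * ((∑ u, f (rd x u)) / K)) := by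
      have e1 : ∑ u ∈ U₀, W (rd x u) * f (rd x u) =
          ∑ u, (if u ∈ U₀ then W (rd x u) else 0) * f (rd x u) := by
        rw [← univ_inter U₀, ← Finset.sum_ite_mem]
        refine sum_congr rfl fun u _ => ?_
        by_cases h : u ∈ U₀
        · simp [h]
        · simp [h]
      rw [e1]
      have e2 : ∀ u : Fin k → Fin N, (K * Z)⁻¹ * ((if u ∈ U₀ then W (rd x u) else 0) + η) *
          f (rd x u) = (K * Z)⁻¹ * ((if u ∈ U₀ then W (rd x u) else 0) * f (rd x u) +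
            η * f (rd x u)) := fun u => by ring
      rw [sum_congr rfl fun u _ => e2 u, ← mul_sum, sum_add_distrib, ← mul_sum, mul_inv]
      ring
    rw [e]
    have hA : (∑ u ∈ U₀, W (rd x u) * f (rd x u)) / K ≤ k * η + B * s⁻¹ := by
      have h1 := (abs_le.mp hP2).2
      have h2 := (abs_le.mp hx2).2
      linarith
    have hF : (∑ u, f (rd x u)) / K ≤ B := by
      have h := av_le_of (f := fun u : Fin k → Fin N => f (rd x u)) (B := B) (fun u => hfB _)
      simpa only [av, ← hK] using h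
    have hF0 : 0 ≤ (∑ u, f (rd x u)) / K := div_nonneg (sum_nonneg fun u _ => hf0 _) hcard.le
    have hsum : (∑ u ∈ U₀, W (rd x u) * f (rd x u)) / K + η * ((∑ u, f (rd x u)) / K) ≤ δ / 4 := by
      have h1 : η * ((∑ u, f (rd x u)) / K) ≤ η * B := by gcongr
      have h2 := hBs.2
      have h3 : (k : ℝ) * η + η * B ≤ δ / 8 := by linarith
      linarith
    have hZi : Z⁻¹ ≤ 2 := by
      rw [inv_le_comm₀ hZ0 two_pos]
      linarith
    have hZi0 : 0 < Z⁻¹ := inv_pos.mpr hZ0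
    calc Z⁻¹ * ((∑ u ∈ U₀, W (rd x u) * f (rd x u)) / K + η * ((∑ u, f (rd x u)) / K))
        ≤ Z⁻¹ * (δ / 4) := by gcongr
      _ ≤ 2 * (δ / 4) := by gcongr
      _ < δ := by linarith

end Pool.Agent.H97.CL
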