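import Pool.Agent.H97.CL.Graph

/-!
# Linear and semidefinite formulations of the gap version of Clique

`LPForm n k h δ R`: a linear programming formulation with `R` inequalities (and any number of equations and
variables) on `n` vertices: a polyhedron `{z : A z ≤ a, E z = b}`, a point `y S` of it for every set `S` of
`k` vertices, and for every graph `G` an affine objective function with value `k - nonEdges G S` at `y S`,
whose value is at most `k - δ` on the whole polyhedron if `G` has no clique of size `h`.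
`SDPForm n k h δ R`: the same with one linear matrix inequality of size `R`.
-/

set_option autoImplicit false

namespace Pool.Agent.H97.CL

open Finset Matrix

/-- a linear programming formulation with `R` inequalities -/
def LPForm (n k h : ℕ) (δ : ℝ) (R : ℕ) : Prop :=
  ∃ (m e : ℕ) (A : Matrix (Fin R) (Fin m) ℝ) (a : Fin R → ℝ) (E : Matrix (Fin e) (Fin m) ℝ)
    (b : Fin e → ℝ) (y : Finset (Fin n) → Fin m → ℝ) (w : SimpleGraph (Fin n) → Fin m → ℝ)
    (c : SimpleGraph (Fin n) → ℝ),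
    (∀ S : Finset (Fin n), S.card = k → A *ᵥ y S ≤ a ∧ E *ᵥ y S = b) ∧
    (∀ (G : SimpleGraph (Fin n)) (S : Finset (Fin n)), S.card = k →
      w G ⬝ᵥ y S + c G = k - nonEdges G S) ∧
    (∀ G : SimpleGraph (Fin n), G.CliqueFree h → ∀ z : Fin m → ℝ, A *ᵥ z ≤ a → E *ᵥ z = b →
      w G ⬝ᵥ z + c G ≤ k - δ)

/-- a semidefinite programming formulation of size `R` -/
def SDPForm (n k h : ℕ) (δ : ℝ) (R : ℕ) : Prop :=
  ∃ (m e : ℕ) (M₀ : Matrix (Fin R) (Fin R) ℝ) (M : Fin m → Matrix (Fin R) (Fin R) ℝ)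
    (E : Matrix (Fin e) (Fin m) ℝ) (b : Fin e → ℝ) (y : Finset (Fin n) → Fin m → ℝ)
    (w : SimpleGraph (Fin n) → Fin m → ℝ) (c : SimpleGraph (Fin n) → ℝ),
    (∀ S : Finset (Fin n), S.card = k → (M₀ + ∑ i, y S i • M i).PosSemidef ∧ E *ᵥ y S = b) ∧
    (∀ (G : SimpleGraph (Fin n)) (S : Finset (Fin n)), S.card = k →
      w G ⬝ᵥ y S + c G = k - nonEdges G S) ∧
    (∀ G : SimpleGraph (Fin n), G.CliqueFree h → ∀ z : Fin m → ℝ,
      (M₀ + ∑ i, z i • M i).PosSemidef → E *ᵥ z = b → w G ⬝ᵥ z + c G ≤ k - δ)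

/-- a semidefinite programming formulation of size `R` for `k`-Clique on `n` vertices with ratio `r`: all
sets `S` of vertices are points, the objective has value `#S - nonEdges G S`, and its value is less than `k`
if all cliques of `G` have less than `k/r` elements -/
def SDPRatio (n k : ℕ) (r : ℝ) (R : ℕ) : Prop :=
  ∃ (m e : ℕ) (M₀ : Matrix (Fin R) (Fin R) ℝ) (M : Fin m → Matrix (Fin R) (Fin R) ℝ)
    (E : Matrix (Fin e) (Fin m) ℝ) (b : Fin e → ℝ) (y : Finset (Fin n) → Fin m → ℝ)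
    (w : SimpleGraph (Fin n) → Fin m → ℝ) (c : SimpleGraph (Fin n) → ℝ),
    (∀ S : Finset (Fin n), (M₀ + ∑ i, y S i • M i).PosSemidef ∧ E *ᵥ y S = b) ∧
    (∀ (G : SimpleGraph (Fin n)) (S : Finset (Fin n)),
      w G ⬝ᵥ y S + c G = S.card - nonEdges G S) ∧
    (∀ G : SimpleGraph (Fin n), (∀ T : Finset (Fin n), G.IsClique T → (T.card : ℝ) < k / r) →
      ∀ z : Fin m → ℝ, (M₀ + ∑ i, z i • M i).PosSemidef → E *ᵥ z = b → w G ⬝ᵥ z + c G < k)

end Pool.Agent.H97.CL
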