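import Pool.Agent.H97.CL.Defs

/-!
# The gadget: extension of cliques

`ext_one`: a clique on `A` extends to a new index `a`, if for every `h`-set `J ∋ a` with
`J \ {a} ⊆ A` the right-hand sides sum to `0` over `J`.  Proof.  Put
`y J j = z j J a` for `j ∈ A`, `j ≠ a`; if `(J \ {a}) \ A` is nonempty, choose one element `j*` of it and
let `y J j* = c a J - ∑_{j ∈ J, j ∈ A} z j J a`, all other values `0`.  If `J \ {a} ⊆ A`, the parity condition
`∑_{j ∈ J \ {a}} z j J a = c a J` follows by adding the parity conditions of `z` at all `i ∈ J \ {a}`: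
`∑_{i ∈ J\a} ∑_{j ∈ J\i} z i J j = ∑_{i ∈ J\a} z i J a + ∑_{i ≠ j ∈ J\a} z i J j`, the last sum is `0` in
characteristic 2 (symmetric), the left-hand side is `∑_{i ∈ J\a} c i J = c a J`.
`Cl_exists`: by induction on `A` (all `J \ {a}` have `h - 1 > #A` elements).
`no_clique`: add all parity conditions: `∑_{i ∈ J} cst i J = 1` (only the least element of `J`), the
left-hand side is `0` by symmetry.
-/

set_option autoImplicit false

namespace Pool.Agent.H97.CL

open Finset

variable {k : ℕ}

/-- a symmetric double sum off the diagonal vanishes in characteristic two -/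
private theorem g1_sym (K : Finset (Fin k)) (f : Fin k → Fin k → ZMod 2)
    (hf : ∀ i ∈ K, ∀ j ∈ K, i ≠ j → f i j = f j i) : ∑ i ∈ K, ∑ j ∈ K.erase i, f i j = 0 := by
  induction K using Finset.induction_on with
  | empty => rw [Finset.sum_empty]
  | insert b K hb ih =>
    have ih' := ih (fun i hi j hj hij =>
      hf i (Finset.mem_insert_of_mem hi) j (Finset.mem_insert_of_mem hj) hij)
    rw [Finset.sum_insert hb, Finset.erase_insert hb]
    have h1 : ∀ i ∈ K, ∑ j ∈ (insert b K).erase i, f i j = f b i + ∑ j ∈ K.erase i, f i j := by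
      intro i hi
      have hib : i ≠ b := fun h => hb (h ▸ hi)
      rw [Finset.erase_insert_of_ne (Ne.symm hib), Finset.sum_insert (fun h =>
        hb (Finset.mem_of_mem_erase h)), hf i (Finset.mem_insert_of_mem hi) b
        (Finset.mem_insert_self b K) hib]
    rw [Finset.sum_congr rfl h1, Finset.sum_add_distrib, ih', add_zero, ← Finset.sum_add_distrib]
    refine Finset.sum_eq_zero ?_
    intro i _
    exact CharTwo.add_self_eq_zero _

/-- the parity condition at the new index, if all other indices are old -/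
private theorem g1_par (h : ℕ) (c : Fin k → Finset (Fin k) → ZMod 2) (A : Finset (Fin k))
    (a : Fin k) (z : Fin k → Lab k) (hz : ClC h c A z) (J : Finset (Fin k)) (hJ : J.card = h)
    (haJ : a ∈ J) (hsub : J.erase a ⊆ A) (hc : ∑ i ∈ J, c i J = 0) :
    ∑ j ∈ J.erase a, z j J a = c a J := by
  have h1 : ∀ i ∈ J.erase a, c i J = z i J a + ∑ j ∈ (J.erase a).erase i, z i J j := by
    intro i hi
    have hia : i ≠ a := Finset.ne_of_mem_erase hi
    have hiJ : i ∈ J := Finset.mem_of_mem_erase hi
    rw [← hz.1 i (hsub hi) J hJ hiJ]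
    have h2 : J.erase i = insert a ((J.erase a).erase i) := by
      rw [Finset.erase_right_comm, Finset.insert_erase]
      exact Finset.mem_erase.mpr ⟨Ne.symm hia, haJ⟩
    rw [h2, Finset.sum_insert]
    intro h3
    exact (Finset.notMem_erase a J) (Finset.mem_of_mem_erase h3)
  have h2 : ∑ i ∈ J.erase a, c i J = ∑ i ∈ J.erase a, z i J a := by
    rw [Finset.sum_congr rfl h1, Finset.sum_add_distrib, g1_sym, add_zero]
    intro i hi j hj hij
    exact hz.2 i (hsub hi) j (hsub hj) hij J hJ (Finset.mem_of_mem_erase hi)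
      (Finset.mem_of_mem_erase hj)
  rw [← Finset.add_sum_erase J _ haJ, h2] at hc
  have h3 := CharTwo.add_self_eq_zero (c a J)
  have h4 : c a J + ∑ i ∈ J.erase a, z i J a = c a J + c a J := by
    rw [hc, h3]
  exact add_left_cancel h4

/-- the new label -/
private noncomputable def g1_y (c : Fin k → Finset (Fin k) → ZMod 2) (A : Finset (Fin k))
    (a : Fin k) (z : Fin k → Lab k) : Lab k := by
  classical
  exact fun J j => if j ∈ A then z j J a else
    if hR : ((J.erase a) \ A).Nonempty then
      (if j = hR.choose then c a J - ∑ i ∈ (J.erase a).filter (fun i => i ∈ A), z i J a else 0)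
    else 0

private theorem g1_y_mem (c : Fin k → Finset (Fin k) → ZMod 2) (A : Finset (Fin k))
    (a : Fin k) (z : Fin k → Lab k) (J : Finset (Fin k)) (j : Fin k) (hj : j ∈ A) :
    g1_y c A a z J j = z j J a := by
  unfold g1_y
  rw [if_pos hj]

private theorem g1_y_par (h : ℕ) (c : Fin k → Finset (Fin k) → ZMod 2) (A : Finset (Fin k))
    (a : Fin k) (z : Fin k → Lab k) (hz : ClC h c A z) (J : Finset (Fin k)) (hJ : J.card = h)
    (haJ : a ∈ J) (hc : J.erase a ⊆ A → ∑ i ∈ J, c i J = 0) :
    ∑ j ∈ J.erase a, g1_y c A a z J j = c a J := by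
  by_cases hR : ((J.erase a) \ A).Nonempty
  · rw [← Finset.sum_filter_add_sum_filter_not (J.erase a) (fun i => i ∈ A)]
    have h1 : ∑ j ∈ (J.erase a).filter (fun i => i ∈ A), g1_y c A a z J j =
        ∑ i ∈ (J.erase a).filter (fun i => i ∈ A), z i J a := by
      refine Finset.sum_congr rfl ?_
      intro j hj
      exact g1_y_mem c A a z J j (Finset.mem_filter.mp hj).2
    have h2 : ∑ j ∈ (J.erase a).filter (fun i => ¬ i ∈ A), g1_y c A a z J j =
        c a J - ∑ i ∈ (J.erase a).filter (fun i => i ∈ A), z i J a := by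
      have hmem : hR.choose ∈ (J.erase a).filter (fun i => ¬ i ∈ A) := by
        have h3 := Finset.mem_sdiff.mp hR.choose_spec
        exact Finset.mem_filter.mpr ⟨h3.1, h3.2⟩
      rw [Finset.sum_eq_single_of_mem _ hmem]
      · unfold g1_y
        rw [if_neg (Finset.mem_filter.mp hmem).2, dif_pos hR, if_pos rfl]
      · intro j hj hne
        unfold g1_y
        rw [if_neg (Finset.mem_filter.mp hj).2, dif_pos hR, if_neg hne]
    rw [h1, h2]
    abel
  · have hsub : J.erase a ⊆ A := by
      rw [Finset.not_nonempty_iff_eq_empty, Finset.sdiff_eq_empty_iff_subset] at hR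
      exact hR
    rw [← g1_par h c A a z hz J hJ haJ hsub (hc hsub)]
    refine Finset.sum_congr rfl ?_
    intro j hj
    exact g1_y_mem c A a z J j (hsub hj)

theorem ext_one (h : ℕ) (c : Fin k → Finset (Fin k) → ZMod 2) (A : Finset (Fin k)) (a : Fin k)
    (ha : a ∉ A) (z : Fin k → Lab k) (hz : ClC h c A z)
    (hc : ∀ J : Finset (Fin k), J.card = h → a ∈ J → J.erase a ⊆ A → ∑ i ∈ J, c i J = 0) :
    ∃ y : Lab k, ClC h c (insert a A) (Function.update z a y) := by
  refine ⟨g1_y c A a z, ?_, ?_⟩
  · intro i hi J hJ hiJ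
    by_cases hia : i = a
    · subst hia
      rw [Function.update_self]
      exact g1_y_par h c A i z hz J hJ hiJ (hc J hJ hiJ)
    · rw [Function.update_of_ne hia]
      exact hz.1 i ((Finset.mem_insert.mp hi).resolve_left hia) J hJ hiJ
  · intro i hi j hj hij J hJ hiJ hjJ
    by_cases hia : i = a
    · subst hia
      have hjA : j ∈ A := (Finset.mem_insert.mp hj).resolve_left (Ne.symm hij)
      rw [Function.update_self, Function.update_of_ne (Ne.symm hij)]
      exact g1_y_mem c A i z J j hjA
    · have hiA : i ∈ A := (Finset.mem_insert.mp hi).resolve_left hia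
      by_cases hja : j = a
      · subst hja
        rw [Function.update_self, Function.update_of_ne hia]
        exact (g1_y_mem c A j z J i hiA).symm
      · have hjA : j ∈ A := (Finset.mem_insert.mp hj).resolve_left hja
        rw [Function.update_of_ne hia, Function.update_of_ne hja]
        exact hz.2 i hiA j hjA hij J hJ hiJ hjJ

theorem Cl_exists (h : ℕ) (A : Finset (Fin k)) (hA : A.card < h) : ∃ z : Fin k → Lab k, Cl h A z := by
  induction A using Finset.induction_on with
  | empty =>
    refine ⟨fun _ _ _ => 0, ?_, ?_⟩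
    · intro i hi
      exact absurd hi (Finset.notMem_empty i)
    · intro i hi
      exact absurd hi (Finset.notMem_empty i)
  | insert a A ha ih =>
    rw [Finset.card_insert_of_notMem ha] at hA
    obtain ⟨z, hz⟩ := ih (by omega)
    obtain ⟨y, hy⟩ := ext_one h cst A a ha z hz (by
      intro J hJ haJ hsub
      exfalso
      have h1 := Finset.card_le_card hsub
      rw [Finset.card_erase_of_mem haJ, hJ] at h1
      omega)
    exact ⟨_, hy⟩

theorem no_clique (h : ℕ) (h1 : 1 ≤ h) (J : Finset (Fin k)) (hJ : J.card = h) (z : Fin k → Lab k) :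
    ¬ Cl h J z := by
  intro hz
  have hne : J.Nonempty := by
    rw [← Finset.card_pos]
    omega
  have h2 : ∑ i ∈ J, cst i J = 0 := by
    rw [← g1_sym J (fun i j => z i J j) (fun i hi j hj hij => hz.2 i hi j hj hij J hJ hi hj)]
    refine Finset.sum_congr rfl ?_
    intro i hi
    exact (hz.1 i hi J hJ hi).symm
  have h3 : ∑ i ∈ J, cst i J = 1 := by
    rw [Finset.sum_eq_single_of_mem _ (J.min'_mem hne)]
    · unfold cst
      rw [if_pos (fun j hj => J.min'_le j hj)]
    · intro i hi hne2
      unfold cst
      rw [if_neg]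
      intro h4
      exact hne2 (le_antisymm (h4 _ (J.min'_mem hne)) (J.min'_le i hi))
  rw [h2] at h3
  exact zero_ne_one h3

end Pool.Agent.H97.CL
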