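import Pool.Agent.H97.CL.G1

/-!
# The gadget: the group of homogeneous cliques

`Hom h g`: `g` is a clique on all of `Fin k` with right-hand sides `0`.  The additive group of all such `g`
acts on the cliques by translation (`hom_act`), transitively on the cliques on `A` (`hom_trans`: the
difference of two cliques on `A` is a homogeneous clique on `A`; extend it to `univ` by `ext_one` with
`c = 0`, adding one index after the other).
-/

set_option autoImplicit false

namespace Pool.Agent.H97.CL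

open Finset

variable {k : ℕ}

/-- homogeneous cliques on all indices -/
def Hom (h : ℕ) (g : Fin k → Lab k) : Prop := ClC h (fun _ _ => 0) univ g

theorem Hom_zero (h : ℕ) : Hom h (0 : Fin k → Lab k) := by
  refine ⟨fun i _ J _ _ => ?_, fun i _ j _ _ J _ _ _ => rfl⟩
  exact Finset.sum_eq_zero fun j _ => rfl

theorem Hom_add (h : ℕ) (g g' : Fin k → Lab k) (hg : Hom h g) (hg' : Hom h g') : Hom h (g + g') := by
  refine ⟨fun i hi J hJ hiJ => ?_, fun i hi j hj hij J hJ hiJ hjJ => ?_⟩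
  · have h1 : ∑ l ∈ J.erase i, (g + g') i J l = ∑ l ∈ J.erase i, g i J l + ∑ l ∈ J.erase i, g' i J l := by
      rw [← Finset.sum_add_distrib]
      rfl
    rw [h1, hg.1 i hi J hJ hiJ, hg'.1 i hi J hJ hiJ, add_zero]
  · show g i J j + g' i J j = g j J i + g' j J i
    rw [hg.2 i hi j hj hij J hJ hiJ hjJ, hg'.2 i hi j hj hij J hJ hiJ hjJ]

theorem hom_act (h : ℕ) (g : Fin k → Lab k) (hg : Hom h g) (A : Finset (Fin k)) (z : Fin k → Lab k) :
    Cl h A (z + g) ↔ Cl h A z := by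
  have h1 : ∀ i J, J.card = h → i ∈ J →
      ∑ l ∈ J.erase i, (z + g) i J l = ∑ l ∈ J.erase i, z i J l := by
    intro i J hJ hiJ
    have h1 : ∑ l ∈ J.erase i, (z + g) i J l = ∑ l ∈ J.erase i, z i J l + ∑ l ∈ J.erase i, g i J l := by
      rw [← Finset.sum_add_distrib]
      rfl
    rw [h1, hg.1 i (mem_univ _) J hJ hiJ, add_zero]
  have h2 : ∀ i j J, i ≠ j → J.card = h → i ∈ J → j ∈ J →
      ((z + g) i J j = (z + g) j J i ↔ z i J j = z j J i) := by
    intro i j J hij hJ hiJ hjJ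
    show z i J j + g i J j = z j J i + g j J i ↔ _
    rw [hg.2 i (mem_univ _) j (mem_univ _) hij J hJ hiJ hjJ]
    exact add_left_inj _
  constructor
  · rintro ⟨ha, hb⟩
    exact ⟨fun i hi J hJ hiJ => (h1 i J hJ hiJ).symm.trans (ha i hi J hJ hiJ),
      fun i hi j hj hij J hJ hiJ hjJ => (h2 i j J hij hJ hiJ hjJ).1 (hb i hi j hj hij J hJ hiJ hjJ)⟩
  · rintro ⟨ha, hb⟩
    exact ⟨fun i hi J hJ hiJ => (h1 i J hJ hiJ).trans (ha i hi J hJ hiJ),
      fun i hi j hj hij J hJ hiJ hjJ => (h2 i j J hij hJ hiJ hjJ).2 (hb i hi j hj hij J hJ hiJ hjJ)⟩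

/-- extension of a homogeneous clique -/
private theorem g2_extend (h : ℕ) (A : Finset (Fin k)) (d : Fin k → Lab k)
    (hd : ClC h (fun _ _ => 0) A d) (B : Finset (Fin k)) :
    ∃ g : Fin k → Lab k, ClC h (fun _ _ => 0) (A ∪ B) g ∧ ∀ i ∈ A, g i = d i := by
  classical
  induction B using Finset.induction_on with
  | empty => exact ⟨d, by rw [Finset.union_empty]; exact hd, fun i _ => rfl⟩
  | insert a B ha ih =>
    obtain ⟨g, hg, hgd⟩ := ih
    by_cases haA : a ∈ A ∪ B
    · refine ⟨g, ?_, hgd⟩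
      rw [Finset.union_insert, Finset.insert_eq_of_mem haA]
      exact hg
    · obtain ⟨y, hy⟩ := ext_one h (fun _ _ => 0) (A ∪ B) a haA g hg
        (fun J _ _ _ => Finset.sum_eq_zero fun _ _ => rfl)
      refine ⟨Function.update g a y, ?_, fun i hi => ?_⟩
      · rw [Finset.union_insert]
        exact hy
      · have hia : i ≠ a := by
          rintro rfl
          exact haA (Finset.mem_union_left _ hi)
        rw [Function.update_of_ne hia]
        exact hgd i hi

theorem hom_trans (h : ℕ) (A : Finset (Fin k)) (z z' : Fin k → Lab k) (hz : Cl h A z)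
    (hz' : Cl h A z') : ∃ g : Fin k → Lab k, Hom h g ∧ ∀ i ∈ A, z' i = z i + g i := by
  classical
  have hd : ClC h (fun _ _ => 0) A (z' - z) := by
    refine ⟨fun i hi J hJ hiJ => ?_, fun i hi j hj hij J hJ hiJ hjJ => ?_⟩
    · have h1 : ∑ l ∈ J.erase i, (z' - z) i J l =
          ∑ l ∈ J.erase i, z' i J l - ∑ l ∈ J.erase i, z i J l := by
        rw [← Finset.sum_sub_distrib]
        rfl
      rw [h1, hz.1 i hi J hJ hiJ, hz'.1 i hi J hJ hiJ, sub_self]
    · show z' i J j - z i J j = z' j J i - z j J i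
      rw [hz.2 i hi j hj hij J hJ hiJ hjJ, hz'.2 i hi j hj hij J hJ hiJ hjJ]
  obtain ⟨g, hg, hgd⟩ := g2_extend h A (z' - z) hd Aᶜ
  rw [Finset.union_compl] at hg
  refine ⟨g, hg, fun i hi => ?_⟩
  rw [hgd i hi]
  show z' i = z i + (z' i - z i)
  rw [add_sub_cancel]

private theorem g2_congr (h : ℕ) (A : Finset (Fin k)) (z z' : Fin k → Lab k)
    (hz : ∀ i ∈ A, z i = z' i) (hc : Cl h A z) : Cl h A z' := by
  refine ⟨fun i hi J hJ hiJ => ?_, fun i hi j hj hij J hJ hiJ hjJ => ?_⟩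
  · rw [← hz i hi]
    exact hc.1 i hi J hJ hiJ
  · rw [← hz i hi, ← hz j hj]
    exact hc.2 i hi j hj hij J hJ hiJ hjJ

theorem Cl_congr (h : ℕ) (A : Finset (Fin k)) (z z' : Fin k → Lab k) (hz : ∀ i ∈ A, z i = z' i) :
    Cl h A z ↔ Cl h A z' :=
  ⟨g2_congr h A z z' hz, g2_congr h A z' z fun i hi => (hz i hi).symm⟩

theorem Cl_mono (h : ℕ) (A B : Finset (Fin k)) (hAB : A ⊆ B) (z : Fin k → Lab k) (hz : Cl h B z) :
    Cl h A z :=
  ⟨fun i hi J hJ hiJ => hz.1 i (hAB hi) J hJ hiJ,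
    fun i hi j hj hij J hJ hiJ hjJ => hz.2 i (hAB hi) j (hAB hj) hij J hJ hiJ hjJ⟩

theorem Cl_pair (h : ℕ) (i j : Fin k) (hij : i ≠ j) (z : Fin k → Lab k) :
    Cl h {i, j} z ↔ PairOK h i j (z i) (z j) := by
  have hi : i ∈ ({i, j} : Finset (Fin k)) := by simp
  have hj : j ∈ ({i, j} : Finset (Fin k)) := by simp
  constructor
  · rintro ⟨ha, hb⟩
    exact ⟨ha i hi, ha j hj, fun J hJ h1 h2 => hb i hi j hj hij J hJ h1 h2⟩
  · rintro ⟨ha, hb, hc⟩
    refine ⟨fun l hl J hJ hlJ => ?_, fun l hl m hm hlm J hJ hlJ hmJ => ?_⟩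
    · rcases Finset.mem_insert.1 hl with rfl | hl
      · exact ha J hJ hlJ
      · rw [Finset.mem_singleton] at hl
        subst hl
        exact hb J hJ hlJ
    · rcases Finset.mem_insert.1 hl with rfl | hl
      · rcases Finset.mem_insert.1 hm with rfl | hm
        · exact absurd rfl hlm
        · rw [Finset.mem_singleton] at hm
          subst hm
          exact hc J hJ hlJ hmJ
      · rw [Finset.mem_singleton] at hl
        subst hl
        rcases Finset.mem_insert.1 hm with rfl | hm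
        · exact (hc J hJ hmJ hlJ).symm
        · rw [Finset.mem_singleton] at hm
          exact absurd hm.symm hlm

theorem Cl_of_pairs (h : ℕ) (A : Finset (Fin k)) (hA : 2 ≤ A.card) (z : Fin k → Lab k)
    (hz : ∀ i ∈ A, ∀ j ∈ A, i ≠ j → PairOK h i j (z i) (z j)) : Cl h A z := by
  refine ⟨fun i hi J hJ hiJ => ?_, fun i hi j hj hij J hJ hiJ hjJ =>
    (hz i hi j hj hij).2.2 J hJ hiJ hjJ⟩
  obtain ⟨j, hj, hji⟩ := Finset.exists_mem_ne (by omega : 1 < A.card) i
  exact (hz i hi j hj hji.symm).1 J hJ hiJ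

theorem PairOK_symm (h : ℕ) (i j : Fin k) (a b : Lab k) (hab : PairOK h i j a b) :
    PairOK h j i b a :=
  ⟨hab.2.1, hab.1, fun J hJ h1 h2 => (hab.2.2 J hJ h2 h1).symm⟩

end Pool.Agent.H97.CL
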