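import Pool.Agent.H97.CL.Av

/-!
# Gluing consistent local densities to a signed global density

`glue h loc z = ∑_{#T < h} ∑_{A ⊆ T} (-1)^{#(T \ A)} loc A z`.  If the densities `loc A`, `#A < h`, are
consistent (averaging `loc A` over the coordinates outside `I` gives `loc (A ∩ I)`), then the marginal of
`glue h loc` on every `I` with `#I < h` is `loc I`.  Proof.  The average over the coordinates outside `I`
is `∑_{#T < h} ∑_{A ⊆ T} (-1)^{#(T \ A)} loc (A ∩ I) z`.  If `T ⊄ I`, take `t ∈ T \ I` and pair `A` with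
`A ∪ {t}`: the inner sum is `0`.  The sum over `T ⊆ I` (all have `#T < h`) is `loc I z` by Moebius
inversion: exchange the sums, for `A ⊆ I` the sum `∑_{A ⊆ T ⊆ I} (-1)^{#(T \ A)}` is `1` if `A = I` and `0`
otherwise.
-/

set_option autoImplicit false

namespace Pool.Agent.H97.CL

open Finset

variable {ι V : Type} [Fintype ι] [DecidableEq ι] [Fintype V] [Nonempty V]

/-- the glued signed density -/
noncomputable def glue (h : ℕ) (loc : Finset ι → (ι → V) → ℝ) : (ι → V) → ℝ := fun z =>
  ∑ T ∈ (univ : Finset (Finset ι)).filter (fun T => T.card < h),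
    ∑ A ∈ T.powerset, (-1 : ℝ) ^ (T \ A).card * loc A z

/-- the inner sum over the subsets of `insert a T` -/
private lemma glue_inner {κ : Type} [DecidableEq κ] (g : Finset κ → ℝ) (T : Finset κ) (a : κ)
    (ha : a ∉ T) :
    ∑ A ∈ (insert a T).powerset, (-1 : ℝ) ^ (insert a T \ A).card * g A =
      -(∑ A ∈ T.powerset, (-1 : ℝ) ^ (T \ A).card * g A) +
        ∑ A ∈ T.powerset, (-1 : ℝ) ^ (T \ A).card * g (insert a A) := by
  rw [Finset.sum_powerset_insert ha, ← Finset.sum_neg_distrib]
  refine congr_arg₂ (· + ·) (Finset.sum_congr rfl fun A hA => ?_)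
    (Finset.sum_congr rfl fun A hA => ?_)
  · have hA' : a ∉ A := fun h => ha (Finset.mem_powerset.1 hA h)
    have e : insert a T \ A = insert a (T \ A) := by
      ext x
      simp only [Finset.mem_sdiff, Finset.mem_insert]
      constructor
      · rintro ⟨h1 | h1, h2⟩
        · exact Or.inl h1
        · exact Or.inr ⟨h1, h2⟩
      · rintro (h1 | ⟨h1, h2⟩)
        · exact ⟨Or.inl h1, h1 ▸ hA'⟩
        · exact ⟨Or.inr h1, h2⟩
    rw [e, Finset.card_insert_of_notMem (fun h => ha (Finset.mem_sdiff.1 h).1), pow_succ]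
    ring
  · have e : insert a T \ insert a A = T \ A := by
      ext x
      simp only [Finset.mem_sdiff, Finset.mem_insert, not_or]
      constructor
      · rintro ⟨h1 | h1, h2, h3⟩
        · exact absurd h1 h2
        · exact ⟨h1, h3⟩
      · rintro ⟨h1, h2⟩
        exact ⟨Or.inr h1, fun h => ha (h ▸ h1), h2⟩
    rw [e]

/-- Moebius inversion -/
private lemma glue_mob {κ : Type} [DecidableEq κ] (I : Finset κ) :
    ∀ g : Finset κ → ℝ,
      ∑ T ∈ I.powerset, ∑ A ∈ T.powerset, (-1 : ℝ) ^ (T \ A).card * g A = g I := by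
  induction I using Finset.induction_on with
  | empty => intro g; simp
  | insert a I ha ih =>
    intro g
    rw [Finset.sum_powerset_insert ha]
    have e : ∑ T ∈ I.powerset, ∑ A ∈ (insert a T).powerset,
        (-1 : ℝ) ^ (insert a T \ A).card * g A =
        ∑ T ∈ I.powerset, (-(∑ A ∈ T.powerset, (-1 : ℝ) ^ (T \ A).card * g A) +
        ∑ A ∈ T.powerset, (-1 : ℝ) ^ (T \ A).card * g (insert a A)) :=
      Finset.sum_congr rfl fun T hT =>
        glue_inner g T a (fun h => ha (Finset.mem_powerset.1 hT h))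
    rw [e, Finset.sum_add_distrib, Finset.sum_neg_distrib, ih g, ih (fun A => g (insert a A))]
    ring

/-- the sets `T` not contained in `I` contribute `0` -/
private lemma glue_zero {κ : Type} [DecidableEq κ] (g : Finset κ → ℝ) (T I : Finset κ)
    (hT : ¬ T ⊆ I) :
    ∑ A ∈ T.powerset, (-1 : ℝ) ^ (T \ A).card * g (A ∩ I) = 0 := by
  obtain ⟨t, htT, htI⟩ := Finset.not_subset.1 hT
  have h1 := glue_inner (fun A => g (A ∩ I)) (T.erase t) t (Finset.notMem_erase t T)
  rw [Finset.insert_erase htT] at h1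
  rw [h1]
  have e : ∀ A : Finset κ, insert t A ∩ I = A ∩ I := fun A => by
    rw [Finset.insert_inter_of_notMem htI]
  simp only [e]
  ring

theorem glue_marg (h : ℕ) (loc : Finset ι → (ι → V) → ℝ)
    (hloc : ∀ A I : Finset ι, A.card < h → ∀ z, av (fun y => loc A (I.piecewise z y)) = loc (A ∩ I) z)
    (I : Finset ι) (hI : I.card < h) (z : ι → V) :
    av (fun y => glue h loc (I.piecewise z y)) = loc I z := by
  have h1 : av (fun y => glue h loc (I.piecewise z y)) =
      ∑ T ∈ (univ : Finset (Finset ι)).filter (fun T => T.card < h),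
        ∑ A ∈ T.powerset, (-1 : ℝ) ^ (T \ A).card * loc (A ∩ I) z := by
    unfold glue
    rw [av_sum ((univ : Finset (Finset ι)).filter (fun T => T.card < h))
      (fun T (y : ι → V) => ∑ A ∈ T.powerset, (-1 : ℝ) ^ (T \ A).card * loc A (I.piecewise z y))]
    refine Finset.sum_congr rfl fun T hT => ?_
    rw [av_sum T.powerset
      (fun A (y : ι → V) => (-1 : ℝ) ^ (T \ A).card * loc A (I.piecewise z y))]
    refine Finset.sum_congr rfl fun A hA => ?_
    rw [av_mul_left, hloc A I (lt_of_le_of_lt (Finset.card_le_card (Finset.mem_powerset.1 hA))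
      (Finset.mem_filter.1 hT).2) z]
  rw [h1]
  have h2 : I.powerset ⊆ (univ : Finset (Finset ι)).filter (fun T => T.card < h) := by
    intro T hT
    rw [Finset.mem_filter]
    exact ⟨Finset.mem_univ T, lt_of_le_of_lt (Finset.card_le_card (Finset.mem_powerset.1 hT)) hI⟩
  rw [← Finset.sum_subset h2 (fun T _ hT => glue_zero (fun A => loc A z) T I
    (fun h => hT (Finset.mem_powerset.2 h)))]
  rw [← glue_mob I (fun A => loc A z)]
  refine Finset.sum_congr rfl fun T hT => Finset.sum_congr rfl fun A hA => ?_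
  rw [Finset.inter_eq_left.2 ((Finset.mem_powerset.1 hA).trans (Finset.mem_powerset.1 hT))]

end Pool.Agent.H97.CL
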