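import Pool.Agent.H97.CL.G2

/-!
# The graph of a labelling

Vertices of `Fin n`, `k N ≤ n`: the pointer `(i, v)` is the vertex `i N + v`.  Two pointers with different
blocks are adjacent if their labels are adjacent in the gadget.  `gr_free`: an `h`-clique consists of pointers
with different blocks `i ∈ J`, `#J = h` (`h ≥ 2`), and their labels form a clique on `J` (`Cl_of_pairs`),
contradiction to `no_clique`.  `nonEdges_gr`: the map `i ↦ (i, u i)` preserves the order.
-/

set_option autoImplicit false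

namespace Pool.Agent.H97.CL

open Finset

open Classical in
/-- the number of non-adjacent pairs of elements of `S` -/
noncomputable def nonEdges {n : ℕ} (G : SimpleGraph (Fin n)) (S : Finset (Fin n)) : ℕ :=
  ((S ×ˢ S).filter (fun p => p.1 < p.2 ∧ ¬ G.Adj p.1 p.2)).card

variable {k N n : ℕ}

/-- the vertex of a pointer -/
def pt (hn : k * N ≤ n) (c : Fin k × Fin N) : Fin n :=
  ⟨c.1 * N + c.2, by
    have h1 : (c.1 : ℕ) + 1 ≤ k := c.1.isLt
    have h2 : (c.2 : ℕ) < N := c.2.isLt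
    have h3 : ((c.1 : ℕ) + 1) * N ≤ k * N := Nat.mul_le_mul_right N h1
    have h4 : ((c.1 : ℕ) + 1) * N = (c.1 : ℕ) * N + N := by ring
    omega⟩

theorem pt_inj (hn : k * N ≤ n) : Function.Injective (pt hn) := by
  rintro ⟨c1, c2⟩ ⟨d1, d2⟩ h
  have h' : (c1 : ℕ) * N + c2 = d1 * N + d2 := by
    simpa [pt] using congrArg Fin.val h
  have hN : 0 < N := Fin.pos c2
  have e1 : (c1 : ℕ) = d1 := by
    have a1 : ((c1 : ℕ) * N + c2) / N = c1 := by
      rw [mul_comm, Nat.mul_add_div hN, Nat.div_eq_of_lt c2.isLt, add_zero]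
    have a2 : ((d1 : ℕ) * N + d2) / N = d1 := by
      rw [mul_comm, Nat.mul_add_div hN, Nat.div_eq_of_lt d2.isLt, add_zero]
    rw [← a1, ← a2, h']
  have e2 : (c2 : ℕ) = d2 := by
    rw [e1] at h'
    omega
  exact Prod.ext (Fin.ext e1) (Fin.ext e2)

/-- the vertices of the pointers `u` -/
def SS (hn : k * N ≤ n) (u : Fin k → Fin N) : Finset (Fin n) :=
  univ.image (fun i : Fin k => pt hn (i, u i))

/-- the graph of a labelling -/
def gr (h : ℕ) (hn : k * N ≤ n) (x : Fin k × Fin N → Lab k) : SimpleGraph (Fin n) where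
  Adj p q := ∃ c d : Fin k × Fin N, p = pt hn c ∧ q = pt hn d ∧ c.1 ≠ d.1 ∧
    PairOK h c.1 d.1 (x c) (x d)
  symm := ⟨fun _ _ ⟨c, d, h1, h2, h3, h4⟩ => ⟨d, c, h2, h1, h3.symm, PairOK_symm h _ _ _ _ h4⟩⟩
  loopless := ⟨fun _ ⟨_, _, h1, h2, h3, _⟩ => h3 (by rw [pt_inj hn (h1.symm.trans h2)])⟩

theorem graph_inj (hn : k * N ≤ n) (u : Fin k → Fin N) :
    Function.Injective (fun i : Fin k => pt hn (i, u i)) := by
  intro i j hij
  exact (Prod.ext_iff.1 (pt_inj hn hij)).1

theorem SS_card (hn : k * N ≤ n) (u : Fin k → Fin N) : (SS hn u).card = k := by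
  unfold SS
  rw [Finset.card_image_of_injective _ (graph_inj hn u), Finset.card_univ, Fintype.card_fin]

theorem graph_adj (h : ℕ) (hn : k * N ≤ n) (x : Fin k × Fin N → Lab k) (c d : Fin k × Fin N) :
    (gr h hn x).Adj (pt hn c) (pt hn d) ↔ c.1 ≠ d.1 ∧ PairOK h c.1 d.1 (x c) (x d) := by
  constructor
  · rintro ⟨c', d', h1, h2, h3, h4⟩
    obtain rfl := pt_inj hn h1
    obtain rfl := pt_inj hn h2
    exact ⟨h3, h4⟩
  · rintro ⟨h3, h4⟩
    exact ⟨c, d, rfl, rfl, h3, h4⟩

theorem gr_free (h : ℕ) (h2 : 2 ≤ h) (hn : k * N ≤ n) (x : Fin k × Fin N → Lab k) :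
    (gr h hn x).CliqueFree h := by
  classical
  intro T hT
  have hcard : T.card = h := hT.card_eq
  have hadj : ∀ p ∈ T, ∀ q ∈ T, p ≠ q → (gr h hn x).Adj p q := fun p hp q hq hpq =>
    hT.isClique hp hq hpq
  have hex : ∀ p : Fin n, ∃ c : Fin k × Fin N, p ∈ T → p = pt hn c := by
    intro p
    by_cases hp : p ∈ T
    · obtain ⟨q, hq, hqp⟩ := Finset.exists_mem_ne (s := T) (by omega) p
      obtain ⟨c, d, h1, -⟩ := hadj p hp q hq hqp.symm
      exact ⟨c, fun _ => h1⟩
    · have hT0 : T.Nonempty := Finset.card_pos.1 (by omega)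
      obtain ⟨p', hp'⟩ := hT0
      obtain ⟨q, hq, hqp⟩ := Finset.exists_mem_ne (s := T) (by omega) p'
      obtain ⟨c, d, h1, -⟩ := hadj p' hp' q hq hqp.symm
      exact ⟨c, fun h' => absurd h' hp⟩
  choose c hc using hex
  have hpair : ∀ p ∈ T, ∀ q ∈ T, p ≠ q → (c p).1 ≠ (c q).1 ∧
      PairOK h (c p).1 (c q).1 (x (c p)) (x (c q)) := by
    intro p hp q hq hpq
    have h1 := hadj p hp q hq hpq
    rw [hc p hp, hc q hq] at h1
    exact (graph_adj h hn x _ _).1 h1
  have hinj : Set.InjOn (fun p => (c p).1) (T : Set (Fin n)) := by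
    intro p hp q hq hpq
    by_contra hne
    exact (hpair p hp q hq hne).1 hpq
  have hJ : (T.image (fun p => (c p).1)).card = h := by
    rw [Finset.card_image_of_injOn hinj, hcard]
  have hsel : ∀ i : Fin k, ∃ p : Fin n, i ∈ T.image (fun p => (c p).1) → p ∈ T ∧ (c p).1 = i := by
    intro i
    by_cases hi : i ∈ T.image (fun p => (c p).1)
    · obtain ⟨p, hp, hpi⟩ := Finset.mem_image.1 hi
      exact ⟨p, fun _ => ⟨hp, hpi⟩⟩
    · have hT0 : T.Nonempty := Finset.card_pos.1 (by omega)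
      obtain ⟨p', hp'⟩ := hT0
      exact ⟨p', fun h' => absurd h' hi⟩
  choose p hp using hsel
  refine no_clique h (by omega) (T.image (fun p => (c p).1)) hJ (fun i => x (c (p i))) ?_
  refine Cl_of_pairs h _ (by omega) _ ?_
  intro i hi j hj hij
  obtain ⟨h3, h4⟩ := hp i hi
  obtain ⟨h5, h6⟩ := hp j hj
  have hne : p i ≠ p j := by
    intro h'
    apply hij
    rw [← h4, ← h6, h']
  have h7 := (hpair (p i) h3 (p j) h5 hne).2
  rw [h4, h6] at h7
  exact h7

theorem graph_lt (hn : k * N ≤ n) (u : Fin k → Fin N) (i j : Fin k) :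
    pt hn (i, u i) < pt hn (j, u j) ↔ i < j := by
  have key : ∀ i j : Fin k, i < j → pt hn (i, u i) < pt hn (j, u j) := by
    intro i j hij
    have h1 : (i : ℕ) + 1 ≤ j := hij
    have h2 : ((i : ℕ) + 1) * N ≤ (j : ℕ) * N := Nat.mul_le_mul_right N h1
    have h3 : ((i : ℕ) + 1) * N = (i : ℕ) * N + N := by ring
    have h4 : ((u i : Fin N) : ℕ) < N := (u i).isLt
    rw [Fin.lt_def]
    change (i : ℕ) * N + (u i : ℕ) < (j : ℕ) * N + (u j : ℕ)
    omega
  constructor
  · intro h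
    rcases lt_trichotomy i j with h' | h' | h'
    · exact h'
    · rw [h'] at h
      exact absurd h (lt_irrefl _)
    · exact absurd (key j i h') (not_lt.2 h.le)
  · exact key i j

theorem nonEdges_gr (h : ℕ) (hn : k * N ≤ n) (x : Fin k × Fin N → Lab k) (u : Fin k → Fin N) :
    (nonEdges (gr h hn x) (SS hn u) : ℝ) = cost h (fun i => x (i, u i)) := by
  classical
  have h1 : cost h (fun i => x (i, u i)) =
      (((univ : Finset (Fin k × Fin k)).filter (fun p => p.1 < p.2 ∧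
        ¬ PairOK h p.1 p.2 (x (p.1, u p.1)) (x (p.2, u p.2)))).card : ℝ) := by
    unfold cost
    rw [← Finset.filter_filter, Finset.card_filter]
    push_cast
    refine Finset.sum_congr rfl fun p _ => ?_
    by_cases hp : PairOK h p.1 p.2 (x (p.1, u p.1)) (x (p.2, u p.2))
    · rw [if_pos hp, if_neg (not_not.2 hp)]
    · rw [if_neg hp, if_pos hp]
  have hinj : Function.Injective (fun p : Fin k × Fin k =>
      (pt hn (p.1, u p.1), pt hn (p.2, u p.2))) := by
    rintro ⟨i, j⟩ ⟨i', j'⟩ hp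
    have e1 := (Prod.ext_iff.1 hp).1
    have e2 := (Prod.ext_iff.1 hp).2
    exact Prod.ext (graph_inj hn u e1) (graph_inj hn u e2)
  have h2 : ((SS hn u ×ˢ SS hn u).filter (fun p => p.1 < p.2 ∧ ¬ (gr h hn x).Adj p.1 p.2)) =
      ((univ : Finset (Fin k × Fin k)).filter (fun p => p.1 < p.2 ∧
        ¬ PairOK h p.1 p.2 (x (p.1, u p.1)) (x (p.2, u p.2)))).image
        (fun p : Fin k × Fin k => (pt hn (p.1, u p.1), pt hn (p.2, u p.2))) := by
    ext ⟨a, b⟩
    rw [Finset.mem_filter, Finset.mem_product, Finset.mem_image]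
    constructor
    · rintro ⟨⟨ha, hb⟩, hlt, hna⟩
      obtain ⟨i, -, rfl⟩ := Finset.mem_image.1 ha
      obtain ⟨j, -, rfl⟩ := Finset.mem_image.1 hb
      have hij : i < j := (graph_lt hn u i j).1 hlt
      refine ⟨(i, j), Finset.mem_filter.2 ⟨Finset.mem_univ _, hij, fun hok => hna ?_⟩, rfl⟩
      exact (graph_adj h hn x _ _).2 ⟨hij.ne, hok⟩
    · rintro ⟨⟨i, j⟩, hij, heq⟩
      obtain ⟨-, hlt, hok⟩ := Finset.mem_filter.1 hij
      have e1 := (Prod.ext_iff.1 heq).1
      have e2 := (Prod.ext_iff.1 heq).2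
      change pt hn (i, u i) = a at e1
      change pt hn (j, u j) = b at e2
      rw [← e1, ← e2]
      refine ⟨⟨Finset.mem_image.2 ⟨i, Finset.mem_univ _, rfl⟩,
        Finset.mem_image.2 ⟨j, Finset.mem_univ _, rfl⟩⟩, (graph_lt hn u i j).2 hlt, fun hadj => ?_⟩
      exact hok ((graph_adj h hn x _ _).1 hadj).2
  rw [h1]
  unfold nonEdges
  rw [← Finset.card_image_of_injective _ hinj, ← h2]

end Pool.Agent.H97.CL
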