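import Pool.Agent.H97.CL.Ops

/-!
# The part of high degree in a list of coordinates

`Hop l n f`: the part of `f` that has degree at least `n` in the coordinates of the list `l`
(recursion: `Hop (c :: l) (n+1) f = E1 c (Hop l (n+1) (E1 c f)) + (1 - E1 c) (Hop l n ((1 - E1 c) f))`).
`Hop_low`: `f - Hop l (n+1) f` has degree at most `n` in the coordinates of `l` (`l` without repetitions).
Proof by induction over `l`: with `f₀ = E1 c f`, `f₁ = f - E1 c f` (`E1 c f₀ = f₀`, `E1 c f₁ = 0`)
`f - Hop (c :: l) (n+1) f = E1 c (f₀ - Hop l (n+1) f₀) + (1 - E1 c) (f₁ - Hop l n f₁)`.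
The first term does not depend on the coordinate `c` and has degree at most `n` in `l`.  The second is `0` for
`n = 0`; for `n = n' + 1`, `f₁ - Hop l (n'+1) f₁` has degree at most `n'` in `l`.
-/

set_option autoImplicit false

namespace Pool.Agent.H97.CL

open Finset

variable {ι V : Type} [Fintype ι] [DecidableEq ι] [Fintype V] [Nonempty V]

/-- the part of degree at least `n` in the coordinates of the list -/
noncomputable def Hop : List ι → ℕ → ((ι → V) → ℝ) → ((ι → V) → ℝ)
  | _, 0, f => f
  | [], _ + 1, _ => 0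
  | c :: l, n + 1, f =>
      E1 c (Hop l (n + 1) (E1 c f)) + (Hop l n (f - E1 c f) - E1 c (Hop l n (f - E1 c f)))

private theorem hop_zero (l : List ι) (f : (ι → V) → ℝ) : Hop l 0 f = f := by
  cases l <;> rfl

private theorem hop_nil (n : ℕ) (f : (ι → V) → ℝ) : Hop ([] : List ι) (n + 1) f = 0 := rfl

private theorem hop_cons (c : ι) (l : List ι) (n : ℕ) (f : (ι → V) → ℝ) :
    Hop (c :: l) (n + 1) f =
      E1 c (Hop l (n + 1) (E1 c f)) + (Hop l n (f - E1 c f) - E1 c (Hop l n (f - E1 c f))) := rfl

theorem Hop_add (l : List ι) (n : ℕ) (f g : (ι → V) → ℝ) :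
    Hop l n (f + g) = Hop l n f + Hop l n g := by
  induction l generalizing n f g with
  | nil =>
    cases n with
    | zero => rfl
    | succ n => rw [hop_nil, hop_nil, hop_nil, add_zero]
  | cons c l ih =>
    cases n with
    | zero => rfl
    | succ n =>
      rw [hop_cons, hop_cons, hop_cons, E1_add, ih (n + 1),
        show f + g - (E1 c f + E1 c g) = (f - E1 c f) + (g - E1 c g) by abel, ih n, E1_add, E1_add]
      abel

theorem Hop_smul (l : List ι) (n : ℕ) (a : ℝ) (f : (ι → V) → ℝ) :
    Hop l n (a • f) = a • Hop l n f := by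
  induction l generalizing n f with
  | nil =>
    cases n with
    | zero => rfl
    | succ n => rw [hop_nil, hop_nil, smul_zero]
  | cons c l ih =>
    cases n with
    | zero => rfl
    | succ n =>
      rw [hop_cons, hop_cons, E1_smul, ih (n + 1), ← smul_sub, ih n, E1_smul, E1_smul, smul_add,
        smul_sub]

private theorem hop_dep_mono {A B : Finset ι} (hAB : A ⊆ B) {f : (ι → V) → ℝ} (hf : DepOn A f) :
    DepOn B f := fun x y h => hf x y fun i hi => h i (hAB hi)

private theorem hop_E1_sum {α : Type} (c : ι) (s : Finset α) (F : α → (ι → V) → ℝ) :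
    E1 c (∑ a ∈ s, F a) = ∑ a ∈ s, E1 c (F a) := by
  classical
  induction s using Finset.induction_on with
  | empty => rw [Finset.sum_empty, Finset.sum_empty, E1_zero]
  | insert a s ha ih => rw [Finset.sum_insert ha, Finset.sum_insert ha, E1_add, ih]

private theorem hop_ins {c : ι} {S : Finset ι} (hc : c ∉ S) {n : ℕ} {g : (ι → V) → ℝ}
    (hg : LowDeg S n g) : LowDeg (insert c S) n (E1 c g) := by
  obtain ⟨F, hF, hgF⟩ := hg
  have h1 : g = ∑ C ∈ S.powerset.filter (fun C => C.card ≤ n), F C := by
    funext x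
    rw [hgF, Finset.sum_apply]
  rw [h1, hop_E1_sum]
  refine LowDeg_sum _ _ _ _ fun C hC => ?_
  rw [Finset.mem_filter, Finset.mem_powerset] at hC
  refine LowDeg_of_DepOn _ C n (hC.1.trans (Finset.subset_insert _ _)) hC.2 _
    (hop_dep_mono ?_ (DepOn_E1 c _ _ (hF C)))
  intro x hx
  rw [Finset.mem_erase, Finset.mem_union, Finset.mem_compl] at hx
  rw [Finset.mem_union, Finset.mem_compl, Finset.mem_insert]
  rcases hx.2 with h | h
  · left
    rintro (h' | h')
    · exact hx.1 h'
    · exact h h'
  · right
    exact h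

private theorem hop_ins2 (c : ι) {S : Finset ι} {n : ℕ} {g : (ι → V) → ℝ}
    (hg : LowDeg S n g) : LowDeg (insert c S) (n + 1) g := by
  obtain ⟨F, hF, hgF⟩ := hg
  have h1 : g = ∑ C ∈ S.powerset.filter (fun C => C.card ≤ n), F C := by
    funext x
    rw [hgF, Finset.sum_apply]
  rw [h1]
  refine LowDeg_sum _ _ _ _ fun C hC => ?_
  rw [Finset.mem_filter, Finset.mem_powerset] at hC
  refine LowDeg_of_DepOn _ (insert c C) (n + 1) (Finset.insert_subset_insert _ hC.1)
    ((Finset.card_insert_le _ _).trans (Nat.succ_le_succ hC.2)) _ (hop_dep_mono ?_ (hF C))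
  intro x hx
  rw [Finset.mem_union, Finset.mem_compl] at hx
  rw [Finset.mem_union, Finset.mem_compl, Finset.mem_insert, Finset.mem_insert]
  rcases hx with h | h
  · by_cases hxc : x = c
    · right; left; exact hxc
    · left
      rintro (h' | h')
      · exact hxc h'
      · exact h h'
  · right; right; exact h

theorem Hop_low (l : List ι) (hl : l.Nodup) (n : ℕ) (f : (ι → V) → ℝ) :
    LowDeg l.toFinset n (f - Hop l (n + 1) f) := by
  induction l generalizing n f with
  | nil =>
    rw [hop_nil, sub_zero]
    refine LowDeg_of_DepOn _ ∅ n (Finset.empty_subset _) (Nat.zero_le _) f ?_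
    intro x y hxy
    have : x = y := by
      funext i
      exact hxy i (by simp)
    rw [this]
  | cons c l ih =>
    rw [List.nodup_cons] at hl
    have hc : c ∉ l.toFinset := by
      rw [List.mem_toFinset]
      exact hl.1
    have e1 : f - Hop (c :: l) (n + 1) f =
        E1 c (E1 c f - Hop l (n + 1) (E1 c f)) +
          (((f - E1 c f) - Hop l n (f - E1 c f)) -
            E1 c ((f - E1 c f) - Hop l n (f - E1 c f))) := by
      rw [hop_cons, E1_sub c (E1 c f), E1_sub c (f - E1 c f), E1_sub c f, E1_idem]
      abel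
    rw [e1, List.toFinset_cons]
    refine LowDeg_add _ _ _ _ (hop_ins hc (ih hl.2 n (E1 c f))) ?_
    cases n with
    | zero =>
      rw [hop_zero, sub_self, E1_zero, sub_zero]
      exact LowDeg_zero _ _
    | succ n =>
      have h := ih hl.2 n (f - E1 c f)
      exact LowDeg_sub _ _ _ _ (hop_ins2 c h) (LowDeg_E1 _ _ _ _ (hop_ins2 c h))

theorem nrm_Hop_le (l : List ι) (n : ℕ) (f : (ι → V) → ℝ) : nrm (Hop l n f) ≤ nrm f := by
  induction l generalizing n f with
  | nil =>
    cases n with
    | zero => exact le_refl _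
    | succ n =>
      rw [hop_nil]
      have h0 : nrm (0 : (ι → V) → ℝ) = 0 := by
        unfold nrm
        rw [av_congr (g := fun _ => (0 : ℝ)) (fun x => by simp), av_const]
      rw [h0]
      exact nrm_nonneg f
  | cons c l ih =>
    cases n with
    | zero => exact le_refl _
    | succ n =>
      rw [hop_cons, nrm_add_E1, nrm_split c f]
      exact add_le_add ((nrm_E1_le _ _).trans (ih _ _)) ((nrm_sub_E1_le _ _).trans (ih _ _))

end Pool.Agent.H97.CL
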