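import Pool.Agent.H97.CL.Ops

/-!
# Total influence is at most degree

Induction over `S` (for all `m`, `f`): `S = insert c S'`, `f₀ = E1 c f ∈ LowDeg S' m`,
`f₁ = f - E1 c f`: all terms `F C` with `c ∉ C` disappear, so `f₁ ∈ LowDeg S' (m-1)` (and `f₁ = 0` if `m = 0`).
`∑_{d ∈ S} nrm (f - E1 d f) = nrm f₁ + ∑_{d ∈ S'} (nrm (f₀ - E1 d f₀) + nrm (f₁ - E1 d f₁))`
(`E1_comm`, `nrm_split` for the coordinate `c`) `≤ nrm f₁ + m nrm f₀ + (m-1) nrm f₁ = m nrm f`.
-/

set_option autoImplicit false

namespace Pool.Agent.H97.CL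

open Finset

variable {ι V : Type} [Fintype ι] [DecidableEq ι] [Fintype V] [Nonempty V]

omit [Fintype ι] [DecidableEq ι] [Fintype V] [Nonempty V] in
private theorem infl_dep_mono {A B : Finset ι} {f : (ι → V) → ℝ} (h : DepOn A f) (hAB : A ⊆ B) :
    DepOn B f := fun x y hxy => h x y (fun i hi => hxy i (hAB hi))

omit [Fintype ι] [DecidableEq ι] [Fintype V] [Nonempty V] in
private theorem infl_dep_sub {A : Finset ι} {f g : (ι → V) → ℝ} (h : DepOn A f) (h' : DepOn A g) :
    DepOn A (f - g) := by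
  intro x y hxy
  rw [Pi.sub_apply, Pi.sub_apply, h x y hxy, h' x y hxy]

private theorem infl_E1_sum {α : Type} (c : ι) (s : Finset α) (F : α → (ι → V) → ℝ) :
    E1 c (∑ a ∈ s, F a) = ∑ a ∈ s, E1 c (F a) := by
  classical
  induction s using Finset.induction_on with
  | empty => rw [Finset.sum_empty, Finset.sum_empty, E1_zero]
  | insert a s ha ih => rw [Finset.sum_insert ha, Finset.sum_insert ha, E1_add, ih]

private theorem infl_step (S : Finset ι) (c : ι) (hc : c ∉ S) (m : ℕ) (f : (ι → V) → ℝ)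
    (hf : LowDeg (insert c S) m f) :
    LowDeg S m (E1 c f) ∧ LowDeg S (m - 1) (f - E1 c f) ∧ (m = 0 → f - E1 c f = 0) := by
  obtain ⟨F, hF1, hF2⟩ := hf
  have hfs : f = ∑ C ∈ (insert c S).powerset.filter (fun C => C.card ≤ m), F C := by
    funext x
    rw [hF2 x, Finset.sum_apply]
  have hnot : ∀ C : Finset ι, c ∉ C → E1 c (F C) = F C := by
    intro C hcC
    refine E1_of_DepOn c _ ?_ (F C) (hF1 C)
    rw [Finset.mem_union, not_or, Finset.mem_compl, not_not]
    exact ⟨Finset.mem_insert_self c S, hcC⟩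
  have hsub : f - E1 c f = ∑ C ∈ (insert c S).powerset.filter (fun C => C.card ≤ m),
      (F C - E1 c (F C)) := by
    rw [Finset.sum_sub_distrib, ← infl_E1_sum, ← hfs]
  refine ⟨?_, ?_, ?_⟩
  · rw [hfs, infl_E1_sum]
    refine LowDeg_sum _ S m _ ?_
    intro C hC
    obtain ⟨hC1, hC2⟩ := Finset.mem_filter.mp hC
    rw [Finset.mem_powerset] at hC1
    refine LowDeg_of_DepOn S (C.erase c) m ?_ ((Finset.card_le_card (Finset.erase_subset c C)).trans
      hC2) _ (infl_dep_mono (DepOn_E1 c _ _ (hF1 C)) ?_)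
    · intro i hi
      exact (Finset.mem_insert.mp (hC1 (Finset.mem_of_mem_erase hi))).resolve_left
        (Finset.ne_of_mem_erase hi)
    · intro i hi
      have hic := Finset.ne_of_mem_erase hi
      rcases Finset.mem_union.mp (Finset.mem_of_mem_erase hi) with h1 | h1
      · refine Finset.mem_union_left _ ?_
        rw [Finset.mem_compl] at h1 ⊢
        exact fun h2 => h1 (Finset.mem_insert_of_mem h2)
      · exact Finset.mem_union_right _ (Finset.mem_erase.mpr ⟨hic, h1⟩)
  · rw [hsub]
    refine LowDeg_sum _ S (m - 1) _ ?_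
    intro C hC
    obtain ⟨hC1, hC2⟩ := Finset.mem_filter.mp hC
    rw [Finset.mem_powerset] at hC1
    by_cases hcC : c ∈ C
    · refine LowDeg_of_DepOn S (C.erase c) (m - 1) ?_ ?_ _ (infl_dep_mono
        (infl_dep_sub (hF1 C) (infl_dep_mono (DepOn_E1 c _ _ (hF1 C)) (Finset.erase_subset c _))) ?_)
      · intro i hi
        exact (Finset.mem_insert.mp (hC1 (Finset.mem_of_mem_erase hi))).resolve_left
          (Finset.ne_of_mem_erase hi)
      · rw [Finset.card_erase_of_mem hcC]
        omega
      · intro i hi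
        by_cases hic : i = c
        · rw [hic]
          exact Finset.mem_union_left _ (Finset.mem_compl.mpr hc)
        · rcases Finset.mem_union.mp hi with h1 | h1
          · refine Finset.mem_union_left _ ?_
            rw [Finset.mem_compl] at h1 ⊢
            exact fun h2 => h1 (Finset.mem_insert_of_mem h2)
          · exact Finset.mem_union_right _ (Finset.mem_erase.mpr ⟨hic, h1⟩)
    · rw [hnot C hcC, sub_self]
      exact LowDeg_zero S (m - 1)
  · intro hm
    rw [hsub]
    refine Finset.sum_eq_zero ?_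
    intro C hC
    obtain ⟨-, hC2⟩ := Finset.mem_filter.mp hC
    rw [hm, Nat.le_zero, Finset.card_eq_zero] at hC2
    rw [hnot C (by rw [hC2]; exact Finset.notMem_empty c), sub_self]

private theorem infl_nrm_zero : nrm (0 : (ι → V) → ℝ) = 0 := by
  unfold nrm av
  have h : ∀ x : ι → V, (0 : (ι → V) → ℝ) x ^ 2 = 0 := by
    intro x
    rw [Pi.zero_apply]
    norm_num
  rw [Finset.sum_congr rfl (fun x _ => h x), Finset.sum_const_zero, zero_div]

theorem infl (S : Finset ι) (m : ℕ) (f : (ι → V) → ℝ) (hf : LowDeg S m f) :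
    ∑ c ∈ S, nrm (f - E1 c f) ≤ m * nrm f := by
  induction S using Finset.induction_on generalizing m f with
  | empty =>
    rw [Finset.sum_empty]
    exact mul_nonneg (Nat.cast_nonneg m) (nrm_nonneg f)
  | insert c S hc ih =>
    obtain ⟨h0, h1, h2⟩ := infl_step S c hc m f hf
    rw [Finset.sum_insert hc]
    have h3 : ∀ d ∈ S, nrm (f - E1 d f) =
        nrm (E1 c f - E1 d (E1 c f)) + nrm ((f - E1 c f) - E1 d (f - E1 c f)) := by
      intro d _
      rw [nrm_split c (f - E1 d f)]
      have e1 : E1 c (f - E1 d f) = E1 c f - E1 d (E1 c f) := by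
        rw [E1_sub, E1_comm]
      have e2 : f - E1 d f - E1 c (f - E1 d f) = (f - E1 c f) - E1 d (f - E1 c f) := by
        rw [e1, E1_sub]
        abel
      rw [e2, e1]
    rw [Finset.sum_congr rfl h3, Finset.sum_add_distrib]
    have h4 := ih m _ h0
    have h5 := ih (m - 1) _ h1
    have h6 := nrm_split c f
    rcases Nat.eq_zero_or_pos m with hm | hm
    · subst hm
      have h7 := h2 rfl
      rw [h7] at h5 ⊢
      rw [infl_nrm_zero] at h5 ⊢
      rw [mul_zero] at h5
      rw [Nat.cast_zero, zero_mul] at h4 ⊢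
      linarith
    · have h7 : ((m - 1 : ℕ) : ℝ) = (m : ℝ) - 1 := by
        rw [Nat.cast_sub hm, Nat.cast_one]
      rw [h7] at h5
      rw [h6]
      linarith

/-- the same for the sum over a subset of the coordinates -/
theorem infl_sub (S : Finset ι) (m : ℕ) (f : (ι → V) → ℝ) (hf : LowDeg univ m f) :
    ∑ c ∈ S, nrm (f - E1 c f) ≤ m * nrm f := by
  refine le_trans ?_ (infl univ m f hf)
  exact Finset.sum_le_sum_of_subset_of_nonneg (Finset.subset_univ S)
    (fun c _ _ => nrm_nonneg _)

end Pool.Agent.H97.CL
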