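import Pool.Agent.H97.CL.Hop
import Pool.Agent.H97.CL.Infl

/-!
# The high part is small for random pointers

`L` a list of blocks without repetitions, `f` of degree at most `m` in all coordinates.  The average over the
pointers `u` of `nrm (Hop (L.map (i ↦ (i, u i))) n f)` is at most `(#L choose n) (m/N)^n nrm f`.

Induction over `L` (for all `n`, `f`).  `n = 0`: clear.  `L = []`: clear.  `L = i :: L'`, `n + 1`, with
`c = (i, u i)`: `nrm (Hop ..) = nrm (E1 c (Hop l (n+1) (E1 c f))) + nrm ((1 - E1 c)(Hop l n (f - E1 c f)))`
(`nrm_add_E1`) `≤ nrm (Hop l (n+1) (E1 c f)) + nrm (Hop l n (f - E1 c f))`.  The list `l` for `L'` does not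
depend on `u i` (`i ∉ L'`), so `av_u` can be replaced by `av_u av_v` with `u i := v`
(`av_update` for `ι = Fin k`, `V = Fin N`), and the induction hypothesis for fixed `v` gives
`≤ av_v [(#L' choose n+1) (m/N)^{n+1} nrm (E1 (i,v) f) + (#L' choose n) (m/N)^n nrm (f - E1 (i,v) f)]`; the
second sum over `v` is at most `m nrm f` by `infl_sub`.
-/

set_option autoImplicit false

namespace Pool.Agent.H97.CL

open Finset

variable {k N : ℕ} {V : Type} [Fintype V] [Nonempty V]

omit [Nonempty V] in
private lemma hopav_zero (l : List (Fin k × Fin N)) (f : (Fin k × Fin N → V) → ℝ) :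
    Hop l 0 f = f := by
  cases l <;> rfl

private lemma hopav_map (L : List (Fin k)) (i : Fin k) (hi : i ∉ L) (u : Fin k → Fin N)
    (v : Fin N) :
    L.map (fun j => (j, Function.update u i v j)) = L.map (fun j => (j, u j)) := by
  refine List.map_congr_left (fun j hj => ?_)
  have hji : j ≠ i := fun e => hi (e ▸ hj)
  rw [Function.update_of_ne hji]

private lemma hopav_row (hN : 0 < N) (i : Fin k) (m : ℕ)
    (f : (Fin k × Fin N → V) → ℝ) (hf : LowDeg univ m f) :
    av (fun v : Fin N => nrm (f - E1 (i, v) f)) ≤ (m : ℝ) / N * nrm f := by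
  have h1 := infl_sub ((univ : Finset (Fin N)).map
    ⟨fun v => ((i, v) : Fin k × Fin N), fun a b h => (Prod.mk.inj h).2⟩) m f hf
  rw [Finset.sum_map] at h1
  unfold av
  rw [Fintype.card_fin, div_mul_eq_mul_div]
  have hN' : (0 : ℝ) < N := by exact_mod_cast hN
  exact div_le_div_of_nonneg_right h1 hN'.le

theorem hop_av (hN : 0 < N) (L : List (Fin k)) (hL : L.Nodup) (n m : ℕ)
    (f : (Fin k × Fin N → V) → ℝ) (hf : LowDeg univ m f) :
    av (fun u : Fin k → Fin N => nrm (Hop (L.map (fun i => (i, u i))) n f)) ≤
      (L.length.choose n) * ((m : ℝ) / N) ^ n * nrm f := by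
  have : Nonempty (Fin N) := ⟨⟨0, hN⟩⟩
  induction L generalizing n f with
  | nil =>
    cases n with
    | zero =>
      simp only [List.map_nil, hopav_zero, List.length_nil, Nat.choose_self, Nat.cast_one,
        pow_zero, one_mul, mul_one]
      exact (av_const _).le
    | succ n =>
      have h0 : ∀ u : Fin k → Fin N,
          nrm (Hop (([] : List (Fin k)).map (fun i => (i, u i))) (n + 1) f) = 0 := by
        intro u
        show nrm (0 : (Fin k × Fin N → V) → ℝ) = 0
        unfold nrm
        have : ∀ x : Fin k × Fin N → V, ((0 : (Fin k × Fin N → V) → ℝ) x) ^ 2 = 0 := by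
          intro x; simp
        rw [av_congr this, av_const]
      rw [av_congr h0, av_const]
      simp
  | cons i L ih =>
    cases n with
    | zero =>
      simp only [hopav_zero, Nat.choose_zero_right, Nat.cast_one, pow_zero, one_mul, mul_one]
      exact (av_const _).le
    | succ n =>
      have hi : i ∉ L := (List.nodup_cons.mp hL).1
      have hL' : L.Nodup := (List.nodup_cons.mp hL).2
      -- the pointwise bound
      have h1 : ∀ u : Fin k → Fin N,
          nrm (Hop ((i :: L).map (fun j => (j, u j))) (n + 1) f) ≤
            nrm (Hop (L.map (fun j => (j, u j))) (n + 1) (E1 (i, u i) f)) +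
            nrm (Hop (L.map (fun j => (j, u j))) n (f - E1 (i, u i) f)) := by
        intro u
        show nrm (E1 (i, u i) (Hop (L.map (fun j => (j, u j))) (n + 1) (E1 (i, u i) f)) +
          (Hop (L.map (fun j => (j, u j))) n (f - E1 (i, u i) f) -
            E1 (i, u i) (Hop (L.map (fun j => (j, u j))) n (f - E1 (i, u i) f)))) ≤ _
        rw [nrm_add_E1]
        exact add_le_add (nrm_E1_le _ _) (nrm_sub_E1_le _ _)
      refine (av_mono h1).trans ?_
      -- resample `u i`
      rw [← av_update i (fun u : Fin k → Fin N =>
        nrm (Hop (L.map (fun j => (j, u j))) (n + 1) (E1 (i, u i) f)) +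
            nrm (Hop (L.map (fun j => (j, u j))) n (f - E1 (i, u i) f)))]
      have h2 : ∀ u : Fin k → Fin N, av (fun v : Fin N =>
          nrm (Hop (L.map (fun j => (j, Function.update u i v j))) (n + 1)
            (E1 (i, Function.update u i v i) f)) +
          nrm (Hop (L.map (fun j => (j, Function.update u i v j))) n
            (f - E1 (i, Function.update u i v i) f))) =
          av (fun v : Fin N => nrm (Hop (L.map (fun j => (j, u j))) (n + 1) (E1 (i, v) f)) +
            nrm (Hop (L.map (fun j => (j, u j))) n (f - E1 (i, v) f))) := by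
        intro u
        refine av_congr (fun v => ?_)
        rw [hopav_map L i hi u v, Function.update_self]
      rw [av_congr h2, av_comm]
      -- apply the induction hypothesis for fixed `v`
      have h3 : ∀ v : Fin N, av (fun u : Fin k → Fin N =>
          nrm (Hop (L.map (fun j => (j, u j))) (n + 1) (E1 (i, v) f)) +
            nrm (Hop (L.map (fun j => (j, u j))) n (f - E1 (i, v) f))) ≤
          (L.length.choose (n + 1)) * ((m : ℝ) / N) ^ (n + 1) * nrm f +
          (L.length.choose n) * ((m : ℝ) / N) ^ n * nrm (f - E1 (i, v) f) := by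
        intro v
        rw [av_add]
        have hE : LowDeg univ m (E1 (i, v) f) := LowDeg_E1 _ _ _ _ hf
        have ha := ih hL' (n + 1) (E1 (i, v) f) hE
        have hb := ih hL' n (f - E1 (i, v) f) (LowDeg_sub _ _ _ _ hf hE)
        have hc : ((L.length.choose (n + 1) : ℕ) : ℝ) * ((m : ℝ) / N) ^ (n + 1) *
            nrm (E1 (i, v) f) ≤ (L.length.choose (n + 1)) * ((m : ℝ) / N) ^ (n + 1) * nrm f :=
          mul_le_mul_of_nonneg_left (nrm_E1_le _ _) (by positivity)
        exact add_le_add (ha.trans hc) hb
      refine (av_mono h3).trans ?_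
      rw [av_add, av_const, av_mul_left]
      have h4 := hopav_row hN i m f hf
      have h5 : ((L.length.choose n : ℕ) : ℝ) * ((m : ℝ) / N) ^ n *
          av (fun v : Fin N => nrm (f - E1 (i, v) f)) ≤
          (L.length.choose n) * ((m : ℝ) / N) ^ n * ((m : ℝ) / N * nrm f) :=
        mul_le_mul_of_nonneg_left h4 (by positivity)
      refine (add_le_add_right h5 _).trans (le_of_eq ?_)
      rw [List.length_cons, Nat.choose_succ_succ]
      push_cast
      ring

end Pool.Agent.H97.CL
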