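import Pool.Agent.H97.CL.Conc

/-!
# The key lemma for one slack function

Induction over the finite set `U` of pointers: there is a set `Bad_U` of labellings with at most
`#U k exp(-η²/(8B²N^{-σ}))` of all, such that off `Bad_U`
`∑_{u ∈ U} b u W(rd x u) ≥ -k η b(U) - B N^{-τ} b(all)`.
If `b(U) < N^{-τ} b(all)`: trivial, `Bad_U = ∅`.  Otherwise take `(I, α)` with `#I` maximal such that
`b(U ∩ [u = α on I]) ≥ N^{-(1-σ)#I}... ` precisely (with `κ = N^{-σ}`):
`b(U ∩ [u = α on I]) ≥ κ^{#I} b(U)` (`I = ∅` qualifies).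
As `b(u) ≤ K/N^k b(all)`, `b([u = α on I]) ≤ K N^{-#I} b(all)`, so `κ^{#I} N^{-τ} ≤ K N^{-#I}`, i.e.
`N^{(1-σ)#I} ≤ K N^τ < N^{(1-σ)h}`, so `#I < h`.  Let `S = U ∩ [u = α on I]`, `b(S) > 0`.  By maximality
`b(S ∩ [u i = v]) < κ^{#I+1} b(U) ≤ κ b(S)` for `i ∉ I`.  `conc` with `J = Iᶜ` and `b 1_S`: off a set of
relative size `k exp(-η²/(8B²κ))`, `∑_{u ∈ S} b u W(rd x u) ≥ ∑_{u∈S} b u M(x) - k η b(S)`, where
`M = av_y W(J.piecewise y (rd x u)) ≥ 0` (a marginal on `I`, `#I < h`).  Then the induction hypothesis for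
`U \ S`.
-/

set_option autoImplicit false

namespace Pool.Agent.H97.CL

open Finset

variable {k N : ℕ} {V : Type} [Fintype V] [Nonempty V]

private theorem key_agree (I : Finset (Fin k)) (α : Fin k → Fin N) :
    ((univ : Finset (Fin k → Fin N)).filter (fun u => ∀ i ∈ I, u i = α i)).card * N ^ I.card
      = N ^ k := by
  classical
  have h1 : (univ : Finset (Fin k → Fin N)).filter (fun u => ∀ i ∈ I, u i = α i) =
      Fintype.piFinset (fun i => if i ∈ I then {α i} else univ) := by
    ext u
    simp only [mem_filter, mem_univ, true_and, Fintype.mem_piFinset]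
    constructor
    · intro h i
      by_cases hi : i ∈ I
      · rw [if_pos hi, mem_singleton]
        exact h i hi
      · rw [if_neg hi]
        exact mem_univ _
    · intro h i hi
      have := h i
      rw [if_pos hi, mem_singleton] at this
      exact this
  rw [h1, Fintype.card_piFinset]
  have h2 : ∀ i : Fin k, (if i ∈ I then ({α i} : Finset (Fin N)) else univ).card =
      if i ∈ I then 1 else N := by
    intro i
    split_ifs
    · exact card_singleton _
    · rw [card_univ, Fintype.card_fin]
  simp only [h2]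
  rw [prod_ite, prod_const_one, one_mul, prod_const, ← pow_add]
  congr 1
  have h3 : (univ.filter (fun i : Fin k => i ∉ I)) = Iᶜ := by
    ext i
    simp
  rw [h3, card_compl, Fintype.card_fin]
  have : I.card ≤ k := by
    have := card_le_univ I
    rwa [Fintype.card_fin] at this
  omega

private theorem key_ind (h : ℕ) (W : (Fin k → V) → ℝ) (B : ℝ) (hB : 0 < B) (hW : ∀ z, |W z| ≤ B)
    (hm : ∀ I : Finset (Fin k), I.card < h → ∀ z, 0 ≤ av (fun y => W (I.piecewise z y)))
    (hN : 2 ≤ N) (σ τ K : ℝ) (hσ : 0 < σ) (hσ1 : σ < 1) (hτ : 0 ≤ τ)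
    (hK : K * (N : ℝ) ^ τ < (N : ℝ) ^ ((1 - σ) * h))
    (b : (Fin k → Fin N) → ℝ) (hb : ∀ u, 0 ≤ b u) (hbK : ∀ u, b u ≤ K / (N : ℝ) ^ k * ∑ u, b u)
    (η : ℝ) (hη : 0 < η) (U : Finset (Fin k → Fin N)) :
    ∃ Bad : Finset (Fin k × Fin N → V),
      (Bad.card : ℝ) ≤ U.card * (k * (Real.exp (-(η ^ 2 / (8 * B ^ 2 * (N : ℝ) ^ (-σ)))) *
        Fintype.card (Fin k × Fin N → V))) ∧
      ∀ x, x ∉ Bad → -(k * η * ∑ u ∈ U, b u) - B * (N : ℝ) ^ (-τ) * ∑ u, b u ≤
        ∑ u ∈ U, b u * W (rd x u) := by
  classical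
  have hN1 : (1 : ℝ) < N := by exact_mod_cast (by omega : 1 < N)
  have hN0 : (0 : ℝ) < N := by linarith
  have hT0 : 0 ≤ ∑ u, b u := sum_nonneg fun u _ => hb u
  have hNτ : 0 < (N : ℝ) ^ (-τ) := Real.rpow_pos_of_pos hN0 _
  induction U using Finset.strongInduction with
  | H U ih =>
    have hU0 : 0 ≤ ∑ u ∈ U, b u := sum_nonneg fun u _ => hb u
    by_cases hU : ∑ u ∈ U, b u ≤ (N : ℝ) ^ (-τ) * ∑ u, b u
    · refine ⟨∅, by rw [card_empty]; push_cast; positivity, fun x _ => ?_⟩
      have h1 : -(B * ∑ u ∈ U, b u) ≤ ∑ u ∈ U, b u * W (rd x u) := by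
        rw [mul_sum, ← sum_neg_distrib]
        apply sum_le_sum
        intro u _
        have h2 := (abs_le.1 (hW (rd x u))).1
        nlinarith [hb u]
      have h3 : 0 ≤ k * η * ∑ u ∈ U, b u := by positivity
      have h4 : B * ∑ u ∈ U, b u ≤ B * ((N : ℝ) ^ (-τ) * ∑ u, b u) :=
        mul_le_mul_of_nonneg_left hU hB.le
      linarith
    · push Not at hU
      set κ : ℝ := (N : ℝ) ^ (-σ) with hκd
      have hκ : 0 < κ := Real.rpow_pos_of_pos hN0 _
      have hUpos : 0 < ∑ u ∈ U, b u := lt_of_le_of_lt (by positivity) hU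
      have hT : 0 < ∑ u, b u :=
        lt_of_lt_of_le hUpos (sum_le_univ_sum_of_nonneg hb)
      -- the maximal set of fixed coordinates
      obtain ⟨I, hI, hmax⟩ := Finset.exists_max_image
        ((univ : Finset (Finset (Fin k))).filter (fun I => ∃ α : Fin k → Fin N,
          κ ^ I.card * ∑ u ∈ U, b u ≤ ∑ u ∈ U.filter (fun u => ∀ i ∈ I, u i = α i), b u))
        Finset.card ⟨∅, by
          rw [mem_filter]
          refine ⟨mem_univ _, fun _ => ⟨0, by omega⟩, ?_⟩
          simp⟩
      obtain ⟨-, α, hα⟩ := mem_filter.1 hI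
      set S : Finset (Fin k → Fin N) := U.filter (fun u => ∀ i ∈ I, u i = α i) with hS
      have hSpos : 0 < ∑ u ∈ S, b u := lt_of_lt_of_le (by positivity) hα
      have hSne : S.Nonempty := by
        by_contra hc
        rw [not_nonempty_iff_eq_empty] at hc
        rw [hc, sum_empty] at hSpos
        exact lt_irrefl _ hSpos
      -- the size of `I`
      have hIh : I.card < h := by
        set A : Finset (Fin k → Fin N) := univ.filter (fun u => ∀ i ∈ I, u i = α i) with hA
        have h1 : ∑ u ∈ S, b u ≤ A.card * (K / (N : ℝ) ^ k * ∑ u, b u) := by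
          calc ∑ u ∈ S, b u ≤ ∑ u ∈ A, b u := by
                apply sum_le_sum_of_subset_of_nonneg
                · intro u hu
                  rw [hA, mem_filter]
                  exact ⟨mem_univ _, (mem_filter.1 hu).2⟩
                · intro u _ _
                  exact hb u
            _ ≤ ∑ _u ∈ A, (K / (N : ℝ) ^ k * ∑ u, b u) := sum_le_sum fun u _ => hbK u
            _ = A.card * (K / (N : ℝ) ^ k * ∑ u, b u) := by rw [sum_const, nsmul_eq_mul]
        have h2 : (A.card : ℝ) * (N : ℝ) ^ I.card = (N : ℝ) ^ k := by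
          exact_mod_cast key_agree I α
        have h3 : κ ^ I.card * ((N : ℝ) ^ (-τ) * ∑ u, b u) <
            A.card * (K / (N : ℝ) ^ k * ∑ u, b u) :=
          calc κ ^ I.card * ((N : ℝ) ^ (-τ) * ∑ u, b u) < κ ^ I.card * ∑ u ∈ U, b u :=
                mul_lt_mul_of_pos_left hU (by positivity)
            _ ≤ _ := hα.trans h1
        have h4 : κ ^ I.card * (N : ℝ) ^ (-τ) * (N : ℝ) ^ I.card < K := by
          have h5 : (κ ^ I.card * (N : ℝ) ^ (-τ)) * (∑ u, b u) <
              (A.card * (K / (N : ℝ) ^ k)) * ∑ u, b u := by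
            calc _ = κ ^ I.card * ((N : ℝ) ^ (-τ) * ∑ u, b u) := by ring
              _ < _ := h3
              _ = _ := by ring
          have h6 := lt_of_mul_lt_mul_right h5 hT.le
          have hNi : 0 < (N : ℝ) ^ I.card := by positivity
          calc κ ^ I.card * (N : ℝ) ^ (-τ) * (N : ℝ) ^ I.card
              < A.card * (K / (N : ℝ) ^ k) * (N : ℝ) ^ I.card := mul_lt_mul_of_pos_right h6 hNi
            _ = (A.card * (N : ℝ) ^ I.card) * (K / (N : ℝ) ^ k) := by ring
            _ = K := by
              rw [h2]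
              field_simp
        have h7 : (N : ℝ) ^ ((1 - σ) * I.card) < (N : ℝ) ^ ((1 - σ) * h) := by
          refine lt_trans ?_ hK
          have hNτ' : 0 < (N : ℝ) ^ τ := Real.rpow_pos_of_pos hN0 _
          have h8 : (N : ℝ) ^ ((1 - σ) * I.card) =
              κ ^ I.card * (N : ℝ) ^ (-τ) * (N : ℝ) ^ I.card * (N : ℝ) ^ τ := by
            have e1 : κ ^ I.card = (N : ℝ) ^ (-σ * I.card) :=
              (Real.rpow_mul_natCast hN0.le _ _).symm
            rw [e1, ← Real.rpow_natCast (N : ℝ) I.card, ← Real.rpow_add hN0, ← Real.rpow_add hN0,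
              ← Real.rpow_add hN0]
            congr 1
            ring
          rw [h8]
          exact mul_lt_mul_of_pos_right h4 hNτ'
        have h9 := (Real.rpow_lt_rpow_left_iff hN1).1 h7
        have h10 : (0 : ℝ) < 1 - σ := by linarith
        have h11 := lt_of_mul_lt_mul_left h9 h10.le
        exact_mod_cast h11
      -- spreadness of `S` in the other coordinates
      have hsp : ∀ j ∈ Iᶜ, ∀ v, ∑ u ∈ univ.filter (fun u : Fin k → Fin N => u j = v),
          (if u ∈ S then b u else 0) ≤ κ * ∑ u, (if u ∈ S then b u else 0) := by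
        intro j hj v
        have hj' : j ∉ I := by simpa using hj
        have e1 : ∑ u, (if u ∈ S then b u else 0) = ∑ u ∈ S, b u := by
          rw [← sum_filter]
          congr 1
          ext u
          simp
        have e2 : ∑ u ∈ univ.filter (fun u : Fin k → Fin N => u j = v),
            (if u ∈ S then b u else 0) =
            ∑ u ∈ U.filter (fun u => ∀ i ∈ insert j I, u i = Function.update α j v i), b u := by
          rw [← sum_filter, filter_filter]
          apply sum_congr _ (fun _ _ => rfl)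
          ext u
          simp only [mem_filter, mem_univ, true_and, hS, mem_insert]
          constructor
          · rintro ⟨h1, h2, h3⟩
            refine ⟨h2, ?_⟩
            rintro i (rfl | hi)
            · rw [Function.update_self]
              exact h1
            · have hij : i ≠ j := fun hc => hj' (by rw [← hc]; exact hi)
              rw [Function.update_of_ne hij]
              exact h3 i hi
          · rintro ⟨h1, h2⟩
            refine ⟨?_, h1, fun i hi => ?_⟩
            · have := h2 j (Or.inl rfl)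
              rwa [Function.update_self] at this
            · have := h2 i (Or.inr hi)
              have hij : i ≠ j := fun hc => hj' (by rw [← hc]; exact hi)
              rwa [Function.update_of_ne hij] at this
        rw [e1, e2]
        by_contra hc
        push Not at hc
        have h1 : κ ^ (insert j I).card * ∑ u ∈ U, b u ≤
            ∑ u ∈ U.filter (fun u => ∀ i ∈ insert j I, u i = Function.update α j v i), b u := by
          rw [card_insert_of_notMem hj', pow_succ]
          calc κ ^ I.card * κ * ∑ u ∈ U, b u = κ * (κ ^ I.card * ∑ u ∈ U, b u) := by ring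
            _ ≤ κ * ∑ u ∈ S, b u := mul_le_mul_of_nonneg_left hα hκ.le
            _ ≤ _ := hc.le
        have h2 := hmax (insert j I) (mem_filter.2 ⟨mem_univ _, Function.update α j v, h1⟩)
        rw [card_insert_of_notMem hj'] at h2
        omega
      have hcc := conc (V := V) (Iᶜ) (fun u => if u ∈ S then b u else 0)
        (fun u => by split_ifs; exacts [hb u, le_rfl]) κ hκ hsp W B hB hW η hη
      set Bad1 : Finset (Fin k × Fin N → V) := univ.filter (fun x =>
        ∑ u, (if u ∈ S then b u else 0) * W (rd x u) <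
          ∑ u, (if u ∈ S then b u else 0) *
            av (fun y : Fin k → V => W ((Iᶜ).piecewise y (rd x u))) -
            (Iᶜ).card * η * ∑ u, (if u ∈ S then b u else 0)) with hBad1
      have hss : U \ S ⊂ U := by
        refine ⟨sdiff_subset, fun hc => ?_⟩
        obtain ⟨u, hu⟩ := hSne
        have h1 := hc (mem_filter.1 hu).1
        exact (mem_sdiff.1 h1).2 hu
      obtain ⟨Bad2, hB1, hB2⟩ := ih (U \ S) hss
      set c : ℝ := Real.exp (-(η ^ 2 / (8 * B ^ 2 * κ))) * Fintype.card (Fin k × Fin N → V) with hc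
      have hc0 : 0 ≤ c := by positivity
      have hSU : S ⊆ U := filter_subset _ _
      have hIk : ((Iᶜ).card : ℝ) ≤ k := by
        have := card_le_univ (Iᶜ)
        rw [Fintype.card_fin] at this
        exact_mod_cast this
      refine ⟨Bad1 ∪ Bad2, ?_, fun x hx => ?_⟩
      · have h1 : ((Bad1 ∪ Bad2).card : ℝ) ≤ Bad1.card + Bad2.card := by
          exact_mod_cast card_union_le _ _
        have h2 : (Bad1.card : ℝ) ≤ k * c := hcc.trans (by gcongr)
        have h3 : (((U \ S).card : ℕ) : ℝ) + 1 ≤ U.card := by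
          have := card_lt_card hss
          exact_mod_cast this
        calc ((Bad1 ∪ Bad2).card : ℝ) ≤ Bad1.card + Bad2.card := h1
          _ ≤ k * c + (U \ S).card * (k * c) := add_le_add h2 hB1
          _ = (((U \ S).card : ℝ) + 1) * (k * c) := by ring
          _ ≤ U.card * (k * c) := by gcongr
      · rw [mem_union, not_or] at hx
        have h1 := hB2 x hx.2
        have h2 : ¬ (∑ u, (if u ∈ S then b u else 0) * W (rd x u) <
          ∑ u, (if u ∈ S then b u else 0) *
            av (fun y : Fin k → V => W ((Iᶜ).piecewise y (rd x u))) -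
            (Iᶜ).card * η * ∑ u, (if u ∈ S then b u else 0)) := by
          intro hlt
          exact hx.1 (mem_filter.2 ⟨mem_univ _, hlt⟩)
        rw [not_lt] at h2
        have e0 : ∀ f : (Fin k → Fin N) → ℝ, ∑ u, (if u ∈ S then b u else 0) * f u =
            ∑ u ∈ S, b u * f u := by
          intro f
          rw [← sum_filter_add_sum_filter_not univ (fun u => u ∈ S)]
          rw [sum_eq_zero (s := univ.filter (fun u => u ∉ S)) (fun u hu => by
            rw [if_neg (mem_filter.1 hu).2, zero_mul]), add_zero]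
          have : univ.filter (fun u => u ∈ S) = S := by
            ext u
            simp
          rw [this]
          exact sum_congr rfl fun u hu => by rw [if_pos hu]
        have e1 : ∑ u, (if u ∈ S then b u else 0) = ∑ u ∈ S, b u := by
          have := e0 (fun _ => 1)
          simp only [mul_one] at this
          exact this
        rw [e0, e0, e1] at h2
        have h3 : 0 ≤ ∑ u ∈ S, b u * av (fun y : Fin k → V => W ((Iᶜ).piecewise y (rd x u))) := by
          apply sum_nonneg
          intro u _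
          apply mul_nonneg (hb u)
          have h4 := hm I hIh (rd x u)
          have h5 : ∀ y : Fin k → V, (Iᶜ).piecewise y (rd x u) = I.piecewise (rd x u) y := by
            intro y
            ext i
            by_cases hi : i ∈ I
            · simp [Finset.piecewise, hi]
            · simp [Finset.piecewise, hi]
          simp only [h5]
          exact h4
        have h6 : (Iᶜ).card * η * ∑ u ∈ S, b u ≤ k * η * ∑ u ∈ S, b u := by gcongr
        have h7 : ∑ u ∈ U, b u * W (rd x u) =
            ∑ u ∈ U \ S, b u * W (rd x u) + ∑ u ∈ S, b u * W (rd x u) :=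
          (sum_sdiff hSU).symm
        have h8 : ∑ u ∈ U, b u = ∑ u ∈ U \ S, b u + ∑ u ∈ S, b u := (sum_sdiff hSU).symm
        rw [h7, h8]
        nlinarith

theorem key (h : ℕ) (W : (Fin k → V) → ℝ) (B : ℝ) (hB : 0 < B) (hW : ∀ z, |W z| ≤ B)
    (hm : ∀ I : Finset (Fin k), I.card < h → ∀ z, 0 ≤ av (fun y => W (I.piecewise z y)))
    (hN : 2 ≤ N) (σ τ K : ℝ) (hσ : 0 < σ) (hσ1 : σ < 1) (hτ : 0 ≤ τ)
    (hK : K * (N : ℝ) ^ τ < (N : ℝ) ^ ((1 - σ) * h))
    (b : (Fin k → Fin N) → ℝ) (hb : ∀ u, 0 ≤ b u) (hbK : ∀ u, b u ≤ K / (N : ℝ) ^ k * ∑ u, b u)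
    (η : ℝ) (hη : 0 < η) :
    ∃ Bad : Finset (Fin k × Fin N → V),
      (Bad.card : ℝ) ≤ (N : ℝ) ^ k * (k * (Real.exp (-(η ^ 2 / (8 * B ^ 2 * (N : ℝ) ^ (-σ)))) *
        Fintype.card (Fin k × Fin N → V))) ∧
      ∀ x, x ∉ Bad → -((k * η + B * (N : ℝ) ^ (-τ)) * ∑ u, b u) ≤ ∑ u, b u * W (rd x u) := by
  obtain ⟨Bad, h1, h2⟩ := key_ind h W B hB hW hm hN σ τ K hσ hσ1 hτ hK b hb hbK η hη univ
  refine ⟨Bad, ?_, fun x hx => ?_⟩
  · have h3 : (((univ : Finset (Fin k → Fin N)).card : ℕ) : ℝ) = (N : ℝ) ^ k := by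
      rw [card_univ, Fintype.card_fun, Fintype.card_fin, Fintype.card_fin]
      push_cast
      rfl
    rw [h3] at h1
    exact h1
  · have h3 := h2 x hx
    linarith

end Pool.Agent.H97.CL
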