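import Pool.Agent.H97.CL.Av
import Pool.Agent.H97.CL.G2

/-!
# The local densities of the gadget are consistent

`loc h A z`: the density of the uniform distribution on the cliques on `A`.  `loc_cons`: with
`G z = av_y 1[Cl A (I.piecewise z y)]`: `G z` depends only on `z` on `A ∩ I` and vanishes unless
`Cl (A ∩ I) z`; `G (z + g) = G z` for `Hom g` (substitute `y ↦ y + g`, an `Equiv`); by `hom_trans` `G` is
constant on the cliques on `A ∩ I`; the average of `G` is `pr h A` (`av_piecewise`), so the constant is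
`pr h A / pr h (A ∩ I)`.
-/

set_option autoImplicit false

namespace Pool.Agent.H97.CL

open Finset Classical

variable {k : ℕ}

/-- the probability that the labels form a clique on `A` -/
noncomputable def pr (h : ℕ) (A : Finset (Fin k)) : ℝ :=
  av (fun z : Fin k → Lab k => if Cl h A z then (1 : ℝ) else 0)

/-- the density of the uniform distribution on the cliques on `A` -/
noncomputable def loc (h : ℕ) (A : Finset (Fin k)) (z : Fin k → Lab k) : ℝ :=
  if Cl h A z then (pr h A)⁻¹ else 0

theorem pr_pos (h : ℕ) (A : Finset (Fin k)) (hA : A.card < h) : 0 < pr h A := by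
  obtain ⟨z, hz⟩ := Cl_exists h A hA
  unfold pr av
  refine div_pos ?_ (by exact_mod_cast Fintype.card_pos)
  refine Finset.sum_pos' (fun x _ => ?_) ⟨z, Finset.mem_univ z, ?_⟩
  · split_ifs
    · exact zero_le_one
    · exact le_rfl
  · rw [if_pos hz]
    exact one_pos

theorem loc_nonneg (h : ℕ) (A : Finset (Fin k)) (z : Fin k → Lab k) : 0 ≤ loc h A z := by
  unfold loc
  split_ifs
  · refine inv_nonneg.2 (av_nonneg fun x => ?_)
    split_ifs
    · exact zero_le_one
    · exact le_rfl
  · exact le_rfl

private lemma loc_cl_empty (h : ℕ) (z : Fin k → Lab k) : Cl h ∅ z :=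
  ⟨fun i hi => absurd hi (Finset.notMem_empty i), fun i hi => absurd hi (Finset.notMem_empty i)⟩

theorem loc_empty (h : ℕ) (z : Fin k → Lab k) : loc h ∅ z = 1 := by
  unfold loc
  rw [if_pos (loc_cl_empty h z)]
  unfold pr
  rw [av_congr (fun x => if_pos (loc_cl_empty h x)), av_const, inv_one]

/-- the average of the indicator of the cliques on `A` over the labels outside `I` -/
private noncomputable def locG (h : ℕ) (A I : Finset (Fin k)) (z : Fin k → Lab k) : ℝ :=
  av (fun y : Fin k → Lab k => if Cl h A (I.piecewise z y) then (1 : ℝ) else 0)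

private lemma locG_zero (h : ℕ) (A I : Finset (Fin k)) (z : Fin k → Lab k)
    (hz : ¬ Cl h (A ∩ I) z) : locG h A I z = 0 := by
  unfold locG
  have h1 : ∀ y : Fin k → Lab k,
      (if Cl h A (I.piecewise z y) then (1 : ℝ) else 0) = 0 := by
    intro y
    refine if_neg fun hy => hz ?_
    refine (Cl_congr h (A ∩ I) (I.piecewise z y) z ?_).1 (Cl_mono h _ A Finset.inter_subset_left _ hy)
    intro i hi
    exact Finset.piecewise_eq_of_mem _ _ _ (Finset.mem_inter.1 hi).2
  rw [av_congr h1, av_const]

private lemma locG_eq (h : ℕ) (A I : Finset (Fin k)) (z z' : Fin k → Lab k)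
    (hz : Cl h (A ∩ I) z) (hz' : Cl h (A ∩ I) z') : locG h A I z' = locG h A I z := by
  obtain ⟨g, hg, hgz⟩ := hom_trans h (A ∩ I) z z' hz hz'
  unfold locG
  rw [← av_equiv (Equiv.addRight g)
    (fun y : Fin k → Lab k => if Cl h A (I.piecewise z' y) then (1 : ℝ) else 0)]
  refine av_congr fun y => ?_
  have h1 : Cl h A (I.piecewise z' (Equiv.addRight g y)) ↔ Cl h A (I.piecewise z y) := by
    rw [← hom_act h g hg A (I.piecewise z y)]
    refine Cl_congr h A _ _ fun i hi => ?_
    by_cases hI : i ∈ I
    · rw [Finset.piecewise_eq_of_mem _ _ _ hI, Pi.add_apply,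
        Finset.piecewise_eq_of_mem _ _ _ hI]
      exact hgz i (Finset.mem_inter.2 ⟨hi, hI⟩)
    · rw [Finset.piecewise_eq_of_notMem _ _ _ hI, Pi.add_apply,
        Finset.piecewise_eq_of_notMem _ _ _ hI]
      rfl
  by_cases h2 : Cl h A (I.piecewise z y)
  · rw [if_pos h2, if_pos (h1.2 h2)]
  · rw [if_neg h2, if_neg (fun h3 => h2 (h1.1 h3))]

private lemma locG_pr (h : ℕ) (A I : Finset (Fin k)) (z : Fin k → Lab k)
    (hz : Cl h (A ∩ I) z) : pr h A = locG h A I z * pr h (A ∩ I) := by
  have h1 : pr h A = av (fun x : Fin k → Lab k => locG h A I x) :=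
    (av_piecewise I (fun z : Fin k → Lab k => if Cl h A z then (1 : ℝ) else 0)).symm
  rw [h1]
  unfold pr
  rw [← av_mul_left]
  refine av_congr fun x => ?_
  by_cases hx : Cl h (A ∩ I) x
  · rw [if_pos hx, mul_one]
    exact locG_eq h A I z x hz hx
  · rw [if_neg hx, mul_zero]
    exact locG_zero h A I x hx

theorem loc_cons (h : ℕ) (A I : Finset (Fin k)) (hA : A.card < h) (z : Fin k → Lab k) :
    av (fun y => loc h A (I.piecewise z y)) = loc h (A ∩ I) z := by
  have h1 : av (fun y => loc h A (I.piecewise z y)) = (pr h A)⁻¹ * locG h A I z := by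
    unfold locG
    rw [← av_mul_left]
    refine av_congr fun y => ?_
    unfold loc
    split_ifs
    · rw [mul_one]
    · rw [mul_zero]
  rw [h1]
  unfold loc
  by_cases hz : Cl h (A ∩ I) z
  · rw [if_pos hz]
    have h2 := locG_pr h A I z hz
    have h3 := pr_pos h A hA
    have h4 := pr_pos h (A ∩ I) (lt_of_le_of_lt (Finset.card_le_card Finset.inter_subset_left) hA)
    rw [h2] at h3
    have h5 : locG h A I z ≠ 0 := left_ne_zero_of_mul h3.ne'
    rw [h2, mul_inv, mul_comm (locG h A I z)⁻¹, mul_assoc, inv_mul_cancel₀ h5, mul_one]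
  · rw [if_neg hz, locG_zero h A I z hz, mul_zero]

end Pool.Agent.H97.CL
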