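import Pool.Agent.H97.CL.Ops

/-!
# Matrices whose entries have low degree

`Tm W Q x = (1/#) ∑_u W(rd x u) • Q u` (average over the pointers).  Its entries have degree at most `k`
(each `x ↦ W(rd x u)` depends on the `k` coordinates `(i, u i)`).  The entries of the powers of
`β • 1 - Tm W Q x` have degree at most `k q` (`LowDeg_mul`, `LowDeg_sum`, induction over `q`).
-/

set_option autoImplicit false

namespace Pool.Agent.H97.CL

open Finset Matrix

variable {k N R : ℕ} {V : Type} [Fintype V] [Nonempty V]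

/-- the matrix-valued pseudo-average -/
noncomputable def Tm (W : (Fin k → V) → ℝ) (Q : (Fin k → Fin N) → Matrix (Fin R) (Fin R) ℝ)
    (x : Fin k × Fin N → V) : Matrix (Fin R) (Fin R) ℝ :=
  (Fintype.card (Fin k → Fin N) : ℝ)⁻¹ • ∑ u, W (rd x u) • Q u

/-- the polynomial of the pseudo-average -/
noncomputable def Xm (W : (Fin k → V) → ℝ) (Q : (Fin k → Fin N) → Matrix (Fin R) (Fin R) ℝ)
    (β : ℝ) (q : ℕ) (x : Fin k × Fin N → V) : Matrix (Fin R) (Fin R) ℝ :=
  (β • (1 : Matrix (Fin R) (Fin R) ℝ) - Tm W Q x) ^ q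

theorem Tm_low (W : (Fin k → V) → ℝ) (Q : (Fin k → Fin N) → Matrix (Fin R) (Fin R) ℝ)
    (a b : Fin R) : LowDeg univ k (fun x => Tm W Q x a b) := by
  have h : (fun x : Fin k × Fin N → V => Tm W Q x a b) =
      (Fintype.card (Fin k → Fin N) : ℝ)⁻¹ •
        ∑ u : Fin k → Fin N, (fun x : Fin k × Fin N → V => W (rd x u) * Q u a b) := by
    funext x
    simp only [Tm, Matrix.smul_apply, Matrix.sum_apply, smul_eq_mul, Pi.smul_apply,
      Finset.sum_apply]
  rw [h]
  refine LowDeg_smul _ _ _ _ (LowDeg_sum _ _ _ _ fun u _ => ?_)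
  refine LowDeg_of_DepOn univ (univ.image (fun i : Fin k => (i, u i))) k (subset_univ _) ?_ _ ?_
  · exact card_image_le.trans (by simp)
  · intro x y hxy
    have h2 : rd x u = rd y u := by
      funext i
      exact hxy (i, u i) (mem_union_right _ (mem_image_of_mem _ (mem_univ i)))
    simp only [h2]

theorem Xm_low (W : (Fin k → V) → ℝ) (Q : (Fin k → Fin N) → Matrix (Fin R) (Fin R) ℝ) (β : ℝ)
    (q : ℕ) (a b : Fin R) : LowDeg univ (k * q) (fun x => Xm W Q β q x a b) := by
  have hc : ∀ (m : ℕ) (c : ℝ), LowDeg univ m (fun _ : Fin k × Fin N → V => c) := by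
    intro m c
    refine LowDeg_of_DepOn univ ∅ m (empty_subset _) (by simp) _ ?_
    intro x y _
    rfl
  induction q generalizing a b with
  | zero =>
    simp only [Xm, pow_zero]
    exact hc _ _
  | succ q ih =>
    have h : (fun x : Fin k × Fin N → V => Xm W Q β (q + 1) x a b) =
        ∑ c : Fin R, (fun x : Fin k × Fin N → V => Xm W Q β q x a c) *
          ((fun _ : Fin k × Fin N → V => β * (1 : Matrix (Fin R) (Fin R) ℝ) c b) -
            (fun x : Fin k × Fin N → V => Tm W Q x c b)) := by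
      funext x
      simp only [Xm, pow_succ, Matrix.mul_apply, Finset.sum_apply, Pi.mul_apply, Pi.sub_apply,
        Matrix.sub_apply, Matrix.smul_apply, smul_eq_mul]
    rw [h, Nat.mul_succ]
    refine LowDeg_sum _ _ _ _ fun c _ => LowDeg_mul _ _ _ _ (ih a c) ?_
    exact LowDeg_sub _ _ _ _ (hc _ _) (Tm_low W Q c b)

end Pool.Agent.H97.CL
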