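import Pool.Agent.H97.CL.Posit
import Pool.Agent.H97.CL.HopAv
import Pool.Agent.H97.CL.MatLow

/-!
# Lower bound for the averaged trace

`X x` a symmetric matrix for every `x`, all entries of degree at most `m`; `Q u` positive semidefinite with
trace at most `t`, `av_u Q u ≤ 1`.  With `S = av_x tr(X x X x)` and
`ϱ = t (k choose D+1) (m/N)^{D+1}`:
`av_x tr(X x X x T x) ≥ -B (2 √ϱ + ϱ) S`, `T = Tm W Q`.

Proof.  `av_x tr(X X T) = av_u av_x W(rd x u) tr(X X Q u)`.  `Q u = Cᴴ C`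
(`Matrix.posSemidef_iff_eq_conjTranspose_mul_self` or the like), `tr(X X Cᴴ C) = ∑_{ab} f_ab²`,
`f_ab = (C X)_ab = ∑_c C a c X c b` (`X` symmetric).  `posit` for every `f_ab` and Cauchy-Schwarz for the sum over
`a, b`: `≥ -B (2 √(F_u G_u) + G_u)`, `F_u = ∑ nrm f_ab = av_x tr(X X Q u)`, `G_u = ∑ nrm (Hu u (D+1) f_ab)`.
`Hu` is linear (`Hop_add`, `Hop_smul`), so by Cauchy-Schwarz
`G_u ≤ (∑ C a c²) ∑_{cb} nrm (Hu u (D+1) X_cb) = tr(Q u) ∑_{cb} ...`.
`av_u F_u = av_x tr(X X av_u Q u) ≤ av_x tr(X X) = S` and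
`av_u G_u ≤ t ∑_{cb} (k choose D+1) (m/N)^{D+1} nrm X_cb = ϱ S` (`hop_av` with `L = List.finRange k`);
`av_u √(F_u G_u) ≤ √(av F_u av G_u)` (`av_mul_sq_le`).
-/

set_option autoImplicit false

namespace Pool.Agent.H97.CL

open Finset Matrix

variable {k N R : ℕ} {V : Type} [Fintype V] [Nonempty V]

open scoped MatrixOrder in
private theorem lowbd_exists {A : Matrix (Fin R) (Fin R) ℝ} (hA : A.PosSemidef) :
    ∃ C : Matrix (Fin R) (Fin R) ℝ, A = Cᵀ * C := by
  obtain ⟨B, hB⟩ := CStarAlgebra.nonneg_iff_eq_star_mul_self.mp hA.nonneg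
  exact ⟨B, by rw [hB, star_eq_conjTranspose, conjTranspose_eq_transpose_of_trivial]⟩

private theorem lowbd_trace_self (A : Matrix (Fin R) (Fin R) ℝ) :
    trace (A * Aᵀ) = ∑ a, ∑ b, (A a b) ^ 2 := by
  unfold trace
  refine sum_congr rfl fun a _ => ?_
  rw [diag_apply, mul_apply]
  refine sum_congr rfl fun b _ => ?_
  rw [transpose_apply, sq]

private theorem lowbd_trace_eq (C X : Matrix (Fin R) (Fin R) ℝ) (hX : Xᵀ = X) :
    trace (X * X * (Cᵀ * C)) = ∑ a, ∑ b, ((C * X) a b) ^ 2 := by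
  rw [← lowbd_trace_self, ← Matrix.mul_assoc, trace_mul_comm, transpose_mul, hX]
  simp only [Matrix.mul_assoc]

private theorem lowbd_trace_one (X : Matrix (Fin R) (Fin R) ℝ) (hX : Xᵀ = X) :
    trace (X * X) = ∑ a, ∑ b, (X a b) ^ 2 := by
  rw [← lowbd_trace_self, hX]

private theorem lowbd_trace_Q (C : Matrix (Fin R) (Fin R) ℝ) :
    trace (Cᵀ * C) = ∑ a, ∑ c, (C a c) ^ 2 := by
  rw [trace_mul_comm, lowbd_trace_self]

private theorem lowbd_Hu_add (u : Fin k → Fin N) (n : ℕ) (f g : (Fin k × Fin N → V) → ℝ) :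
    Hu u n (f + g) = Hu u n f + Hu u n g := Hop_add _ _ _ _

private theorem lowbd_Hu_smul (u : Fin k → Fin N) (n : ℕ) (a : ℝ)
    (f : (Fin k × Fin N → V) → ℝ) : Hu u n (a • f) = a • Hu u n f := Hop_smul _ _ _ _

private theorem lowbd_Hu_zero (u : Fin k → Fin N) (n : ℕ) :
    Hu u n (0 : (Fin k × Fin N → V) → ℝ) = 0 := by
  have := lowbd_Hu_smul u n 0 (0 : (Fin k × Fin N → V) → ℝ)
  rwa [zero_smul, zero_smul] at this

private theorem lowbd_Hu_sum {α : Type} (s : Finset α) (u : Fin k → Fin N) (n : ℕ)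
    (a : α → ℝ) (f : α → (Fin k × Fin N → V) → ℝ) :
    Hu u n (∑ c ∈ s, a c • f c) = ∑ c ∈ s, a c • Hu u n (f c) := by
  classical
  induction s using Finset.induction_on with
  | empty => rw [sum_empty, sum_empty, lowbd_Hu_zero]
  | insert c s hc ih => rw [sum_insert hc, sum_insert hc, lowbd_Hu_add, lowbd_Hu_smul, ih]

/-- Cauchy-Schwarz for one entry -/
private theorem lowbd_entry (u : Fin k → Fin N) (n : ℕ) (c : Fin R → ℝ)
    (f : Fin R → (Fin k × Fin N → V) → ℝ) :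
    nrm (Hu u n (∑ d, c d • f d)) ≤ (∑ d, c d ^ 2) * ∑ d, nrm (Hu u n (f d)) := by
  rw [lowbd_Hu_sum]
  unfold nrm
  rw [← av_sum, ← av_mul_left]
  refine av_mono fun x => ?_
  simp only [Finset.sum_apply, Pi.smul_apply, smul_eq_mul]
  exact sum_mul_sq_le_sq_mul_sq _ _ _

private theorem lowbd_av_sqrt {Ω : Type} [Fintype Ω] (f g : Ω → ℝ) (hf : ∀ x, 0 ≤ f x)
    (hg : ∀ x, 0 ≤ g x) : av (fun x => Real.sqrt (f x * g x)) ≤ Real.sqrt (av f * av g) := by
  apply Real.le_sqrt_of_sq_le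
  have h := av_mul_sq_le (fun x => Real.sqrt (f x)) (fun x => Real.sqrt (g x))
  simp only [Real.sq_sqrt (hf _), Real.sq_sqrt (hg _)] at h
  have e : (fun x => Real.sqrt (f x * g x)) = fun x => Real.sqrt (f x) * Real.sqrt (g x) := by
    funext x
    exact Real.sqrt_mul (hf x) _
  rw [e]
  exact h

/-- the lower bound for one vector of pointers -/
private theorem lowbd_one (D : ℕ) (W : (Fin k → V) → ℝ) (B : ℝ) (hB : 0 < B)
    (hW : ∀ z, |W z| ≤ B)
    (hWp : ∀ q : (Fin k → V) → ℝ, LowDeg univ D q → 0 ≤ av (fun z => W z * q z ^ 2))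
    (u : Fin k → Fin N) (Q : Matrix (Fin R) (Fin R) ℝ) (hQ : Q.PosSemidef)
    (t : ℝ) (ht : Q.trace ≤ t)
    (X : (Fin k × Fin N → V) → Matrix (Fin R) (Fin R) ℝ) (hX : ∀ x, (X x)ᵀ = X x) :
    -(B * (2 * Real.sqrt (av (fun x => trace (X x * X x * Q)) *
      (t * ∑ c, ∑ b, nrm (Hu u (D + 1) (fun x => X x c b)))) +
      t * ∑ c, ∑ b, nrm (Hu u (D + 1) (fun x => X x c b)))) ≤
      av (fun x => W (rd x u) * trace (X x * X x * Q)) := by
  obtain ⟨C, rfl⟩ := lowbd_exists hQ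
  set f : Fin R → Fin R → (Fin k × Fin N → V) → ℝ := fun a b x => (C * X x) a b with hf
  have e1 : ∀ x, trace (X x * X x * (Cᵀ * C)) = ∑ p : Fin R × Fin R, (f p.1 p.2 x) ^ 2 := by
    intro x
    rw [lowbd_trace_eq C (X x) (hX x), Fintype.sum_prod_type]
  have e2 : av (fun x => W (rd x u) * trace (X x * X x * (Cᵀ * C))) =
      ∑ p : Fin R × Fin R, av (fun x => W (rd x u) * (f p.1 p.2 x) ^ 2) := by
    rw [← av_sum]
    refine av_congr fun x => ?_
    rw [e1, mul_sum]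
  have e3 : av (fun x => trace (X x * X x * (Cᵀ * C))) =
      ∑ p : Fin R × Fin R, nrm (f p.1 p.2) := by
    unfold nrm
    rw [← av_sum]
    exact av_congr fun x => e1 x
  have hG : ∑ p : Fin R × Fin R, nrm (Hu u (D + 1) (f p.1 p.2)) ≤
      t * ∑ c, ∑ b, nrm (Hu u (D + 1) (fun x => X x c b)) := by
    have h1 : ∀ a b, nrm (Hu u (D + 1) (f a b)) ≤
        (∑ c, C a c ^ 2) * ∑ c, nrm (Hu u (D + 1) (fun x => X x c b)) := by
      intro a b
      have e4 : f a b = ∑ c, C a c • (fun x => X x c b) := by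
        funext x
        simp only [hf, Finset.sum_apply, Pi.smul_apply, smul_eq_mul, mul_apply]
      rw [e4]
      exact lowbd_entry u (D + 1) (fun c => C a c) (fun c x => X x c b)
    calc ∑ p : Fin R × Fin R, nrm (Hu u (D + 1) (f p.1 p.2))
        = ∑ a, ∑ b, nrm (Hu u (D + 1) (f a b)) := Fintype.sum_prod_type _
      _ ≤ ∑ a, ∑ b, (∑ c, C a c ^ 2) * ∑ c, nrm (Hu u (D + 1) (fun x => X x c b)) :=
        sum_le_sum fun a _ => sum_le_sum fun b _ => h1 a b
      _ = trace (Cᵀ * C) * ∑ c, ∑ b, nrm (Hu u (D + 1) (fun x => X x c b)) := by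
        rw [lowbd_trace_Q, sum_mul]
        refine sum_congr rfl fun a _ => ?_
        rw [← mul_sum, sum_comm]
      _ ≤ t * ∑ c, ∑ b, nrm (Hu u (D + 1) (fun x => X x c b)) := by
        apply mul_le_mul_of_nonneg_right ht
        exact sum_nonneg fun c _ => sum_nonneg fun b _ => nrm_nonneg _
  have hG0 : 0 ≤ ∑ p : Fin R × Fin R, nrm (Hu u (D + 1) (f p.1 p.2)) :=
    sum_nonneg fun p _ => nrm_nonneg _
  have hF0 : 0 ≤ ∑ p : Fin R × Fin R, nrm (f p.1 p.2) := sum_nonneg fun p _ => nrm_nonneg _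
  have hCS : ∑ p : Fin R × Fin R, Real.sqrt (nrm (f p.1 p.2) * nrm (Hu u (D + 1) (f p.1 p.2))) ≤
      Real.sqrt ((∑ p : Fin R × Fin R, nrm (f p.1 p.2)) *
        ∑ p : Fin R × Fin R, nrm (Hu u (D + 1) (f p.1 p.2))) := by
    have h := Real.sum_sqrt_mul_sqrt_le (s := (univ : Finset (Fin R × Fin R)))
      (f := fun p => nrm (f p.1 p.2)) (g := fun p => nrm (Hu u (D + 1) (f p.1 p.2)))
      (fun p => nrm_nonneg _) (fun p => nrm_nonneg _)
    rw [Real.sqrt_mul hF0]
    refine le_trans (le_of_eq (sum_congr rfl fun p _ => ?_)) h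
    exact Real.sqrt_mul (nrm_nonneg _) _
  have hmono : Real.sqrt ((∑ p : Fin R × Fin R, nrm (f p.1 p.2)) *
        ∑ p : Fin R × Fin R, nrm (Hu u (D + 1) (f p.1 p.2))) ≤
      Real.sqrt ((∑ p : Fin R × Fin R, nrm (f p.1 p.2)) *
        (t * ∑ c, ∑ b, nrm (Hu u (D + 1) (fun x => X x c b)))) := by
    apply Real.sqrt_le_sqrt
    exact mul_le_mul_of_nonneg_left hG hF0
  have hlow : ∑ p : Fin R × Fin R, -(B * (2 * Real.sqrt (nrm (f p.1 p.2) *
      nrm (Hu u (D + 1) (f p.1 p.2))) + nrm (Hu u (D + 1) (f p.1 p.2)))) ≤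
      ∑ p : Fin R × Fin R, av (fun x => W (rd x u) * (f p.1 p.2 x) ^ 2) :=
    sum_le_sum fun p _ => posit D W B hB hW hWp u (f p.1 p.2)
  rw [e2, e3]
  refine le_trans ?_ hlow
  rw [sum_neg_distrib, ← mul_sum, sum_add_distrib, ← mul_sum]
  have h1 : 2 * ∑ p : Fin R × Fin R, Real.sqrt (nrm (f p.1 p.2) *
      nrm (Hu u (D + 1) (f p.1 p.2))) + ∑ p : Fin R × Fin R, nrm (Hu u (D + 1) (f p.1 p.2)) ≤
      2 * Real.sqrt ((∑ p : Fin R × Fin R, nrm (f p.1 p.2)) *
        (t * ∑ c, ∑ b, nrm (Hu u (D + 1) (fun x => X x c b)))) +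
      t * ∑ c, ∑ b, nrm (Hu u (D + 1) (fun x => X x c b)) := by
    linarith
  have h2 := mul_le_mul_of_nonneg_left h1 hB.le
  linarith

theorem low_bd (hN : 0 < N) (D : ℕ) (W : (Fin k → V) → ℝ) (B : ℝ) (hB : 0 < B)
    (hW : ∀ z, |W z| ≤ B)
    (hWp : ∀ q : (Fin k → V) → ℝ, LowDeg univ D q → 0 ≤ av (fun z => W z * q z ^ 2))
    (Q : (Fin k → Fin N) → Matrix (Fin R) (Fin R) ℝ) (hQ : ∀ u, (Q u).PosSemidef)
    (hQ1 : ((1 : Matrix (Fin R) (Fin R) ℝ) -
      (Fintype.card (Fin k → Fin N) : ℝ)⁻¹ • ∑ u, Q u).PosSemidef)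
    (t : ℝ) (ht : ∀ u, (Q u).trace ≤ t) (m : ℕ)
    (X : (Fin k × Fin N → V) → Matrix (Fin R) (Fin R) ℝ) (hX : ∀ x, (X x)ᵀ = X x)
    (hXm : ∀ a b, LowDeg univ m (fun x => X x a b)) :
    -(B * (2 * Real.sqrt (t * (k.choose (D + 1)) * ((m : ℝ) / N) ^ (D + 1)) +
        t * (k.choose (D + 1)) * ((m : ℝ) / N) ^ (D + 1))) *
        av (fun x => Matrix.trace (X x * X x)) ≤
      av (fun x => Matrix.trace (X x * X x * Tm W Q x)) := by
  classical
  have : Nonempty (Fin N) := ⟨⟨0, hN⟩⟩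
  set S : ℝ := av (fun x => trace (X x * X x)) with hS
  set ρ : ℝ := (k.choose (D + 1)) * ((m : ℝ) / N) ^ (D + 1) with hρ
  have hρ0 : 0 ≤ ρ := by positivity
  have hS0 : 0 ≤ S := by
    refine av_nonneg fun x => ?_
    rw [lowbd_trace_one (X x) (hX x)]
    positivity
  have ht0 : 0 ≤ t := le_trans (hQ (Classical.arbitrary _)).trace_nonneg
    (ht (Classical.arbitrary _))
  set F : (Fin k → Fin N) → ℝ := fun u => av (fun x => trace (X x * X x * Q u)) with hF
  set H : (Fin k → Fin N) → ℝ :=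
    fun u => ∑ c, ∑ b, nrm (Hu u (D + 1) (fun x => X x c b)) with hH
  have hH0 : ∀ u, 0 ≤ H u := fun u => sum_nonneg fun c _ => sum_nonneg fun b _ => nrm_nonneg _
  have hF0 : ∀ u, 0 ≤ F u := by
    intro u
    refine av_nonneg fun x => ?_
    obtain ⟨C, hC⟩ := lowbd_exists (hQ u)
    rw [hC, lowbd_trace_eq C (X x) (hX x)]
    positivity
  have e1 : av (fun x => trace (X x * X x * Tm W Q x)) =
      av (fun u => av (fun x => W (rd x u) * trace (X x * X x * Q u))) := by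
    rw [av_comm]
    refine av_congr fun x => ?_
    unfold Tm av
    rw [Matrix.mul_smul, trace_smul, Matrix.mul_sum, trace_sum, smul_eq_mul, div_eq_inv_mul]
    congr 1
    refine sum_congr rfl fun u _ => ?_
    rw [Matrix.mul_smul, trace_smul, smul_eq_mul]
  have hFav : av F ≤ S := by
    rw [hF, av_comm]
    refine av_mono fun x => ?_
    have h1 := (hQ1.conjTranspose_mul_mul_same (X x)).trace_nonneg
    rw [conjTranspose_eq_transpose_of_trivial, hX x, Matrix.mul_assoc, trace_mul_comm,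
      Matrix.mul_assoc, trace_mul_comm, Matrix.mul_sub, Matrix.mul_one, trace_sub] at h1
    have h2 : trace (X x * X x * ((Fintype.card (Fin k → Fin N) : ℝ)⁻¹ • ∑ u, Q u)) =
        av (fun u => trace (X x * X x * Q u)) := by
      unfold av
      rw [Matrix.mul_smul, trace_smul, Matrix.mul_sum, trace_sum, smul_eq_mul, div_eq_inv_mul]
    rw [h2] at h1
    linarith
  have hHav : av H ≤ ρ * S := by
    have h1 : av H = ∑ c, ∑ b, av (fun u => nrm (Hu u (D + 1) (fun x => X x c b))) := by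
      rw [hH, av_sum]
      refine sum_congr rfl fun c _ => ?_
      rw [av_sum]
    have h2 : S = ∑ c, ∑ b, nrm (fun x => X x c b) := by
      rw [hS]
      unfold nrm
      have : ∀ x, trace (X x * X x) = ∑ c, ∑ b, (X x c b) ^ 2 :=
        fun x => lowbd_trace_one (X x) (hX x)
      rw [av_congr this, av_sum]
      refine sum_congr rfl fun c _ => ?_
      rw [av_sum]
    rw [h1, h2, mul_sum]
    refine sum_le_sum fun c _ => ?_
    rw [mul_sum]
    refine sum_le_sum fun b _ => ?_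
    have h3 := hop_av hN (List.finRange k) (List.nodup_finRange k) (D + 1) m
      (fun x => X x c b) (hXm c b)
    rw [List.length_finRange] at h3
    exact h3
  have hone : ∀ u, -(B * (2 * Real.sqrt (F u * (t * H u)) + t * H u)) ≤
      av (fun x => W (rd x u) * trace (X x * X x * Q u)) :=
    fun u => lowbd_one D W B hB hW hWp u (Q u) (hQ u) t (ht u) X hX
  have hsq : av (fun u => Real.sqrt (F u * (t * H u))) ≤ Real.sqrt (S * (t * (ρ * S))) := by
    refine le_trans (lowbd_av_sqrt F (fun u => t * H u) hF0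
      (fun u => mul_nonneg ht0 (hH0 u))) ?_
    apply Real.sqrt_le_sqrt
    rw [av_mul_left]
    have hH0' : 0 ≤ av H := av_nonneg hH0
    exact mul_le_mul hFav (mul_le_mul_of_nonneg_left hHav ht0) (mul_nonneg ht0 hH0') hS0
  have hsq2 : Real.sqrt (S * (t * (ρ * S))) = Real.sqrt (t * ρ) * S := by
    have : S * (t * (ρ * S)) = (t * ρ) * (S * S) := by ring
    rw [this, Real.sqrt_mul (mul_nonneg ht0 hρ0), Real.sqrt_mul_self hS0]
  have hfinal : av (fun u => -(B * (2 * Real.sqrt (F u * (t * H u)) + t * H u))) ≤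
      av (fun x => trace (X x * X x * Tm W Q x)) := by
    rw [e1]
    exact av_mono hone
  refine le_trans ?_ hfinal
  have e2 : av (fun u => -(B * (2 * Real.sqrt (F u * (t * H u)) + t * H u))) =
      -(B * (2 * av (fun u => Real.sqrt (F u * (t * H u))) + t * av H)) := by
    rw [av_neg, av_mul_left, av_add, av_mul_left, av_mul_left]
  rw [e2]
  have h3 : t * ρ = t * (k.choose (D + 1)) * ((m : ℝ) / N) ^ (D + 1) := by
    rw [hρ]
    ring
  rw [← h3]
  have h4 : 2 * av (fun u => Real.sqrt (F u * (t * H u))) + t * av H ≤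
      (2 * Real.sqrt (t * ρ) + t * ρ) * S := by
    have h5 := mul_le_mul_of_nonneg_left hHav ht0
    rw [hsq2] at hsq
    have : (2 * Real.sqrt (t * ρ) + t * ρ) * S = 2 * (Real.sqrt (t * ρ) * S) + t * (ρ * S) := by
      ring
    rw [this]
    linarith
  have h5 := mul_le_mul_of_nonneg_left h4 hB.le
  have h6 : B * ((2 * Real.sqrt (t * ρ) + t * ρ) * S) = B * (2 * Real.sqrt (t * ρ) + t * ρ) * S := by
    ring
  rw [neg_mul]
  linarith

end Pool.Agent.H97.CL
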