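import Pool.Agent.H97.CL.Av

/-! # Averaging over one coordinate -/

set_option autoImplicit false

namespace Pool.Agent.H97.CL

open Finset

variable {ι V : Type} [Fintype ι] [DecidableEq ι] [Fintype V] [Nonempty V]

/-- the square of the `L²` norm -/
noncomputable def nrm {Ω : Type} [Fintype Ω] (f : Ω → ℝ) : ℝ := av (fun x => f x ^ 2)

theorem nrm_nonneg {Ω : Type} [Fintype Ω] (f : Ω → ℝ) : 0 ≤ nrm f := av_nonneg fun _ => sq_nonneg _

theorem E1_add (c : ι) (f g : (ι → V) → ℝ) : E1 c (f + g) = E1 c f + E1 c g := by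
  funext x
  simp only [E1, Pi.add_apply]
  exact av_add _ _

theorem E1_sub (c : ι) (f g : (ι → V) → ℝ) : E1 c (f - g) = E1 c f - E1 c g := by
  funext x
  simp only [E1, Pi.sub_apply]
  exact av_sub _ _

theorem E1_smul (c : ι) (a : ℝ) (f : (ι → V) → ℝ) : E1 c (a • f) = a • E1 c f := by
  funext x
  simp only [E1, Pi.smul_apply, smul_eq_mul]
  exact av_mul_left _ _

theorem E1_zero (c : ι) : E1 c (0 : (ι → V) → ℝ) = 0 := by
  funext x
  simp only [E1, Pi.zero_apply]
  exact av_const _

theorem E1_idem (c : ι) (f : (ι → V) → ℝ) : E1 c (E1 c f) = E1 c f := by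
  funext x
  simp only [E1, Function.update_idem]
  exact av_const _

theorem E1_comm (c d : ι) (f : (ι → V) → ℝ) : E1 c (E1 d f) = E1 d (E1 c f) := by
  rcases eq_or_ne c d with rfl | h
  · rfl
  funext x
  simp only [E1]
  rw [av_comm]
  refine av_congr fun v => av_congr fun w => ?_
  rw [Function.update_comm h]

/-- `E1 c f` does not depend on the coordinate `c`. -/
private theorem ops_E1_update (c : ι) (f : (ι → V) → ℝ) (x : ι → V) (v : V) :
    E1 c f (Function.update x c v) = E1 c f x := by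
  simp only [E1, Function.update_idem]

/-- The cross term vanishes. -/
private theorem ops_cross (c : ι) (f g : (ι → V) → ℝ) :
    av (fun x => E1 c f x * (g x - E1 c g x)) = 0 := by
  rw [← av_update c]
  have h : ∀ x : ι → V, av (fun v : V => E1 c f (Function.update x c v) *
      (g (Function.update x c v) - E1 c g (Function.update x c v))) = 0 := by
    intro x
    simp only [ops_E1_update]
    rw [av_mul_left, av_sub]
    have h1 : av (fun v : V => g (Function.update x c v)) = E1 c g x := rfl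
    rw [h1, av_const]
    ring
  rw [av_congr h]
  exact av_const _

/-- orthogonality of the ranges of `E1 c` and `1 - E1 c` -/
theorem nrm_add_E1 (c : ι) (f g : (ι → V) → ℝ) :
    nrm (E1 c f + (g - E1 c g)) = nrm (E1 c f) + nrm (g - E1 c g) := by
  unfold nrm
  have h : ∀ x, (E1 c f + (g - E1 c g)) x ^ 2 =
      ((E1 c f x) ^ 2 + ((g - E1 c g) x) ^ 2) + 2 * (E1 c f x * (g x - E1 c g x)) := by
    intro x
    simp only [Pi.add_apply, Pi.sub_apply]
    ring
  rw [av_congr h, av_add, av_add, av_mul_left, ops_cross, mul_zero, add_zero]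

theorem nrm_split (c : ι) (f : (ι → V) → ℝ) : nrm f = nrm (E1 c f) + nrm (f - E1 c f) := by
  rw [← nrm_add_E1]
  congr 1
  funext x
  simp only [Pi.add_apply, Pi.sub_apply]
  ring

theorem nrm_E1_le (c : ι) (f : (ι → V) → ℝ) : nrm (E1 c f) ≤ nrm f := by
  rw [nrm_split c f]
  have := nrm_nonneg (f - E1 c f)
  linarith

theorem nrm_sub_E1_le (c : ι) (f : (ι → V) → ℝ) : nrm (f - E1 c f) ≤ nrm f := by
  rw [nrm_split c f]
  have := nrm_nonneg (E1 c f)
  linarith

theorem E1_of_DepOn (c : ι) (A : Finset ι) (hc : c ∉ A) (f : (ι → V) → ℝ) (hf : DepOn A f) :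
    E1 c f = f := by
  funext x
  simp only [E1]
  have h : ∀ v : V, f (Function.update x c v) = f x := by
    intro v
    refine hf _ _ fun i hi => ?_
    rw [Function.update_of_ne]
    rintro rfl
    exact hc hi
  rw [av_congr h]
  exact av_const _

theorem DepOn_E1 (c : ι) (A : Finset ι) (f : (ι → V) → ℝ) (hf : DepOn A f) :
    DepOn (A.erase c) (E1 c f) := by
  intro x y h
  simp only [E1]
  refine av_congr fun v => hf _ _ fun i hi => ?_
  rcases eq_or_ne i c with rfl | hic
  · simp
  · rw [Function.update_of_ne hic, Function.update_of_ne hic]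
    exact h i (Finset.mem_erase.2 ⟨hic, hi⟩)

omit [Fintype ι] [DecidableEq ι] [Fintype V] [Nonempty V] in
private theorem ops_dep_zero (A : Finset ι) : DepOn A (0 : (ι → V) → ℝ) := fun _ _ _ => rfl

omit [Fintype ι] [DecidableEq ι] [Fintype V] [Nonempty V] in
private theorem ops_dep_mono {A B : Finset ι} (h : A ⊆ B) {f : (ι → V) → ℝ} (hf : DepOn A f) :
    DepOn B f := fun x y hxy => hf x y fun i hi => hxy i (h hi)

theorem LowDeg_mono (S : Finset ι) (m m' : ℕ) (hm : m ≤ m') (f : (ι → V) → ℝ)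
    (hf : LowDeg S m f) : LowDeg S m' f := by
  obtain ⟨F, hF, hs⟩ := hf
  refine ⟨fun C => if C.card ≤ m then F C else 0, fun C => ?_, fun x => ?_⟩
  · by_cases h : C.card ≤ m
    · simp only [h, if_true]
      exact hF C
    · simp only [h, if_false]
      exact ops_dep_zero _
  · rw [hs x]
    symm
    rw [← Finset.sum_subset (s₁ := S.powerset.filter (fun C => C.card ≤ m))]
    · refine Finset.sum_congr rfl fun C hC => ?_
      have h : C.card ≤ m := (Finset.mem_filter.1 hC).2
      simp only [h, if_true]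
    · intro C hC
      rw [Finset.mem_filter] at hC ⊢
      exact ⟨hC.1, hC.2.trans hm⟩
    · intro C hC hC'
      have h : ¬ C.card ≤ m := fun h =>
        hC' (Finset.mem_filter.2 ⟨(Finset.mem_filter.1 hC).1, h⟩)
      simp only [h, if_false, Pi.zero_apply]

theorem LowDeg_add (S : Finset ι) (m : ℕ) (f g : (ι → V) → ℝ) (hf : LowDeg S m f)
    (hg : LowDeg S m g) : LowDeg S m (f + g) := by
  obtain ⟨F, hF, hs⟩ := hf
  obtain ⟨G, hG, ht⟩ := hg
  refine ⟨fun C => F C + G C, fun C x y h => ?_, fun x => ?_⟩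
  · simp only [Pi.add_apply]
    rw [hF C x y h, hG C x y h]
  · simp only [Pi.add_apply]
    rw [hs x, ht x, Finset.sum_add_distrib]

theorem LowDeg_sub (S : Finset ι) (m : ℕ) (f g : (ι → V) → ℝ) (hf : LowDeg S m f)
    (hg : LowDeg S m g) : LowDeg S m (f - g) := by
  obtain ⟨F, hF, hs⟩ := hf
  obtain ⟨G, hG, ht⟩ := hg
  refine ⟨fun C => F C - G C, fun C x y h => ?_, fun x => ?_⟩
  · simp only [Pi.sub_apply]
    rw [hF C x y h, hG C x y h]
  · simp only [Pi.sub_apply]
    rw [hs x, ht x, Finset.sum_sub_distrib]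

theorem LowDeg_smul (S : Finset ι) (m : ℕ) (a : ℝ) (f : (ι → V) → ℝ) (hf : LowDeg S m f) :
    LowDeg S m (a • f) := by
  obtain ⟨F, hF, hs⟩ := hf
  refine ⟨fun C => a • F C, fun C x y h => ?_, fun x => ?_⟩
  · simp only [Pi.smul_apply]
    rw [hF C x y h]
  · simp only [Pi.smul_apply]
    rw [hs x, Finset.smul_sum]

theorem LowDeg_zero (S : Finset ι) (m : ℕ) : LowDeg S m (0 : (ι → V) → ℝ) :=
  ⟨fun _ => 0, fun _ => ops_dep_zero _, fun x => by simp⟩

theorem LowDeg_sum {α : Type} (s : Finset α) (S : Finset ι) (m : ℕ) (f : α → (ι → V) → ℝ)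
    (hf : ∀ a ∈ s, LowDeg S m (f a)) : LowDeg S m (∑ a ∈ s, f a) := by
  classical
  induction s using Finset.induction_on with
  | empty => simpa using LowDeg_zero S m
  | insert a s ha ih =>
    rw [Finset.sum_insert ha]
    exact LowDeg_add S m _ _ (hf a (Finset.mem_insert_self a s))
      (ih fun b hb => hf b (Finset.mem_insert_of_mem hb))

theorem LowDeg_of_DepOn (S C : Finset ι) (m : ℕ) (hC : C ⊆ S) (hm : C.card ≤ m)
    (f : (ι → V) → ℝ) (hf : DepOn (Sᶜ ∪ C) f) : LowDeg S m f := by
  refine ⟨fun D => if D = C then f else 0, fun D => ?_, fun x => ?_⟩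
  · by_cases h : D = C
    · subst h
      simpa using hf
    · simp only [h, if_false]
      exact ops_dep_zero _
  · rw [Finset.sum_eq_single C]
    · simp
    · intro D _ hD
      simp only [hD, if_false, Pi.zero_apply]
    · intro h
      exact absurd (Finset.mem_filter.2 ⟨Finset.mem_powerset.2 hC, hm⟩) h

theorem LowDeg_E1 (c : ι) (S : Finset ι) (m : ℕ) (f : (ι → V) → ℝ) (hf : LowDeg S m f) :
    LowDeg S m (E1 c f) := by
  obtain ⟨F, hF, hs⟩ := hf
  refine ⟨fun C => E1 c (F C), fun C => ?_, fun x => ?_⟩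
  · exact ops_dep_mono (Finset.erase_subset c _) (DepOn_E1 c _ _ (hF C))
  · simp only [E1]
    rw [← av_sum]
    exact av_congr fun v => hs _

/-- products: the degrees add -/
theorem LowDeg_mul (m m' : ℕ) (f g : (ι → V) → ℝ) (hf : LowDeg univ m f)
    (hg : LowDeg univ m' g) : LowDeg univ (m + m') (f * g) := by
  obtain ⟨F, hF, hs⟩ := hf
  obtain ⟨G, hG, ht⟩ := hg
  have e : f * g = ∑ C ∈ (univ : Finset ι).powerset.filter (fun C => C.card ≤ m),
      ∑ D ∈ (univ : Finset ι).powerset.filter (fun D => D.card ≤ m'), F C * G D := by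
    funext x
    simp only [Pi.mul_apply, Finset.sum_apply]
    rw [hs x, ht x, Finset.sum_mul_sum]
  rw [e]
  refine LowDeg_sum _ _ _ _ fun C hC => LowDeg_sum _ _ _ _ fun D hD => ?_
  refine LowDeg_of_DepOn univ (C ∪ D) (m + m') (Finset.subset_univ _) ?_ _ ?_
  · exact (Finset.card_union_le C D).trans
      (add_le_add (Finset.mem_filter.1 hC).2 (Finset.mem_filter.1 hD).2)
  · intro x y h
    simp only [Pi.mul_apply]
    rw [hF C x y fun i hi => h i ?_, hG D x y fun i hi => h i ?_]
    · simp only [Finset.mem_union] at hi ⊢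
      tauto
    · simp only [Finset.mem_union] at hi ⊢
      tauto

end Pool.Agent.H97.CL
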