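import Mathlib

/-!
# Hella's bijective pebble game (equivalence in the logic `C^t`)

A position of the game with `t` pairs of pebbles on the graphs `G`, `H`: for every `i : Fin t` either `none`
(the pair is not on the board) or `some (a, b)`.  `CEquiv t G H`: Duplicator wins the bijective game from the
empty position, i.e. there is a set `P` of positions, containing the empty one, all whose members are partial
isomorphisms, such that for every position in `P` and every `i` (Spoiler picks up the pair `i`) there is a
bijection `π` such that for every `a` (chosen by Spoiler) placing the pair `i` on `(a, π a)` leads to a position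
in `P`.
-/

set_option autoImplicit false

namespace Pool.Agent.H97.CL

open Finset

/-- the position is a partial isomorphism -/
def PartIso {t : ℕ} {α β : Type} (G : SimpleGraph α) (H : SimpleGraph β)
    (p : Fin t → Option (α × β)) : Prop :=
  ∀ i j : Fin t, ∀ a b a' b', p i = some (a, b) → p j = some (a', b') →
    (a = a' ↔ b = b') ∧ (G.Adj a a' ↔ H.Adj b b')

/-- Duplicator wins the bijective game with `t` pairs of pebbles -/
def CEquiv (t : ℕ) {α β : Type} (G : SimpleGraph α) (H : SimpleGraph β) : Prop :=
  ∃ P : Set (Fin t → Option (α × β)), (fun _ => none) ∈ P ∧ (∀ p ∈ P, PartIso G H p) ∧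
    ∀ p ∈ P, ∀ i : Fin t, ∃ π : α ≃ β, ∀ a : α, Function.update p i (some (a, π a)) ∈ P

/-- the game on isomorphic copies -/
theorem CEquiv_comap (t : ℕ) {α β α' β' : Type} (G : SimpleGraph α) (H : SimpleGraph β)
    (e : α' ≃ α) (e' : β' ≃ β) (h : CEquiv t G H) : CEquiv t (G.comap e) (H.comap e') := by
  obtain ⟨P, h0, h1, h2⟩ := h
  refine ⟨{p' | (fun i => (p' i).map fun x : α' × β' => (e x.1, e' x.2)) ∈ P}, ?_, ?_, ?_⟩
  · simpa using h0
  · intro p' hp' i j a b a' b' hi hj
    have h3 := h1 _ hp' i j (e a) (e' b) (e a') (e' b') (by simp [hi]) (by simp [hj])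
    rw [e.injective.eq_iff, e'.injective.eq_iff] at h3
    simpa [SimpleGraph.comap_adj] using h3
  · intro p' hp' i
    obtain ⟨π, hπ⟩ := h2 _ hp' i
    refine ⟨(e.trans π).trans e'.symm, fun a => ?_⟩
    have h3 := hπ (e a)
    have h4 : (fun j => (Function.update p' i (some (a, ((e.trans π).trans e'.symm) a)) j).map
        fun x : α' × β' => (e x.1, e' x.2)) =
        Function.update (fun j => (p' j).map fun x : α' × β' => (e x.1, e' x.2)) i
          (some (e a, π (e a))) := by
      funext j
      by_cases hj : j = i
      · subst hj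
        simp
      · simp [Function.update_of_ne hj]
    change (fun j => (Function.update p' i (some (a, ((e.trans π).trans e'.symm) a)) j).map
        fun x : α' × β' => (e x.1, e' x.2)) ∈ P
    rw [h4]
    exact h3

/-- with `h` pebbles Spoiler finds an `h`-clique: pebble its vertices one after the other in `H` (on the side of
`H` via the inverse bijection); the last position is a partial isomorphism that maps an `h`-clique of `H` to one
of `G` -/
theorem CEquiv_sharp (h : ℕ) {α β : Type} (G : SimpleGraph α) (H : SimpleGraph β)
    (hG : G.CliqueFree h) (S : Finset β) (hS : H.IsNClique h S) : ¬ CEquiv h G H := by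
  classical
  rintro ⟨P, h0, h1, h2⟩
  have hc : Fintype.card (Fin h) = Fintype.card S := by
    rw [Fintype.card_fin, Fintype.card_coe, hS.card_eq]
  let s : Fin h ≃ S := Fintype.equivOfCardEq hc
  have key : ∀ m : ℕ, m ≤ h → ∃ p ∈ P, ∀ i : Fin h, i.val < m → ∃ a, p i = some (a, (s i).1) := by
    intro m
    induction m with
    | zero => exact fun _ => ⟨_, h0, fun i hi => absurd hi (Nat.not_lt_zero _)⟩
    | succ m ih =>
      intro hm
      obtain ⟨p, hp, hpi⟩ := ih (by omega)
      obtain ⟨π, hπ⟩ := h2 p hp ⟨m, by omega⟩
      refine ⟨_, hπ (π.symm (s ⟨m, by omega⟩).1), fun i hi => ?_⟩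
      by_cases him : i = ⟨m, by omega⟩
      · rw [him]
        exact ⟨π.symm (s ⟨m, by omega⟩).1, by simp⟩
      · rw [Function.update_of_ne him]
        apply hpi
        have : i.val ≠ m := fun hv => him (Fin.ext hv)
        omega
  obtain ⟨p, hp, hpi⟩ := key h le_rfl
  choose a ha using fun i : Fin h => hpi i i.isLt
  have hiso := fun i j : Fin h => h1 p hp i j _ _ _ _ (ha i) (ha j)
  have hinj : Function.Injective a := by
    intro i j hij
    have := (hiso i j).1.1 hij
    exact s.injective (Subtype.ext this)
  refine hG (univ.image a) ⟨?_, ?_⟩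
  · intro x hx y hy hxy
    obtain ⟨i, -, rfl⟩ := Finset.mem_image.1 (Finset.mem_coe.1 hx)
    obtain ⟨j, -, rfl⟩ := Finset.mem_image.1 (Finset.mem_coe.1 hy)
    rw [(hiso i j).2]
    apply hS.isClique (s i).2 (s j).2
    intro hs
    apply hxy
    rw [s.injective (Subtype.ext hs)]
  · rw [Finset.card_image_of_injective _ hinj, Finset.card_univ, Fintype.card_fin]

end Pool.Agent.H97.CL
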