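import Pool.Agent.H97.CL.PebG

/-!
# The theorem on counting logic

`n₀ = #(Fin k × Lab k)`; for `n ≥ n₀` take `γ = Fin (n - n₀)` and transport along
`Fin n ≃ (Fin k × Lab k) ⊕ γ` (`CEquiv_comap`; clique-freeness and cliques along the isomorphism
`SimpleGraph.comap`).  `peb_ratio`: `h = t + 2`, `k` with `k / ρ k ≥ h`.
-/

set_option autoImplicit false

namespace Pool.Agent.H97.CL

open Finset

theorem peb_fin (h k : ℕ) (h2 : 2 ≤ h) : ∃ n₀ : ℕ, ∀ n : ℕ, n₀ ≤ n →
    ∃ G H : SimpleGraph (Fin n), G.CliqueFree h ∧ (∃ S : Finset (Fin n), H.IsNClique k S) ∧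
      CEquiv (h - 1) G H := by
  refine ⟨Fintype.card (Fin k × Lab k), fun n hn => ?_⟩
  have hcard : Fintype.card ((Fin k × Lab k) ⊕ Fin (n - Fintype.card (Fin k × Lab k))) = n := by
    rw [Fintype.card_sum, Fintype.card_fin]
    omega
  obtain ⟨e, -⟩ : ∃ e : Fin n ≃ ((Fin k × Lab k) ⊕ Fin (n - Fintype.card (Fin k × Lab k))),
      True := ⟨(Fintype.equivFinOfCardEq hcard).symm, trivial⟩
  refine ⟨(gd h cst _).comap e, (gd h (fun _ _ => 0) _).comap e, ?_, ?_, ?_⟩
  · exact SimpleGraph.CliqueFree.comap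
      ⟨(SimpleGraph.Embedding.comap e.toEmbedding (gd h (cst (k := k)) _)).toCopy⟩
      (gd_cliqueFree h h2 _)
  · obtain ⟨S, hS⟩ := gd_clique (k := k) h (Fin (n - Fintype.card (Fin k × Lab k)))
    refine ⟨S.map e.symm.toEmbedding, ?_, ?_⟩
    · intro x hx y hy hxy
      have hmem : ∀ z : Fin n, z ∈ S.map e.symm.toEmbedding → e z ∈ S := by
        intro z hz
        obtain ⟨w, hw, hwz⟩ := Finset.mem_map.mp hz
        have h3 : e.symm w = z := hwz
        rw [← h3, Equiv.apply_symm_apply]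
        exact hw
      exact hS.isClique (hmem x hx) (hmem y hy) (fun h3 => hxy (e.injective h3))
    · rw [Finset.card_map]
      exact hS.card_eq
  · exact CEquiv_comap (h - 1) _ _ e e (gd_equiv h (h - 1) (by omega) _)

theorem CEquiv_mono (t t' : ℕ) (ht : t ≤ t') {α β : Type} (G : SimpleGraph α) (H : SimpleGraph β)
    (h : CEquiv t' G H) : CEquiv t G H := by
  obtain ⟨P, hP0, hP1, hP2⟩ := h
  obtain ⟨ext, hext⟩ : ∃ ext : (Fin t → Option (α × β)) → (Fin t' → Option (α × β)),
      ∀ p i, ext p i = if hi : (i : ℕ) < t then p ⟨i, hi⟩ else none :=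
    ⟨fun p i => if hi : (i : ℕ) < t then p ⟨i, hi⟩ else none, fun _ _ => rfl⟩
  have hcast : ∀ (p : Fin t → Option (α × β)) (i : Fin t), ext p (Fin.castLE ht i) = p i := by
    intro p i
    rw [hext, dif_pos (show ((Fin.castLE ht i : Fin t') : ℕ) < t from i.2)]
    rfl
  refine ⟨{p | ext p ∈ P}, ?_, ?_, ?_⟩
  · show ext (fun _ => none) ∈ P
    have h1 : ext (fun _ => none) = fun _ => none := by
      funext i
      rw [hext]
      split_ifs <;> rfl
    rw [h1]
    exact hP0
  · intro p hp i j a b a' b' h1 h2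
    have hp' : ext p ∈ P := hp
    exact hP1 _ hp' (Fin.castLE ht i) (Fin.castLE ht j) a b a' b' (by rw [hcast, h1])
      (by rw [hcast, h2])
  · intro p hp i
    have hp' : ext p ∈ P := hp
    obtain ⟨π, hπ⟩ := hP2 _ hp' (Fin.castLE ht i)
    refine ⟨π, fun a => ?_⟩
    show ext (Function.update p i (some (a, π a))) ∈ P
    have h1 : ext (Function.update p i (some (a, π a))) =
        Function.update (ext p) (Fin.castLE ht i) (some (a, π a)) := by
      funext j
      by_cases hj : j = Fin.castLE ht i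
      · rw [hj, hcast, Function.update_self, Function.update_self]
      · rw [Function.update_of_ne hj, hext, hext]
        split_ifs with hjt
        · rw [Function.update_of_ne]
          intro h2
          apply hj
          rw [← h2]
          rfl
        · rfl
    rw [h1]
    exact hπ a

/-- for every ratio and every number `t` of variables there is `k` such that the logic `C^t` does not separate
the graphs with a clique of size `k` from those all whose cliques have less than `k / ρ k` elements -/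
theorem peb_ratio (ρ : ℕ → ℝ) (hρ : ∀ k, 1 ≤ ρ k) (hub : ∀ B : ℝ, ∃ k : ℕ, B ≤ k / ρ k) (t : ℕ) :
    ∃ k n₀ : ℕ, ∀ n : ℕ, n₀ ≤ n → ∃ G H : SimpleGraph (Fin n),
      (∀ T : Finset (Fin n), G.IsClique T → (T.card : ℝ) < k / ρ k) ∧
      (∃ S : Finset (Fin n), H.IsNClique k S) ∧ CEquiv t G H := by
  obtain ⟨k, hk⟩ := hub ((t + 2 : ℕ) : ℝ)
  obtain ⟨n₀, hn₀⟩ := peb_fin (t + 2) k (by omega)
  refine ⟨k, n₀, fun n hn => ?_⟩
  obtain ⟨G, H, hG, hH, hGH⟩ := hn₀ n hn
  refine ⟨G, H, ?_, hH, CEquiv_mono t (t + 2 - 1) (by omega) G H hGH⟩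
  intro T hT
  refine lt_of_lt_of_le ?_ hk
  by_contra hlt
  push Not at hlt
  have h1 : t + 2 ≤ T.card := by exact_mod_cast hlt
  exact (hG.mono h1) T ⟨hT, rfl⟩

end Pool.Agent.H97.CL
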