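import Pool.Agent.H97.CL.Peb
import Pool.Agent.H97.CL.G2

/-!
# The two graphs of the gadget are `C^{h-1}`-equivalent

Vertices: pairs `(i, z)` of a block `i : Fin k` and a label `z`, and isolated vertices (`γ`).  `gd h c`: the graph
in which `(i, z)`, `(j, w)`, `i ≠ j`, are adjacent if `z`, `w` satisfy the parity conditions with right-hand sides
`c` and agree.  `gd h cst` has no `h`-clique, `gd h 0` has a `k`-clique (all labels `0`).

`gd_equiv`: `P` = the positions `p` for which there is `g : Fin k → Lab k` with: every pair on the board is either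
`(inr x, inr x)` or `(inl (i, z), inl (i, z + g i))`, and with `B` = the set of the blocks `i` of the latter
pairs, `Cl h B g`.  Such a position is a partial isomorphism: for `i, j ∈ B`, `i ≠ j`, adding `g i`, `g j` maps
the conditions with right-hand sides `cst` to those with right-hand sides `0` (the parity of `g i` is
`cst i`, and `g i J j = g j J i`).  Move: Spoiler picks up the pair `s`.  Let `B'` be the set of blocks of the
other pairs, `#B' ≤ t - 1 ≤ h - 2`.  For every block `a` choose `g^a` with `g^a = g` on `B'` and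
`Cl h (insert a B') g^a` (`ext_one` if `a ∉ B'`, the hypothesis `hc` is void as `h - 1 > #B'`; `g^a = g` if
`a ∈ B'`, `Cl_mono`).  The bijection: `inl (a, z) ↦ inl (a, z + g^a a)`, `inr x ↦ inr x` (labels have
characteristic 2, so it is an involution).
-/

set_option autoImplicit false

namespace Pool.Agent.H97.CL

open Finset

variable {k : ℕ}

/-- adjacency of labels with right-hand sides `c` -/
def PairC (h : ℕ) (c : Fin k → Finset (Fin k) → ZMod 2) (i j : Fin k) (a b : Lab k) : Prop :=
  (∀ J : Finset (Fin k), J.card = h → i ∈ J → ∑ l ∈ J.erase i, a J l = c i J) ∧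
  (∀ J : Finset (Fin k), J.card = h → j ∈ J → ∑ l ∈ J.erase j, b J l = c j J) ∧
  (∀ J : Finset (Fin k), J.card = h → i ∈ J → j ∈ J → a J j = b J i)

/-- the graph of the gadget with right-hand sides `c` and isolated vertices `γ` -/
def gd (h : ℕ) (c : Fin k → Finset (Fin k) → ZMod 2) (γ : Type) :
    SimpleGraph ((Fin k × Lab k) ⊕ γ) where
  Adj p q := ∃ a b : Fin k × Lab k, p = Sum.inl a ∧ q = Sum.inl b ∧ a.1 ≠ b.1 ∧
    PairC h c a.1 b.1 a.2 b.2
  symm := ⟨fun _ _ ⟨a, b, h1, h2, h3, h4⟩ => ⟨b, a, h2, h1, h3.symm, h4.2.1, h4.1,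
    fun J hJ h5 h6 => (h4.2.2 J hJ h6 h5).symm⟩⟩
  loopless := ⟨fun _ ⟨a, b, h1, h2, h3, _⟩ => h3 (by
    have := Sum.inl.inj (h1.symm.trans h2)
    rw [this])⟩

private theorem pebG_adj (h : ℕ) (c : Fin k → Finset (Fin k) → ZMod 2) (γ : Type)
    (a b : Fin k × Lab k) : (gd h c γ).Adj (Sum.inl a) (Sum.inl b) ↔
      a.1 ≠ b.1 ∧ PairC h c a.1 b.1 a.2 b.2 := by
  constructor
  · rintro ⟨a', b', h1, h2, h3, h4⟩
    have e1 := Sum.inl.inj h1
    have e2 := Sum.inl.inj h2
    subst e1
    subst e2
    exact ⟨h3, h4⟩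
  · rintro ⟨h3, h4⟩
    exact ⟨a, b, rfl, rfl, h3, h4⟩

private theorem pebG_adj_left (h : ℕ) (c : Fin k → Finset (Fin k) → ZMod 2) (γ : Type) (x : γ)
    (v : (Fin k × Lab k) ⊕ γ) : ¬ (gd h c γ).Adj (Sum.inr x) v := by
  rintro ⟨a', b', h1, _, _, _⟩
  exact absurd h1 (by simp)

private theorem pebG_adj_right (h : ℕ) (c : Fin k → Finset (Fin k) → ZMod 2) (γ : Type) (x : γ)
    (v : (Fin k × Lab k) ⊕ γ) : ¬ (gd h c γ).Adj v (Sum.inr x) := by
  rintro ⟨a', b', _, h1, _, _⟩
  exact absurd h1 (by simp)

theorem gd_cliqueFree (h : ℕ) (h2 : 2 ≤ h) (γ : Type) :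
    (gd h (cst (k := k)) γ).CliqueFree h := by
  classical
  intro S hS
  have hc : S.card = h := hS.card_eq
  have hq := hS.isClique
  have hne : ∀ v ∈ S, ∃ w ∈ S, w ≠ v := by
    intro v _
    have h1 : 1 < S.card := by omega
    exact Finset.exists_mem_ne h1 v
  have hR : S.toRight = ∅ := by
    rw [Finset.eq_empty_iff_forall_notMem]
    intro x hx
    rw [Finset.mem_toRight] at hx
    obtain ⟨w, hw, hwv⟩ := hne _ hx
    exact pebG_adj_left h cst γ x w (hq hx hw hwv.symm)
  have hT : S.toLeft.card = h := by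
    have := Finset.card_toLeft_add_card_toRight (u := S)
    rw [hR, card_empty, add_zero, hc] at this
    exact this
  have hadj : ∀ a ∈ S.toLeft, ∀ b ∈ S.toLeft, a ≠ b →
      a.1 ≠ b.1 ∧ PairC h cst a.1 b.1 a.2 b.2 := by
    intro a ha b hb hab
    rw [Finset.mem_toLeft] at ha hb
    exact (pebG_adj h cst γ a b).mp (hq ha hb (fun e => hab (Sum.inl.inj e)))
  have hinj : Set.InjOn Prod.fst (S.toLeft : Set (Fin k × Lab k)) := by
    intro a ha b hb hab
    by_contra hcon
    exact (hadj a ha b hb hcon).1 hab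
  have hA : (S.toLeft.image Prod.fst).card = h := by
    rw [card_image_of_injOn hinj, hT]
  have hex : ∀ i : Fin k, ∃ z : Lab k, i ∈ S.toLeft.image Prod.fst → (i, z) ∈ S.toLeft := by
    intro i
    by_cases hi : i ∈ S.toLeft.image Prod.fst
    · obtain ⟨a, ha, rfl⟩ := mem_image.mp hi
      exact ⟨a.2, fun _ => ha⟩
    · exact ⟨0, fun h => absurd h hi⟩
  choose z hz using hex
  refine no_clique h (by omega) _ hA z (Cl_of_pairs h _ (by rw [hA]; exact h2) z ?_)
  intro i hi j hj hij
  exact (hadj (i, z i) (hz i hi) (j, z j) (hz j hj) (fun e => hij (congrArg Prod.fst e))).2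

theorem gd_clique (h : ℕ) (γ : Type) :
    ∃ S : Finset ((Fin k × Lab k) ⊕ γ), (gd (k := k) h (fun _ _ => 0) γ).IsNClique k S := by
  refine ⟨(univ : Finset (Fin k)).map ⟨fun i => (Sum.inl (i, (0 : Lab k)) : (Fin k × Lab k) ⊕ γ),
    fun i j hij => congrArg Prod.fst (Sum.inl.inj hij)⟩, ?_, ?_⟩
  · intro v hv w hw hvw
    rw [coe_map, Set.mem_image] at hv hw
    obtain ⟨i, _, rfl⟩ := hv
    obtain ⟨j, _, rfl⟩ := hw
    have hij : i ≠ j := fun e => hvw (by rw [e])
    refine (pebG_adj h _ γ (i, 0) (j, 0)).mpr ⟨hij, ?_, ?_, ?_⟩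
    · intro J _ _
      exact sum_eq_zero fun l _ => rfl
    · intro J _ _
      exact sum_eq_zero fun l _ => rfl
    · intro J _ _ _
      rfl
  · rw [card_map, card_univ, Fintype.card_fin]

open Classical in
/-- the blocks of a position -/
private noncomputable def pebGblk {t : ℕ} {γ : Type}
    (p : Fin t → Option (((Fin k × Lab k) ⊕ γ) × ((Fin k × Lab k) ⊕ γ))) : Finset (Fin k) :=
  univ.filter (fun i => ∃ s z b, p s = some (Sum.inl (i, z), b))

/-- the pairs on the board are matched by `g` -/
private def PebGM {t : ℕ} {γ : Type} (g : Fin k → Lab k)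
    (p : Fin t → Option (((Fin k × Lab k) ⊕ γ) × ((Fin k × Lab k) ⊕ γ))) : Prop :=
  ∀ s a b, p s = some (a, b) → (∃ x : γ, a = Sum.inr x ∧ b = Sum.inr x) ∨
    (∃ (i : Fin k) (z : Lab k), a = Sum.inl (i, z) ∧ b = Sum.inl (i, z + g i))

private theorem pebG_two (x y : ZMod 2) : x + y = 0 ↔ x = y := by
  revert x y
  decide

private theorem pebG_pair (h : ℕ) (B : Finset (Fin k)) (g : Fin k → Lab k) (hg : Cl h B g)
    (i j : Fin k) (hi : i ∈ B) (hj : j ∈ B) (hij : i ≠ j) (a b : Lab k) :
    PairC h cst i j a b ↔ PairC h (fun _ _ => 0) i j (a + g i) (b + g j) := by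
  have e1 : ∀ (i : Fin k), i ∈ B → ∀ (a : Lab k) (J : Finset (Fin k)), J.card = h → i ∈ J →
      (∑ l ∈ J.erase i, a J l = cst i J ↔ ∑ l ∈ J.erase i, (a + g i) J l = 0) := by
    intro i hi a J hJ hiJ
    have h1 := hg.1 i hi J hJ hiJ
    have h2 : ∑ l ∈ J.erase i, (a + g i) J l
        = ∑ l ∈ J.erase i, a J l + ∑ l ∈ J.erase i, g i J l := by
      rw [← sum_add_distrib]
      rfl
    rw [h2, h1, pebG_two]
  have e3 : ∀ J : Finset (Fin k), J.card = h → i ∈ J → j ∈ J →
      (a J j = b J i ↔ (a + g i) J j = (b + g j) J i) := by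
    intro J hJ hiJ hjJ
    have h1 := hg.2 i hi j hj hij J hJ hiJ hjJ
    show a J j = b J i ↔ a J j + g i J j = b J i + g j J i
    rw [h1]
    exact (add_left_inj _).symm
  constructor
  · rintro ⟨h1, h2, h3⟩
    exact ⟨fun J hJ hiJ => (e1 i hi a J hJ hiJ).mp (h1 J hJ hiJ),
      fun J hJ hjJ => (e1 j hj b J hJ hjJ).mp (h2 J hJ hjJ),
      fun J hJ hiJ hjJ => (e3 J hJ hiJ hjJ).mp (h3 J hJ hiJ hjJ)⟩
  · rintro ⟨h1, h2, h3⟩
    exact ⟨fun J hJ hiJ => (e1 i hi a J hJ hiJ).mpr (h1 J hJ hiJ),
      fun J hJ hjJ => (e1 j hj b J hJ hjJ).mpr (h2 J hJ hjJ),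
      fun J hJ hiJ hjJ => (e3 J hJ hiJ hjJ).mpr (h3 J hJ hiJ hjJ)⟩

private theorem pebG_partIso (h t : ℕ) (γ : Type)
    (p : Fin t → Option (((Fin k × Lab k) ⊕ γ) × ((Fin k × Lab k) ⊕ γ))) (g : Fin k → Lab k)
    (hM : PebGM g p) (hC : Cl h (pebGblk p) g) :
    PartIso (gd h (cst (k := k)) γ) (gd (k := k) h (fun _ _ => 0) γ) p := by
  classical
  intro s s' a b a' b' hp hp'
  rcases hM s a b hp with ⟨x, rfl, rfl⟩ | ⟨i, z, rfl, rfl⟩
  · rcases hM s' a' b' hp' with ⟨x', rfl, rfl⟩ | ⟨i', z', rfl, rfl⟩
    · refine ⟨Iff.rfl, ?_⟩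
      exact iff_of_false (pebG_adj_left h _ γ x _) (pebG_adj_left h _ γ x _)
    · refine ⟨by simp, ?_⟩
      exact iff_of_false (pebG_adj_left h _ γ x _) (pebG_adj_left h _ γ x _)
  · rcases hM s' a' b' hp' with ⟨x', rfl, rfl⟩ | ⟨i', z', rfl, rfl⟩
    · refine ⟨by simp, ?_⟩
      exact iff_of_false (pebG_adj_right h _ γ x' _) (pebG_adj_right h _ γ x' _)
    · have hi : i ∈ pebGblk p := by
        unfold pebGblk
        rw [mem_filter]
        exact ⟨mem_univ _, s, z, _, hp⟩
      have hi' : i' ∈ pebGblk p := by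
        unfold pebGblk
        rw [mem_filter]
        exact ⟨mem_univ _, s', z', _, hp'⟩
      refine ⟨?_, ?_⟩
      · constructor
        · intro e
          have e' := Sum.inl.inj e
          have e1 : i = i' := congrArg Prod.fst e'
          have e2 : z = z' := congrArg Prod.snd e'
          rw [e1, e2]
        · intro e
          have e' := Sum.inl.inj e
          have e1 : i = i' := congrArg Prod.fst e'
          have e2 : z + g i = z' + g i' := congrArg Prod.snd e'
          subst e1
          rw [add_right_cancel e2]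
      · rw [pebG_adj, pebG_adj]
        constructor
        · rintro ⟨h1, h3⟩
          exact ⟨h1, (pebG_pair h _ g hC i i' hi hi' h1 z z').mp h3⟩
        · rintro ⟨h1, h3⟩
          exact ⟨h1, (pebG_pair h _ g hC i i' hi hi' h1 z z').mpr h3⟩

private theorem pebG_blk_card {t : ℕ} {γ : Type}
    (p : Fin t → Option (((Fin k × Lab k) ⊕ γ) × ((Fin k × Lab k) ⊕ γ))) (s : Fin t) :
    (pebGblk (Function.update p s none)).card ≤ t - 1 := by
  classical
  have h1 : pebGblk (Function.update p s none) ⊆
      ((univ : Finset (Fin t)).erase s).biUnion (fun s' => univ.filter (fun i : Fin k =>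
        ∃ z b, p s' = some (Sum.inl (i, z), b))) := by
    intro i hi
    unfold pebGblk at hi
    rw [mem_filter] at hi
    obtain ⟨_, s', z, b, hs'⟩ := hi
    have hne : s' ≠ s := by
      rintro rfl
      rw [Function.update_self] at hs'
      exact absurd hs' (by simp)
    rw [Function.update_of_ne hne] at hs'
    rw [mem_biUnion]
    exact ⟨s', mem_erase.mpr ⟨hne, mem_univ _⟩, mem_filter.mpr ⟨mem_univ _, z, b, hs'⟩⟩
  refine (card_le_card h1).trans (card_biUnion_le.trans ?_)
  have h2 : ∀ s' ∈ (univ : Finset (Fin t)).erase s, (univ.filter (fun i : Fin k =>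
        ∃ z b, p s' = some (Sum.inl (i, z), b))).card ≤ 1 := by
    intro s' _
    rw [card_le_one]
    intro i hi j hj
    rw [mem_filter] at hi hj
    obtain ⟨_, z, b, h3⟩ := hi
    obtain ⟨_, z', b', h4⟩ := hj
    rw [h3] at h4
    have h5 := Option.some.inj h4
    have h6 := Sum.inl.inj (congrArg Prod.fst h5)
    exact congrArg Prod.fst h6
  refine (sum_le_sum h2).trans ?_
  rw [sum_const, smul_eq_mul, mul_one, card_erase_of_mem (mem_univ _), card_univ, Fintype.card_fin]

private theorem pebG_ext (h t : ℕ) (ht : t < h) (ht1 : 1 ≤ t) (B : Finset (Fin k))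
    (hB : B.card ≤ t - 1) (g : Fin k → Lab k) (hg : Cl h B g) (a : Fin k) :
    ∃ g' : Fin k → Lab k, (∀ i ∈ B, g' i = g i) ∧ Cl h (insert a B) g' := by
  by_cases ha : a ∈ B
  · refine ⟨g, fun _ _ => rfl, ?_⟩
    rw [insert_eq_of_mem ha]
    exact hg
  · obtain ⟨y, hy⟩ := ext_one h cst B a ha g hg (by
      intro J hJ haJ hJB
      exfalso
      have h1 := card_le_card hJB
      rw [card_erase_of_mem haJ, hJ] at h1
      omega)
    refine ⟨Function.update g a y, ?_, hy⟩
    intro i hi
    rw [Function.update_of_ne]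
    rintro rfl
    exact ha hi

theorem gd_equiv (h t : ℕ) (ht : t < h) (γ : Type) :
    CEquiv t (gd h (cst (k := k)) γ) (gd (k := k) h (fun _ _ => 0) γ) := by
  classical
  refine ⟨{p | ∃ g : Fin k → Lab k, PebGM g p ∧ Cl h (pebGblk p) g}, ?_, ?_, ?_⟩
  · refine ⟨0, ?_, ?_⟩
    · intro s a b hs
      exact absurd hs (by simp)
    · have : pebGblk (fun _ : Fin t =>
          (none : Option (((Fin k × Lab k) ⊕ γ) × ((Fin k × Lab k) ⊕ γ)))) = ∅ := by
        unfold pebGblk
        rw [filter_eq_empty_iff]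
        rintro i _ ⟨s, z, b, hs⟩
        exact absurd hs (by simp)
      rw [this]
      exact ⟨fun i hi => absurd hi (notMem_empty i), fun i hi => absurd hi (notMem_empty i)⟩
  · rintro p ⟨g, hM, hC⟩
    exact pebG_partIso h t γ p g hM hC
  · rintro p ⟨g, hM, hC⟩ s
    have ht1 : 1 ≤ t := by
      have := s.isLt
      omega
    set B : Finset (Fin k) := pebGblk (Function.update p s none) with hB
    have hBc : B.card ≤ t - 1 := pebG_blk_card p s
    have hBsub : B ⊆ pebGblk p := by
      intro i hi
      rw [hB] at hi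
      unfold pebGblk at hi ⊢
      rw [mem_filter] at hi ⊢
      obtain ⟨_, s', z, b, hs'⟩ := hi
      refine ⟨mem_univ _, s', z, b, ?_⟩
      by_cases hne : s' = s
      · rw [hne, Function.update_self] at hs'
        exact absurd hs' (by simp)
      · rwa [Function.update_of_ne hne] at hs'
    have hgB : Cl h B g := Cl_mono h B _ hBsub g hC
    choose G hG1 hG2 using fun a => pebG_ext h t ht ht1 B hBc g hgB a
    have hmemB : ∀ (s' : Fin t) (i : Fin k) (z : Lab k) (b : (Fin k × Lab k) ⊕ γ), s' ≠ s →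
        p s' = some (Sum.inl (i, z), b) → i ∈ B := by
      intro s' i z b hne hs'
      rw [hB]
      unfold pebGblk
      rw [mem_filter]
      refine ⟨mem_univ _, s', z, b, ?_⟩
      rw [Function.update_of_ne hne]
      exact hs'
    let e : (Fin k × Lab k) ≃ (Fin k × Lab k) :=
      { toFun := fun q => (q.1, q.2 + G q.1 q.1)
        invFun := fun q => (q.1, q.2 - G q.1 q.1)
        left_inv := fun q => by simp
        right_inv := fun q => by simp }
    refine ⟨Equiv.sumCongr e (Equiv.refl γ), ?_⟩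
    intro v
    rcases v with ⟨a, z⟩ | x
    · refine ⟨G a, ?_, ?_⟩
      · intro s' a' b' hs'
        by_cases hne : s' = s
        · rw [hne, Function.update_self] at hs'
          have h5 := Option.some.inj hs'
          right
          refine ⟨a, z, (congrArg Prod.fst h5).symm, ?_⟩
          exact (congrArg Prod.snd h5).symm
        · rw [Function.update_of_ne hne] at hs'
          rcases hM s' a' b' hs' with h6 | ⟨i, w, h6, h7⟩
          · left
            exact h6
          · right
            refine ⟨i, w, h6, ?_⟩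
            have hi : i ∈ B := by
              rw [h6] at hs'
              exact hmemB s' i w b' hne hs'
            rw [hG1 a i hi]
            exact h7
      · refine Cl_mono h _ _ ?_ (G a) (hG2 a)
        intro i hi
        unfold pebGblk at hi
        rw [mem_filter] at hi
        obtain ⟨_, s', w, b, hs'⟩ := hi
        rw [mem_insert]
        by_cases hne : s' = s
        · rw [hne, Function.update_self] at hs'
          have h5 := Option.some.inj hs'
          have h6 := Sum.inl.inj (congrArg Prod.fst h5)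
          left
          exact (congrArg Prod.fst h6).symm
        · rw [Function.update_of_ne hne] at hs'
          right
          exact hmemB s' i w b hne hs'
    · refine ⟨g, ?_, ?_⟩
      · intro s' a' b' hs'
        by_cases hne : s' = s
        · rw [hne, Function.update_self] at hs'
          have h5 := Option.some.inj hs'
          left
          refine ⟨x, (congrArg Prod.fst h5).symm, ?_⟩
          exact (congrArg Prod.snd h5).symm
        · rw [Function.update_of_ne hne] at hs'
          exact hM s' a' b' hs'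
      · refine Cl_mono h _ _ ?_ g hgB
        intro i hi
        unfold pebGblk at hi
        rw [mem_filter] at hi
        obtain ⟨_, s', w, b, hs'⟩ := hi
        by_cases hne : s' = s
        · rw [hne, Function.update_self] at hs'
          have h5 := congrArg Prod.fst (Option.some.inj hs')
          exact absurd h5 (by simp)
        · rw [Function.update_of_ne hne] at hs'
          exact hmemB s' i w b hne hs'

end Pool.Agent.H97.CL
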