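import Pool.Agent.H97.CL.Hop

/-!
# Positivity up to the high part

`Hu u n f = Hop (list of the pointers (i, u i)) n f`.
`posit`: `f = L + H`, `H = Hu u (D+1) f`, `L` of degree at most `D` in the pointers `(i, u i)` (`Hop_low`).
`av (W(rd x u) L²) ≥ 0`: by `av_wr` it is the average over `x` of `av_z (W z L(wr x u z)²)`, and
`z ↦ L (wr x u z)` has degree at most `D`.  `f² = L² + 2 f H - H²` and Cauchy-Schwarz for the rest.
-/

set_option autoImplicit false

namespace Pool.Agent.H97.CL

open Finset

variable {k N : ℕ} {V : Type} [Fintype V] [Nonempty V]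

/-- the part of degree at least `n` in the labels at the pointers `u` -/
noncomputable def Hu (u : Fin k → Fin N) (n : ℕ) (f : (Fin k × Fin N → V) → ℝ) :
    (Fin k × Fin N → V) → ℝ :=
  Hop ((List.finRange k).map (fun i => (i, u i))) n f

/-- the list of the pointers -/
private def posit_l (u : Fin k → Fin N) : List (Fin k × Fin N) :=
  (List.finRange k).map (fun i => (i, u i))

private theorem posit_nodup (u : Fin k → Fin N) : (posit_l u).Nodup := by
  unfold posit_l
  apply List.Nodup.map _ (List.nodup_finRange k)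
  intro i j hij
  exact (Prod.mk.inj hij).1

private theorem posit_mem (u : Fin k → Fin N) (c : Fin k × Fin N) :
    c ∈ (posit_l u).toFinset ↔ c.2 = u c.1 := by
  unfold posit_l
  rw [List.mem_toFinset, List.mem_map]
  constructor
  · rintro ⟨i, -, rfl⟩
    rfl
  · intro h
    exact ⟨c.1, List.mem_finRange _, by rw [← h]⟩

omit [Fintype V] [Nonempty V] in
private theorem posit_dep (u : Fin k → Fin N) (x : Fin k × Fin N → V)
    (C : Finset (Fin k × Fin N)) (g : (Fin k × Fin N → V) → ℝ)
    (hg : DepOn ((posit_l u).toFinsetᶜ ∪ C) g) :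
    DepOn (univ.filter fun i => (i, u i) ∈ C) (fun z : Fin k → V => g (wr x u z)) := by
  intro z z' hz
  apply hg
  intro c hc
  unfold wr
  by_cases h : c.2 = u c.1
  · rw [if_pos h, if_pos h]
    rcases mem_union.1 hc with h1 | h1
    · exact absurd ((posit_mem u c).2 h) (mem_compl.1 h1)
    · apply hz
      rw [mem_filter]
      refine ⟨mem_univ _, ?_⟩
      have e : (c.1, u c.1) = c := by rw [← h]
      rw [e]
      exact h1
  · rw [if_neg h, if_neg h]

private theorem posit_low (u : Fin k → Fin N) (x : Fin k × Fin N → V) (D : ℕ)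
    (g : (Fin k × Fin N → V) → ℝ) (hg : LowDeg (posit_l u).toFinset D g) :
    LowDeg univ D (fun z : Fin k → V => g (wr x u z)) := by
  obtain ⟨F, hF, hsum⟩ := hg
  have e : (fun z : Fin k → V => g (wr x u z)) =
      ∑ C ∈ (posit_l u).toFinset.powerset.filter (fun C => C.card ≤ D),
        fun z : Fin k → V => F C (wr x u z) := by
    funext z
    rw [hsum, Finset.sum_apply]
  rw [e]
  apply LowDeg_sum
  intro C hC
  rw [mem_filter] at hC
  apply LowDeg_of_DepOn univ (univ.filter fun i => (i, u i) ∈ C) D (subset_univ _)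
  · refine le_trans ?_ hC.2
    apply card_le_card_of_injOn (fun i => (i, u i))
    · intro i hi
      rw [mem_coe, mem_filter] at hi
      exact hi.2
    · intro i _ j _ hij
      exact (Prod.mk.inj hij).1
  · have h1 := posit_dep u x C (F C) (hF C)
    intro z z' hz
    apply h1
    intro i hi
    apply hz
    rw [mem_union]
    exact Or.inr hi

theorem posit (D : ℕ) (W : (Fin k → V) → ℝ) (B : ℝ) (hB : 0 < B) (hW : ∀ z, |W z| ≤ B)
    (hWp : ∀ q : (Fin k → V) → ℝ, LowDeg univ D q → 0 ≤ av (fun z => W z * q z ^ 2))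
    (u : Fin k → Fin N) (f : (Fin k × Fin N → V) → ℝ) :
    -(B * (2 * Real.sqrt (nrm f * nrm (Hu u (D + 1) f)) + nrm (Hu u (D + 1) f))) ≤
      av (fun x => W (rd x u) * f x ^ 2) := by
  classical
  set H : (Fin k × Fin N → V) → ℝ := Hu u (D + 1) f with hH
  set L : (Fin k × Fin N → V) → ℝ := f - H with hL
  have hLlow : LowDeg (posit_l u).toFinset D L := Hop_low (posit_l u) (posit_nodup u) D f
  have h1 : 0 ≤ av (fun x => W (rd x u) * L x ^ 2) := by
    rw [← av_wr u (fun x => W (rd x u) * L x ^ 2)]
    refine av_nonneg fun x => ?_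
    simp only [rd_wr]
    exact hWp _ (posit_low u x D L hLlow)
  have h2 : av (fun x => |f x * H x|) ≤ Real.sqrt (nrm f * nrm H) := by
    apply Real.le_sqrt_of_sq_le
    have h := av_mul_sq_le (fun x => |f x|) (fun x => |H x|)
    simp only [sq_abs] at h
    unfold nrm
    refine le_trans (le_of_eq ?_) h
    congr 1
    exact av_congr fun x => abs_mul _ _
  have h3 : ∀ x, W (rd x u) * L x ^ 2 - B * (2 * |f x * H x| + H x ^ 2) ≤
      W (rd x u) * f x ^ 2 := by
    intro x
    have e : L x = f x - H x := rfl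
    have e2 : W (rd x u) * f x ^ 2 =
        W (rd x u) * L x ^ 2 + W (rd x u) * (2 * (f x * H x) - H x ^ 2) := by
      rw [e]; ring
    rw [e2]
    have h4 : |W (rd x u) * (2 * (f x * H x) - H x ^ 2)| ≤ B * (2 * |f x * H x| + H x ^ 2) := by
      rw [abs_mul]
      apply mul_le_mul (hW _) _ (abs_nonneg _) hB.le
      calc |2 * (f x * H x) - H x ^ 2| ≤ |2 * (f x * H x)| + |H x ^ 2| := abs_sub _ _
        _ = 2 * |f x * H x| + H x ^ 2 := by
          rw [abs_mul, abs_of_pos (by norm_num : (0 : ℝ) < 2), abs_of_nonneg (sq_nonneg (H x))]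
    have h5 := neg_abs_le (W (rd x u) * (2 * (f x * H x) - H x ^ 2))
    linarith
  have h6 := av_mono h3
  rw [av_sub, av_mul_left, av_add, av_mul_left] at h6
  have h7 : av (fun x => H x ^ 2) = nrm H := rfl
  rw [h7] at h6
  have h8 : B * (2 * av (fun x => |f x * H x|) + nrm H) ≤
      B * (2 * Real.sqrt (nrm f * nrm H) + nrm H) := by
    apply mul_le_mul_of_nonneg_left _ hB.le
    linarith
  linarith

end Pool.Agent.H97.CL
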