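import Pool.Agent.H97.CL.Glue
import Pool.Agent.H97.CL.Loc

/-!
# Positivity of the glued density on squares of functions of low degree

`W = glue h (loc h)`, `3 D < h`, `q = ∑_{#A ≤ D} q_A`, `q_A` depending only on the coordinates in `A`.
Proof that `av (W q^2) ≥ 0`.

1. For `#A, #A' ≤ D`: `av (W q_A q_A') = av (loc h (A ∪ A') q_A q_A')` (`glue_marg` with `I = A ∪ A'`, and
`av_piecewise`); more generally for functions `F` depending only on `I`, `#I < h`: `av (W F) = av (loc h I F)`.
2. Fourier decomposition for the finite group `Γ = {g : Hom h g}` (every element has order 2).  Simplest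
way: the averaging over `Γ` in the following form.  For a function `q` let `(τ_g q) z = q (z + g)`.  `av` is
invariant under `τ_g`, and `av (loc h I (τ_g F)) = av (loc h I F)` (`hom_act`).  The bilinear form
`⟨q, q'⟩ = ∑_{A,A'} av (loc h (A ∪ A') q_A q'_A')` on families `(q_A)` is symmetric and invariant under
`τ_g`, so it is enough to show `⟨q, q⟩ ≥ 0` for simultaneous eigenvectors, i.e. families with
`q_A (z + g) = ξ(g) q_A z` for all `A, z, g`, `ξ : Γ → {±1}` a character: every family is the sum of the
projections `q^ξ = (1/#Γ) ∑_g ξ(g) τ_g q` over the characters `ξ` of `Γ` (real valued since `Γ` is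
elementary abelian), and different `ξ` are orthogonal for an invariant form.  An alternative that avoids
characters: average over a basis one involution `g` at a time: `q = (q + τ_g q)/2 + (q - τ_g q)/2`, the two
parts are orthogonal for an invariant form, are eigenvectors of `τ_g`, and if `q` was an eigenvector of
`τ_g'` so are both parts; hence induct over a finite set of `g`'s: the claim `⟨q, q⟩ ≥ 0` for all families
that are eigenvectors (eigenvalue `±1`) of all `τ_g`, `g ∈ S` for `S = Γ` implies it for all smaller `S`,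
down to `S = ∅`.
3. For such an eigenfamily: `q_A q_A'` is invariant under `Γ` hence, by `hom_trans`, constant
`= κ(A, A')` on the cliques on `A ∪ A'` (it depends only on the coordinates in `A ∪ A'`), so
`av (loc h (A ∪ A') q_A q_A') = κ(A, A')`.  If all `q_A` vanish on the cliques on `A`, everything is `0`.
Otherwise take `A₀` with `q_A₀ ≠ 0` somewhere on the cliques on `A₀`; then `|q_A₀| = a₀ > 0` on all of them.
For all `A, A'` take a clique `z` on `A₀ ∪ A ∪ A'` (`Cl_exists`, at most `3 D < h` indices):
`q_A z = κ(A₀, A)/q_A₀ z`, so `κ(A, A') = κ(A₀, A) κ(A₀, A')/a₀²`, and `⟨q, q⟩ = (∑_A κ(A₀, A)/a₀)² ≥ 0`.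
-/

set_option autoImplicit false

namespace Pool.Agent.H97.CL

open Finset

variable {k : ℕ}

/-- the signed density -/
noncomputable def Wf (k h : ℕ) : (Fin k → Lab k) → ℝ := glue h (loc h)

theorem W_loc (h : ℕ) (I : Finset (Fin k)) (hI : I.card < h) (F : (Fin k → Lab k) → ℝ)
    (hF : DepOn I F) : av (fun z => Wf k h z * F z) = av (fun z => loc h I z * F z) := by
  rw [← av_piecewise I (fun z => Wf k h z * F z)]
  refine av_congr fun x => ?_
  have h1 : ∀ y : Fin k → Lab k, Wf k h (I.piecewise x y) * F (I.piecewise x y) =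
      Wf k h (I.piecewise x y) * F x := by
    intro y
    rw [hF (I.piecewise x y) x fun i hi => Finset.piecewise_eq_of_mem _ _ _ hi]
  rw [av_congr h1, av_mul_right]
  congr 1
  exact glue_marg h (loc h) (fun A I hA z => loc_cons h A I hA z) I hI x

/-- the sets of at most `D` indices -/
private def psdP (k D : ℕ) : Finset (Finset (Fin k)) :=
  (univ : Finset (Fin k)).powerset.filter (fun C => C.card ≤ D)

private lemma psdP_card {D : ℕ} {A : Finset (Fin k)} (hA : A ∈ psdP k D) : A.card ≤ D :=
  (Finset.mem_filter.mp hA).2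

/-- the bilinear form on families -/
private noncomputable def psdB (h D : ℕ) (F F' : Finset (Fin k) → (Fin k → Lab k) → ℝ) : ℝ :=
  ∑ A ∈ psdP k D, ∑ A' ∈ psdP k D, av (fun z => loc h (A ∪ A') z * (F A z * F' A' z))

private lemma psdB_shift (h D : ℕ) (g : Fin k → Lab k) (hg : Hom h g)
    (F F' : Finset (Fin k) → (Fin k → Lab k) → ℝ) :
    psdB h D (fun A z => F A (z + g)) (fun A z => F' A (z + g)) = psdB h D F F' := by
  unfold psdB
  refine Finset.sum_congr rfl fun A _ => Finset.sum_congr rfl fun A' _ => ?_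
  rw [← av_equiv (Equiv.addRight g) (fun z => loc h (A ∪ A') z * (F A z * F' A' z))]
  refine av_congr fun z => ?_
  have h1 : loc h (A ∪ A') (Equiv.addRight g z) = loc h (A ∪ A') z := by
    unfold loc
    have h2 : Cl h (A ∪ A') (Equiv.addRight g z) ↔ Cl h (A ∪ A') z := hom_act h g hg (A ∪ A') z
    by_cases h3 : Cl h (A ∪ A') z
    · rw [if_pos h3, if_pos (h2.2 h3)]
    · rw [if_neg h3, if_neg (fun h4 => h3 (h2.1 h4))]
  rw [h1]
  rfl

private lemma psdB_add_left (h D : ℕ) (F G F' : Finset (Fin k) → (Fin k → Lab k) → ℝ) :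
    psdB h D (fun A z => F A z + G A z) F' = psdB h D F F' + psdB h D G F' := by
  unfold psdB
  rw [← Finset.sum_add_distrib]
  refine Finset.sum_congr rfl fun A _ => ?_
  rw [← Finset.sum_add_distrib]
  refine Finset.sum_congr rfl fun A' _ => ?_
  rw [← av_add]
  exact av_congr fun z => by ring

private lemma psdB_add_right (h D : ℕ) (F G F' : Finset (Fin k) → (Fin k → Lab k) → ℝ) :
    psdB h D F' (fun A z => F A z + G A z) = psdB h D F' F + psdB h D F' G := by
  unfold psdB
  rw [← Finset.sum_add_distrib]
  refine Finset.sum_congr rfl fun A _ => ?_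
  rw [← Finset.sum_add_distrib]
  refine Finset.sum_congr rfl fun A' _ => ?_
  rw [← av_add]
  exact av_congr fun z => by ring

private lemma psdB_neg_right (h D : ℕ) (F F' : Finset (Fin k) → (Fin k → Lab k) → ℝ) :
    psdB h D F (fun A z => - F' A z) = - psdB h D F F' := by
  unfold psdB
  rw [← Finset.sum_neg_distrib]
  refine Finset.sum_congr rfl fun A _ => ?_
  rw [← Finset.sum_neg_distrib]
  refine Finset.sum_congr rfl fun A' _ => ?_
  rw [← av_neg]
  exact av_congr fun z => by ring

private lemma psdB_neg_left (h D : ℕ) (F F' : Finset (Fin k) → (Fin k → Lab k) → ℝ) :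
    psdB h D (fun A z => - F A z) F' = - psdB h D F F' := by
  unfold psdB
  rw [← Finset.sum_neg_distrib]
  refine Finset.sum_congr rfl fun A _ => ?_
  rw [← Finset.sum_neg_distrib]
  refine Finset.sum_congr rfl fun A' _ => ?_
  rw [← av_neg]
  exact av_congr fun z => by ring

/-- families which are eigenvectors of the translations by all `g ∈ S` -/
private def psdEig (S : Finset (Fin k → Lab k))
    (F : Finset (Fin k) → (Fin k → Lab k) → ℝ) : Prop :=
  ∀ g ∈ S, ∃ ε : ℝ, (ε = 1 ∨ ε = -1) ∧ ∀ A z, F A (z + g) = ε * F A z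

private lemma psd_two (g : Fin k → Lab k) (z : Fin k → Lab k) : z + g + g = z := by
  have h1 : g + g = 0 := by
    funext i J j
    exact CharTwo.add_self_eq_zero _
  rw [add_assoc, h1, add_zero]

/-- removing one translation -/
private lemma psd_step (h D : ℕ) (S : Finset (Fin k → Lab k)) (g : Fin k → Lab k) (hg : Hom h g)
    (hS : ∀ F : Finset (Fin k) → (Fin k → Lab k) → ℝ, (∀ A, DepOn A (F A)) →
      psdEig (insert g S) F → 0 ≤ psdB h D F F)
    (F : Finset (Fin k) → (Fin k → Lab k) → ℝ) (hF : ∀ A, DepOn A (F A)) (hE : psdEig S F) :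
    0 ≤ psdB h D F F := by
  set P : Finset (Fin k) → (Fin k → Lab k) → ℝ := fun A z => (F A z + F A (z + g)) / 2 with hP
  set N : Finset (Fin k) → (Fin k → Lab k) → ℝ := fun A z => (F A z - F A (z + g)) / 2 with hN
  have e1 : F = fun A z => P A z + N A z := by
    funext A z
    simp only [hP, hN]
    ring
  have dep : ∀ A, DepOn A (fun z => F A (z + g)) := by
    intro A z z' hz
    exact hF A (z + g) (z' + g) fun i hi => by rw [Pi.add_apply, Pi.add_apply, hz i hi]
  have dP : ∀ A, DepOn A (P A) := by
    intro A z z' hz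
    have h1 := hF A z z' hz
    have h2 : F A (z + g) = F A (z' + g) := dep A z z' hz
    simp only [hP]
    rw [h1, h2]
  have dN : ∀ A, DepOn A (N A) := by
    intro A z z' hz
    have h1 := hF A z z' hz
    have h2 : F A (z + g) = F A (z' + g) := dep A z z' hz
    simp only [hN]
    rw [h1, h2]
  have sP : ∀ A z, P A (z + g) = P A z := by
    intro A z
    simp only [hP, psd_two]
    ring
  have sN : ∀ A z, N A (z + g) = - N A z := by
    intro A z
    simp only [hN, psd_two]
    ring
  have eP : psdEig (insert g S) P := by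
    intro g' hg'
    rcases Finset.mem_insert.mp hg' with rfl | hg'
    · exact ⟨1, Or.inl rfl, fun A z => by rw [sP, one_mul]⟩
    · obtain ⟨ε, hε, hEg⟩ := hE g' hg'
      refine ⟨ε, hε, fun A z => ?_⟩
      simp only [hP]
      rw [hEg, add_right_comm z g' g, hEg]
      ring
  have eN : psdEig (insert g S) N := by
    intro g' hg'
    rcases Finset.mem_insert.mp hg' with rfl | hg'
    · exact ⟨-1, Or.inr rfl, fun A z => by rw [sN]; ring⟩
    · obtain ⟨ε, hε, hEg⟩ := hE g' hg'
      refine ⟨ε, hε, fun A z => ?_⟩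
      simp only [hN]
      rw [hEg, add_right_comm z g' g, hEg]
      ring
  have c1 : psdB h D P N = 0 := by
    have h1 := psdB_shift h D g hg P N
    have h2 : (fun A z => P A (z + g)) = P := by
      funext A z
      exact sP A z
    have h3 : (fun A z => N A (z + g)) = fun A z => - N A z := by
      funext A z
      exact sN A z
    rw [h2, h3, psdB_neg_right] at h1
    linarith
  have c2 : psdB h D N P = 0 := by
    have h1 := psdB_shift h D g hg N P
    have h2 : (fun A z => P A (z + g)) = P := by
      funext A z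
      exact sP A z
    have h3 : (fun A z => N A (z + g)) = fun A z => - N A z := by
      funext A z
      exact sN A z
    rw [h2, h3, psdB_neg_left] at h1
    linarith
  rw [e1, psdB_add_left, psdB_add_right, psdB_add_right, c1, c2]
  have p1 := hS P dP eP
  have p2 := hS N dN eN
  linarith

private lemma psd_down (h D : ℕ) (T : Finset (Fin k → Lab k)) (hT : ∀ g ∈ T, Hom h g) :
    ∀ S : Finset (Fin k → Lab k),
      (∀ F : Finset (Fin k) → (Fin k → Lab k) → ℝ, (∀ A, DepOn A (F A)) →
        psdEig (S ∪ T) F → 0 ≤ psdB h D F F) →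
      ∀ F : Finset (Fin k) → (Fin k → Lab k) → ℝ, (∀ A, DepOn A (F A)) →
        psdEig S F → 0 ≤ psdB h D F F := by
  induction T using Finset.induction_on with
  | empty =>
    intro S hS F hF hE
    exact hS F hF (by rwa [Finset.union_empty])
  | insert g T hgT ih =>
    intro S hS
    refine psd_step h D S g (hT g (Finset.mem_insert_self g T)) ?_
    refine ih (fun g' hg' => hT g' (Finset.mem_insert_of_mem hg')) (insert g S) ?_
    intro F hF hE
    refine hS F hF ?_
    rwa [Finset.union_insert, ← Finset.insert_union]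

/-- the average of `loc` times a function which is constant on the cliques -/
private lemma psd_const (h : ℕ) (I : Finset (Fin k)) (hI : I.card < h) (f : (Fin k → Lab k) → ℝ)
    (c : ℝ) (hf : ∀ z, Cl h I z → f z = c) : av (fun z => loc h I z * f z) = c := by
  have h1 : ∀ z : Fin k → Lab k, loc h I z * f z =
      (pr h I)⁻¹ * ((open Classical in if Cl h I z then (1 : ℝ) else 0) * c) := by
    intro z
    unfold loc
    by_cases hz : Cl h I z
    · rw [if_pos hz, if_pos hz, hf z hz, one_mul]
    · rw [if_neg hz, if_neg hz, zero_mul, zero_mul, mul_zero]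
  rw [av_congr h1, av_mul_left, av_mul_right]
  have h3 : (pr h I)⁻¹ * pr h I = 1 := inv_mul_cancel₀ (pr_pos h I hI).ne'
  have h4 : av (fun x : Fin k → Lab k => open Classical in if Cl h I x then (1 : ℝ) else 0) =
      pr h I := rfl
  rw [← mul_assoc, h4, h3, one_mul]

/-- the form is nonnegative on simultaneous eigenvectors -/
private lemma psd_eig (h D : ℕ) (hD : 3 * D < h) (F : Finset (Fin k) → (Fin k → Lab k) → ℝ)
    (hF : ∀ A, DepOn A (F A))
    (hE : ∀ g, Hom h g → ∃ ε : ℝ, (ε = 1 ∨ ε = -1) ∧ ∀ A z, F A (z + g) = ε * F A z) :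
    0 ≤ psdB h D F F := by
  -- constant on cliques
  have key : ∀ (I A A' : Finset (Fin k)), A ⊆ I → A' ⊆ I → ∀ z z', Cl h I z → Cl h I z' →
      F A z * F A' z = F A z' * F A' z' := by
    intro I A A' hA hA' z z' hz hz'
    obtain ⟨g, hg, hgz⟩ := hom_trans h I z z' hz hz'
    obtain ⟨ε, hε, hEg⟩ := hE g hg
    have e1 : ∀ B : Finset (Fin k), B ⊆ I → F B z' = ε * F B z := by
      intro B hB
      rw [← hEg]
      refine hF B _ _ fun i hi => ?_
      rw [Pi.add_apply]
      exact hgz i (hB hi)
    rw [e1 A hA, e1 A' hA']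
    rcases hε with rfl | rfl <;> ring
  have hcard : ∀ A A' : Finset (Fin k), A ∈ psdP k D → A' ∈ psdP k D → (A ∪ A').card < h := by
    intro A A' hA hA'
    have h1 := Finset.card_union_le A A'
    have h2 := psdP_card hA
    have h3 := psdP_card hA'
    omega
  by_cases hall : ∀ A ∈ psdP k D, ∀ z, Cl h A z → F A z = 0
  · have : psdB h D F F = 0 := by
      unfold psdB
      refine Finset.sum_eq_zero fun A hA => Finset.sum_eq_zero fun A' hA' => ?_
      refine psd_const h (A ∪ A') (hcard A A' hA hA') _ 0 fun z hz => ?_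
      rw [hall A hA z (Cl_mono h A (A ∪ A') Finset.subset_union_left z hz), zero_mul]
    rw [this]
  · push Not at hall
    obtain ⟨A0, hA0, z0, hz0, ha⟩ := hall
    -- the values with `A0`
    have hex : ∀ A : Finset (Fin k), ∃ z : Fin k → Lab k, A ∈ psdP k D → Cl h (A0 ∪ A) z := by
      intro A
      by_cases hA : A ∈ psdP k D
      · obtain ⟨z, hz⟩ := Cl_exists h (A0 ∪ A) (hcard A0 A hA0 hA)
        exact ⟨z, fun _ => hz⟩
      · exact ⟨0, fun h' => absurd h' hA⟩
    choose zz hzz using hex
    have hsq : ∀ A ∈ psdP k D, ∀ A' ∈ psdP k D,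
        F A0 z0 ^ 2 * av (fun z => loc h (A ∪ A') z * (F A z * F A' z)) =
          (F A0 (zz A) * F A (zz A)) * (F A0 (zz A') * F A' (zz A')) := by
      intro A hA A' hA'
      have hc3 : (A0 ∪ (A ∪ A')).card < h := by
        have h1 := Finset.card_union_le A0 (A ∪ A')
        have h2 := Finset.card_union_le A A'
        have h3 := psdP_card hA
        have h4 := psdP_card hA'
        have h5 := psdP_card hA0
        omega
      obtain ⟨z, hz⟩ := Cl_exists h (A0 ∪ (A ∪ A')) hc3
      have s1 : A0 ⊆ A0 ∪ (A ∪ A') := Finset.subset_union_left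
      have s2 : A ∪ A' ⊆ A0 ∪ (A ∪ A') := Finset.subset_union_right
      have s3 : A0 ∪ A ⊆ A0 ∪ (A ∪ A') :=
        Finset.union_subset s1 (Finset.subset_union_left.trans s2)
      have s4 : A0 ∪ A' ⊆ A0 ∪ (A ∪ A') :=
        Finset.union_subset s1 (Finset.subset_union_right.trans s2)
      have e1 : av (fun z => loc h (A ∪ A') z * (F A z * F A' z)) = F A z * F A' z :=
        psd_const h (A ∪ A') (hcard A A' hA hA') _ _ fun z' hz' =>
          key (A ∪ A') A A' Finset.subset_union_left Finset.subset_union_right z' z hz'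
            (Cl_mono h _ _ s2 z hz)
      have e2 : F A0 (zz A) * F A (zz A) = F A0 z * F A z :=
        key (A0 ∪ A) A0 A Finset.subset_union_left Finset.subset_union_right (zz A) z (hzz A hA)
          (Cl_mono h _ _ s3 z hz)
      have e3 : F A0 (zz A') * F A' (zz A') = F A0 z * F A' z :=
        key (A0 ∪ A') A0 A' Finset.subset_union_left Finset.subset_union_right (zz A') z
          (hzz A' hA') (Cl_mono h _ _ s4 z hz)
      have e4 : F A0 z0 * F A0 z0 = F A0 z * F A0 z :=
        key A0 A0 A0 (Finset.Subset.refl _) (Finset.Subset.refl _) z0 z hz0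
          (Cl_mono h _ _ s1 z hz)
      rw [e1, e2, e3, sq, e4]
      ring
    have hmul : F A0 z0 ^ 2 * psdB h D F F = (∑ A ∈ psdP k D, F A0 (zz A) * F A (zz A)) ^ 2 := by
      unfold psdB
      rw [sq (∑ A ∈ psdP k D, F A0 (zz A) * F A (zz A)), Finset.sum_mul_sum, Finset.mul_sum]
      refine Finset.sum_congr rfl fun A hA => ?_
      rw [Finset.mul_sum]
      exact Finset.sum_congr rfl fun A' hA' => hsq A hA A' hA'
    have hpos : 0 < F A0 z0 ^ 2 := by positivity
    have h0 : 0 ≤ F A0 z0 ^ 2 * psdB h D F F := by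
      rw [hmul]
      exact sq_nonneg _
    exact (mul_nonneg_iff_of_pos_left hpos).mp h0

private lemma psd_all (h D : ℕ) (hD : 3 * D < h) (F : Finset (Fin k) → (Fin k → Lab k) → ℝ)
    (hF : ∀ A, DepOn A (F A)) : 0 ≤ psdB h D F F := by
  classical
  refine psd_down h D ((univ : Finset (Fin k → Lab k)).filter (fun g => Hom h g))
    (fun g hg => (Finset.mem_filter.mp hg).2) ∅ ?_ F hF (fun g hg => absurd hg (Finset.notMem_empty g))
  intro F hF hE
  refine psd_eig h D hD F hF fun g hg => hE g ?_
  rw [Finset.empty_union, Finset.mem_filter]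
  exact ⟨Finset.mem_univ g, hg⟩

theorem W_psd (h D : ℕ) (hD : 3 * D < h) (q : (Fin k → Lab k) → ℝ) (hq : LowDeg univ D q) :
    0 ≤ av (fun z => Wf k h z * q z ^ 2) := by
  obtain ⟨F, hF, hqF⟩ := hq
  have hF' : ∀ A, DepOn A (F A) := by
    intro A z z' hz
    refine hF A z z' fun i hi => hz i ?_
    rw [Finset.compl_univ, Finset.empty_union] at hi
    exact hi
  have e1 : av (fun z => Wf k h z * q z ^ 2) = psdB h D F F := by
    have h1 : ∀ z, Wf k h z * q z ^ 2 =
        ∑ A ∈ psdP k D, ∑ A' ∈ psdP k D, Wf k h z * (F A z * F A' z) := by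
      intro z
      rw [hqF z, sq, Finset.sum_mul_sum, Finset.mul_sum]
      refine Finset.sum_congr rfl fun A _ => ?_
      rw [Finset.mul_sum]
      rfl
    rw [av_congr h1]
    rw [av_sum (psdP k D) (fun A z => ∑ A' ∈ psdP k D, Wf k h z * (F A z * F A' z))]
    unfold psdB
    refine Finset.sum_congr rfl fun A hA => ?_
    rw [av_sum (psdP k D) (fun A' z => Wf k h z * (F A z * F A' z))]
    refine Finset.sum_congr rfl fun A' hA' => ?_
    refine W_loc h (A ∪ A') ?_ _ ?_
    · have h1 := Finset.card_union_le A A'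
      have h2 := psdP_card hA
      have h3 := psdP_card hA'
      omega
    · intro z z' hz
      have h1 := hF' A z z' fun i hi => hz i (Finset.mem_union_left _ hi)
      have h2 := hF' A' z z' fun i hi => hz i (Finset.mem_union_right _ hi)
      simp only [h1, h2]
  rw [e1]
  exact psd_all h D hD F hF'

end Pool.Agent.H97.CL
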