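import Pool.Agent.H97.CL.FinSdp

/-!
# No FPT-size semidefinite formulation has an admissible ratio

`SDPRatio n k r R` implies `SDPForm n (k+1) h 1 R` for `h ≤ k / r`: restrict the points to the sets of `k + 1`
vertices, where the objective is `k + 1 - nonEdges`; if `G` has no clique of size `h` then all its cliques have
less than `h ≤ k/r` elements (a clique with at least `h` elements contains one with exactly `h`), so the
objective is less than `k = (k + 1) - 1`.
`no_fpt`: take `h = 3 (c + 2)` and `k ≥ 1` with `k / ρ k ≥ h` (then `h ≤ k` as `ρ ≥ 1`); `sdp_lower` with `ε = 1`,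
`δ = 1`: `n^{c+1} ≤ R ≤ f k n^c` for all large `n`, a contradiction.
-/

set_option autoImplicit false

namespace Pool.Agent.H97.CL

theorem ratio_form {n k h : ℕ} {r : ℝ} {R : ℕ} (hr : (h : ℝ) ≤ k / r) (H : SDPRatio n k r R) :
    SDPForm n (k + 1) h 1 R := by
  obtain ⟨m, e, M₀, M, E, b, y, w, c, h1, h2, h3⟩ := H
  refine ⟨m, e, M₀, M, E, b, y, w, c, fun S _ => h1 S, fun G S hS => ?_, fun G hG z hz hE => ?_⟩
  · rw [h2 G S, hS]
  · have hcl : ∀ T : Finset (Fin n), G.IsClique T → (T.card : ℝ) < k / r := by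
      intro T hT
      have h4 : T.card < h := by
        by_contra hcon
        push Not at hcon
        obtain ⟨T', hT', hc'⟩ := Finset.exists_subset_card_eq hcon
        exact hG T' ⟨hT.subset (by exact_mod_cast hT'), hc'⟩
      have h5 : (T.card : ℝ) < h := by exact_mod_cast h4
      linarith
    have h6 := h3 G hcl z hz hE
    push_cast
    linarith

theorem no_fpt (ρ : ℕ → ℝ) (hρ : ∀ k, 1 ≤ ρ k) (hub : ∀ B : ℝ, ∃ k : ℕ, B ≤ k / ρ k)
    (f : ℕ → ℕ) (c : ℕ) :
    ¬ ∀ k n : ℕ, ∃ R : ℕ, R ≤ f k * n ^ c ∧ SDPRatio n k (ρ k) R := by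
  intro H
  obtain ⟨k, hk⟩ := hub ((3 * (c + 2) : ℕ) : ℝ)
  have hρk := hρ k
  have hk1 : ((3 * (c + 2) : ℕ) : ℝ) ≤ k := by
    refine hk.trans ?_
    exact div_le_self (Nat.cast_nonneg k) hρk
  have hk2 : 3 * (c + 2) ≤ k := by exact_mod_cast hk1
  obtain ⟨n₀, hn₀⟩ := sdp_lower (3 * (c + 2)) (k + 1) (by omega) (by omega) 1 1 one_pos one_pos
  obtain ⟨R, hR, hS⟩ := H k (max n₀ (f k + 1))
  have h1 := hn₀ (max n₀ (f k + 1)) (le_max_left _ _) R (ratio_form hk hS)
  set n := max n₀ (f k + 1) with hn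
  have hnf : f k + 1 ≤ n := le_max_right _ _
  have h2 : (((3 * (c + 2) : ℕ) : ℝ) / 3 - 1) = ((c + 1 : ℕ) : ℝ) := by
    push_cast
    ring
  rw [h2, Real.rpow_natCast] at h1
  have h3 : n ^ (c + 1) ≤ R := by exact_mod_cast h1
  have h4 : n ^ (c + 1) ≤ f k * n ^ c := h3.trans hR
  have h5 : 0 < n ^ c := Nat.pow_pos (by omega)
  rw [pow_succ'] at h4
  have h6 : n ≤ f k := Nat.le_of_mul_le_mul_right h4 h5
  omega

end Pool.Agent.H97.CL
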