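import Mathlib

/-!
# A trace inequality

`T` symmetric with eigenvalues `t_i ∈ [-B, B]`, `X = (B - T)^q`, `w_i = (B - t_i)^{2q}`:
`tr X² = ∑ w_i`, `tr X² T = ∑ t_i w_i` (`Matrix.IsHermitian.spectral_theorem`).
`spec`: if some `t_i < -η` and `16 R B (B + η/2)^{2q} ≤ η (B + η)^{2q}` then
`∑ t_i w_i ≤ -(η/4) ∑ w_i`: let `S₋ = ∑_{t_i < -η/2} w_i ≥ (B+η)^{2q} =: M`; the other `w_i` are at most
`m = (B + η/2)^{2q}`, so `∑ t_i w_i ≤ -(η/2) S₋ + R B m ≤ -(7η/16) S₋` and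
`∑ w_i ≤ S₋ + R m ≤ (17/16) S₋` (`η ≤ B`).
-/

set_option autoImplicit false

namespace Pool.Agent.H97.CL

open Finset Matrix

variable {R : ℕ}

private theorem spec_diag (T : Matrix (Fin R) (Fin R) ℝ) (hT : T.IsHermitian) :
    ∃ (U : Matrix (Fin R) (Fin R) ℝ) (t : Fin R → ℝ), Uᴴ * U = 1 ∧ U * Uᴴ = 1 ∧
      T = U * diagonal t * Uᴴ := by
  refine ⟨(hT.eigenvectorUnitary : Matrix (Fin R) (Fin R) ℝ), hT.eigenvalues, ?_, ?_, ?_⟩
  · exact Unitary.coe_star_mul_self hT.eigenvectorUnitary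
  · exact Unitary.coe_mul_star_self hT.eigenvectorUnitary
  · have h := hT.spectral_theorem
    rw [Unitary.conjStarAlgAut_apply] at h
    exact h

private theorem spec_mul {U : Matrix (Fin R) (Fin R) ℝ} (hU : Uᴴ * U = 1) (s s' : Fin R → ℝ) :
    (U * diagonal s * Uᴴ) * (U * diagonal s' * Uᴴ) = U * diagonal (fun i => s i * s' i) * Uᴴ := by
  calc (U * diagonal s * Uᴴ) * (U * diagonal s' * Uᴴ)
      = U * diagonal s * (Uᴴ * U) * diagonal s' * Uᴴ := by simp only [Matrix.mul_assoc]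
    _ = U * (diagonal s * diagonal s') * Uᴴ := by
        rw [hU, Matrix.mul_one]; simp only [Matrix.mul_assoc]
    _ = U * diagonal (fun i => s i * s' i) * Uᴴ := by rw [diagonal_mul_diagonal]

private theorem spec_pow {U : Matrix (Fin R) (Fin R) ℝ} (hU : Uᴴ * U = 1) (hU' : U * Uᴴ = 1)
    (s : Fin R → ℝ) (q : ℕ) :
    (U * diagonal s * Uᴴ) ^ q = U * diagonal (fun i => s i ^ q) * Uᴴ := by
  induction q with
  | zero =>
    have e : (diagonal (fun i => s i ^ 0) : Matrix (Fin R) (Fin R) ℝ) = 1 := by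
      simp
    rw [pow_zero, e, Matrix.mul_one, hU']
  | succ q ih =>
    rw [pow_succ, ih, spec_mul hU]
    simp only [pow_succ]

private theorem spec_tr {U : Matrix (Fin R) (Fin R) ℝ} (hU : Uᴴ * U = 1) (s : Fin R → ℝ) :
    Matrix.trace (U * diagonal s * Uᴴ) = ∑ i, s i := by
  rw [Matrix.trace_mul_cycle, hU, Matrix.one_mul, Matrix.trace_diagonal]

private theorem spec_psd {U : Matrix (Fin R) (Fin R) ℝ} (hU : Uᴴ * U = 1) (s : Fin R → ℝ) :
    (U * diagonal s * Uᴴ).PosSemidef ↔ ∀ i, 0 ≤ s i := by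
  constructor
  · intro h
    have h1 := h.conjTranspose_mul_mul_same U
    have e : Uᴴ * (U * diagonal s * Uᴴ) * U = diagonal s := by
      calc Uᴴ * (U * diagonal s * Uᴴ) * U = (Uᴴ * U) * diagonal s * (Uᴴ * U) := by
            simp only [Matrix.mul_assoc]
        _ = diagonal s := by rw [hU, Matrix.one_mul, Matrix.mul_one]
    rw [e] at h1
    exact posSemidef_diagonal_iff.1 h1
  · intro h
    exact (posSemidef_diagonal_iff.2 h).mul_mul_conjTranspose_same U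

private theorem spec_lin {U : Matrix (Fin R) (Fin R) ℝ} (hU' : U * Uᴴ = 1) (s : Fin R → ℝ)
    (b : ℝ) :
    b • (1 : Matrix (Fin R) (Fin R) ℝ) - U * diagonal s * Uᴴ
      = U * diagonal (fun i => b - s i) * Uᴴ ∧
    b • (1 : Matrix (Fin R) (Fin R) ℝ) + U * diagonal s * Uᴴ
      = U * diagonal (fun i => b + s i) * Uᴴ := by
  have e : (b • (1 : Matrix (Fin R) (Fin R) ℝ)) = U * diagonal (fun _ => b) * Uᴴ := by
    have e1 : (diagonal (fun _ => b) : Matrix (Fin R) (Fin R) ℝ) = b • 1 := by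
      rw [smul_one_eq_diagonal]
    rw [e1, Matrix.mul_smul, Matrix.mul_one, Matrix.smul_mul, hU']
  constructor
  · rw [e, ← Matrix.sub_mul, ← Matrix.mul_sub, diagonal_sub]
  · rw [e, ← Matrix.add_mul, ← Matrix.mul_add, diagonal_add]

/-- the spectral data -/
private theorem spec_data (T : Matrix (Fin R) (Fin R) ℝ) (B : ℝ)
    (h1 : (B • (1 : Matrix (Fin R) (Fin R) ℝ) - T).PosSemidef)
    (h2 : (B • (1 : Matrix (Fin R) (Fin R) ℝ) + T).PosSemidef) (q : ℕ) :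
    ∃ t : Fin R → ℝ, (∀ i, t i ≤ B) ∧ (∀ i, -B ≤ t i) ∧
      (∀ η : ℝ, ¬ (T + η • (1 : Matrix (Fin R) (Fin R) ℝ)).PosSemidef → ∃ i, t i < -η) ∧
      Matrix.trace ((B • (1 : Matrix (Fin R) (Fin R) ℝ) - T) ^ q *
        (B • (1 : Matrix (Fin R) (Fin R) ℝ) - T) ^ q) = ∑ i, (B - t i) ^ (2 * q) ∧
      Matrix.trace ((B • (1 : Matrix (Fin R) (Fin R) ℝ) - T) ^ q *
        (B • (1 : Matrix (Fin R) (Fin R) ℝ) - T) ^ q * T) = ∑ i, (B - t i) ^ (2 * q) * t i := by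
  have hT : T.IsHermitian := by
    have e : T = B • (1 : Matrix (Fin R) (Fin R) ℝ)
        - (B • (1 : Matrix (Fin R) (Fin R) ℝ) - T) := by
      rw [sub_sub_cancel]
    rw [e]
    refine Matrix.IsHermitian.sub ?_ h1.isHermitian
    show (B • (1 : Matrix (Fin R) (Fin R) ℝ))ᴴ = _
    rw [conjTranspose_smul, conjTranspose_one, star_trivial]
  obtain ⟨U, t, hU, hU', rfl⟩ := spec_diag T hT
  refine ⟨t, ?_, ?_, ?_, ?_, ?_⟩
  · rw [(spec_lin hU' t B).1, spec_psd hU] at h1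
    intro i
    have := h1 i
    linarith
  · rw [(spec_lin hU' t B).2, spec_psd hU] at h2
    intro i
    have := h2 i
    linarith
  · intro η hη
    rw [add_comm, (spec_lin hU' t η).2, spec_psd hU] at hη
    push Not at hη
    obtain ⟨i, hi⟩ := hη
    exact ⟨i, by linarith⟩
  · rw [(spec_lin hU' t B).1, spec_pow hU hU', spec_mul hU, spec_tr hU]
    refine Finset.sum_congr rfl fun i _ => ?_
    rw [two_mul, pow_add]
  · rw [(spec_lin hU' t B).1, spec_pow hU hU', spec_mul hU, spec_mul hU, spec_tr hU]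
    refine Finset.sum_congr rfl fun i _ => ?_
    rw [two_mul, pow_add]

theorem spec (T : Matrix (Fin R) (Fin R) ℝ) (B η : ℝ) (hη : 0 < η) (hηB : η ≤ B)
    (h1 : (B • (1 : Matrix (Fin R) (Fin R) ℝ) - T).PosSemidef)
    (h2 : (B • (1 : Matrix (Fin R) (Fin R) ℝ) + T).PosSemidef) (q : ℕ)
    (hq : 16 * R * B * (B + η / 2) ^ (2 * q) ≤ η * (B + η) ^ (2 * q))
    (hneg : ¬ (T + η • (1 : Matrix (Fin R) (Fin R) ℝ)).PosSemidef) :
    Matrix.trace ((B • (1 : Matrix (Fin R) (Fin R) ℝ) - T) ^ q *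
      (B • (1 : Matrix (Fin R) (Fin R) ℝ) - T) ^ q * T) ≤
      -(η / 4) * Matrix.trace ((B • (1 : Matrix (Fin R) (Fin R) ℝ) - T) ^ q *
      (B • (1 : Matrix (Fin R) (Fin R) ℝ) - T) ^ q) ∧
    (B + η) ^ (2 * q) ≤ Matrix.trace ((B • (1 : Matrix (Fin R) (Fin R) ℝ) - T) ^ q *
      (B • (1 : Matrix (Fin R) (Fin R) ℝ) - T) ^ q) := by
  obtain ⟨t, htB, hBt, hex, e1, e2⟩ := spec_data T B h1 h2 q
  obtain ⟨i0, hi0⟩ := hex η hneg
  rw [e1, e2]
  have hB : 0 < B := lt_of_lt_of_le hη hηB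
  have hw : ∀ i, 0 ≤ (B - t i) ^ (2 * q) := fun i => by
    have := htB i
    exact pow_nonneg (by linarith) _
  obtain ⟨M, hM⟩ : ∃ M : ℝ, M = (B + η) ^ (2 * q) := ⟨_, rfl⟩
  obtain ⟨m, hm⟩ : ∃ m : ℝ, m = (B + η / 2) ^ (2 * q) := ⟨_, rfl⟩
  have hm0 : 0 ≤ m := by rw [hm]; positivity
  have hM0 : 0 < M := by rw [hM]; positivity
  obtain ⟨P, hP⟩ : ∃ P : Finset (Fin R), P = univ.filter (fun i => t i < -(η / 2)) := ⟨_, rfl⟩
  have hsplit : ∀ f : Fin R → ℝ, ∑ i, f i = ∑ i ∈ P, f i + ∑ i ∈ Pᶜ, f i := by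
    intro f
    exact (Finset.sum_add_sum_compl P f).symm
  have hi0P : i0 ∈ P := by
    rw [hP, mem_filter]
    exact ⟨mem_univ _, by linarith⟩
  obtain ⟨Sm, hSm⟩ : ∃ Sm : ℝ, Sm = ∑ i ∈ P, (B - t i) ^ (2 * q) := ⟨_, rfl⟩
  have hMS : M ≤ Sm := by
    have a1 : M ≤ (B - t i0) ^ (2 * q) := by
      rw [hM]
      exact pow_le_pow_left₀ (by linarith) (by linarith) _
    have a2 : (B - t i0) ^ (2 * q) ≤ Sm := by
      rw [hSm]
      exact Finset.single_le_sum (f := fun i => (B - t i) ^ (2 * q)) (fun i _ => hw i) hi0P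
    linarith
  have hcm : ∀ i ∈ Pᶜ, (B - t i) ^ (2 * q) ≤ m := by
    intro i hi
    rw [mem_compl, hP, mem_filter] at hi
    push Not at hi
    have a1 := hi (mem_univ _)
    have a2 := htB i
    rw [hm]
    exact pow_le_pow_left₀ (by linarith) (by linarith) _
  have hcard : ((Pᶜ).card : ℝ) ≤ R := by
    have := Finset.card_le_univ (Pᶜ)
    rw [Fintype.card_fin] at this
    exact_mod_cast this
  have hR0 : (0 : ℝ) ≤ R := Nat.cast_nonneg _
  have b1 : ∑ i ∈ Pᶜ, (B - t i) ^ (2 * q) ≤ R * m := by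
    calc ∑ i ∈ Pᶜ, (B - t i) ^ (2 * q) ≤ ∑ i ∈ Pᶜ, m := Finset.sum_le_sum hcm
      _ = (Pᶜ).card * m := by rw [Finset.sum_const, nsmul_eq_mul]
      _ ≤ R * m := mul_le_mul_of_nonneg_right hcard hm0
  have b2 : ∑ i ∈ Pᶜ, (B - t i) ^ (2 * q) * t i ≤ R * m * B := by
    calc ∑ i ∈ Pᶜ, (B - t i) ^ (2 * q) * t i ≤ ∑ i ∈ Pᶜ, m * B := by
          refine Finset.sum_le_sum fun i hi => ?_
          calc (B - t i) ^ (2 * q) * t i ≤ (B - t i) ^ (2 * q) * B :=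
                mul_le_mul_of_nonneg_left (htB i) (hw i)
            _ ≤ m * B := mul_le_mul_of_nonneg_right (hcm i hi) hB.le
      _ = (Pᶜ).card * m * B := by rw [Finset.sum_const, nsmul_eq_mul]; ring
      _ ≤ R * m * B := by
          refine mul_le_mul_of_nonneg_right ?_ hB.le
          exact mul_le_mul_of_nonneg_right hcard hm0
  have b3 : ∑ i ∈ P, (B - t i) ^ (2 * q) * t i ≤ -(η / 2) * Sm := by
    rw [hSm, Finset.mul_sum]
    refine Finset.sum_le_sum fun i hi => ?_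
    rw [hP, mem_filter] at hi
    have a1 := hi.2
    have a2 := hw i
    nlinarith
  rw [← hM, ← hm] at hq
  have c1 : R * m * B ≤ η / 16 * Sm := by
    have : η * M ≤ η * Sm := mul_le_mul_of_nonneg_left hMS hη.le
    nlinarith
  have c2 : R * m ≤ Sm / 16 := by
    have d1 : (R * m) * η ≤ (R * m) * B := mul_le_mul_of_nonneg_left hηB (by positivity)
    have d2 : (R * m) * η ≤ (Sm / 16) * η := by linarith
    exact le_of_mul_le_mul_right d2 hη
  have hSm0 : 0 < Sm := lt_of_lt_of_le hM0 hMS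
  rw [hsplit (fun i => (B - t i) ^ (2 * q) * t i), hsplit (fun i => (B - t i) ^ (2 * q)),
    ← hSm, ← hM]
  constructor
  · have d3 : ∑ i ∈ P, (B - t i) ^ (2 * q) * t i + ∑ i ∈ Pᶜ, (B - t i) ^ (2 * q) * t i
        ≤ -(η / 2) * Sm + η / 16 * Sm := by linarith
    have d4 : Sm + ∑ i ∈ Pᶜ, (B - t i) ^ (2 * q) ≤ 17 / 16 * Sm := by linarith
    have d5 : (η / 4) * (Sm + ∑ i ∈ Pᶜ, (B - t i) ^ (2 * q)) ≤ (η / 4) * (17 / 16 * Sm) :=
      mul_le_mul_of_nonneg_left d4 (by linarith)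
    have d6 : 0 < η * Sm := mul_pos hη hSm0
    nlinarith
  · have d7 : 0 ≤ ∑ i ∈ Pᶜ, (B - t i) ^ (2 * q) := Finset.sum_nonneg fun i _ => hw i
    linarith

theorem spec_bd (T : Matrix (Fin R) (Fin R) ℝ) (B : ℝ) (hB : 0 ≤ B)
    (h1 : (B • (1 : Matrix (Fin R) (Fin R) ℝ) - T).PosSemidef)
    (h2 : (B • (1 : Matrix (Fin R) (Fin R) ℝ) + T).PosSemidef) (q : ℕ) :
    0 ≤ Matrix.trace ((B • (1 : Matrix (Fin R) (Fin R) ℝ) - T) ^ q *
      (B • (1 : Matrix (Fin R) (Fin R) ℝ) - T) ^ q) ∧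
    Matrix.trace ((B • (1 : Matrix (Fin R) (Fin R) ℝ) - T) ^ q *
      (B • (1 : Matrix (Fin R) (Fin R) ℝ) - T) ^ q) ≤ R * (2 * B) ^ (2 * q) ∧
    Matrix.trace ((B • (1 : Matrix (Fin R) (Fin R) ℝ) - T) ^ q *
      (B • (1 : Matrix (Fin R) (Fin R) ℝ) - T) ^ q * T) ≤
      B * Matrix.trace ((B • (1 : Matrix (Fin R) (Fin R) ℝ) - T) ^ q *
      (B • (1 : Matrix (Fin R) (Fin R) ℝ) - T) ^ q) := by
  obtain ⟨t, htB, hBt, -, e1, e2⟩ := spec_data T B h1 h2 q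
  rw [e1, e2]
  have hw : ∀ i, 0 ≤ (B - t i) ^ (2 * q) := fun i => by
    have := htB i
    exact pow_nonneg (by linarith) _
  refine ⟨Finset.sum_nonneg fun i _ => hw i, ?_, ?_⟩
  · calc ∑ i, (B - t i) ^ (2 * q) ≤ ∑ _i : Fin R, (2 * B) ^ (2 * q) := by
          refine Finset.sum_le_sum fun i _ => ?_
          have a1 := htB i
          have a2 := hBt i
          exact pow_le_pow_left₀ (by linarith) (by linarith) _
      _ = R * (2 * B) ^ (2 * q) := by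
          rw [Finset.sum_const, nsmul_eq_mul, Finset.card_univ, Fintype.card_fin]
  · rw [Finset.mul_sum]
    refine Finset.sum_le_sum fun i _ => ?_
    rw [mul_comm B]
    exact mul_le_mul_of_nonneg_left (htB i) (hw i)

end Pool.Agent.H97.CL
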