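import Pool.Agent.H97.CL.LowBd
import Pool.Agent.H97.CL.Spec

/-!
# A labelling with nearly positive pseudo-average

Suppose `T x + η` is not positive semidefinite for all `x ∉ Bad`, `T = Tm W Q`, `X = (B - T)^q = Xm W Q B q`.
`-B ≤ T x ≤ B` (as `|W| ≤ B`, `Q u ≥ 0`, `av Q ≤ 1`).  `S = av_x tr(X X)`.
For `x ∉ Bad`: `tr(X X T) ≤ -(η/4) tr(X X)` (`spec`), for `x ∈ Bad`: `tr(X X T) ≤ B tr(X X)`,
`tr(X X) ≤ R (2B)^{2q}` (`spec_bd`).  So
`av tr(X X T) ≤ -(η/4) S + (B + η/4) p R (2B)^{2q}`, and `S ≥ (1 - p) B^{2q}` (`spec`), so by `hp`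
(`p ≤ 1/2`) `av tr(X X T) ≤ -(η/4) S + (η/16) S`.  `low_bd` with `m = k q` (`Xm_low`) and `hϱ`:
`av tr(X X T) ≥ -(η/16) S`; contradiction, `S > 0`.
(`R ≥ 1`: for `R = 0` every matrix is positive semidefinite and one only needs a point outside `Bad`.)
-/

set_option autoImplicit false

namespace Pool.Agent.H97.CL

open Finset Matrix

variable {k N R : ℕ} {V : Type} [Fintype V] [Nonempty V]

private theorem sdpgood_bd (W : (Fin k → V) → ℝ) (B : ℝ) (hB : 0 ≤ B) (hW : ∀ z, |W z| ≤ B)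
    (Q : (Fin k → Fin N) → Matrix (Fin R) (Fin R) ℝ) (hQ : ∀ u, (Q u).PosSemidef)
    (hQ1 : ((1 : Matrix (Fin R) (Fin R) ℝ) -
      (Fintype.card (Fin k → Fin N) : ℝ)⁻¹ • ∑ u, Q u).PosSemidef) (x : Fin k × Fin N → V) :
    (B • (1 : Matrix (Fin R) (Fin R) ℝ) - Tm W Q x).PosSemidef ∧
    (B • (1 : Matrix (Fin R) (Fin R) ℝ) + Tm W Q x).PosSemidef := by
  obtain ⟨c, hc⟩ : ∃ c : ℝ, c = (Fintype.card (Fin k → Fin N) : ℝ)⁻¹ := ⟨_, rfl⟩
  have hc0 : 0 ≤ c := by rw [hc]; positivity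
  rw [← hc] at hQ1
  constructor
  · have e : B • (1 : Matrix (Fin R) (Fin R) ℝ) - Tm W Q x =
        B • ((1 : Matrix (Fin R) (Fin R) ℝ) - c • ∑ u, Q u) +
          c • ∑ u, (B - W (rd x u)) • Q u := by
      simp only [Tm, ← hc, sub_smul, Finset.sum_sub_distrib, smul_sub, ← Finset.smul_sum]
      rw [smul_comm c B]
      abel
    rw [e]
    refine (hQ1.smul hB).add ((Matrix.posSemidef_sum _ fun u _ => (hQ u).smul ?_).smul hc0)
    have := (abs_le.1 (hW (rd x u))).2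
    linarith
  · have e : B • (1 : Matrix (Fin R) (Fin R) ℝ) + Tm W Q x =
        B • ((1 : Matrix (Fin R) (Fin R) ℝ) - c • ∑ u, Q u) +
          c • ∑ u, (B + W (rd x u)) • Q u := by
      simp only [Tm, ← hc, add_smul, Finset.sum_add_distrib, smul_sub, smul_add,
        ← Finset.smul_sum]
      rw [smul_comm c B]
      abel
    rw [e]
    refine (hQ1.smul hB).add ((Matrix.posSemidef_sum _ fun u _ => (hQ u).smul ?_).smul hc0)
    have := (abs_le.1 (hW (rd x u))).1
    linarith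

private theorem sdpgood_symm (W : (Fin k → V) → ℝ) (B : ℝ)
    (Q : (Fin k → Fin N) → Matrix (Fin R) (Fin R) ℝ) (hQ : ∀ u, (Q u).PosSemidef) (q : ℕ)
    (x : Fin k × Fin N → V) : (Xm W Q B q x)ᵀ = Xm W Q B q x := by
  have hT : (Tm W Q x)ᵀ = Tm W Q x := by
    simp only [Tm, Matrix.transpose_smul, Matrix.transpose_sum]
    congr 1
    apply Finset.sum_congr rfl
    intro u _
    have := (hQ u).isHermitian.eq
    rw [Matrix.conjTranspose_eq_transpose_of_trivial] at this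
    rw [this]
  simp only [Xm, Matrix.transpose_pow, Matrix.transpose_sub, Matrix.transpose_smul,
    Matrix.transpose_one, hT]

open Classical in
private theorem sdpgood_av_bad (Bad : Finset (Fin k × Fin N → V)) (c : ℝ) :
    av (fun x => if x ∈ Bad then c else 0) =
      c * ((Bad.card : ℝ) / Fintype.card (Fin k × Fin N → V)) := by
  rw [av, Finset.sum_ite_mem, Finset.univ_inter, Finset.sum_const, nsmul_eq_mul]
  ring

theorem sdp_good (hN : 0 < N) (D : ℕ) (W : (Fin k → V) → ℝ) (B : ℝ) (hB : 1 ≤ B)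
    (hW : ∀ z, |W z| ≤ B)
    (hWp : ∀ q : (Fin k → V) → ℝ, LowDeg univ D q → 0 ≤ av (fun z => W z * q z ^ 2))
    (Q : (Fin k → Fin N) → Matrix (Fin R) (Fin R) ℝ) (hQ : ∀ u, (Q u).PosSemidef)
    (hQ1 : ((1 : Matrix (Fin R) (Fin R) ℝ) -
      (Fintype.card (Fin k → Fin N) : ℝ)⁻¹ • ∑ u, Q u).PosSemidef)
    (t : ℝ) (ht : ∀ u, (Q u).trace ≤ t) (η : ℝ) (hη : 0 < η) (hη1 : η ≤ 1) (q : ℕ)
    (hq : 16 * R * B * (B + η / 2) ^ (2 * q) ≤ η * (B + η) ^ (2 * q))
    (hϱ : B * (2 * Real.sqrt (t * (k.choose (D + 1)) * (((k * q : ℕ) : ℝ) / N) ^ (D + 1)) +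
        t * (k.choose (D + 1)) * (((k * q : ℕ) : ℝ) / N) ^ (D + 1)) ≤ η / 16)
    (Bad : Finset (Fin k × Fin N → V)) (p : ℝ) (hp0 : 0 ≤ p)
    (hBad : (Bad.card : ℝ) ≤ p * Fintype.card (Fin k × Fin N → V))
    (hp : 64 * B * (R + 1) * 4 ^ q * p ≤ η) :
    ∃ x, x ∉ Bad ∧ (Tm W Q x + η • (1 : Matrix (Fin R) (Fin R) ℝ)).PosSemidef := by
  classical
  have hB0 : 0 < B := by linarith
  by_contra hcon
  push Not at hcon
  have hbd := sdpgood_bd W B hB0.le hW Q hQ hQ1
  have hcard : (0 : ℝ) < Fintype.card (Fin k × Fin N → V) := by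
    exact_mod_cast Fintype.card_pos
  have hdens : (Bad.card : ℝ) / Fintype.card (Fin k × Fin N → V) ≤ p := by
    rw [div_le_iff₀ hcard]
    exact hBad
  have h4q : (1 : ℝ) ≤ 4 ^ q := one_le_pow₀ (by norm_num)
  have hRB : 1 ≤ B * (R + 1) * 4 ^ q := by
    have h1 : (1 : ℝ) ≤ R + 1 := by
      have : (0 : ℝ) ≤ R := Nat.cast_nonneg _
      linarith
    have h2 : (1 : ℝ) ≤ B * (R + 1) := one_le_mul_of_one_le_of_one_le hB h1
    exact one_le_mul_of_one_le_of_one_le h2 h4q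
  have hp2 : p ≤ 1 / 2 := by
    have : p ≤ B * (R + 1) * 4 ^ q * p := le_mul_of_one_le_left hp0 hRB
    linarith
  set g : (Fin k × Fin N → V) → ℝ := fun x => Matrix.trace (Xm W Q B q x * Xm W Q B q x) with hg
  set f : (Fin k × Fin N → V) → ℝ :=
    fun x => Matrix.trace (Xm W Q B q x * Xm W Q B q x * Tm W Q x) with hf
  set M : ℝ := R * (2 * B) ^ (2 * q) with hM
  have hM0 : 0 ≤ M := by positivity
  have hgood : ∀ x, x ∉ Bad → f x ≤ -(η / 4) * g x ∧ (B + η) ^ (2 * q) ≤ g x := fun x hx =>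
    spec (Tm W Q x) B η hη (by linarith) (hbd x).1 (hbd x).2 q hq (hcon x hx)
  have hbad : ∀ x, 0 ≤ g x ∧ g x ≤ M ∧ f x ≤ B * g x := fun x =>
    spec_bd (Tm W Q x) B hB0.le (hbd x).1 (hbd x).2 q
  -- upper bound
  have hup : av f ≤ -(η / 4) * av g + (B + η / 4) * M * p := by
    have h1 : ∀ x, f x ≤ -(η / 4) * g x + (if x ∈ Bad then (B + η / 4) * M else 0) := by
      intro x
      by_cases hx : x ∈ Bad
      · rw [if_pos hx]
        obtain ⟨a1, a2, a3⟩ := hbad x
        have : (B + η / 4) * g x ≤ (B + η / 4) * M :=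
          mul_le_mul_of_nonneg_left a2 (by positivity)
        nlinarith
      · rw [if_neg hx]
        have := (hgood x hx).1
        linarith
    have h2 := av_mono h1
    rw [av_add, av_mul_left, sdpgood_av_bad] at h2
    have h3 : (B + η / 4) * M * ((Bad.card : ℝ) / Fintype.card (Fin k × Fin N → V)) ≤
        (B + η / 4) * M * p := mul_le_mul_of_nonneg_left hdens (by positivity)
    exact h2.trans (by linarith)
  -- lower bound for `S`
  have hS : B ^ (2 * q) / 2 ≤ av g := by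
    have h1 : ∀ x, B ^ (2 * q) - (if x ∈ Bad then B ^ (2 * q) else 0) ≤ g x := by
      intro x
      by_cases hx : x ∈ Bad
      · rw [if_pos hx]
        have := (hbad x).1
        linarith
      · rw [if_neg hx]
        have h2 := (hgood x hx).2
        have h3 : B ^ (2 * q) ≤ (B + η) ^ (2 * q) := pow_le_pow_left₀ hB0.le (by linarith) _
        linarith
    have h2 := av_mono h1
    rw [av_sub, av_const, sdpgood_av_bad] at h2
    have h3 : B ^ (2 * q) * ((Bad.card : ℝ) / Fintype.card (Fin k × Fin N → V)) ≤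
        B ^ (2 * q) * (1 / 2) :=
      mul_le_mul_of_nonneg_left (hdens.trans hp2) (by positivity)
    linarith
  have hBq : 0 < B ^ (2 * q) := by positivity
  have hSpos : 0 < av g := by linarith
  -- the error term
  have herr : (B + η / 4) * M * p ≤ η / 16 * av g := by
    have e1 : (2 * B) ^ (2 * q) = 4 ^ q * B ^ (2 * q) := by
      rw [mul_pow, pow_mul]
      norm_num
    have h1 : B * R * 4 ^ q * p ≤ η / 64 := by
      have h2 : B * R * 4 ^ q * p ≤ B * (R + 1) * 4 ^ q * p := by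
        have : B * (R : ℝ) ≤ B * (R + 1) := by nlinarith
        gcongr
      linarith
    have h0 : 0 ≤ (R : ℝ) * 4 ^ q * p := by positivity
    calc (B + η / 4) * M * p = (B + η / 4) * (R * 4 ^ q * p) * B ^ (2 * q) := by
          rw [hM, e1]; ring
      _ ≤ (5 / 4 * B) * (R * 4 ^ q * p) * B ^ (2 * q) := by
          gcongr
          linarith
      _ = 5 / 4 * (B * R * 4 ^ q * p) * B ^ (2 * q) := by ring
      _ ≤ 5 / 4 * (η / 64) * B ^ (2 * q) := by gcongr
      _ ≤ 5 / 4 * (η / 64) * (2 * av g) := by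
          gcongr
          linarith
      _ ≤ η / 16 * av g := by nlinarith
  have hlow := low_bd hN D W B hB0 hW hWp Q hQ hQ1 t ht (k * q) (Xm W Q B q)
    (sdpgood_symm W B Q hQ q) (Xm_low W Q B q)
  have hlow2 : -(η / 16) * av g ≤ av f := by
    refine le_trans ?_ hlow
    have := mul_le_mul_of_nonneg_right hϱ hSpos.le
    linarith
  nlinarith [mul_pos hη hSpos]

end Pool.Agent.H97.CL
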