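import Pool.Agent.H97.CL.SdpGood

/-!
# Normalisation

`Q u` arbitrary positive semidefinite matrices.  There are `x ∉ Bad` and a set `U₀` of pointers, whose
complement has relative size at most `1/s`, with
`av_u (1_{U₀}(u) W(rd x u) Q u) + η av_u Q u` positive semidefinite.

Step 1: for every `κ₀ > 0` there are such `x`, `U₀` with `... + η κ₀ • 1` positive semidefinite.  Let
`A = av Q + κ₀ 1` (positive definite), `A = Fᴴ F`, `F` invertible; `Q' u = (F⁻¹)ᴴ Q u F⁻¹`,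
`av Q' ≤ 1`, `tr av Q' ≤ R`; `U₀ = {u : tr Q' u ≤ s R}` (Markov: the complement has relative size at most
`1/s`); apply `sdp_good` to `1_{U₀} Q'`, `t = s R`, and conjugate back with `F`.
Step 2: `κ₀ → 0`: if for every pair `(x, U₀)` (finitely many) some `κ₀ > 0` fails, the least of these
`κ₀` fails for all pairs (the property is monotone in `κ₀`); contradiction.  So some pair works for all
`κ₀ > 0`, and the limit is positive semidefinite.
-/

set_option autoImplicit false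

namespace Pool.Agent.H97.CL

open Finset Matrix

variable {k N R : ℕ} {V : Type} [Fintype V] [Nonempty V]

open MatrixOrder in
private theorem sdpNorm_factor (A : Matrix (Fin R) (Fin R) ℝ) (hA : A.PosDef) :
    ∃ F : Matrix (Fin R) (Fin R) ℝ, IsUnit F ∧ A = star F * F := by
  obtain ⟨F, hF⟩ := CStarAlgebra.nonneg_iff_eq_star_mul_self.mp hA.posSemidef.nonneg
  refine ⟨F, ?_, hF⟩
  have h1 := hA.isUnit
  rw [hF, Matrix.isUnit_iff_isUnit_det, det_mul] at h1
  rw [Matrix.isUnit_iff_isUnit_det]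
  exact isUnit_of_mul_isUnit_right h1

private theorem sdpNorm_limit (M : Matrix (Fin R) (Fin R) ℝ)
    (h : ∀ κ : ℝ, 0 < κ → (M + κ • (1 : Matrix (Fin R) (Fin R) ℝ)).PosSemidef) : M.PosSemidef := by
  have hH : M.IsHermitian := by
    have h1 := (h 1 one_pos).isHermitian
    have h2 : M = (M + (1 : ℝ) • (1 : Matrix (Fin R) (Fin R) ℝ)) - 1 := by
      rw [one_smul, add_sub_cancel_right]
    rw [h2]
    exact h1.sub isHermitian_one
  refine PosSemidef.of_dotProduct_mulVec_nonneg hH fun v => ?_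
  refine le_of_forall_pos_lt_add' ?_
  intro ε hε
  have hv : 0 ≤ star v ⬝ᵥ v := by
    rw [star_trivial]
    exact dotProduct_self_star_nonneg v
  have h1 := (h (ε / (star v ⬝ᵥ v + 1)) (by positivity)).dotProduct_mulVec_nonneg v
  rw [add_mulVec, smul_mulVec, one_mulVec, dotProduct_add, dotProduct_smul, smul_eq_mul] at h1
  have h2 : ε / (star v ⬝ᵥ v + 1) * (star v ⬝ᵥ v) < ε := by
    rw [div_mul_eq_mul_div, div_lt_iff₀ (by positivity)]
    nlinarith
  linarith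

private theorem sdpNorm_mono (M : Matrix (Fin R) (Fin R) ℝ) (κ κ' : ℝ) (h : κ ≤ κ')
    (hM : (M + κ • (1 : Matrix (Fin R) (Fin R) ℝ)).PosSemidef) :
    (M + κ' • (1 : Matrix (Fin R) (Fin R) ℝ)).PosSemidef := by
  have h1 : M + κ' • (1 : Matrix (Fin R) (Fin R) ℝ) =
      (M + κ • (1 : Matrix (Fin R) (Fin R) ℝ)) + (κ' - κ) • (1 : Matrix (Fin R) (Fin R) ℝ) := by
    rw [sub_smul]
    abel
  rw [h1]
  exact hM.add (PosSemidef.one.smul (sub_nonneg.2 h))

/-- one step with a regularisation -/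
private theorem sdpNorm_step (hN : 0 < N) (D : ℕ) (W : (Fin k → V) → ℝ) (B : ℝ) (hB : 1 ≤ B)
    (hW : ∀ z, |W z| ≤ B)
    (hWp : ∀ q : (Fin k → V) → ℝ, LowDeg univ D q → 0 ≤ av (fun z => W z * q z ^ 2))
    (Q : (Fin k → Fin N) → Matrix (Fin R) (Fin R) ℝ) (hQ : ∀ u, (Q u).PosSemidef)
    (s : ℝ) (hs : 0 < s) (η : ℝ) (hη : 0 < η) (hη1 : η ≤ 1) (q : ℕ)
    (hq : 16 * R * B * (B + η / 2) ^ (2 * q) ≤ η * (B + η) ^ (2 * q))
    (hϱ : B * (2 * Real.sqrt ((s * R) * (k.choose (D + 1)) * (((k * q : ℕ) : ℝ) / N) ^ (D + 1)) +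
        (s * R) * (k.choose (D + 1)) * (((k * q : ℕ) : ℝ) / N) ^ (D + 1)) ≤ η / 16)
    (Bad : Finset (Fin k × Fin N → V)) (p : ℝ) (hp0 : 0 ≤ p)
    (hBad : (Bad.card : ℝ) ≤ p * Fintype.card (Fin k × Fin N → V))
    (hp : 64 * B * (R + 1) * 4 ^ q * p ≤ η) (κ₀ : ℝ) (hκ₀ : 0 < κ₀) :
    ∃ x, x ∉ Bad ∧ ∃ U₀ : Finset (Fin k → Fin N),
      ((U₀ᶜ).card : ℝ) ≤ s⁻¹ * Fintype.card (Fin k → Fin N) ∧
      ((∑ u ∈ U₀, W (rd x u) • Q u + η • ∑ u, Q u) +
        κ₀ • (1 : Matrix (Fin R) (Fin R) ℝ)).PosSemidef := by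
  classical
  have : Nonempty (Fin N) := ⟨⟨0, hN⟩⟩
  set n : ℝ := (Fintype.card (Fin k → Fin N) : ℝ) with hn
  have hn0 : 0 < n := by
    rw [hn]
    exact_mod_cast Fintype.card_pos
  set κ : ℝ := κ₀ / (n * η) with hκdef
  have hκ : 0 < κ := by positivity
  have hsum : (∑ u, Q u).PosSemidef := posSemidef_sum _ fun u _ => hQ u
  have hA : (n⁻¹ • ∑ u, Q u + κ • (1 : Matrix (Fin R) (Fin R) ℝ)).PosDef :=
    (PosDef.one.smul hκ).posSemidef_add (hsum.smul (inv_nonneg.2 hn0.le))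
  obtain ⟨F, hF, hAF⟩ := sdpNorm_factor _ hA
  obtain ⟨G, hFG, hGF⟩ : ∃ G : Matrix (Fin R) (Fin R) ℝ, F * G = 1 ∧ G * F = 1 := by
    obtain ⟨⟨F', G, h1, h2⟩, rfl⟩ := hF
    exact ⟨G, h1, h2⟩
  have hsF : star F * star G = 1 := by rw [← star_mul, hGF, star_one]
  have hsG : star G * star F = 1 := by rw [← star_mul, hFG, star_one]
  have hQ' : ∀ u, (star G * Q u * G).PosSemidef := fun u => (hQ u).conjTranspose_mul_mul_same G
  have hsumQ' : n⁻¹ • ∑ u, star G * Q u * G = 1 - κ • (star G * G) := by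
    have h1 : n⁻¹ • ∑ u, Q u = star F * F - κ • (1 : Matrix (Fin R) (Fin R) ℝ) := by
      rw [← hAF, add_sub_cancel_right]
    have h2 : n⁻¹ • ∑ u, star G * Q u * G = star G * (n⁻¹ • ∑ u, Q u) * G := by
      rw [← Finset.sum_mul, ← Finset.mul_sum, mul_smul_comm, smul_mul_assoc]
    rw [h2, h1, mul_sub, sub_mul, mul_smul_comm, smul_mul_assoc, mul_one, ← mul_assoc (star G),
      hsG, one_mul, hFG]
  have hGG : (star G * G).PosSemidef := posSemidef_conjTranspose_mul_self G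
  -- the pointers with small trace
  set U₀ : Finset (Fin k → Fin N) := univ.filter fun u => (star G * Q u * G).trace ≤ s * R with hU₀
  have htr : ∑ u, (star G * Q u * G).trace ≤ n * R := by
    have h1 : n⁻¹ * ∑ u, (star G * Q u * G).trace ≤ R := by
      have h2 := congrArg Matrix.trace hsumQ'
      rw [trace_smul, trace_sum, trace_sub, trace_one, trace_smul, smul_eq_mul, smul_eq_mul,
        Fintype.card_fin] at h2
      rw [h2]
      have h3 := hGG.trace_nonneg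
      nlinarith
    rw [inv_mul_le_iff₀ hn0] at h1
    exact h1
  have hcard : ((U₀ᶜ).card : ℝ) ≤ s⁻¹ * n := by
    have h1 : ∀ u ∈ U₀ᶜ, s * R ≤ (star G * Q u * G).trace := by
      intro u hu
      rw [hU₀, Finset.mem_compl, Finset.mem_filter] at hu
      push Not at hu
      exact (hu (Finset.mem_univ u)).le
    have h2 : ((U₀ᶜ).card : ℝ) * (s * R) ≤ n * R := by
      calc ((U₀ᶜ).card : ℝ) * (s * R) = ∑ u ∈ U₀ᶜ, s * R := by
            rw [Finset.sum_const, nsmul_eq_mul]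
        _ ≤ ∑ u ∈ U₀ᶜ, (star G * Q u * G).trace := Finset.sum_le_sum h1
        _ ≤ ∑ u, (star G * Q u * G).trace := by
            refine Finset.sum_le_sum_of_subset_of_nonneg (Finset.subset_univ _) fun u _ _ => ?_
            exact (hQ' u).trace_nonneg
        _ ≤ n * R := htr
    rcases Nat.eq_zero_or_pos R with hR | hR
    · have h3 : U₀ᶜ = ∅ := by
        rw [Finset.eq_empty_iff_forall_notMem]
        intro u hu
        rw [hU₀, Finset.mem_compl, Finset.mem_filter] at hu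
        apply hu
        refine ⟨Finset.mem_univ u, ?_⟩
        subst hR
        simp [Matrix.trace]
      rw [h3, Finset.card_empty, Nat.cast_zero]
      positivity
    · have hR' : (0 : ℝ) < R := by exact_mod_cast hR
      have h3 : ((U₀ᶜ).card : ℝ) * s ≤ n := by
        have : (((U₀ᶜ).card : ℝ) * s) * R ≤ n * R := by linarith
        exact le_of_mul_le_mul_right this hR'
      rw [inv_mul_eq_div, le_div_iff₀ hs]
      exact h3
  -- the truncated family
  set Q'' : (Fin k → Fin N) → Matrix (Fin R) (Fin R) ℝ :=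
    fun u => if u ∈ U₀ then star G * Q u * G else 0 with hQ''def
  have hQ'' : ∀ u, (Q'' u).PosSemidef := by
    intro u
    rw [hQ''def]
    dsimp only
    split_ifs
    · exact hQ' u
    · exact PosSemidef.zero
  have hQ1 : ((1 : Matrix (Fin R) (Fin R) ℝ) - n⁻¹ • ∑ u, Q'' u).PosSemidef := by
    have h1 : ∑ u, Q'' u = ∑ u, star G * Q u * G - ∑ u ∈ U₀ᶜ, star G * Q u * G := by
      rw [← Finset.sum_add_sum_compl U₀ (fun u => star G * Q u * G), add_sub_cancel_right,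
        hQ''def, ← Finset.sum_filter]
      congr 1
      ext u
      simp
    have h2 : (1 : Matrix (Fin R) (Fin R) ℝ) - n⁻¹ • ∑ u, Q'' u =
        κ • (star G * G) + n⁻¹ • ∑ u ∈ U₀ᶜ, star G * Q u * G := by
      rw [h1, smul_sub, hsumQ']
      abel
    rw [h2]
    exact (hGG.smul hκ.le).add ((posSemidef_sum _ fun u _ => hQ' u).smul (inv_nonneg.2 hn0.le))
  have ht : ∀ u, (Q'' u).trace ≤ s * R := by
    intro u
    rw [hQ''def]
    dsimp only
    split_ifs with h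
    · rw [hU₀, Finset.mem_filter] at h
      exact h.2
    · rw [Matrix.trace_zero]
      positivity
  obtain ⟨x, hx, hT⟩ := sdp_good hN D W B hB hW hWp Q'' hQ'' hQ1 (s * R) ht η hη hη1 q hq hϱ Bad p
    hp0 hBad hp
  refine ⟨x, hx, U₀, hcard, ?_⟩
  have h1 : (star F * (Tm W Q'' x + η • (1 : Matrix (Fin R) (Fin R) ℝ)) * F).PosSemidef :=
    hT.conjTranspose_mul_mul_same F
  have h2 : (∑ u ∈ U₀, W (rd x u) • Q u + η • ∑ u, Q u) +
      κ₀ • (1 : Matrix (Fin R) (Fin R) ℝ) =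
      n • (star F * (Tm W Q'' x + η • (1 : Matrix (Fin R) (Fin R) ℝ)) * F) := by
    have e1 : ∀ u, star F * (star G * Q u * G) * F = Q u := by
      intro u
      calc star F * (star G * Q u * G) * F = (star F * star G) * Q u * (G * F) := by
            noncomm_ring
        _ = Q u := by rw [hsF, hGF, one_mul, mul_one]
    have e2 : star F * Tm W Q'' x * F = n⁻¹ • ∑ u ∈ U₀, W (rd x u) • Q u := by
      have e3 : Tm W Q'' x = n⁻¹ • ∑ u ∈ U₀, W (rd x u) • (star G * Q u * G) := by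
        unfold Tm
        rw [← hn]
        congr 1
        rw [hQ''def]
        simp only [smul_ite, smul_zero]
        rw [← Finset.sum_filter]
        congr 1
        ext u
        simp
      rw [e3, mul_smul_comm, smul_mul_assoc, Finset.mul_sum, Finset.sum_mul]
      congr 1
      refine Finset.sum_congr rfl fun u _ => ?_
      rw [mul_smul_comm, smul_mul_assoc, e1]
    have e4 : star F * (η • (1 : Matrix (Fin R) (Fin R) ℝ)) * F =
        η • (n⁻¹ • ∑ u, Q u + κ • (1 : Matrix (Fin R) (Fin R) ℝ)) := by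
      rw [mul_smul_comm, smul_mul_assoc, mul_one, hAF]
    rw [mul_add, add_mul, e2, e4, smul_add, smul_add, smul_add, smul_smul, smul_smul, smul_smul,
      smul_smul, smul_smul, mul_inv_cancel₀ hn0.ne', one_smul]
    have e5 : n * η * n⁻¹ = η := by field_simp
    have e6 : n * η * κ = κ₀ := by
      rw [hκdef]
      field_simp
    rw [e5, e6, add_assoc]
  rw [h2]
  exact h1.smul hn0.le

theorem sdp_norm (hN : 0 < N) (D : ℕ) (W : (Fin k → V) → ℝ) (B : ℝ) (hB : 1 ≤ B)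
    (hW : ∀ z, |W z| ≤ B)
    (hWp : ∀ q : (Fin k → V) → ℝ, LowDeg univ D q → 0 ≤ av (fun z => W z * q z ^ 2))
    (Q : (Fin k → Fin N) → Matrix (Fin R) (Fin R) ℝ) (hQ : ∀ u, (Q u).PosSemidef)
    (s : ℝ) (hs : 0 < s) (η : ℝ) (hη : 0 < η) (hη1 : η ≤ 1) (q : ℕ)
    (hq : 16 * R * B * (B + η / 2) ^ (2 * q) ≤ η * (B + η) ^ (2 * q))
    (hϱ : B * (2 * Real.sqrt ((s * R) * (k.choose (D + 1)) * (((k * q : ℕ) : ℝ) / N) ^ (D + 1)) +
        (s * R) * (k.choose (D + 1)) * (((k * q : ℕ) : ℝ) / N) ^ (D + 1)) ≤ η / 16)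
    (Bad : Finset (Fin k × Fin N → V)) (p : ℝ) (hp0 : 0 ≤ p)
    (hBad : (Bad.card : ℝ) ≤ p * Fintype.card (Fin k × Fin N → V))
    (hp : 64 * B * (R + 1) * 4 ^ q * p ≤ η) :
    ∃ x, x ∉ Bad ∧ ∃ U₀ : Finset (Fin k → Fin N),
      ((U₀ᶜ).card : ℝ) ≤ s⁻¹ * Fintype.card (Fin k → Fin N) ∧
      (∑ u ∈ U₀, W (rd x u) • Q u + η • ∑ u, Q u).PosSemidef := by
  classical
  by_contra hcon
  push Not at hcon
  -- a regularisation that fails
  have h1 : ∀ P : (Fin k × Fin N → V) × Finset (Fin k → Fin N), ∃ κ : ℝ, 0 < κ ∧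
      (P.1 ∉ Bad → ((P.2ᶜ).card : ℝ) ≤ s⁻¹ * Fintype.card (Fin k → Fin N) →
        ¬ ((∑ u ∈ P.2, W (rd P.1 u) • Q u + η • ∑ u, Q u) +
          κ • (1 : Matrix (Fin R) (Fin R) ℝ)).PosSemidef) := by
    intro P
    by_cases hP : P.1 ∉ Bad ∧ ((P.2ᶜ).card : ℝ) ≤ s⁻¹ * Fintype.card (Fin k → Fin N)
    · by_contra hcon'
      push Not at hcon'
      refine hcon P.1 hP.1 P.2 hP.2 (sdpNorm_limit _ fun κ hκ => ?_)
      exact (hcon' κ hκ).2.2
    · exact ⟨1, one_pos, fun h2 h3 => absurd ⟨h2, h3⟩ hP⟩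
  choose κ hκ hκ' using h1
  have : Nonempty (Fin N) := ⟨⟨0, hN⟩⟩
  obtain ⟨P₀, -, hP₀⟩ := Finset.exists_min_image
    (univ : Finset ((Fin k × Fin N → V) × Finset (Fin k → Fin N))) κ Finset.univ_nonempty
  obtain ⟨x, hx, U₀, hU, hM⟩ := sdpNorm_step hN D W B hB hW hWp Q hQ s hs η hη hη1 q hq hϱ Bad p
    hp0 hBad hp (κ P₀) (hκ P₀)
  exact hκ' (x, U₀) hx hU (sdpNorm_mono _ _ _ (hP₀ (x, U₀) (Finset.mem_univ _)) hM)

end Pool.Agent.H97.CL
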