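import Pool.Agent.H97.CL.Av

/-!
# One pointer: Hoeffding's inequality

`b ≥ 0` on the pointers `u`, every value `v` of `u j` has `b`-mass at most `κ ∑ b`.  For all but a fraction
`exp(-η²/(8 B² κ))` of the labellings `x`: `∑ b u g(rd x u) ≥ ∑ b u (E1 j g)(rd x u) - η ∑ b`.

Proof.  Let `D = g - E1 j g`, `|D| ≤ 2B`, `∑_v` over the values of the coordinate `j` of `D` is `0` for all
other coordinates.  Write `x = (x', (x(j,v))_v)`.  Given `x'` (the labels `x(i,v)`, `i ≠ j`),
`∑ b u D(rd x u) = ∑_v ψ_v(x(j,v))`, `ψ_v(a) = ∑_{u j = v} b u D(rd x u with j-th label a)`, which has mean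
`0` over `a` and `|ψ_v| ≤ c_v = 2B ∑_{u j = v} b u`; `∑_v c_v² ≤ 4B² κ (∑ b)²`.  For `λ ≥ 0` and mean zero
`|ψ| ≤ c`: `av exp(-λψ) ≤ cosh(λc) ≤ exp(λ²c²/2)` (convexity of `exp`; `Real.cosh_le_exp_half_sq`), so by
independence `av_x exp(-λ∑_vψ_v) ≤ exp(2λ²B²κ(∑b)²)` and Markov's inequality with
`λ = η/(4B²κ ∑b)` gives `exp(-η²/(8B²κ))`.  (If `∑ b = 0` then all `b u = 0` and the set is empty.)
The independence can be organised by induction over a finite set `s` of values `v`, resampling the
coordinates `(j, v)`, `v ∈ s`, one after the other with `av_update`, in the form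
`av_x exp(-λ ∑_{v ∈ s} ψ_v(x)) G(x) ≤ exp(λ²/2 ∑_{v∈s} c_v²) av_x G(x)`, `G ≥ 0` not depending on the
coordinates `(j, v)`, `v ∈ s`, or with functions of `x` that are invariant under updates.
-/

set_option autoImplicit false

namespace Pool.Agent.H97.CL

open Finset

variable {k N : ℕ} {V : Type} [Fintype V] [Nonempty V]

/-- Hoeffding's lemma -/
private lemma step_hoeff {Ω : Type} [Fintype Ω] [Nonempty Ω] (φ : Ω → ℝ) (c : ℝ) (hc : 0 ≤ c)
    (hφ : ∀ a, |φ a| ≤ c) (h0 : av φ = 0) (l : ℝ) :
    av (fun a => Real.exp (-(l * φ a))) ≤ Real.exp (l ^ 2 * c ^ 2 / 2) := by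
  rcases hc.eq_or_lt with hc0 | hc0
  · have h1 : ∀ a, Real.exp (-(l * φ a)) = 1 := by
      intro a
      have : φ a = 0 := abs_nonpos_iff.mp (by rw [hc0]; exact hφ a)
      rw [this]
      simp
    rw [av_congr h1, av_const, ← hc0]
    simp
  · have h1 : ∀ a, Real.exp (-(l * φ a)) ≤ Real.cosh (l * c) - φ a * (Real.sinh (l * c) / c) := by
      intro a
      have h2 := abs_le.mp (hφ a)
      have ha : 0 ≤ (1 - φ a / c) / 2 := by
        have : φ a / c ≤ 1 := by rw [div_le_one hc0]; exact h2.2
        linarith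
      have hb : 0 ≤ (1 + φ a / c) / 2 := by
        have : -1 ≤ φ a / c := by rw [le_div_iff₀ hc0]; linarith [h2.1]
        linarith
      have h3 := convexOn_exp.2 (Set.mem_univ (l * c)) (Set.mem_univ (-(l * c))) ha hb (by ring)
      have e1 : ((1 - φ a / c) / 2) • (l * c) + ((1 + φ a / c) / 2) • (-(l * c)) = -(l * φ a) := by
        simp only [smul_eq_mul]
        field_simp
        ring
      rw [e1] at h3
      refine h3.trans (le_of_eq ?_)
      rw [Real.cosh_eq, Real.sinh_eq]
      simp only [smul_eq_mul]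
      field_simp
      ring
    refine (av_mono h1).trans ?_
    rw [av_sub, av_const, av_mul_right, h0, zero_mul, sub_zero]
    refine (Real.cosh_le_exp_half_sq _).trans (le_of_eq ?_)
    congr 1
    ring

/-- the part of the sum with `u j = v` -/
private noncomputable def step_psi (j : Fin k) (b : (Fin k → Fin N) → ℝ) (D : (Fin k → V) → ℝ)
    (v : Fin N) (x : Fin k × Fin N → V) : ℝ :=
  ∑ u ∈ univ.filter (fun u : Fin k → Fin N => u j = v), b u * D (rd x u)

omit [Fintype V] [Nonempty V] in
private lemma step_rd_eq (j : Fin k) (v : Fin N) (u : Fin k → Fin N) (hu : u j = v)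
    (x : Fin k × Fin N → V) (a : V) :
    rd (Function.update x (j, v) a) u = Function.update (rd x u) j a := by
  funext i
  by_cases h : i = j
  · subst h
    rw [Function.update_self]
    show Function.update x (i, v) a (i, u i) = a
    rw [hu, Function.update_self]
  · rw [Function.update_of_ne h]
    show Function.update x (j, v) a (i, u i) = x (i, u i)
    rw [Function.update_of_ne]
    intro h'
    exact h (Prod.ext_iff.mp h').1

omit [Fintype V] [Nonempty V] in
private lemma step_rd_ne (j : Fin k) (v : Fin N) (u : Fin k → Fin N) (hu : u j ≠ v)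
    (x : Fin k × Fin N → V) (a : V) :
    rd (Function.update x (j, v) a) u = rd x u := by
  funext i
  show Function.update x (j, v) a (i, u i) = x (i, u i)
  rw [Function.update_of_ne]
  intro h'
  have h1 := (Prod.ext_iff.mp h').1
  have h2 := (Prod.ext_iff.mp h').2
  simp only at h1 h2
  subst h1
  exact hu h2

omit [Fintype V] [Nonempty V] in
private lemma step_psi_ne (j : Fin k) (b : (Fin k → Fin N) → ℝ) (D : (Fin k → V) → ℝ)
    {v w : Fin N} (hvw : v ≠ w) (x : Fin k × Fin N → V) (a : V) :
    step_psi j b D v (Function.update x (j, w) a) = step_psi j b D v x := by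
  unfold step_psi
  refine sum_congr rfl fun u hu => ?_
  rw [mem_filter] at hu
  rw [step_rd_ne j w u (by rw [hu.2]; exact hvw)]

private lemma step_psi_av (j : Fin k) (b : (Fin k → Fin N) → ℝ) (D : (Fin k → V) → ℝ)
    (hD : ∀ z, av (fun a => D (Function.update z j a)) = 0) (v : Fin N)
    (x : Fin k × Fin N → V) :
    av (fun a => step_psi j b D v (Function.update x (j, v) a)) = 0 := by
  unfold step_psi
  rw [av_sum]
  refine sum_eq_zero fun u hu => ?_
  rw [mem_filter] at hu
  rw [av_mul_left]
  have : ∀ a, D (rd (Function.update x (j, v) a) u) = D (Function.update (rd x u) j a) := by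
    intro a
    rw [step_rd_eq j v u hu.2]
  rw [av_congr this, hD, mul_zero]

omit [Fintype V] [Nonempty V] in
private lemma step_psi_abs (j : Fin k) (b : (Fin k → Fin N) → ℝ) (hb : ∀ u, 0 ≤ b u)
    (D : (Fin k → V) → ℝ) (B : ℝ) (hD : ∀ z, |D z| ≤ 2 * B) (v : Fin N)
    (x : Fin k × Fin N → V) :
    |step_psi j b D v x| ≤
      2 * B * ∑ u ∈ univ.filter (fun u : Fin k → Fin N => u j = v), b u := by
  unfold step_psi
  refine (abs_sum_le_sum_abs _ _).trans ?_
  rw [mul_sum]
  refine sum_le_sum fun u _ => ?_
  rw [abs_mul, abs_of_nonneg (hb u), mul_comm (2 * B)]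
  exact mul_le_mul_of_nonneg_left (hD _) (hb u)

private lemma step_ind (j : Fin k) (b : (Fin k → Fin N) → ℝ) (hb : ∀ u, 0 ≤ b u)
    (D : (Fin k → V) → ℝ) (B : ℝ) (hB : 0 < B) (hD : ∀ z, |D z| ≤ 2 * B)
    (hD0 : ∀ z, av (fun a => D (Function.update z j a)) = 0) (l : ℝ) (s : Finset (Fin N)) :
    av (fun x : Fin k × Fin N → V => Real.exp (-(l * ∑ v ∈ s, step_psi j b D v x))) ≤
      Real.exp (l ^ 2 / 2 * ∑ v ∈ s,
        (2 * B * ∑ u ∈ univ.filter (fun u : Fin k → Fin N => u j = v), b u) ^ 2) := by
  classical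
  induction s using Finset.induction_on with
  | empty =>
    simp only [sum_empty, mul_zero, neg_zero, Real.exp_zero]
    rw [av_const]
  | insert w s hw ih =>
    rw [← av_update (j, w)]
    have h1 : ∀ x : Fin k × Fin N → V,
        av (fun a : V => Real.exp (-(l * ∑ v ∈ insert w s,
          step_psi j b D v (Function.update x (j, w) a)))) ≤
        Real.exp (-(l * ∑ v ∈ s, step_psi j b D v x)) * Real.exp (l ^ 2 *
          (2 * B * ∑ u ∈ univ.filter (fun u : Fin k → Fin N => u j = w), b u) ^ 2 / 2) := by
      intro x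
      have e : ∀ a : V, Real.exp (-(l * ∑ v ∈ insert w s,
          step_psi j b D v (Function.update x (j, w) a))) =
          Real.exp (-(l * ∑ v ∈ s, step_psi j b D v x)) *
            Real.exp (-(l * step_psi j b D w (Function.update x (j, w) a))) := by
        intro a
        rw [sum_insert hw, ← Real.exp_add]
        have : ∑ v ∈ s, step_psi j b D v (Function.update x (j, w) a) =
            ∑ v ∈ s, step_psi j b D v x := by
          refine sum_congr rfl fun v hv => step_psi_ne j b D ?_ x a
          rintro rfl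
          exact hw hv
        rw [this]
        congr 1
        ring
      rw [av_congr e, av_mul_left]
      refine mul_le_mul_of_nonneg_left ?_ (Real.exp_nonneg _)
      refine step_hoeff _ _ ?_ (fun a => step_psi_abs j b hb D B hD w _)
        (step_psi_av j b D hD0 w x) l
      have := sum_nonneg (s := univ.filter (fun u : Fin k → Fin N => u j = w)) fun u _ => hb u
      positivity
    refine (av_mono h1).trans ?_
    rw [av_mul_right, sum_insert hw]
    refine (mul_le_mul_of_nonneg_right ih (Real.exp_nonneg _)).trans (le_of_eq ?_)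
    rw [← Real.exp_add]
    congr 1
    ring

theorem step (j : Fin k) (b : (Fin k → Fin N) → ℝ) (hb : ∀ u, 0 ≤ b u) (κ : ℝ) (hκ : 0 < κ)
    (hs : ∀ v, ∑ u ∈ univ.filter (fun u : Fin k → Fin N => u j = v), b u ≤ κ * ∑ u, b u)
    (g : (Fin k → V) → ℝ) (B : ℝ) (hB : 0 < B) (hg : ∀ z, |g z| ≤ B) (η : ℝ) (hη : 0 < η) :
    (((univ : Finset (Fin k × Fin N → V)).filter (fun x =>
      ∑ u, b u * g (rd x u) < ∑ u, b u * E1 j g (rd x u) - η * ∑ u, b u)).card : ℝ) ≤
      Real.exp (-(η ^ 2 / (8 * B ^ 2 * κ))) * Fintype.card (Fin k × Fin N → V) := by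
  classical
  obtain ⟨β, hβ⟩ : ∃ β, β = ∑ u, b u := ⟨_, rfl⟩
  have hβ0 : 0 ≤ β := by rw [hβ]; exact sum_nonneg fun u _ => hb u
  rcases hβ0.eq_or_lt with h0 | h0
  · have hb0 : ∀ u, b u = 0 := by
      intro u
      have := (sum_eq_zero_iff_of_nonneg (fun u _ => hb u)).mp (hβ.symm.trans h0.symm)
      exact this u (mem_univ u)
    have he : ((univ : Finset (Fin k × Fin N → V)).filter (fun x =>
      ∑ u, b u * g (rd x u) < ∑ u, b u * E1 j g (rd x u) - η * ∑ u, b u)) = ∅ := by
      refine filter_eq_empty_iff.mpr fun x _ => ?_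
      simp [hb0]
    rw [he]
    simp only [card_empty, Nat.cast_zero]
    positivity
  · -- the centred function
    let D : (Fin k → V) → ℝ := fun z => g z - E1 j g z
    have hE : ∀ z, |E1 j g z| ≤ B := fun z => abs_av_le_of fun a => hg _
    have hD : ∀ z, |D z| ≤ 2 * B := by
      intro z
      have h1 := abs_le.mp (hg z)
      have h2 := abs_le.mp (hE z)
      rw [abs_le]
      constructor
      · show -(2 * B) ≤ g z - E1 j g z
        linarith
      · show g z - E1 j g z ≤ 2 * B
        linarith
    have hD0 : ∀ z, av (fun a => D (Function.update z j a)) = 0 := by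
      intro z
      have h1 : ∀ a : V, E1 j g (Function.update z j a) = E1 j g z := by
        intro a
        unfold E1
        refine av_congr fun v => ?_
        rw [Function.update_idem]
      show av (fun a => g (Function.update z j a) - E1 j g (Function.update z j a)) = 0
      rw [av_sub, av_congr h1, av_const]
      exact sub_self _
    have hsum : ∀ x : Fin k × Fin N → V,
        ∑ v, step_psi j b D v x = ∑ u, b u * g (rd x u) - ∑ u, b u * E1 j g (rd x u) := by
      intro x
      unfold step_psi
      rw [sum_fiberwise univ (fun u : Fin k → Fin N => u j) (fun u => b u * D (rd x u)),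
        ← sum_sub_distrib]
      refine sum_congr rfl fun u _ => ?_
      show b u * (g (rd x u) - E1 j g (rd x u)) = _
      ring
    obtain ⟨l, hl⟩ : ∃ l, l = η / (4 * B ^ 2 * κ * β) := ⟨_, rfl⟩
    have hl0 : 0 < l := by rw [hl]; positivity
    have hind := step_ind j b hb D B hB hD hD0 l univ
    -- the sum of the squares
    have hfib : ∑ v : Fin N, ∑ u ∈ univ.filter (fun u : Fin k → Fin N => u j = v), b u = β := by
      rw [sum_fiberwise univ (fun u : Fin k → Fin N => u j) b, hβ]
    have hsq : ∑ v : Fin N, (2 * B * ∑ u ∈ univ.filter (fun u : Fin k → Fin N => u j = v), b u) ^ 2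
        ≤ 4 * B ^ 2 * κ * β ^ 2 := by
      have h1 : ∀ v : Fin N, (2 * B * ∑ u ∈ univ.filter (fun u : Fin k → Fin N => u j = v), b u) ^ 2
          ≤ 4 * B ^ 2 * (κ * β) *
            ∑ u ∈ univ.filter (fun u : Fin k → Fin N => u j = v), b u := by
        intro v
        have h2 : 0 ≤ ∑ u ∈ univ.filter (fun u : Fin k → Fin N => u j = v), b u :=
          sum_nonneg fun u _ => hb u
        have h3 := hs v
        rw [← hβ] at h3
        have h4 := mul_le_mul_of_nonneg_right h3 h2
        have h5 : (0 : ℝ) ≤ 4 * B ^ 2 := by positivity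
        have h6 := mul_le_mul_of_nonneg_left h4 h5
        nlinarith [h6]
      refine (sum_le_sum fun v _ => h1 v).trans (le_of_eq ?_)
      rw [← mul_sum, hfib]
      ring
    have hav : av (fun x : Fin k × Fin N → V =>
        Real.exp (-(l * ∑ v, step_psi j b D v x))) ≤
        Real.exp (l ^ 2 / 2 * (4 * B ^ 2 * κ * β ^ 2)) := by
      refine hind.trans (Real.exp_le_exp.mpr ?_)
      exact mul_le_mul_of_nonneg_left hsq (by positivity)
    -- Markov
    have hcard : (((univ : Finset (Fin k × Fin N → V)).filter (fun x =>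
        ∑ u, b u * g (rd x u) < ∑ u, b u * E1 j g (rd x u) - η * ∑ u, b u)).card : ℝ) ≤
        ∑ x : Fin k × Fin N → V, Real.exp (-(l * ∑ v, step_psi j b D v x)) *
          Real.exp (-(l * (η * β))) := by
      rw [card_eq_sum_ones, Nat.cast_sum]
      refine (sum_le_sum fun x hx => ?_).trans
        (sum_le_sum_of_subset_of_nonneg (filter_subset _ univ) fun x _ _ => ?_)
      · rw [mem_filter] at hx
        have h1 := hx.2
        rw [← hβ] at h1
        have h2 : ∑ v, step_psi j b D v x < -(η * β) := by
          rw [hsum x]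
          linarith
        have h3 := mul_lt_mul_of_pos_left h2 hl0
        rw [Nat.cast_one, ← Real.exp_add]
        refine Real.one_le_exp ?_
        nlinarith [h3]
      · exact mul_nonneg (Real.exp_nonneg _) (Real.exp_nonneg _)
    have hΩ : (0 : ℝ) < Fintype.card (Fin k × Fin N → V) := by
      exact_mod_cast Fintype.card_pos
    refine hcard.trans ?_
    rw [← sum_mul]
    have hsumav : ∑ x : Fin k × Fin N → V, Real.exp (-(l * ∑ v, step_psi j b D v x)) =
        av (fun x : Fin k × Fin N → V => Real.exp (-(l * ∑ v, step_psi j b D v x))) *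
          Fintype.card (Fin k × Fin N → V) := by
      unfold av
      field_simp
    rw [hsumav]
    have h1 := mul_le_mul_of_nonneg_right (mul_le_mul_of_nonneg_right hav hΩ.le)
      (Real.exp_nonneg (-(l * (η * β))))
    refine h1.trans (le_of_eq ?_)
    rw [mul_right_comm, ← Real.exp_add]
    congr 2
    rw [hl]
    field_simp
    ring

end Pool.Agent.H97.CL
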