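import Pool.Agent.H97.CL.Form

/-!
# An LP formulation with `n choose h` inequalities

Variables `z U`, `U` a set of vertices (index them by `Fin m ≃ Finset (Fin n)`); inequalities `z U ≥ 0` for
`#U = h`; equations `∑_{#U = h} z U = (k choose h)` and, for all `p < q`,
`∑_{#U = h, p, q ∈ U} z U = (k-2 choose h-2) z {p, q}`.  `y S U = 1` if `U ⊆ S`, else `0`.  Objective:
`k - ∑_{p < q, not adjacent} z {p, q}`.  If `G` has no `h`-clique, every `U` with `#U = h` contains at least one
non-adjacent pair, so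
`(k-2 choose h-2) ∑_{p<q non-adj} z {p,q} = ∑_U z U nonEdges G U ≥ ∑_U z U = (k choose h)`, and
`(k choose h)/(k-2 choose h-2) = k (k-1)/(h (h-1))`.
-/

set_option autoImplicit false

namespace Pool.Agent.H97.CL

open Finset Matrix

/-- the definition of `LPForm` with arbitrary index types -/
private theorem upper_of_types (h k n : ℕ) (δ : ℝ) {R : ℕ} {ρ μ ε : Type} [Fintype ρ] [Fintype μ]
    [Fintype ε] (hR : Fintype.card ρ = R)
    (A : Matrix ρ μ ℝ) (a : ρ → ℝ) (E : Matrix ε μ ℝ)
    (b : ε → ℝ) (y : Finset (Fin n) → μ → ℝ) (w : SimpleGraph (Fin n) → μ → ℝ)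
    (c : SimpleGraph (Fin n) → ℝ)
    (h1 : ∀ S : Finset (Fin n), S.card = k → A *ᵥ y S ≤ a ∧ E *ᵥ y S = b)
    (h2 : ∀ (G : SimpleGraph (Fin n)) (S : Finset (Fin n)), S.card = k →
      w G ⬝ᵥ y S + c G = k - nonEdges G S)
    (h3 : ∀ G : SimpleGraph (Fin n), G.CliqueFree h → ∀ z : μ → ℝ, A *ᵥ z ≤ a → E *ᵥ z = b →
      w G ⬝ᵥ z + c G ≤ k - δ) : LPForm n k h δ R := by
  classical
  let eρ : Fin R ≃ ρ := (Fintype.equivFinOfCardEq hR).symm
  let eμ : Fin (Fintype.card μ) ≃ μ := (Fintype.equivFin μ).symm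
  let eε : Fin (Fintype.card ε) ≃ ε := (Fintype.equivFin ε).symm
  have hA : ∀ z : Fin (Fintype.card μ) → ℝ,
      (A.submatrix eρ eμ) *ᵥ z = (A *ᵥ (z ∘ eμ.symm)) ∘ eρ := fun z =>
    Matrix.submatrix_mulVec_equiv A z eρ eμ
  have hE : ∀ z : Fin (Fintype.card μ) → ℝ,
      (E.submatrix eε eμ) *ᵥ z = (E *ᵥ (z ∘ eμ.symm)) ∘ eε := fun z =>
    Matrix.submatrix_mulVec_equiv E z eε eμ
  have hw : ∀ (w z : μ → ℝ), (w ∘ eμ) ⬝ᵥ (z ∘ eμ) = w ⬝ᵥ z := by
    intro w z
    unfold dotProduct
    exact Equiv.sum_comp eμ (fun i => w i * z i)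
  refine ⟨Fintype.card μ, Fintype.card ε, A.submatrix eρ eμ, a ∘ eρ, E.submatrix eε eμ, b ∘ eε,
    fun S => y S ∘ eμ, fun G => w G ∘ eμ, c, ?_, ?_, ?_⟩
  · intro S hS
    have hy : (y S ∘ eμ) ∘ eμ.symm = y S := by
      funext i
      simp
    refine ⟨?_, ?_⟩
    · rw [hA, hy]
      intro i
      exact (h1 S hS).1 (eρ i)
    · rw [hE, hy, (h1 S hS).2]
  · intro G S hS
    rw [hw]
    exact h2 G S hS
  · intro G hG z hz1 hz2
    have hz : (z ∘ eμ.symm) ∘ eμ = z := by
      funext i
      simp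
    have e : (w G ∘ eμ) ⬝ᵥ z = w G ⬝ᵥ (z ∘ eμ.symm) := by
      rw [← hw (w G) (z ∘ eμ.symm), hz]
    show (w G ∘ eμ) ⬝ᵥ z + c G ≤ k - δ
    rw [e]
    refine h3 G hG _ ?_ ?_
    · rw [hA] at hz1
      intro i
      have := hz1 (eρ.symm i)
      simpa using this
    · rw [hE] at hz2
      funext i
      have := congrFun hz2 (eε.symm i)
      simpa using this

/-- the number of sets between `{p, q}` and `S` -/
private theorem upper_count {n : ℕ} (h k : ℕ) (h2 : 2 ≤ h) (S : Finset (Fin n)) (hS : S.card = k)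
    (p q : Fin n) (hpq : p ≠ q) (hp : p ∈ S) (hq : q ∈ S) :
    ((S.powersetCard h).filter (fun V => p ∈ V ∧ q ∈ V)).card = (k - 2).choose (h - 2) := by
  classical
  have hT : ({p, q} : Finset (Fin n)) ⊆ S := by
    intro x hx
    rw [mem_insert, mem_singleton] at hx
    rcases hx with rfl | rfl
    · exact hp
    · exact hq
  have hTc : ({p, q} : Finset (Fin n)).card = 2 := card_pair hpq
  have hc : ((S \ {p, q}).powersetCard (h - 2)).card = (k - 2).choose (h - 2) := by
    rw [card_powersetCard, card_sdiff_of_subset hT, hS, hTc]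
  rw [← hc]
  refine card_nbij' (fun V => V \ {p, q}) (fun W => W ∪ {p, q}) ?_ ?_ ?_ ?_
  · intro V hV
    rw [mem_coe, mem_filter, mem_powersetCard] at hV
    have hTV : ({p, q} : Finset (Fin n)) ⊆ V := by
      intro x hx
      rw [mem_insert, mem_singleton] at hx
      rcases hx with rfl | rfl
      · exact hV.2.1
      · exact hV.2.2
    rw [mem_coe, mem_powersetCard]
    refine ⟨sdiff_subset_sdiff hV.1.1 le_rfl, ?_⟩
    rw [card_sdiff_of_subset hTV, hV.1.2, hTc]
  · intro W hW
    rw [mem_coe, mem_powersetCard] at hW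
    rw [mem_coe, mem_filter, mem_powersetCard]
    refine ⟨⟨union_subset (hW.1.trans sdiff_subset) hT, ?_⟩, ?_, ?_⟩
    · rw [card_union_of_disjoint, hW.2, hTc]
      · omega
      · exact disjoint_of_subset_left hW.1 sdiff_disjoint
    · exact mem_union_right _ (mem_insert_self _ _)
    · exact mem_union_right _ (mem_insert_of_mem (mem_singleton_self _))
  · intro V hV
    rw [mem_coe, mem_filter, mem_powersetCard] at hV
    have hTV : ({p, q} : Finset (Fin n)) ⊆ V := by
      intro x hx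
      rw [mem_insert, mem_singleton] at hx
      rcases hx with rfl | rfl
      · exact hV.2.1
      · exact hV.2.2
    exact sdiff_union_of_subset hTV
  · intro W hW
    rw [mem_coe, mem_powersetCard] at hW
    exact union_sdiff_cancel_right (disjoint_of_subset_left hW.1 sdiff_disjoint)

private theorem upper_choose (h k : ℕ) (h2 : 2 ≤ h) (hk : h ≤ k) :
    ((k.choose h : ℕ) : ℝ) * (h * (h - 1)) = k * (k - 1) * (((k - 2).choose (h - 2) : ℕ) : ℝ) := by
  obtain ⟨h', rfl⟩ : ∃ h', h = h' + 2 := ⟨h - 2, by omega⟩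
  obtain ⟨k', rfl⟩ : ∃ k', k = k' + 2 := ⟨k - 2, by omega⟩
  have e1 := Nat.add_one_mul_choose_eq (k' + 1) (h' + 1)
  have e2 := Nat.add_one_mul_choose_eq k' h'
  have e1' : ((k' : ℝ) + 1 + 1) * ((k' + 1).choose (h' + 1) : ℕ)
      = ((k' + 1 + 1).choose (h' + 1 + 1) : ℕ) * ((h' : ℝ) + 1 + 1) := by
    exact_mod_cast e1
  have e2' : ((k' : ℝ) + 1) * (k'.choose h' : ℕ)
      = ((k' + 1).choose (h' + 1) : ℕ) * ((h' : ℝ) + 1) := by
    exact_mod_cast e2
  have e3 : k' + 2 - 2 = k' := by omega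
  have e4 : h' + 2 - 2 = h' := by omega
  rw [e3, e4]
  push_cast
  have a1 : (((k' + 2).choose (h' + 2) : ℕ) : ℝ) * (((h' : ℝ) + 2) * ((h' : ℝ) + 2 - 1))
      = (((k' + 1 + 1).choose (h' + 1 + 1) : ℕ) * ((h' : ℝ) + 1 + 1)) * ((h' : ℝ) + 1) := by
    ring
  rw [a1, ← e1', mul_assoc, ← e2']
  ring

private theorem upper_nonEdges_pos {n : ℕ} (h : ℕ) (G : SimpleGraph (Fin n)) (hG : G.CliqueFree h)
    (V : Finset (Fin n)) (hV : V.card = h) : (1 : ℝ) ≤ nonEdges G V := by
  classical
  have h0 : ¬ G.IsClique V := fun hc => hG V ⟨hc, hV⟩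
  have h1 : ∃ p ∈ V, ∃ q ∈ V, p ≠ q ∧ ¬ G.Adj p q := by
    by_contra hcon
    push Not at hcon
    exact h0 fun p hp q hq hpq => hcon p hp q hq hpq
  obtain ⟨p, hp, q, hq, hpq, hadj⟩ := h1
  have h2 : 0 < nonEdges G V := by
    unfold nonEdges
    rw [card_pos]
    rcases lt_or_gt_of_ne hpq with hlt | hlt
    · exact ⟨(p, q), mem_filter.mpr ⟨mem_product.mpr ⟨hp, hq⟩, hlt, hadj⟩⟩
    · exact ⟨(q, p), mem_filter.mpr ⟨mem_product.mpr ⟨hq, hp⟩, hlt, fun h => hadj h.symm⟩⟩
  exact_mod_cast h2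

open Classical in
private theorem upper_nonEdges_eq {n : ℕ} (G : SimpleGraph (Fin n)) (V : Finset (Fin n)) :
    (nonEdges G V : ℝ) = ∑ p ∈ (univ : Finset (Fin n × Fin n)).filter
        (fun p => p.1 < p.2 ∧ ¬ G.Adj p.1 p.2), if p.1 ∈ V ∧ p.2 ∈ V then (1 : ℝ) else 0 := by
  unfold nonEdges
  rw [← Finset.sum_filter, sum_const, nsmul_eq_mul, mul_one]
  norm_cast
  congr 1
  ext p
  simp only [mem_filter, mem_product, mem_univ, true_and]
  tauto

theorem lp_upper (h k n : ℕ) (h2 : 2 ≤ h) (hk : h ≤ k) :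
    LPForm n k h ((k : ℝ) * (k - 1) / (h * (h - 1))) (n.choose h) := by
  classical
  have hR : Fintype.card {U : Finset (Fin n) // U.card = h} = n.choose h := by
    rw [Fintype.card_finset_len, Fintype.card_fin]
  -- non-adjacent pairs
  let P : SimpleGraph (Fin n) → Finset (Fin n × Fin n) := fun G =>
    univ.filter (fun p => p.1 < p.2 ∧ ¬ G.Adj p.1 p.2)
  have hE1 : ∀ z : Finset (Fin n) → ℝ,
      ∑ V, (if V.card = h then (1 : ℝ) else 0) * z V = ∑ V ∈ univ.filter (fun V : Finset (Fin n) =>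
        V.card = h), z V := by
    intro z
    rw [Finset.sum_filter]
    refine sum_congr rfl fun V _ => ?_
    split_ifs <;> simp
  have hE2 : ∀ (z : Finset (Fin n) → ℝ) (p q : Fin n),
      ∑ V, ((if V.card = h ∧ p ∈ V ∧ q ∈ V then (1 : ℝ) else 0) -
        (((k - 2).choose (h - 2) : ℕ) : ℝ) * (if V = {p, q} then (1 : ℝ) else 0)) * z V =
      (∑ V ∈ univ.filter (fun V : Finset (Fin n) => V.card = h), if p ∈ V ∧ q ∈ V then z V else 0)
        - (((k - 2).choose (h - 2) : ℕ) : ℝ) * z {p, q} := by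
    intro z p q
    simp only [sub_mul, sum_sub_distrib]
    congr 1
    · rw [Finset.sum_filter]
      refine sum_congr rfl fun V _ => ?_
      by_cases c1 : V.card = h
      · by_cases c2 : p ∈ V ∧ q ∈ V
        · simp [c1, c2]
        · simp [c1, c2]
      · simp [c1]
    · rw [Finset.sum_eq_single ({p, q} : Finset (Fin n))]
      · simp
      · intro V _ hV
        simp [hV]
      · intro hcon
        exact absurd (mem_univ _) hcon
  have hw : ∀ (G : SimpleGraph (Fin n)) (z : Finset (Fin n) → ℝ),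
      (fun V : Finset (Fin n) => ∑ p ∈ P G, -(if V = {p.1, p.2} then (1 : ℝ) else 0)) ⬝ᵥ z =
        - ∑ p ∈ P G, z {p.1, p.2} := by
    intro G z
    unfold dotProduct
    simp only [Finset.sum_mul]
    rw [Finset.sum_comm, ← Finset.sum_neg_distrib]
    refine sum_congr rfl fun p _ => ?_
    rw [Finset.sum_eq_single ({p.1, p.2} : Finset (Fin n))]
    · simp
    · intro V _ hV
      simp [hV]
    · intro hcon
      exact absurd (mem_univ _) hcon
  refine upper_of_types h k n _ hR
    (Matrix.of fun (U : {U : Finset (Fin n) // U.card = h}) (V : Finset (Fin n)) =>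
      if V = U.1 then (-1 : ℝ) else 0) (fun _ => 0)
    (Matrix.of fun (e : Option (Fin n × Fin n)) (V : Finset (Fin n)) =>
      match e with
      | none => if V.card = h then (1 : ℝ) else 0
      | some p => if p.1 < p.2 then ((if V.card = h ∧ p.1 ∈ V ∧ p.2 ∈ V then (1 : ℝ) else 0) -
          (((k - 2).choose (h - 2) : ℕ) : ℝ) * (if V = {p.1, p.2} then (1 : ℝ) else 0)) else 0)
    (fun e => match e with
      | none => ((k.choose h : ℕ) : ℝ)
      | some _ => 0)
    (fun S V => if V ⊆ S then (1 : ℝ) else 0)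
    (fun G V => ∑ p ∈ P G, -(if V = {p.1, p.2} then (1 : ℝ) else 0))
    (fun _ => (k : ℝ)) ?_ ?_ ?_
  · intro S hS
    refine ⟨?_, ?_⟩
    · intro U
      show ∑ V, (if V = U.1 then (-1 : ℝ) else 0) * (if V ⊆ S then (1 : ℝ) else 0) ≤ 0
      refine sum_nonpos fun V _ => ?_
      split_ifs <;> norm_num
    · funext e
      cases e with
      | none =>
        show ∑ V, (if V.card = h then (1 : ℝ) else 0) * (if V ⊆ S then (1 : ℝ) else 0)
          = ((k.choose h : ℕ) : ℝ)
        rw [hE1, ← Finset.sum_filter, sum_const, nsmul_eq_mul, mul_one, ← hS,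
          ← card_powersetCard h S]
        norm_cast
        congr 1
        ext V
        simp only [mem_filter, mem_univ, true_and, mem_powersetCard]
        tauto
      | some p =>
        show ∑ V, (if p.1 < p.2 then ((if V.card = h ∧ p.1 ∈ V ∧ p.2 ∈ V then (1 : ℝ) else 0) -
          (((k - 2).choose (h - 2) : ℕ) : ℝ) * (if V = {p.1, p.2} then (1 : ℝ) else 0)) else 0) *
            (if V ⊆ S then (1 : ℝ) else 0) = 0
        by_cases hp : p.1 < p.2
        · simp only [hp, if_true]
          rw [hE2 (fun V => if V ⊆ S then (1 : ℝ) else 0) p.1 p.2]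
          by_cases hpS : p.1 ∈ S ∧ p.2 ∈ S
          · have hsub : ({p.1, p.2} : Finset (Fin n)) ⊆ S := by
              intro x hx
              rw [mem_insert, mem_singleton] at hx
              rcases hx with hx | hx
              · rw [hx]; exact hpS.1
              · rw [hx]; exact hpS.2
            rw [if_pos hsub, mul_one, sub_eq_zero,
              ← upper_count h k h2 S hS p.1 p.2 (ne_of_lt hp) hpS.1 hpS.2]
            have e1 : ∀ V : Finset (Fin n), (if p.1 ∈ V ∧ p.2 ∈ V then
                (if V ⊆ S then (1 : ℝ) else 0) else 0) =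
                if (p.1 ∈ V ∧ p.2 ∈ V) ∧ V ⊆ S then (1 : ℝ) else 0 := by
              intro V
              by_cases c1 : p.1 ∈ V ∧ p.2 ∈ V
              · simp only [c1, true_and, if_true]
              · rw [if_neg c1, if_neg (fun h => c1 h.1)]
            simp only [e1]
            rw [← Finset.sum_filter, sum_const, nsmul_eq_mul, mul_one]
            norm_cast
            congr 1
            ext V
            simp only [mem_filter, mem_univ, true_and, mem_powersetCard]
            tauto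
          · have hsub : ¬ ({p.1, p.2} : Finset (Fin n)) ⊆ S := by
              intro hc
              exact hpS ⟨hc (mem_insert_self _ _), hc (mem_insert_of_mem (mem_singleton_self _))⟩
            rw [if_neg hsub, mul_zero, sub_zero]
            refine sum_eq_zero fun V _ => ?_
            by_cases c1 : p.1 ∈ V ∧ p.2 ∈ V
            · rw [if_pos c1, if_neg]
              intro hVS
              exact hpS ⟨hVS c1.1, hVS c1.2⟩
            · rw [if_neg c1]
        · simp only [hp, if_false, zero_mul, sum_const_zero]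
  · intro G S hS
    rw [hw, upper_nonEdges_eq]
    have : ∑ p ∈ P G, (if ({p.1, p.2} : Finset (Fin n)) ⊆ S then (1 : ℝ) else 0) =
        ∑ p ∈ (univ : Finset (Fin n × Fin n)).filter
        (fun p => p.1 < p.2 ∧ ¬ G.Adj p.1 p.2), if p.1 ∈ S ∧ p.2 ∈ S then (1 : ℝ) else 0 := by
      refine sum_congr rfl fun p _ => ?_
      have : ({p.1, p.2} : Finset (Fin n)) ⊆ S ↔ p.1 ∈ S ∧ p.2 ∈ S := by
        rw [insert_subset_iff, singleton_subset_iff]
      simp only [this]
    rw [this]
    ring
  · intro G hG z hz1 hz2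
    rw [hw]
    have hz : ∀ V : Finset (Fin n), V.card = h → 0 ≤ z V := by
      intro V hV
      have h0 : ∑ V', (if V' = V then (-1 : ℝ) else 0) * z V' ≤ 0 := hz1 ⟨V, hV⟩
      rw [Finset.sum_eq_single V] at h0
      · simp only [if_true] at h0
        linarith
      · intro b _ hb
        simp [hb]
      · intro hcon
        exact absurd (mem_univ _) hcon
    have hn : ∑ V ∈ univ.filter (fun V : Finset (Fin n) => V.card = h), z V
        = ((k.choose h : ℕ) : ℝ) := by
      rw [← hE1]
      exact congrFun hz2 none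
    have hs : ∀ p : Fin n × Fin n, p.1 < p.2 →
        (∑ V ∈ univ.filter (fun V : Finset (Fin n) => V.card = h),
          if p.1 ∈ V ∧ p.2 ∈ V then z V else 0) =
          (((k - 2).choose (h - 2) : ℕ) : ℝ) * z {p.1, p.2} := by
      intro p hp
      have h0 : ∑ V, (if p.1 < p.2 then ((if V.card = h ∧ p.1 ∈ V ∧ p.2 ∈ V then (1 : ℝ) else 0) -
          (((k - 2).choose (h - 2) : ℕ) : ℝ) * (if V = {p.1, p.2} then (1 : ℝ) else 0)) else 0) *
            z V = 0 := congrFun hz2 (some p)
      simp only [hp, if_true] at h0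
      rw [hE2 z p.1 p.2] at h0
      linarith
    have hC : (0 : ℝ) < (((k - 2).choose (h - 2) : ℕ) : ℝ) := by
      have : 0 < (k - 2).choose (h - 2) := Nat.choose_pos (by omega)
      exact_mod_cast this
    have hsum : (((k - 2).choose (h - 2) : ℕ) : ℝ) * ∑ p ∈ P G, z {p.1, p.2} ≥
        ((k.choose h : ℕ) : ℝ) := by
      rw [Finset.mul_sum]
      have e1 : ∑ p ∈ P G, (((k - 2).choose (h - 2) : ℕ) : ℝ) * z {p.1, p.2} =
          ∑ p ∈ P G, ∑ V ∈ univ.filter (fun V : Finset (Fin n) => V.card = h),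
            if p.1 ∈ V ∧ p.2 ∈ V then z V else 0 := by
        refine sum_congr rfl fun p hp => ?_
        rw [hs p (mem_filter.mp hp).2.1]
      rw [e1, Finset.sum_comm, ← hn]
      refine sum_le_sum fun V hV => ?_
      have hVc : V.card = h := (mem_filter.mp hV).2
      have e2 : ∑ p ∈ P G, (if p.1 ∈ V ∧ p.2 ∈ V then z V else 0) = nonEdges G V * z V := by
        rw [upper_nonEdges_eq, Finset.sum_mul]
        refine sum_congr rfl fun p _ => ?_
        by_cases c1 : p.1 ∈ V ∧ p.2 ∈ V
        · rw [if_pos c1, if_pos c1, one_mul]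
        · rw [if_neg c1, if_neg c1, zero_mul]
      rw [e2]
      have := upper_nonEdges_pos h G hG V hVc
      have hz0 := hz V hVc
      nlinarith
    have hh : (0 : ℝ) < (h : ℝ) * (h - 1) := by
      have : (2 : ℝ) ≤ h := by exact_mod_cast h2
      nlinarith
    have hch := upper_choose h k h2 hk
    have hfin : (k : ℝ) * (k - 1) / (h * (h - 1)) ≤ ∑ p ∈ P G, z {p.1, p.2} := by
      rw [div_le_iff₀ hh]
      by_contra hcon
      rw [not_le] at hcon
      have := mul_lt_mul_of_pos_left hcon hC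
      nlinarith
    linarith

end Pool.Agent.H97.CL
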